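import Pool.Agent.H85.KM.Defs
import Pool.Agent.H85.MA.Dbar2

/-! # Module C11B: basic properties of `C^{1,1}` functions -/

open MeasureTheory Metric Set
open scoped ENNReal Topology ContDiff ComplexOrder

namespace HMA

variable {n : ℕ} {Ω : Set (Cn n)} {u v : Cn n → ℝ}

theorem C11.continuousOn (hu : C11 Ω u) : ContinuousOn u Ω := by
  intro z hz
  exact (hu.diff z hz).continuousAt.continuousWithinAt

theorem C11.mono {Ω' : Set (Cn n)} (hu : C11 Ω u) (h : Ω' ⊆ Ω) : C11 Ω' u := by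
  exact ⟨fun z hz => hu.diff z (h hz), fun L hL hLΩ => hu.lip L hL (hLΩ.trans h)⟩

/-- local criterion -/
theorem c11_of_local (hΩ : IsOpen Ω) (h : ∀ z ∈ Ω, ∃ r > 0, ∃ C : NNReal, ball z r ⊆ Ω ∧
    (∀ w ∈ ball z r, DifferentiableAt ℝ u w) ∧ LipschitzOnWith C (fderiv ℝ u) (ball z r)) :
    C11 Ω u := by
  refine ⟨fun z hz => ?_, fun L hL hLΩ => ?_⟩
  · obtain ⟨r, hr, _, _, hd, _⟩ := h z hz
    exact hd z (mem_ball_self hr)
  · apply LocallyLipschitzOn.exists_lipschitzOnWith_of_compact hL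
    intro z hz
    obtain ⟨r, hr, C, _, _, hC⟩ := h z (hLΩ hz)
    exact ⟨C, ball z r, mem_nhdsWithin_of_mem_nhds (ball_mem_nhds z hr), hC⟩

/-- local bounds -/
theorem C11B_ball (hΩ : IsOpen Ω) (hu : C11 Ω u) {z : Cn n} (hz : z ∈ Ω) : ∃ r > 0,
    closedBall z r ⊆ Ω ∧ (∃ C : NNReal, LipschitzOnWith C (fderiv ℝ u) (closedBall z r)) ∧
    (∃ D : NNReal, LipschitzOnWith D u (closedBall z r)) ∧
    (∃ A : ℝ, ∀ w ∈ closedBall z r, ‖fderiv ℝ u w‖ ≤ A ∧ |u w| ≤ A) := by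
  obtain ⟨r, hr, hrΩ⟩ := Metric.nhds_basis_closedBall.mem_iff.1 (hΩ.mem_nhds hz)
  obtain ⟨C, hC⟩ := hu.lip _ (isCompact_closedBall z r) hrΩ
  obtain ⟨A, hA⟩ := (isCompact_closedBall z r).exists_bound_of_continuousOn hC.continuousOn
  obtain ⟨A', hA'⟩ := (isCompact_closedBall z r).exists_bound_of_continuousOn
    (hu.continuousOn.mono hrΩ)
  refine ⟨r, hr, hrΩ, ⟨C, hC⟩, ⟨Real.toNNReal A, ?_⟩, ⟨max A A', fun w hw => ⟨(hA w hw).trans
    (le_max_left _ _), (hA' w hw).trans (le_max_right _ _)⟩⟩⟩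
  apply Convex.lipschitzOnWith_of_nnnorm_fderiv_le (𝕜 := ℝ) (fun w hw => hu.diff w (hrΩ hw)) ?_
    (convex_closedBall z r)
  intro w hw
  rw [← NNReal.coe_le_coe, coe_nnnorm]
  exact (hA w hw).trans (Real.le_coe_toNNReal A)

theorem c11_of_contDiffOn (hΩ : IsOpen Ω) (hu : ContDiffOn ℝ 2 u Ω) : C11 Ω u := by
  apply c11_of_local hΩ
  intro z hz
  have h1 : ContDiffOn ℝ 1 (fderiv ℝ u) Ω := hu.fderiv_of_isOpen hΩ (by norm_num)
  obtain ⟨K, t, ht, hK⟩ := (h1.contDiffAt (hΩ.mem_nhds hz)).exists_lipschitzOnWith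
  obtain ⟨r, hr, hrt⟩ := Metric.mem_nhds_iff.1 (Filter.inter_mem ht (hΩ.mem_nhds hz))
  refine ⟨r, hr, K, fun w hw => (hrt hw).2, fun w hw => ?_, hK.mono fun w hw => (hrt hw).1⟩
  exact (hu.differentiableOn (by norm_num)).differentiableAt (hΩ.mem_nhds (hrt hw).2)

theorem C11B_fderiv_congr (hΩ : IsOpen Ω) (h : EqOn v u Ω) :
    EqOn (fderiv ℝ v) (fderiv ℝ u) Ω := fun z hz =>
  (h.eventuallyEq_of_mem (hΩ.mem_nhds hz)).fderiv_eq

theorem C11.congr (hΩ : IsOpen Ω) (hu : C11 Ω u) (h : EqOn v u Ω) : C11 Ω v := by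
  refine ⟨fun z hz => ?_, fun L hL hLΩ => ?_⟩
  · exact (hu.diff z hz).congr_of_eventuallyEq (h.eventuallyEq_of_mem (hΩ.mem_nhds hz))
  · obtain ⟨C, hC⟩ := hu.lip L hL hLΩ
    refine ⟨C, fun x hx y hy => ?_⟩
    rw [C11B_fderiv_congr hΩ h (hLΩ hx), C11B_fderiv_congr hΩ h (hLΩ hy)]
    exact hC hx hy

theorem C11.add (hΩ : IsOpen Ω) (hu : C11 Ω u) (hv : C11 Ω v) : C11 Ω (fun z => u z + v z) := by
  refine ⟨fun z hz => (hu.diff z hz).add (hv.diff z hz), fun L hL hLΩ => ?_⟩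
  obtain ⟨C, hC⟩ := hu.lip L hL hLΩ
  obtain ⟨D, hD⟩ := hv.lip L hL hLΩ
  refine ⟨C + D, ?_⟩
  have h : EqOn (fderiv ℝ (fun z => u z + v z)) (fun z => fderiv ℝ u z + fderiv ℝ v z) L :=
    fun z hz => ((hu.diff z (hLΩ hz)).hasFDerivAt.add (hv.diff z (hLΩ hz)).hasFDerivAt).fderiv
  intro x hx y hy
  rw [h hx, h hy]
  exact (hC.add hD) hx hy

theorem C11.const_mul (hΩ : IsOpen Ω) (hu : C11 Ω u) (c : ℝ) : C11 Ω (fun z => c * u z) := by
  refine ⟨fun z hz => (hu.diff z hz).const_mul c, fun L hL hLΩ => ?_⟩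
  obtain ⟨C, hC⟩ := hu.lip L hL hLΩ
  have h : EqOn (fderiv ℝ (fun z => c * u z)) (fun z => c • fderiv ℝ u z) L :=
    fun z hz => ((hu.diff z (hLΩ hz)).hasFDerivAt.const_mul c).fderiv
  refine ⟨‖c‖₊ * C, ?_⟩
  apply LipschitzOnWith.of_dist_le_mul
  intro x hx y hy
  rw [h hx, h hy, NNReal.coe_mul, coe_nnnorm, mul_assoc]
  change dist (c • fderiv ℝ u x) (c • fderiv ℝ u y) ≤ _
  rw [dist_eq_norm (c • fderiv ℝ u x), ← smul_sub, norm_smul, ← dist_eq_norm]
  exact mul_le_mul_of_nonneg_left (hC.dist_le_mul x hx y hy) (norm_nonneg c)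

theorem C11B_smul_lip {E : Type*} [NormedAddCommGroup E] [NormedSpace ℝ E] {s : Set (Cn n)}
    {f : Cn n → ℝ} {g : Cn n → E} {C D : NNReal} {A B : ℝ} (hf : LipschitzOnWith C f s)
    (hg : LipschitzOnWith D g s) (hA : ∀ w ∈ s, |f w| ≤ A) (hB : ∀ w ∈ s, ‖g w‖ ≤ B) :
    ∃ K, LipschitzOnWith K (fun w => f w • g w) s := by
  refine ⟨Real.toNNReal (A * D + C * B), ?_⟩
  apply LipschitzOnWith.of_dist_le_mul
  intro x hx y hy
  refine le_trans ?_ (mul_le_mul_of_nonneg_right (Real.le_coe_toNNReal _) dist_nonneg)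
  have h1 : f x • g x - f y • g y = f x • (g x - g y) + (f x - f y) • g y := by
    rw [smul_sub, sub_smul]; abel
  rw [dist_eq_norm, h1]
  have h2 := hf.dist_le_mul x hx y hy
  have h3 := hg.dist_le_mul x hx y hy
  rw [dist_eq_norm] at h2 h3
  refine (norm_add_le _ _).trans ?_
  rw [norm_smul, norm_smul, add_mul]
  have hA0 : 0 ≤ A := (abs_nonneg _).trans (hA x hx)
  apply add_le_add
  · rw [mul_assoc]
    exact mul_le_mul (hA x hx) h3 (norm_nonneg _) hA0
  · calc ‖f x - f y‖ * ‖g y‖ ≤ (C * dist x y) * B :=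
          mul_le_mul h2 (hB y hy) (norm_nonneg _) (by positivity)
      _ = C * B * dist x y := by ring

theorem C11.comp_real (hΩ : IsOpen Ω) (hu : C11 Ω u) {θ : ℝ → ℝ} (hθ : ContDiff ℝ 2 θ) :
    C11 Ω (fun z => θ (u z)) := by
  have hθ1 : ContDiff ℝ 1 (deriv θ) := by
    have := (contDiff_succ_iff_deriv (n := 1) (f := θ)).1 (by simpa [one_add_one_eq_two] using hθ)
    exact this.2.2
  have hθd : Differentiable ℝ θ := hθ.differentiable (by norm_num)
  apply c11_of_local hΩ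
  intro z hz
  obtain ⟨r, hr, hrΩ, ⟨C, hC⟩, ⟨D, hD⟩, A, hA⟩ := C11B_ball hΩ hu hz
  have hfd : EqOn (fderiv ℝ (fun z => θ (u z))) (fun z => deriv θ (u z) • fderiv ℝ u z)
      (closedBall z r) := by
    intro w hw
    have h1 := (hθd (u w)).hasDerivAt.comp_hasFDerivAt w (hu.diff w (hrΩ hw)).hasFDerivAt
    exact h1.fderiv
  -- θ' is Lipschitz on [-A, A]
  obtain ⟨E, hE⟩ := hθ1.contDiffOn.exists_lipschitzOnWith (s := Set.Icc (-A) A) one_ne_zero
    (convex_Icc _ _) isCompact_Icc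
  obtain ⟨F, hF⟩ := (isCompact_Icc (a := -A) (b := A)).exists_bound_of_continuousOn
    hθ1.continuous.continuousOn
  have hmaps : MapsTo u (closedBall z r) (Set.Icc (-A) A) := fun w hw =>
    abs_le.1 (hA w hw).2
  have h2 : LipschitzOnWith (E * D) (fun w => deriv θ (u w)) (closedBall z r) :=
    hE.comp hD hmaps
  obtain ⟨K, hK⟩ := C11B_smul_lip h2 hC (A := F) (B := A) (fun w hw => hF _ (hmaps hw))
    (fun w hw => (hA w hw).1)
  refine ⟨r, hr, K, ball_subset_closedBall.trans hrΩ, fun w hw => ?_, ?_⟩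
  · exact (hθd (u w)).comp w (hu.diff w (hrΩ (ball_subset_closedBall hw)))
  · intro x hx y hy
    rw [hfd (ball_subset_closedBall hx), hfd (ball_subset_closedBall hy)]
    exact hK (ball_subset_closedBall hx) (ball_subset_closedBall hy)

theorem C11.mul (hΩ : IsOpen Ω) (hu : C11 Ω u) (hv : C11 Ω v) : C11 Ω (fun z => u z * v z) := by
  have hsq : ContDiff ℝ 2 (fun x : ℝ => x ^ 2) := contDiff_id.pow 2
  have h1 := (hu.add hΩ hv).comp_real hΩ hsq
  have h2 := (hu.add hΩ (hv.const_mul hΩ (-1))).comp_real hΩ hsq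
  have h3 := (h1.const_mul hΩ (1 / 4)).add hΩ (h2.const_mul hΩ (-(1 / 4)))
  refine h3.congr hΩ ?_
  intro z _
  simp only
  ring

/-- cut off -/
theorem C11.cutoff (hΩ : IsOpen Ω) (hu : C11 Ω u) {χ : Cn n → ℝ} (hχ : ContDiff ℝ 2 χ)
    (hc : HasCompactSupport χ) (hs : tsupport χ ⊆ Ω) : C11 univ (fun z => χ z * u z) := by
  apply c11_of_local isOpen_univ
  intro z _
  by_cases hz : z ∈ Ω
  · have h1 := (c11_of_contDiffOn hΩ hχ.contDiffOn).mul hΩ hu
    obtain ⟨r, hr, hrΩ, ⟨C, hC⟩, _⟩ := C11B_ball hΩ h1 hz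
    exact ⟨r, hr, C, subset_univ _, fun w hw => h1.diff w (hrΩ (ball_subset_closedBall hw)),
      hC.mono ball_subset_closedBall⟩
  · have h2 : z ∈ (tsupport χ)ᶜ := fun h => hz (hs h)
    have h3 : (tsupport χ)ᶜ ∈ 𝓝 z := (isClosed_tsupport χ).isOpen_compl.mem_nhds h2
    obtain ⟨r, hr, hrt⟩ := Metric.mem_nhds_iff.1 h3
    have h4 : EqOn (fun z => χ z * u z) (fun _ => (0 : ℝ)) (ball z r) := by
      intro w hw
      have : χ w = 0 := image_eq_zero_of_notMem_tsupport (hrt hw)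
      simp only [this, zero_mul]
    have h5 : EqOn (fderiv ℝ (fun z => χ z * u z)) (fderiv ℝ (fun _ => (0 : ℝ))) (ball z r) :=
      C11B_fderiv_congr isOpen_ball h4
    refine ⟨r, hr, 0, subset_univ _, fun w hw => ?_, ?_⟩
    · exact (differentiableAt_const (0 : ℝ)).congr_of_eventuallyEq
        (h4.eventuallyEq_of_mem (isOpen_ball.mem_nhds hw))
    · intro x hx y hy
      rw [h5 hx, h5 hy]
      simp

theorem C11.ae_twice (hΩ : IsOpen Ω) (hu : C11 Ω u) :
    ∀ᵐ z : Cn n, z ∈ Ω → DifferentiableAt ℝ (fderiv ℝ u) z := by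
  rw [ae_iff]
  apply measure_null_of_locally_null
  intro z hz
  simp only [mem_ofPred_eq, not_forall] at hz
  obtain ⟨hzΩ, _⟩ := hz
  obtain ⟨r, hr, hrΩ, ⟨C, hC⟩, _⟩ := C11B_ball hΩ hu hzΩ
  refine ⟨ball z r ∩ {a | ¬(a ∈ Ω → DifferentiableAt ℝ (fderiv ℝ u) a)},
    Filter.inter_mem (mem_nhdsWithin_of_mem_nhds (ball_mem_nhds z hr)) self_mem_nhdsWithin, ?_⟩
  have h1 := (hC.mono (ball_subset_closedBall (x := z) (ε := r))).ae_differentiableWithinAt_of_mem
    (μ := volume)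
  rw [ae_iff] at h1
  refine measure_mono_null ?_ h1
  rintro w ⟨hw, hw2⟩
  simp only [mem_ofPred_eq, not_forall] at hw2 ⊢
  obtain ⟨_, hw3⟩ := hw2
  exact ⟨hw, fun h => hw3 (h.differentiableAt (isOpen_ball.mem_nhds hw))⟩

theorem C11.hes_bdd (hΩ : IsOpen Ω) (hu : C11 Ω u) {L : Set (Cn n)} (hL : IsCompact L)
    (hLΩ : L ⊆ Ω) : ∃ C : ℝ, 0 ≤ C ∧ ∀ z ∈ L, ‖hes u z‖ ≤ C := by
  obtain ⟨δ, hδ, hδΩ⟩ := hL.exists_cthickening_subset_open hΩ hLΩ
  obtain ⟨C, hC⟩ := hu.lip _ hL.cthickening hδΩ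
  refine ⟨C, C.2, fun z hz => ?_⟩
  have h1 : cthickening δ L ∈ 𝓝 z := by
    refine Filter.mem_of_superset (closedBall_mem_nhds z hδ) ?_
    exact closedBall_subset_cthickening hz δ
  exact norm_fderiv_le_of_lipschitzOn ℝ h1 hC

/-- twice differentiable at a point -/
def TwD {n : ℕ} (u : Cn n → ℝ) (z : Cn n) : Prop :=
  (∀ᶠ w in 𝓝 z, DifferentiableAt ℝ u w) ∧ DifferentiableAt ℝ (fderiv ℝ u) z

theorem C11.ae_twD (hΩ : IsOpen Ω) (hu : C11 Ω u) : ∀ᵐ z : Cn n, z ∈ Ω → TwD u z := by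
  filter_upwards [hu.ae_twice hΩ] with z hz hzΩ
  exact ⟨Filter.mem_of_superset (hΩ.mem_nhds hzΩ) fun w hw => hu.diff w hw, hz hzΩ⟩

theorem TwD.symm {z : Cn n} (h : TwD u z) (a b : Cn n) : hes u z a b = hes u z b a := by
  exact second_derivative_symmetric_of_eventually_of_real (f := u) (f' := fderiv ℝ u)
    (h.1.mono fun w hw => hw.hasFDerivAt) h.2.hasFDerivAt a b

theorem C11B_fderiv_apply {z : Cn n} (h : TwD u z) (ξ η : Cn n) :
    fderiv ℝ (fun w => fderiv ℝ u w ξ) z η = hes u z η ξ := by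
  have h1 := (h.2.hasFDerivAt.clm_apply (hasFDerivAt_const ξ z)).fderiv
  rw [h1]
  simp [hes]

theorem TwD.lev {z : Cn n} (h : TwD u z) (ξ : Cn n) :
    HMA.lev u z ξ = (hes u z ξ ξ + hes u z (Complex.I • ξ) (Complex.I • ξ)) / 4 := by
  unfold HMA.lev
  rw [C11B_fderiv_apply h, C11B_fderiv_apply h]

/-- the sesquilinear form of a real bilinear form -/
noncomputable def C11B_h (B : Cn n →L[ℝ] Cn n →L[ℝ] ℝ) (ξ η : Cn n) : ℂ :=
  (((B ξ η + B (Complex.I • ξ) (Complex.I • η) : ℝ) : ℂ) +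
      Complex.I * ((B ξ (Complex.I • η) - B (Complex.I • ξ) η : ℝ) : ℂ)) / 4

theorem C11B_LM (u : Cn n → ℝ) (z : Cn n) (j k : Fin n) :
    LM u z j k = C11B_h (hes u z) (bv n j) (bv n k) := rfl

theorem C11B_h_add_left (B : Cn n →L[ℝ] Cn n →L[ℝ] ℝ) (ξ ξ' η : Cn n) :
    C11B_h B (ξ + ξ') η = C11B_h B ξ η + C11B_h B ξ' η := by
  simp only [C11B_h, smul_add, map_add, _root_.add_apply]
  push_cast
  ring

theorem C11B_h_add_right (B : Cn n →L[ℝ] Cn n →L[ℝ] ℝ) (ξ η η' : Cn n) :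
    C11B_h B ξ (η + η') = C11B_h B ξ η + C11B_h B ξ η' := by
  simp only [C11B_h, smul_add, map_add]
  push_cast
  ring

theorem C11B_cs (c : ℂ) (ξ : Cn n) : c • ξ = c.re • ξ + c.im • (Complex.I • ξ) := by
  ext i
  simp only [PiLp.smul_apply, PiLp.add_apply, smul_eq_mul, Complex.real_smul]
  nth_rewrite 1 [← Complex.re_add_im c]
  ring

theorem C11B_IcS (c : ℂ) (ξ : Cn n) :
    Complex.I • (c • ξ) = c.re • (Complex.I • ξ) - c.im • ξ := by
  ext i
  simp only [PiLp.smul_apply, PiLp.sub_apply, smul_eq_mul, Complex.real_smul]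
  nth_rewrite 1 [← Complex.re_add_im c]
  linear_combination (c.im : ℂ) * ξ i * Complex.I_mul_I

theorem C11B_h_smul_left (B : Cn n →L[ℝ] Cn n →L[ℝ] ℝ) (c : ℂ) (ξ η : Cn n) :
    C11B_h B (c • ξ) η = c * C11B_h B ξ η := by
  unfold C11B_h
  rw [C11B_IcS, C11B_cs]
  simp only [map_add, map_sub, map_smul, _root_.add_apply, _root_.sub_apply, _root_.smul_apply,
    smul_eq_mul]
  push_cast
  have hc : c = c.re + c.im * Complex.I := (Complex.re_add_im c).symm
  generalize (B ξ η : ℂ) = x1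
  generalize (B (Complex.I • ξ) η : ℂ) = x2
  generalize (B ξ (Complex.I • η) : ℂ) = x3
  generalize (B (Complex.I • ξ) (Complex.I • η) : ℂ) = x4
  linear_combination (c.im * (x2 - x3) / 4) * Complex.I_mul_I -
    ((x1 + x4 + Complex.I * (x3 - x2)) / 4) * hc

theorem C11B_h_smul_right (B : Cn n →L[ℝ] Cn n →L[ℝ] ℝ) (c : ℂ) (ξ η : Cn n) :
    C11B_h B ξ (c • η) = (starRingEnd ℂ) c * C11B_h B ξ η := by
  unfold C11B_h
  rw [C11B_IcS, C11B_cs]
  simp only [map_add, map_sub, map_smul, _root_.add_apply, _root_.sub_apply, _root_.smul_apply,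
    smul_eq_mul]
  push_cast
  have hc : (starRingEnd ℂ) c = c.re - c.im * Complex.I := by
    apply Complex.ext <;> simp
  generalize (B ξ η : ℂ) = x1
  generalize (B (Complex.I • ξ) η : ℂ) = x2
  generalize (B ξ (Complex.I • η) : ℂ) = x3
  generalize (B (Complex.I • ξ) (Complex.I • η) : ℂ) = x4
  linear_combination (c.im * (x3 - x2) / 4) * Complex.I_mul_I -
    ((x1 + x4 + Complex.I * (x3 - x2)) / 4) * hc

/-- linear in the first variable -/
noncomputable def C11B_hl (B : Cn n →L[ℝ] Cn n →L[ℝ] ℝ) (η : Cn n) : Cn n →ₗ[ℂ] ℂ where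
  toFun ξ := C11B_h B ξ η
  map_add' ξ ξ' := C11B_h_add_left B ξ ξ' η
  map_smul' c ξ := C11B_h_smul_left B c ξ η

/-- conjugate linear in the second variable -/
noncomputable def C11B_hr (B : Cn n →L[ℝ] Cn n →L[ℝ] ℝ) (ξ : Cn n) :
    Cn n →ₛₗ[starRingEnd ℂ] ℂ where
  toFun η := C11B_h B ξ η
  map_add' η η' := C11B_h_add_right B ξ η η'
  map_smul' c η := C11B_h_smul_right B c ξ η

theorem C11B_sum (ξ : Cn n) : ξ = ∑ j, ξ j • bv n j := by
  ext i
  simp only [bv, PiLp.smul_apply, WithLp.ofLp_sum, Finset.sum_apply, WithLp.ofLp_smul,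
    Pi.smul_apply, PiLp.ofLp_single, smul_eq_mul]
  rw [Finset.sum_eq_single i]
  · simp
  · intro j _ hj
    simp [Pi.single_apply, hj.symm]
  · simp

theorem C11B_h_expand (B : Cn n →L[ℝ] Cn n →L[ℝ] ℝ) (ξ η : Cn n) :
    C11B_h B ξ η = ∑ j, ∑ k, C11B_h B (bv n j) (bv n k) * ξ j * (starRingEnd ℂ) (η k) := by
  have h1 : C11B_h B ξ η = ∑ j, ξ j * C11B_h B (bv n j) η := by
    have : C11B_hl B η ξ = ∑ j, ξ j * C11B_hl B η (bv n j) := by
      conv_lhs => rw [C11B_sum ξ]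
      rw [map_sum]
      simp only [map_smul, smul_eq_mul]
    exact this
  have h2 : ∀ j, C11B_h B (bv n j) η =
      ∑ k, (starRingEnd ℂ) (η k) * C11B_h B (bv n j) (bv n k) := by
    intro j
    have : C11B_hr B (bv n j) η = ∑ k, (starRingEnd ℂ) (η k) * C11B_hr B (bv n j) (bv n k) := by
      conv_lhs => rw [C11B_sum η]
      rw [map_sum]
      simp only [LinearMap.map_smulₛₗ, smul_eq_mul]
    exact this
  rw [h1]
  refine Finset.sum_congr rfl fun j _ => ?_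
  rw [h2 j, Finset.mul_sum]
  refine Finset.sum_congr rfl fun k _ => ?_
  ring

theorem C11B_h_self {B : Cn n →L[ℝ] Cn n →L[ℝ] ℝ} (hB : ∀ a b, B a b = B b a) (ξ : Cn n) :
    C11B_h B ξ ξ = (((B ξ ξ + B (Complex.I • ξ) (Complex.I • ξ)) / 4 : ℝ) : ℂ) := by
  unfold C11B_h
  rw [hB ξ (Complex.I • ξ)]
  push_cast
  ring

theorem C11B_h_conj {B : Cn n →L[ℝ] Cn n →L[ℝ] ℝ} (hB : ∀ a b, B a b = B b a) (ξ η : Cn n) :
    (starRingEnd ℂ) (C11B_h B η ξ) = C11B_h B ξ η := by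
  unfold C11B_h
  rw [map_div₀, map_add, map_mul, Complex.conj_ofReal, Complex.conj_ofReal, Complex.conj_I,
    Complex.conj_ofNat, hB η ξ, hB (Complex.I • η) (Complex.I • ξ), hB η (Complex.I • ξ),
    hB (Complex.I • η) ξ]
  push_cast
  ring

theorem TwD.lev_LM {z : Cn n} (h : TwD u z) (ξ : Cn n) :
    (HMA.lev u z ξ : ℂ) = ∑ j, ∑ k, LM u z j k * ξ j * (starRingEnd ℂ) (ξ k) := by
  rw [h.lev, ← C11B_h_self h.symm, C11B_h_expand]
  rfl

theorem TwD.herm {z : Cn n} (h : TwD u z) : (LM u z).IsHermitian := by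
  ext j k
  rw [Matrix.conjTranspose_apply]
  exact C11B_h_conj h.symm (bv n j) (bv n k)

theorem C11B_quad {z : Cn n} (h : TwD u z) (x : Fin n → ℂ) :
    star x ⬝ᵥ (Matrix.mulVec (LM u z) x) = ((HMA.lev u z (vec (star x)) : ℝ) : ℂ) := by
  rw [h.lev_LM]
  simp only [dotProduct, Matrix.mulVec, Finset.mul_sum]
  refine Finset.sum_congr rfl fun j _ => Finset.sum_congr rfl fun k _ => ?_
  simp only [vec, Pi.star_apply, RCLike.star_def, Complex.conj_conj]
  ring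

theorem TwD.psd_iff {z : Cn n} (h : TwD u z) :
    (LM u z).PosSemidef ↔ ∀ ξ : Cn n, 0 ≤ HMA.lev u z ξ := by
  rw [Matrix.posSemidef_iff_dotProduct_mulVec]
  constructor
  · rintro ⟨_, h2⟩ ξ
    have h3 := h2 (star ξ.ofLp)
    rw [C11B_quad h, star_star] at h3
    have h4 : (0 : ℂ) ≤ ((HMA.lev u z ξ : ℝ) : ℂ) := h3
    exact_mod_cast h4
  · intro h2
    refine ⟨h.herm, fun x => ?_⟩
    rw [C11B_quad h]
    exact_mod_cast h2 _

theorem C11B_h_add (B B' : Cn n →L[ℝ] Cn n →L[ℝ] ℝ) (ξ η : Cn n) :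
    C11B_h (B + B') ξ η = C11B_h B ξ η + C11B_h B' ξ η := by
  simp only [C11B_h, _root_.add_apply]
  push_cast
  ring

theorem C11B_h_smul (c : ℝ) (B : Cn n →L[ℝ] Cn n →L[ℝ] ℝ) (ξ η : Cn n) :
    C11B_h (c • B) ξ η = (c : ℂ) * C11B_h B ξ η := by
  simp only [C11B_h, _root_.smul_apply, smul_eq_mul]
  push_cast
  ring

theorem TwD.add {z : Cn n} (hu : TwD u z) (hv : TwD v z) :
    TwD (fun w => u w + v w) z ∧ LM (fun w => u w + v w) z = LM u z + LM v z := by
  have h1 : fderiv ℝ (fun w => u w + v w) =ᶠ[𝓝 z] fun w => fderiv ℝ u w + fderiv ℝ v w := by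
    filter_upwards [hu.1, hv.1] with w hw hw'
    exact (hw.hasFDerivAt.add hw'.hasFDerivAt).fderiv
  have h2 : hes (fun w => u w + v w) z = hes u z + hes v z := by
    unfold hes
    rw [h1.fderiv_eq]
    exact (hu.2.hasFDerivAt.add hv.2.hasFDerivAt).fderiv
  refine ⟨⟨?_, ?_⟩, ?_⟩
  · filter_upwards [hu.1, hv.1] with w hw hw'
    exact hw.add hw'
  · exact (hu.2.add hv.2).congr_of_eventuallyEq h1
  · ext j k
    rw [Matrix.add_apply, C11B_LM, C11B_LM, C11B_LM, h2, C11B_h_add]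

theorem TwD.const_mul {z : Cn n} (hu : TwD u z) (c : ℝ) :
    TwD (fun w => c * u w) z ∧ LM (fun w => c * u w) z = (c : ℂ) • LM u z := by
  have h1 : fderiv ℝ (fun w => c * u w) =ᶠ[𝓝 z] fun w => c • fderiv ℝ u w := by
    filter_upwards [hu.1] with w hw
    exact (hw.hasFDerivAt.const_mul c).fderiv
  have h2 : hes (fun w => c * u w) z = c • hes u z := by
    unfold hes
    rw [h1.fderiv_eq]
    exact (hu.2.hasFDerivAt.const_smul c).fderiv
  refine ⟨⟨?_, ?_⟩, ?_⟩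
  · filter_upwards [hu.1] with w hw
    exact hw.const_mul c
  · exact (hu.2.const_smul c).congr_of_eventuallyEq h1
  · ext j k
    rw [Matrix.smul_apply, C11B_LM, C11B_LM, h2, C11B_h_smul, smul_eq_mul]

/-- composition with a function of one real variable -/
theorem TwD.comp_real {z : Cn n} (hu : TwD u z) {θ : ℝ → ℝ} (hθ : ContDiff ℝ 2 θ) :
    TwD (fun w => θ (u w)) z ∧ ∃ G : Matrix (Fin n) (Fin n) ℂ, G.PosSemidef ∧
      LM (fun w => θ (u w)) z =
        ((deriv θ (u z) : ℝ) : ℂ) • LM u z + ((deriv (deriv θ) (u z) : ℝ) : ℂ) • G := by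
  have hθ1 : ContDiff ℝ 1 (deriv θ) := by
    have := (contDiff_succ_iff_deriv (n := 1) (f := θ)).1 (by simpa [one_add_one_eq_two] using hθ)
    exact this.2.2
  have hθd : Differentiable ℝ θ := hθ.differentiable (by norm_num)
  have hθd1 : Differentiable ℝ (deriv θ) := hθ1.differentiable (by norm_num)
  have huz : DifferentiableAt ℝ u z := hu.1.self_of_nhds
  have h1 : fderiv ℝ (fun w => θ (u w)) =ᶠ[𝓝 z] fun w => deriv θ (u w) • fderiv ℝ u w := by
    filter_upwards [hu.1] with w hw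
    exact ((hθd (u w)).hasDerivAt.comp_hasFDerivAt w hw.hasFDerivAt).fderiv
  have h3 : HasFDerivAt (fun w => deriv θ (u w)) (deriv (deriv θ) (u z) • fderiv ℝ u z) z :=
    (hθd1 (u z)).hasDerivAt.comp_hasFDerivAt z huz.hasFDerivAt
  have h4 : HasFDerivAt (fun w => deriv θ (u w) • fderiv ℝ u w)
      (deriv θ (u z) • fderiv ℝ (fderiv ℝ u) z +
        (deriv (deriv θ) (u z) • fderiv ℝ u z).smulRight (fderiv ℝ u z)) z :=
    h3.smul hu.2.hasFDerivAt
  have h2 : ∀ a b, hes (fun w => θ (u w)) z a b = deriv θ (u z) * hes u z a b +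
      deriv (deriv θ) (u z) * (fderiv ℝ u z a * fderiv ℝ u z b) := by
    intro a b
    unfold hes
    rw [h1.fderiv_eq, h4.fderiv]
    simp only [_root_.add_apply, _root_.smul_apply, ContinuousLinearMap.smulRight_apply,
      smul_eq_mul]
    ring
  refine ⟨⟨?_, h4.differentiableAt.congr_of_eventuallyEq h1⟩, ?_⟩
  · filter_upwards [hu.1] with w hw
    exact (hθd (u w)).comp w hw
  · let a : Fin n → ℂ := fun j => (((fderiv ℝ u z (bv n j) : ℝ) : ℂ) -
      Complex.I * ((fderiv ℝ u z (Complex.I • bv n j) : ℝ) : ℂ)) / 2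
    refine ⟨Matrix.vecMulVec a (star a), Matrix.posSemidef_vecMulVec_self_star a, ?_⟩
    ext j k
    rw [Matrix.add_apply, Matrix.smul_apply, Matrix.smul_apply, Matrix.vecMulVec_apply,
      C11B_LM, C11B_LM]
    unfold C11B_h
    rw [h2, h2, h2, h2]
    have ha : ∀ j, a j = (((fderiv ℝ u z (bv n j) : ℝ) : ℂ) -
      Complex.I * ((fderiv ℝ u z (Complex.I • bv n j) : ℝ) : ℂ)) / 2 := fun j => rfl
    have hs : (star a) k = (((fderiv ℝ u z (bv n k) : ℝ) : ℂ) +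
      Complex.I * ((fderiv ℝ u z (Complex.I • bv n k) : ℝ) : ℂ)) / 2 := by
      rw [Pi.star_apply, ha, RCLike.star_def, map_div₀, map_sub, map_mul, Complex.conj_ofReal,
        Complex.conj_ofReal, Complex.conj_I, Complex.conj_ofNat]
      ring
    rw [hs, ha, smul_eq_mul, smul_eq_mul]
    push_cast
    generalize (fderiv ℝ u z (bv n j) : ℂ) = x1
    generalize (fderiv ℝ u z (bv n k) : ℂ) = x2
    generalize (fderiv ℝ u z (Complex.I • bv n j) : ℂ) = x3
    generalize (fderiv ℝ u z (Complex.I • bv n k) : ℂ) = x4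
    generalize ((deriv (deriv θ) (u z) : ℝ) : ℂ) = t
    linear_combination (t * x3 * x4 / 4) * Complex.I_mul_I

theorem LM_congr {z : Cn n} (h : u =ᶠ[𝓝 z] v) : LM u z = LM v z := by
  have h1 : fderiv ℝ u =ᶠ[𝓝 z] fderiv ℝ v := h.fderiv
  have h2 : hes u z = hes v z := h1.fderiv_eq
  ext j k
  rw [C11B_LM, C11B_LM, h2]

theorem LM_const (c : ℝ) (z : Cn n) : LM (fun _ => c) z = 0 := by
  have h1 : fderiv ℝ (fun _ : Cn n => c) = fun _ => 0 := by
    funext w
    exact fderiv_const_apply c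
  have h2 : hes (fun _ => c) z = 0 := by
    unfold hes
    rw [h1]
    exact fderiv_const_apply _
  ext j k
  rw [C11B_LM, h2]
  simp [C11B_h]

theorem C11B_meas_hes (u : Cn n → ℝ) (a b : Cn n) : Measurable fun z => hes u z a b := by
  have h1 : Measurable fun z => fderiv ℝ (fderiv ℝ u) z a :=
    measurable_fderiv_apply_const ℝ (fderiv ℝ u) a
  exact (ContinuousLinearMap.measurable_apply b).comp h1

/-- the entries of the Levi matrix -/
noncomputable def C11B_e (u : Cn n → ℝ) (z : Cn n) : Fin n → Fin n → ℂ := fun j k => LM u z j k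

theorem C11B_meas_LM (u : Cn n → ℝ) : Measurable (C11B_e u) := by
  refine measurable_pi_lambda _ fun j => measurable_pi_lambda _ fun k => ?_
  have h := C11B_meas_hes u
  unfold C11B_e LM
  exact ((Complex.measurable_ofReal.comp ((h _ _).add (h _ _))).add
    (measurable_const.mul (Complex.measurable_ofReal.comp ((h _ _).sub (h _ _))))).div_const 4

theorem C11B_cont_det : Continuous fun M : Matrix (Fin n) (Fin n) ℂ => (M.det).re :=
  Complex.continuous_re.comp (continuous_id.matrix_det)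

theorem C11B_cont_adj : Continuous fun M : Matrix (Fin n) (Fin n) ℂ × Matrix (Fin n) (Fin n) ℂ =>
    ((M.1.adjugate * M.2).trace).re :=
  Complex.continuous_re.comp ((continuous_fst.matrix_adjugate.matrix_mul continuous_snd).matrix_trace)

/-- the determinant of an array -/
noncomputable def C11B_det (M : Fin n → Fin n → ℂ) : ℝ := (@Matrix.det (Fin n) _ _ ℂ _ M).re

/-- the mixed determinant of two arrays -/
noncomputable def C11B_adj (M : (Fin n → Fin n → ℂ) × (Fin n → Fin n → ℂ)) : ℝ :=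
  ((@HMul.hMul (Matrix (Fin n) (Fin n) ℂ) (Matrix (Fin n) (Fin n) ℂ) (Matrix (Fin n) (Fin n) ℂ) _
    (@Matrix.adjugate (Fin n) ℂ _ _ _ M.1) M.2).trace).re

theorem C11B_meas_det : Measurable (C11B_det (n := n)) := by
  have h : Continuous (C11B_det (n := n)) := C11B_cont_det
  exact h.measurable

theorem C11B_meas_adj : Measurable (C11B_adj (n := n)) := by
  have h : Continuous (C11B_adj (n := n)) := C11B_cont_adj
  exact h.measurable

theorem measurable_mad (u : Cn n → ℝ) : Measurable (mad u) := by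
  exact C11B_meas_det.comp (C11B_meas_LM u)

theorem C11B_mal_eq (u v : Cn n → ℝ) (z : Cn n) :
    mal u v z = C11B_adj (C11B_e u z, C11B_e v z) := by
  have h1 : C11B_e u z = LM u z := rfl
  have h2 : C11B_e v z = LM v z := rfl
  unfold mal C11B_adj
  rw [h1, h2]

theorem measurable_mal (u v : Cn n → ℝ) : Measurable (mal u v) := by
  have h := C11B_meas_adj.comp ((C11B_meas_LM u).prodMk (C11B_meas_LM v))
  have h2 : mal u v = C11B_adj ∘ fun z => (C11B_e u z, C11B_e v z) := by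
    funext z
    rw [C11B_mal_eq]
    rfl
  rw [h2]
  exact h

theorem C11B_LM_bound {u : Cn n → ℝ} {z : Cn n} {C : ℝ} (h : ‖hes u z‖ ≤ C) (j k : Fin n) :
    ‖LM u z j k‖ ≤ C := by
  have hb : ∀ i, ‖bv n i‖ = 1 := fun i => by simp [bv]
  have hbI : ∀ i, ‖Complex.I • bv n i‖ = 1 := fun i => by rw [norm_smul, hb]; simp
  have h1 : ∀ a b : Cn n, ‖a‖ = 1 → ‖b‖ = 1 → |hes u z a b| ≤ C := by
    intro a b ha hb
    have := (hes u z).le_opNorm₂ a b
    rw [ha, hb, mul_one, mul_one] at this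
    exact this.trans h
  unfold LM
  rw [norm_div, div_le_iff₀ (by norm_num)]
  refine (norm_add_le _ _).trans ?_
  rw [norm_mul, Complex.norm_I, one_mul, Complex.norm_real, Complex.norm_real, Real.norm_eq_abs,
    Real.norm_eq_abs]
  have e1 := h1 (bv n j) (bv n k) (hb j) (hb k)
  have e2 := h1 (Complex.I • bv n j) (Complex.I • bv n k) (hbI j) (hbI k)
  have e3 := h1 (bv n j) (Complex.I • bv n k) (hb j) (hbI k)
  have e4 := h1 (Complex.I • bv n j) (bv n k) (hbI j) (hb k)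
  have e5 := abs_add_le (hes u z (bv n j) (bv n k))
    (hes u z (Complex.I • bv n j) (Complex.I • bv n k))
  have e6 := abs_sub (hes u z (bv n j) (Complex.I • bv n k))
    (hes u z (Complex.I • bv n j) (bv n k))
  have e7 : ‖(4 : ℂ)‖ = 4 := by simp
  rw [e7]
  linarith

/-- `mad` and `mal` are bounded in terms of the second derivatives -/
theorem mad_bdd (n : ℕ) (C : ℝ) : ∃ B : ℝ, 0 ≤ B ∧ ∀ (u v : Cn n → ℝ) (z : Cn n),
    ‖hes u z‖ ≤ C → ‖hes v z‖ ≤ C → |mad u z| ≤ B ∧ |mal u v z| ≤ B := by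
  let S : Set (Matrix (Fin n) (Fin n) ℂ) :=
    Set.pi Set.univ fun _ => Set.pi Set.univ fun _ => closedBall (0 : ℂ) C
  have hS : IsCompact S := isCompact_univ_pi fun _ => isCompact_univ_pi fun _ =>
    isCompact_closedBall _ _
  obtain ⟨B1, hB1⟩ := hS.exists_bound_of_continuousOn C11B_cont_det.continuousOn
  obtain ⟨B2, hB2⟩ := (hS.prod hS).exists_bound_of_continuousOn C11B_cont_adj.continuousOn
  have hmem : ∀ (u : Cn n → ℝ) (z : Cn n), ‖hes u z‖ ≤ C → LM u z ∈ S := by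
    intro u z h j _ k _
    rw [mem_closedBall_zero_iff]
    exact C11B_LM_bound h j k
  refine ⟨max 0 (max B1 B2), le_max_left _ _, fun u v z hu hv => ⟨?_, ?_⟩⟩
  · exact (hB1 _ (hmem u z hu)).trans ((le_max_left _ _).trans (le_max_right _ _))
  · exact (hB2 (LM u z, LM v z) ⟨hmem u z hu, hmem v z hv⟩).trans
      ((le_max_right _ _).trans (le_max_right _ _))

theorem LM_smooth (hu : ContDiff ℝ ∞ u) (z : Cn n) (j k : Fin n) :
    LM u z j k = db k (dd j (fun w => (u w : ℂ))) z := by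
  rw [dbar2_dd hu]
  unfold LM hes
  rw [dbar2_symm hu z (bv n j) (bv n k), dbar2_symm hu z (Complex.I • bv n j) (Complex.I • bv n k),
    dbar2_symm hu z (Complex.I • bv n k) (bv n j), dbar2_symm hu z (bv n k) (Complex.I • bv n j)]

end HMA
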