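import Pool.Agent.H85.KM.C11B
import Pool.Agent.H85.MA.Moll

/-! # Module C11M: mollification of `C^{1,1}` functions -/

open MeasureTheory Metric Set
open scoped ENNReal Topology ContDiff ComplexOrder Convolution

namespace HMA

section C11MAux

variable {n : ℕ} {F : Type} [NormedAddCommGroup F] [NormedSpace ℝ F]

/-- convolution with the mollifier -/
noncomputable def C11M_c (k : ℕ) (g : Cn n → F) : Cn n → F :=
  Moll_eta n k ⋆[ContinuousLinearMap.lsmul ℝ ℝ, volume] g

theorem C11M_c_eq (k : ℕ) (g : Cn n → F) (z : Cn n) :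
    C11M_c k g z = ∫ t, Moll_eta n k t • g (z - t) := rfl

theorem C11M_smooth [CompleteSpace F] (k : ℕ) {g : Cn n → F} (hg : LocallyIntegrable g volume) :
    ContDiff ℝ ∞ (C11M_c k g) :=
  (Moll_eta_supp k).contDiff_convolution_left _ (Moll_eta_smooth k) hg

theorem C11M_eta_int (k : ℕ) : ∫ t, Moll_eta n k t = 1 :=
  (Moll_bump n k).integral_normed

theorem C11M_eta_integrable (k : ℕ) : Integrable (Moll_eta n k) volume :=
  (Moll_eta_smooth k).continuous.integrable_of_hasCompactSupport (Moll_eta_supp k)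

theorem C11M_norm_le (k : ℕ) {g : Cn n → F} {C : ℝ} (hg : ∀ z, ‖g z‖ ≤ C) (z : Cn n) :
    ‖C11M_c k g z‖ ≤ C := by
  rw [C11M_c_eq]
  have h : ∀ t, ‖Moll_eta n k t • g (z - t)‖ ≤ Moll_eta n k t * C := by
    intro t
    rw [norm_smul, Real.norm_of_nonneg (Moll_eta_nonneg k t)]
    exact mul_le_mul_of_nonneg_left (hg _) (Moll_eta_nonneg k t)
  calc ‖∫ t, Moll_eta n k t • g (z - t)‖ ≤ ∫ t, Moll_eta n k t * C :=
        norm_integral_le_of_norm_le ((C11M_eta_integrable k).mul_const C)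
          (Filter.Eventually.of_forall h)
    _ = C := by rw [integral_mul_const, C11M_eta_int, one_mul]

/-- derivative of the convolution with a Lipschitz function -/
theorem C11M_deriv [FiniteDimensional ℝ F] (k : ℕ) {g : Cn n → F} {C : NNReal}
    (hg : LipschitzWith C g) (z : Cn n) :
    HasFDerivAt (C11M_c k g) (C11M_c k (fderiv ℝ g) z) z := by
  have hgc : Continuous g := hg.continuous
  have hηc : Continuous (Moll_eta n k) := (Moll_eta_smooth k).continuous
  have hc : ∀ x : Cn n, Continuous fun t => Moll_eta n k t • g (x - t) := fun x =>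
    hηc.smul (hgc.comp (continuous_const.sub continuous_id))
  have hcs : ∀ x : Cn n, HasCompactSupport fun t => Moll_eta n k t • g (x - t) := fun x =>
    (Moll_eta_supp k).smul_right
  have hae : ∀ᵐ t : Cn n, DifferentiableAt ℝ g (z - t) :=
    (quasiMeasurePreserving_sub_left volume z).ae hg.ae_differentiableAt
  have hmeas : Measurable fun t : Cn n => fderiv ℝ g (z - t) :=
    (measurable_fderiv ℝ g).comp (measurable_const.sub measurable_id)
  have key := hasFDerivAt_integral_of_dominated_loc_of_lip (μ := (volume : Measure (Cn n)))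
    (𝕜 := ℝ) (F := fun x t => Moll_eta n k t • g (x - t))
    (F' := fun t => Moll_eta n k t • fderiv ℝ g (z - t)) (x₀ := z)
    (bound := fun t => Moll_eta n k t * C) (s := univ) Filter.univ_mem
    (Filter.Eventually.of_forall fun x => (hc x).aestronglyMeasurable)
    ((hc z).integrable_of_hasCompactSupport (hcs z))
    (hηc.aestronglyMeasurable.smul hmeas.aestronglyMeasurable)
    (Filter.Eventually.of_forall fun t => ?_) ((C11M_eta_integrable k).mul_const _) ?_
  · exact key.2
  · refine LipschitzOnWith.of_dist_le_mul fun x _ y _ => ?_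
    rw [dist_eq_norm, ← smul_sub, norm_smul, Real.coe_nnabs, abs_mul, mul_assoc,
      ← Real.norm_eq_abs]
    refine mul_le_mul_of_nonneg_left ?_ (norm_nonneg _)
    rw [NNReal.abs_eq, ← dist_eq_norm]
    refine (hg.dist_le_mul _ _).trans (le_of_eq ?_)
    rw [dist_sub_right]
  · filter_upwards [hae] with t ht
    have h1 : HasFDerivAt (fun x => x - t) (ContinuousLinearMap.id ℝ (Cn n)) z :=
      (hasFDerivAt_id z).sub_const t
    have h2 := (ht.hasFDerivAt.comp z h1).const_smul (Moll_eta n k t)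
    rw [ContinuousLinearMap.comp_id] at h2
    exact h2

theorem C11M_lip {u : Cn n → ℝ} (hu : C11 univ u) (hc : HasCompactSupport u) :
    ∃ C : NNReal, LipschitzWith C (fderiv ℝ u) := by
  obtain ⟨R, hR⟩ := hc.isCompact.isBounded.subset_closedBall (0 : Cn n)
  have hz : ∀ x : Cn n, R < ‖x‖ → fderiv ℝ u x = 0 := by
    intro x hx
    by_contra hne
    have h1 : x ∈ tsupport u := support_fderiv_subset ℝ (Function.mem_support.2 hne)
    have h2 := hR h1
    rw [mem_closedBall_zero_iff] at h2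
    linarith
  obtain ⟨C, hC⟩ := hu.lip (closedBall 0 (R + 1)) (isCompact_closedBall _ _) (subset_univ _)
  obtain ⟨B, hB⟩ : ∃ B : NNReal, ∀ x : Cn n, ‖x‖ ≤ R → ‖fderiv ℝ u x‖ ≤ B := by
    have hcont : ContinuousOn (fderiv ℝ u) (closedBall 0 R) :=
      hC.continuousOn.mono (closedBall_subset_closedBall (by linarith))
    obtain ⟨B, hB⟩ := (isCompact_closedBall (0 : Cn n) R).exists_bound_of_continuousOn hcont
    refine ⟨B.toNNReal, fun x hx => ?_⟩
    exact (hB x (mem_closedBall_zero_iff.2 hx)).trans (Real.le_coe_toNNReal B)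
  have main : ∀ x y : Cn n, ‖x‖ ≤ R + 1 → R + 1 < ‖y‖ →
      dist (fderiv ℝ u x) (fderiv ℝ u y) ≤ B * dist x y := by
    intro x y hx hy
    rw [hz y (by linarith), dist_zero_right]
    by_cases hxR : ‖x‖ ≤ R
    · have h1 : 1 ≤ dist x y := by
        rw [dist_eq_norm]
        have := norm_sub_norm_le y x
        rw [norm_sub_rev] at this
        linarith
      calc ‖fderiv ℝ u x‖ ≤ B := hB x hxR
        _ = B * 1 := (mul_one _).symm
        _ ≤ B * dist x y := mul_le_mul_of_nonneg_left h1 B.2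
    · rw [hz x (not_le.1 hxR), norm_zero]
      positivity
  refine ⟨max C B, LipschitzWith.of_dist_le_mul fun x y => ?_⟩
  have hC' : (C : ℝ) ≤ (max C B : NNReal) := by exact_mod_cast le_max_left C B
  have hB' : (B : ℝ) ≤ (max C B : NNReal) := by exact_mod_cast le_max_right C B
  by_cases hx : ‖x‖ ≤ R + 1
  · by_cases hy : ‖y‖ ≤ R + 1
    · refine (hC.dist_le_mul x (mem_closedBall_zero_iff.2 hx) y
        (mem_closedBall_zero_iff.2 hy)).trans ?_
      exact mul_le_mul_of_nonneg_right hC' dist_nonneg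
    · refine (main x y hx (not_le.1 hy)).trans ?_
      exact mul_le_mul_of_nonneg_right hB' dist_nonneg
  · by_cases hy : ‖y‖ ≤ R + 1
    · rw [dist_comm, dist_comm x y]
      refine (main y x hy (not_le.1 hx)).trans ?_
      exact mul_le_mul_of_nonneg_right hB' dist_nonneg
    · rw [hz x (by linarith [not_le.1 hx]), hz y (by linarith [not_le.1 hy]), dist_self]
      positivity

theorem C11M_lip0 {u : Cn n → ℝ} (hu : C11 univ u) (hc : HasCompactSupport u) :
    ∃ C : NNReal, LipschitzWith C u := by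
  obtain ⟨C, hC⟩ := C11M_lip hu hc
  have hcs : HasCompactSupport (fderiv ℝ u) := hc.fderiv ℝ
  obtain ⟨B, hB⟩ := hcs.exists_bound_of_continuous hC.continuous
  refine ⟨B.toNNReal, ?_⟩
  refine lipschitzWith_of_nnnorm_fderiv_le (𝕜 := ℝ) (fun z => hu.diff z (mem_univ z)) fun z => ?_
  rw [← NNReal.coe_le_coe]
  exact (hB z).trans (Real.le_coe_toNNReal B)

theorem C11M_zero (k : ℕ) {g : Cn n → F} {R : ℝ} (hg : ∀ z, R < ‖z‖ → g z = 0) {z : Cn n}
    (hz : R + 1 < ‖z‖) : C11M_c k g z = 0 := by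
  rw [C11M_c_eq]
  have : ∀ t, Moll_eta n k t • g (z - t) = 0 := by
    intro t
    by_cases ht : 1 ≤ ‖t‖
    · rw [Moll_eta_zero' k ht, zero_smul]
    · rw [hg, smul_zero]
      have := norm_sub_norm_le z t
      linarith
  simp [this]

theorem C11M_ae [CompleteSpace F] {g : Cn n → F} {C : ℝ} (hg : ∀ z, ‖g z‖ ≤ C)
    (hm : AEStronglyMeasurable g volume) :
    ∀ᵐ z : Cn n, Filter.Tendsto (fun k => C11M_c k g z) Filter.atTop (𝓝 (g z)) := by
  have hli : LocallyIntegrable g volume := by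
    rw [locallyIntegrable_iff]
    intro K hK
    exact Measure.integrableOn_of_bounded hK.measure_lt_top.ne hm
      (Filter.Eventually.of_forall hg)
  refine ContDiffBump.ae_convolution_tendsto_right_of_locallyIntegrable
    (μ := (volume : Measure (Cn n))) (φ := fun k => Moll_bump n k) (l := Filter.atTop) (K := 2)
    (g := g) ?_ ?_ hli
  · exact tendsto_one_div_add_atTop_nhds_zero_nat
  · refine Filter.Eventually.of_forall fun k => ?_
    change 1 / ((k : ℝ) + 1) ≤ 2 * (1 / (2 * ((k : ℝ) + 1)))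
    have h5 : (0 : ℝ) < (k : ℝ) + 1 := by positivity
    rw [mul_one_div, div_le_div_iff₀ h5 (by positivity)]
    linarith

end C11MAux

theorem c11_moll {n : ℕ} {u : Cn n → ℝ} (hu : C11 univ u) (hc : HasCompactSupport u) :
    ∃ U : ℕ → Cn n → ℝ, (∀ k, ContDiff ℝ ∞ (U k) ∧ HasCompactSupport (U k)) ∧
      (∃ R : ℝ, ∀ k z, R < ‖z‖ → U k z = 0) ∧
      (∀ ε > 0, ∃ k₀ : ℕ, ∀ k ≥ k₀, ∀ z, |U k z - u z| ≤ ε) ∧
      (∃ C : ℝ, ∀ k z, ‖hes (U k) z‖ ≤ C) ∧
      (∀ᵐ z, Filter.Tendsto (fun k => hes (U k) z) Filter.atTop (𝓝 (hes u z))) := by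
  obtain ⟨C0, hC0⟩ := C11M_lip0 hu hc
  obtain ⟨C1, hC1⟩ := C11M_lip hu hc
  obtain ⟨R, hR⟩ := hc.isCompact.isBounded.subset_closedBall (0 : Cn n)
  have hz : ∀ x : Cn n, R < ‖x‖ → u x = 0 := by
    intro x hx
    by_contra hne
    have h2 := hR (subset_tsupport u (Function.mem_support.2 hne))
    rw [mem_closedBall_zero_iff] at h2
    linarith
  have hzero : ∀ k z, R + 1 < ‖z‖ → C11M_c k u z = 0 := fun k z h => C11M_zero k hz h
  have hfd : ∀ k, fderiv ℝ (C11M_c k u) = C11M_c k (fderiv ℝ u) := by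
    intro k
    funext z
    exact (C11M_deriv k hC0 z).fderiv
  have hhes : ∀ k z, hes (C11M_c k u) z = C11M_c k (hes u) z := by
    intro k z
    unfold hes
    rw [hfd k]
    exact (C11M_deriv k hC1 z).fderiv
  have hbd : ∀ z, ‖hes u z‖ ≤ C1 := fun z => norm_fderiv_le_of_lipschitz ℝ hC1
  refine ⟨fun k => C11M_c k u, fun k => ⟨?_, ?_⟩, ⟨R + 1, hzero⟩, ?_, ⟨C1, ?_⟩, ?_⟩
  · exact C11M_smooth k hC0.continuous.locallyIntegrable
  · refine HasCompactSupport.intro (isCompact_closedBall (0 : Cn n) (R + 1)) fun z hz' => ?_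
    refine hzero k z ?_
    rw [mem_closedBall_zero_iff] at hz'
    exact not_le.1 hz'
  · intro ε hε
    obtain ⟨k₀, hk₀⟩ := exists_nat_ge ((C0 : ℝ) / ε)
    refine ⟨k₀, fun k hk z => ?_⟩
    have h1 : dist (C11M_c k u z) (u z) ≤ ε := by
      apply (Moll_bump n k).dist_normed_convolution_le hC0.continuous.aestronglyMeasurable
      intro x hx
      rw [mem_ball] at hx
      have h2 : dist x z < 1 / ((k : ℝ) + 1) := hx
      refine (hC0.dist_le_mul x z).trans ?_
      have h3 : (C0 : ℝ) / ε ≤ (k : ℝ) := hk₀.trans (by exact_mod_cast hk)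
      have h4 : (C0 : ℝ) ≤ k * ε := by rwa [div_le_iff₀ hε] at h3
      have h5 : (0 : ℝ) < (k : ℝ) + 1 := by positivity
      have h6 : (0 : ℝ) ≤ C0 := C0.2
      calc (C0 : ℝ) * dist x z ≤ C0 * (1 / ((k : ℝ) + 1)) := mul_le_mul_of_nonneg_left h2.le h6
        _ ≤ ε := by
          rw [mul_one_div, div_le_iff₀ h5]
          nlinarith
    rwa [Real.dist_eq] at h1
  · intro k z
    change ‖hes (C11M_c k u) z‖ ≤ C1
    rw [hhes k z]
    exact C11M_norm_le k hbd z
  · have hmeas : Measurable (hes u) := measurable_fderiv ℝ (fderiv ℝ u)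
    filter_upwards [C11M_ae (F := Cn n →L[ℝ] Cn n →L[ℝ] ℝ) (g := hes u) hbd
      hmeas.aestronglyMeasurable] with z hz
    refine hz.congr fun k => ?_
    exact (hhes k z).symm

end HMA
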