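import Pool.Agent.H85.KM.Defs

/-! # Module Mat: matrix inequalities -/

open MeasureTheory Metric Set
open scoped ENNReal Topology ContDiff ComplexOrder

namespace HMA

open Matrix

variable {n : ℕ}

section
open scoped MatrixOrder

theorem mat_factor {A : Matrix (Fin n) (Fin n) ℂ} (hA : A.PosSemidef) :
    ∃ B : Matrix (Fin n) (Fin n) ℂ, A = Bᴴ * B := by
  obtain ⟨B, hB⟩ := CStarAlgebra.nonneg_iff_eq_star_mul_self.mp hA.nonneg
  exact ⟨B, hB⟩

end

theorem mat_det_nonneg {A : Matrix (Fin n) (Fin n) ℂ} (hA : A.PosSemidef) :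
    0 ≤ A.det.re ∧ A.det.im = 0 := by
  have h := hA.det_nonneg
  rw [Complex.le_def] at h
  exact ⟨h.1, h.2.symm⟩

theorem mat_adj_psd {A : Matrix (Fin n) (Fin n) ℂ} (hA : A.PosSemidef) :
    A.adjugate.PosSemidef := by
  obtain ⟨B, rfl⟩ := mat_factor hA
  rw [adjugate_mul_distrib, ← adjugate_conjTranspose]
  exact posSemidef_self_mul_conjTranspose _

theorem mat_trace_mul {A B : Matrix (Fin n) (Fin n) ℂ} (hA : A.PosSemidef) (hB : B.PosSemidef) :
    0 ≤ ((A * B).trace).re := by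
  obtain ⟨C, rfl⟩ := mat_factor hA
  have h : (Cᴴ * C * B).trace = (C * B * Cᴴ).trace := by
    rw [Matrix.mul_assoc, Matrix.trace_mul_comm]
  rw [h]
  have h2 := (hB.mul_mul_conjTranspose_same C).trace_nonneg
  rw [Complex.le_def] at h2
  exact h2.1

/-- Jacobi's formula, complex version -/
theorem mat_det_deriv_aux (A B : Matrix (Fin n) (Fin n) ℂ) (s : ℝ) :
    HasDerivAt (fun s : ℝ => (A + (s : ℂ) • B).det)
      (((A + (s : ℂ) • B).adjugate * B).trace) s := by
  have h1 : ∀ i j, HasDerivAt (fun s : ℝ => (A + (s : ℂ) • B) i j) (B i j) s := by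
    intro i j
    have h2 : HasDerivAt (fun s : ℝ => (s : ℂ)) 1 s := Complex.ofRealCLM.hasDerivAt
    have h3 := (h2.mul_const (B i j)).const_add (A i j)
    simpa using h3
  have h4 : HasDerivAt (fun s : ℝ => (A + (s : ℂ) • B).det)
      (∑ σ : Equiv.Perm (Fin n), ((Equiv.Perm.sign σ : ℤ) : ℂ) *
        ∑ i : Fin n, (∏ j ∈ Finset.univ.erase i, (A + (s : ℂ) • B) (σ j) j) * B (σ i) i) s := by
    have h5 : (fun s : ℝ => (A + (s : ℂ) • B).det) = fun s : ℝ =>
        ∑ σ : Equiv.Perm (Fin n), ((Equiv.Perm.sign σ : ℤ) : ℂ) *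
          ∏ i, (A + (s : ℂ) • B) (σ i) i := by
      funext t
      rw [Matrix.det_apply']
    rw [h5]
    apply HasDerivAt.fun_sum
    intro σ _
    apply HasDerivAt.const_mul
    have h6 := HasDerivAt.fun_finsetProd (u := Finset.univ) (x := s)
      (f := fun i (s : ℝ) => (A + (s : ℂ) • B) (σ i) i) (f' := fun i => B (σ i) i)
      (fun i _ => h1 (σ i) i)
    simpa [smul_eq_mul] using h6
  convert h4 using 1
  generalize A + (s : ℂ) • B = M
  have h7 : (M.adjugate * B).trace = ∑ i, (M.updateCol i (fun k => B k i)).det := by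
    rw [Matrix.trace]
    apply Finset.sum_congr rfl
    intro i _
    rw [Matrix.diag_apply, ← Matrix.cramer_apply, Matrix.cramer_eq_adjugate_mulVec]
    rfl
  rw [h7]
  have h8 : ∀ i, (M.updateCol i (fun k => B k i)).det =
      ∑ σ : Equiv.Perm (Fin n), ((Equiv.Perm.sign σ : ℤ) : ℂ) *
        ((∏ j ∈ Finset.univ.erase i, M (σ j) j) * B (σ i) i) := by
    intro i
    rw [Matrix.det_apply']
    apply Finset.sum_congr rfl
    intro σ _
    congr 1
    rw [← Finset.prod_erase_mul _ _ (Finset.mem_univ i)]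
    congr 1
    · apply Finset.prod_congr rfl
      intro j hj
      rw [Matrix.updateCol_ne (Finset.ne_of_mem_erase hj)]
    · rw [Matrix.updateCol_self]
  simp_rw [h8]
  rw [Finset.sum_comm]
  apply Finset.sum_congr rfl
  intro σ _
  rw [Finset.mul_sum]

/-- Jacobi's formula -/
theorem mat_det_deriv (A B : Matrix (Fin n) (Fin n) ℂ) (s : ℝ) :
    HasDerivAt (fun s : ℝ => (A + (s : ℂ) • B).det.re)
      (((A + (s : ℂ) • B).adjugate * B).trace).re s := by
  have h := mat_det_deriv_aux A B s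
  exact (Complex.reCLM.hasFDerivAt (x := (A + (s : ℂ) • B).det)).comp_hasDerivAt s h

theorem mat_smul_psd {A : Matrix (Fin n) (Fin n) ℂ} (hA : A.PosSemidef) {s : ℝ} (hs : 0 ≤ s) :
    ((s : ℂ) • A).PosSemidef := by
  apply hA.smul
  exact_mod_cast hs

theorem mat_det_mvt (A B : Matrix (Fin n) (Fin n) ℂ) :
    ∃ s : ℝ, 0 < s ∧ s < 1 ∧
      (A + B).det.re - A.det.re = (((A + (s : ℂ) • B).adjugate * B).trace).re := by
  obtain ⟨s, hs, h⟩ := exists_hasDerivAt_eq_slope (fun s : ℝ => (A + (s : ℂ) • B).det.re)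
    (fun s : ℝ => (((A + (s : ℂ) • B).adjugate * B).trace).re) (a := 0) (b := 1) one_pos
    (fun x _ => (mat_det_deriv A B x).continuousAt.continuousWithinAt)
    (fun x _ => mat_det_deriv A B x)
  refine ⟨s, hs.1, hs.2, ?_⟩
  rw [h]
  simp

theorem mat_det_mono {A B : Matrix (Fin n) (Fin n) ℂ} (hA : A.PosSemidef) (hB : B.PosSemidef) :
    A.det.re ≤ (A + B).det.re := by
  obtain ⟨s, h0, h1, h⟩ := mat_det_mvt A B
  have h2 := mat_trace_mul (mat_adj_psd (hA.add (mat_smul_psd hB h0.le))) hB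
  linarith

/-- bound for the mixed term -/
theorem mat_trace_adj {A H : Matrix (Fin n) (Fin n) ℂ} (hA : A.PosSemidef) {c : ℝ}
    (h1 : ((c : ℂ) • (1 : Matrix (Fin n) (Fin n) ℂ) - H).PosSemidef)
    (h2 : ((c : ℂ) • (1 : Matrix (Fin n) (Fin n) ℂ) + H).PosSemidef) :
    |((A.adjugate * H).trace).re| ≤ c * (A.adjugate.trace).re := by
  have h3 := mat_trace_mul (mat_adj_psd hA) h1
  have h4 := mat_trace_mul (mat_adj_psd hA) h2
  rw [Matrix.mul_sub, Matrix.trace_sub, Matrix.mul_smul, Matrix.mul_one, Matrix.trace_smul] at h3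
  rw [Matrix.mul_add, Matrix.trace_add, Matrix.mul_smul, Matrix.mul_one, Matrix.trace_smul] at h4
  rw [abs_le]
  simp only [smul_eq_mul, Complex.sub_re, Complex.add_re, Complex.re_ofReal_mul] at h3 h4
  constructor <;> linarith

theorem mat_trace_adj_mono {A : Matrix (Fin n) (Fin n) ℂ} (hA : A.PosSemidef) {s : ℝ}
    (hs : 0 ≤ s) :
    (A.adjugate.trace).re ≤
      ((A + (s : ℂ) • (1 : Matrix (Fin n) (Fin n) ℂ)).adjugate.trace).re := by
  rcases n with _ | m
  · simp [Matrix.trace]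
  · rw [Matrix.trace, Matrix.trace, Complex.re_sum, Complex.re_sum]
    apply Finset.sum_le_sum
    intro i _
    rw [Matrix.diag_apply, Matrix.diag_apply, adjugate_fin_succ_eq_det_submatrix,
      adjugate_fin_succ_eq_det_submatrix]
    have h1 : ((-1 : ℂ)) ^ ((i : ℕ) + (i : ℕ)) = 1 := by
      rw [← two_mul, pow_mul]; norm_num
    rw [h1, one_mul, one_mul]
    have h2 : (A + (s : ℂ) • (1 : Matrix (Fin (m + 1)) (Fin (m + 1)) ℂ)).submatrix
        i.succAbove i.succAbove = A.submatrix i.succAbove i.succAbove +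
          (s : ℂ) • (1 : Matrix (Fin m) (Fin m) ℂ) := by
      rw [Matrix.submatrix_add, Pi.add_apply, Pi.add_apply, Matrix.submatrix_smul]
      congr 1
      rw [Pi.smul_apply, Pi.smul_apply]
      rw [Matrix.submatrix_one _ Fin.succAbove_right_injective]
    rw [h2]
    exact mat_det_mono (hA.submatrix _) (mat_smul_psd Matrix.PosSemidef.one hs)

theorem mat_trace_adj_le {A : Matrix (Fin n) (Fin n) ℂ} (hA : A.PosSemidef) :
    0 ≤ (A.adjugate.trace).re ∧ (A.adjugate.trace).re ≤ (A + 1).det.re := by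
  constructor
  · have h := (mat_adj_psd hA).trace_nonneg
    rw [Complex.le_def] at h
    exact h.1
  · obtain ⟨s, h0, h1, h⟩ := mat_det_mvt A 1
    rw [Matrix.mul_one] at h
    have h2 := mat_trace_adj_mono hA h0.le
    have h3 := (mat_det_nonneg hA).1
    linarith

theorem mat_det_convex {A B : Matrix (Fin n) (Fin n) ℂ} (hA : A.PosSemidef) (hB : B.PosSemidef)
    {s : ℝ} (h0 : 0 ≤ s) (h1 : s ≤ 1) :
    s ^ n * B.det.re ≤ (((1 - s : ℝ) : ℂ) • A + (s : ℂ) • B).det.re := by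
  have h2 := mat_det_mono (mat_smul_psd hB h0) (mat_smul_psd hA (sub_nonneg.2 h1))
  rw [add_comm, Matrix.det_smul, Fintype.card_fin, ← Complex.ofReal_pow,
    Complex.re_ofReal_mul] at h2
  exact h2

theorem mat_star_det (M : Matrix (Fin n) (Fin n) ℂ) :
    M.det * (Mᴴ).det = ((‖M.det‖ ^ 2 : ℝ) : ℂ) := by
  rw [Matrix.det_conjTranspose]
  have := Complex.mul_conj M.det
  rw [Complex.normSq_eq_norm_sq] at this
  exact this

theorem mat_det_conj (M A : Matrix (Fin n) (Fin n) ℂ) :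
    (M * A * Mᴴ).det = ((‖M.det‖ ^ 2 : ℝ) : ℂ) * A.det := by
  rw [Matrix.det_mul, Matrix.det_mul, ← mat_star_det]
  ring

theorem mat_adj_conj (M A B : Matrix (Fin n) (Fin n) ℂ) :
    ((M * A * Mᴴ).adjugate * (M * B * Mᴴ)).trace =
      ((‖M.det‖ ^ 2 : ℝ) : ℂ) * (A.adjugate * B).trace := by
  have h1 : (M * A * Mᴴ).adjugate * (M * B * Mᴴ) =
      M.det • ((Mᴴ).adjugate * ((A.adjugate * B) * Mᴴ)) := by
    rw [adjugate_mul_distrib, adjugate_mul_distrib]
    calc (Mᴴ).adjugate * (A.adjugate * M.adjugate) * (M * B * Mᴴ)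
        = (Mᴴ).adjugate * A.adjugate * (M.adjugate * M) * (B * Mᴴ) := by
          simp only [Matrix.mul_assoc]
      _ = _ := by
          rw [adjugate_mul, Matrix.mul_smul, Matrix.mul_one, Matrix.smul_mul]
          simp only [Matrix.mul_assoc]
  rw [h1, Matrix.trace_smul, Matrix.trace_mul_comm, Matrix.mul_assoc, Matrix.mul_adjugate,
    Matrix.mul_smul, Matrix.mul_one, Matrix.trace_smul, ← mat_star_det, smul_eq_mul, smul_eq_mul,
    mul_assoc]

theorem mat_quad_bound {H : Matrix (Fin n) (Fin n) ℂ} {c : ℝ} (hc : ∀ i j, ‖H i j‖ ≤ c)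
    (x : Fin n → ℂ) : ‖star x ⬝ᵥ (H *ᵥ x)‖ ≤ n * c * ∑ i, ‖x i‖ ^ 2 := by
  rcases n with _ | m
  · simp
  have hc0 : 0 ≤ c := (norm_nonneg _).trans (hc 0 0)
  have h1 : ‖star x ⬝ᵥ (H *ᵥ x)‖ ≤ ∑ i, ∑ j, ‖x i‖ * (c * ‖x j‖) := by
    rw [dotProduct]
    refine (norm_sum_le _ _).trans (Finset.sum_le_sum fun i _ => ?_)
    rw [norm_mul, Pi.star_apply, norm_star, ← Finset.mul_sum]
    refine mul_le_mul_of_nonneg_left ?_ (norm_nonneg _)
    rw [mulVec, dotProduct]
    refine (norm_sum_le _ _).trans (Finset.sum_le_sum fun j _ => ?_)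
    rw [norm_mul]
    exact mul_le_mul_of_nonneg_right (hc i j) (norm_nonneg _)
  have h2 : ∑ i, ∑ j, ‖x i‖ * (c * ‖x j‖) = c * (∑ i, ‖x i‖) ^ 2 := by
    simp_rw [← Finset.mul_sum]
    rw [← Finset.sum_mul]
    ring
  have h3 : (∑ i, ‖x i‖) ^ 2 ≤ (m + 1 : ℕ) * ∑ i, ‖x i‖ ^ 2 := by
    have := sq_sum_le_card_mul_sum_sq (s := (Finset.univ : Finset (Fin (m + 1))))
      (f := fun i => ‖x i‖)
    simpa using this
  calc ‖star x ⬝ᵥ (H *ᵥ x)‖ ≤ c * (∑ i, ‖x i‖) ^ 2 := h2 ▸ h1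
    _ ≤ c * ((m + 1 : ℕ) * ∑ i, ‖x i‖ ^ 2) := mul_le_mul_of_nonneg_left h3 hc0
    _ = _ := by ring

theorem mat_herm_bound {H : Matrix (Fin n) (Fin n) ℂ} (hH : H.IsHermitian) {c : ℝ}
    (hc : ∀ i j, ‖H i j‖ ≤ c) :
    (((n * c : ℝ) : ℂ) • (1 : Matrix (Fin n) (Fin n) ℂ) - H).PosSemidef ∧
      (((n * c : ℝ) : ℂ) • (1 : Matrix (Fin n) (Fin n) ℂ) + H).PosSemidef := by
  have key : ∀ G : Matrix (Fin n) (Fin n) ℂ, G.IsHermitian → (∀ i j, ‖G i j‖ ≤ c) →
      (((n * c : ℝ) : ℂ) • (1 : Matrix (Fin n) (Fin n) ℂ) + G).PosSemidef := by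
    intro G hG hcG
    have h1 : (((n * c : ℝ) : ℂ) • (1 : Matrix (Fin n) (Fin n) ℂ)).IsHermitian := by
      rw [Matrix.IsHermitian, Matrix.conjTranspose_smul, Matrix.conjTranspose_one]
      simp
    have hherm := h1.add hG
    refine Matrix.PosSemidef.of_dotProduct_mulVec_nonneg hherm fun x => ?_
    have him : (star x ⬝ᵥ (G *ᵥ x)).im = 0 := by
      have h5 := hG.im_star_dotProduct_mulVec_self x
      simpa using h5
    have h6 : star x ⬝ᵥ ((((n * c : ℝ) : ℂ) • (1 : Matrix (Fin n) (Fin n) ℂ) + G) *ᵥ x) =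
        ((n * c * ∑ i, ‖x i‖ ^ 2 : ℝ) : ℂ) + star x ⬝ᵥ (G *ᵥ x) := by
      rw [Matrix.add_mulVec, dotProduct_add, Matrix.smul_mulVec, Matrix.one_mulVec,
        dotProduct_smul]
      congr 1
      rw [smul_eq_mul, Complex.ofReal_mul (n * c) (∑ i, ‖x i‖ ^ 2)]
      congr 1
      rw [dotProduct, Complex.ofReal_sum]
      apply Finset.sum_congr rfl
      intro i _
      rw [Pi.star_apply, mul_comm]
      have := Complex.mul_conj (x i)
      rw [Complex.normSq_eq_norm_sq] at this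
      exact this
    rw [h6, Complex.le_def]
    constructor
    · rw [Complex.zero_re, Complex.add_re, Complex.ofReal_re]
      have h7 := mat_quad_bound hcG x
      have h8 := Complex.abs_re_le_norm (star x ⬝ᵥ (G *ᵥ x))
      have h9 := neg_abs_le (star x ⬝ᵥ (G *ᵥ x)).re
      linarith
    · rw [Complex.zero_im, Complex.add_im, Complex.ofReal_im, him, add_zero]
  refine ⟨?_, key H hH hc⟩
  rw [sub_eq_add_neg]
  exact key (-H) hH.neg (fun i j => by rw [Matrix.neg_apply, norm_neg]; exact hc i j)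

end HMA
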