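import Pool.Agent.H85.KM.CPn
import Pool.Agent.H85.KM.Mat

/-! # Module CLN: Chern-Levine-Nirenberg inequality -/

open MeasureTheory Metric Set
open scoped ENNReal Topology ContDiff ComplexOrder

namespace HMA

theorem CLN_smooth {n : ℕ} (c : ℝ) : ContDiff ℝ ∞ (fun z : Cn n => ‖z‖ ^ 2 + c) :=
  (contDiff_norm_sq ℂ).add contDiff_const

theorem CLN_line {n : ℕ} (w η : Cn n) (t : ℝ) :
    ‖w + t • η‖ ^ 2 = ‖w‖ ^ 2 + 2 * t * (inner ℂ w η).re + t ^ 2 * ‖η‖ ^ 2 := by
  have h1 : w + t • η = w + (t : ℂ) • η := by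
    rw [← Complex.coe_smul]
  rw [h1, norm_add_sq (𝕜 := ℂ), inner_smul_right, norm_smul, mul_pow]
  simp only [RCLike.re_eq_complex_re, Complex.re_ofReal_mul, Complex.norm_real, Real.norm_eq_abs,
    sq_abs]
  ring

theorem CLN_fderiv {n : ℕ} (c : ℝ) (w η : Cn n) :
    fderiv ℝ (fun z : Cn n => ‖z‖ ^ 2 + c) w η = 2 * (inner ℂ w η).re := by
  have hd : DifferentiableAt ℝ (fun z : Cn n => ‖z‖ ^ 2 + c) w :=
    (CLN_smooth c).differentiable (by simp) w
  rw [← hd.lineDeriv_eq_fderiv]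
  unfold lineDeriv
  have h1 : (fun t : ℝ => ‖w + t • η‖ ^ 2 + c) = fun t : ℝ =>
      (‖w‖ ^ 2 + 2 * t * (inner ℂ w η).re + t ^ 2 * ‖η‖ ^ 2) + c := by
    funext t
    rw [CLN_line]
  rw [h1]
  have h2 : HasDerivAt (fun t : ℝ => (‖w‖ ^ 2 + 2 * t * (inner ℂ w η).re +
      t ^ 2 * ‖η‖ ^ 2) + c) (2 * (inner ℂ w η).re) 0 := by
    have a1 : HasDerivAt (fun t : ℝ => 2 * t * (inner ℂ w η).re)
        (2 * (inner ℂ w η).re) 0 := by
      have := ((hasDerivAt_id (0 : ℝ)).const_mul 2).mul_const ((inner ℂ w η).re)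
      simpa using this
    have a2 : HasDerivAt (fun t : ℝ => t ^ 2 * ‖η‖ ^ 2) 0 0 := by
      have := (hasDerivAt_pow 2 (0 : ℝ)).mul_const (‖η‖ ^ 2)
      simpa using this
    have a3 := ((a1.const_add (‖w‖ ^ 2)).add a2).add_const c
    simpa using a3
  exact h2.deriv

theorem CLN_fderiv_diff {n : ℕ} (c : ℝ) (z : Cn n) :
    DifferentiableAt ℝ (fderiv ℝ (fun z : Cn n => ‖z‖ ^ 2 + c)) z := by
  have h : ContDiff ℝ 1 (fderiv ℝ (fun z : Cn n => ‖z‖ ^ 2 + c)) :=
    (CLN_smooth c).fderiv_right (by norm_cast)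
  exact h.differentiable (by simp) z

theorem CLN_twD {n : ℕ} (c : ℝ) (z : Cn n) : TwD (fun z : Cn n => ‖z‖ ^ 2 + c) z :=
  ⟨Filter.Eventually.of_forall fun w => (CLN_smooth c).differentiable (by simp) w,
    CLN_fderiv_diff c z⟩

theorem CLN_hes {n : ℕ} (c : ℝ) (z a b : Cn n) :
    hes (fun z : Cn n => ‖z‖ ^ 2 + c) z a b = 2 * (inner ℂ a b).re := by
  unfold hes
  have h1 : fderiv ℝ (fderiv ℝ (fun z : Cn n => ‖z‖ ^ 2 + c)) z a b =
      fderiv ℝ (fun w => fderiv ℝ (fun z : Cn n => ‖z‖ ^ 2 + c) w b) z a := by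
    rw [fderiv_clm_apply (CLN_fderiv_diff c z) (differentiableAt_const b)]
    simp
  rw [h1]
  have h2 : (fun w => fderiv ℝ (fun z : Cn n => ‖z‖ ^ 2 + c) w b) = fun w =>
      2 * (inner ℂ w b).re := by
    funext w
    rw [CLN_fderiv]
  rw [h2]
  let L : Cn n →ₗ[ℝ] ℝ :=
    { toFun := fun w => 2 * (inner ℂ w b).re
      map_add' := fun x y => by
        rw [inner_add_left, Complex.add_re]; ring
      map_smul' := fun t x => by
        have : t • x = (t : ℂ) • x := by rw [← Complex.coe_smul]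
        rw [this, inner_smul_left, Complex.conj_ofReal, Complex.re_ofReal_mul]
        simp only [RingHom.id_apply, smul_eq_mul]
        ring }
  have h3 : (fun w : Cn n => 2 * (inner ℂ w b).re) = (LinearMap.toContinuousLinearMap L) := rfl
  rw [h3, ContinuousLinearMap.fderiv]
  rfl

theorem CLN_LM {n : ℕ} (c : ℝ) (z : Cn n) : LM (fun z : Cn n => ‖z‖ ^ 2 + c) z = 1 := by
  ext j k
  unfold LM
  rw [CLN_hes, CLN_hes, CLN_hes, CLN_hes]
  unfold bv
  simp only [inner_smul_left, inner_smul_right, EuclideanSpace.inner_single_left]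
  by_cases hjk : j = k
  · subst hjk
    simp
    norm_num
  · rw [Matrix.one_apply_ne hjk]
    simp [hjk]

theorem cln (n : ℕ) : ∃ C : ℝ, 0 < C ∧ ∀ (u : Cn n → ℝ) (M : ℝ), 1 ≤ M →
    C11 (ball 0 (5 / 2)) u → SubOn (ball 0 (5 / 2)) u → (∀ z ∈ ball (0 : Cn n) (5 / 2), |u z| ≤ M) →
      ∫⁻ z in ball (0 : Cn n) 2, ENNReal.ofReal (((LM u z).adjugate.trace).re) ≤
        ENNReal.ofReal (C * M ^ n) := by
  set V : ℝ := (volume (closedBall (0 : Cn n) (12 / 5))).toReal with hV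
  have hVfin : volume (closedBall (0 : Cn n) (12 / 5)) ≠ ⊤ := measure_closedBall_lt_top.ne
  refine ⟨9 ^ n * (V + 1), by positivity, ?_⟩
  intro u M hM hu hus hub
  have hΩ : IsOpen (ball (0 : Cn n) (5 / 2)) := isOpen_ball
  set a : ℝ := 2 * M + 7 with ha
  have ha0 : 0 < a := by linarith
  set q : Cn n → ℝ := fun z => ‖z‖ ^ 2 + (-(M + 25 / 4)) with hq
  set w : Cn n → ℝ := fun z => a⁻¹ * (u z + q z) with hw
  set g : Cn n → ℝ := fun z => ‖z‖ ^ 2 + (-(11 / 2)) with hg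
  have hqC : C11 (ball 0 (5 / 2)) q :=
    c11_of_contDiffOn hΩ ((CLN_smooth _).of_le (by norm_cast)).contDiffOn
  have hgC : C11 (ball 0 (5 / 2)) g :=
    c11_of_contDiffOn hΩ ((CLN_smooth _).of_le (by norm_cast)).contDiffOn
  have hwC : C11 (ball 0 (5 / 2)) w := (hu.add hΩ hqC).const_mul hΩ a⁻¹
  have hone : (1 : Matrix (Fin n) (Fin n) ℂ).PosSemidef := Matrix.PosSemidef.one
  have hpsd := (c11_sub_iff hΩ hu).1 hus
  have htw := hu.ae_twD hΩ
  have hLMw : ∀ z, TwD u z → LM w z = ((a⁻¹ : ℝ) : ℂ) • (LM u z + 1) := by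
    intro z hz
    have h1 := hz.add (CLN_twD (-(M + 25 / 4)) z)
    have h2 := h1.1.const_mul a⁻¹
    rw [hw, hq]
    rw [h2.2, h1.2, CLN_LM]
  have hwS : SubOn (ball 0 (5 / 2)) w := by
    rw [c11_sub_iff hΩ hwC]
    filter_upwards [hpsd, htw] with z h1 h2 hz
    rw [hLMw z (h2 hz)]
    exact mat_smul_psd ((h1 hz).add hone) (by positivity)
  have hgS : SubOn (ball 0 (5 / 2)) g := by
    rw [c11_sub_iff hΩ hgC]
    refine Filter.Eventually.of_forall fun z _ => ?_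
    rw [hg, CLN_LM]
    exact hone
  have hw1 : ∀ z ∈ ball (0 : Cn n) (5 / 2), -1 ≤ w z ∧ w z ≤ 0 := by
    intro z hz
    have h1 := abs_le.1 (hub z hz)
    rw [mem_ball_zero_iff] at hz
    have h2 : ‖z‖ ^ 2 ≤ 25 / 4 := by nlinarith [norm_nonneg z]
    have h3 : 0 ≤ ‖z‖ ^ 2 := by positivity
    constructor
    · have h4 : -a ≤ u z + q z := by
        rw [hq, ha]; simp only; linarith
      have h5 : a⁻¹ * (-a) ≤ a⁻¹ * (u z + q z) :=
        mul_le_mul_of_nonneg_left h4 (by positivity)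
      have h6 : a⁻¹ * (-a) = -1 := by field_simp
      rw [h6] at h5
      exact h5
    · have h4 : u z + q z ≤ 0 := by
        rw [hq]; simp only; linarith
      exact mul_nonpos_of_nonneg_of_nonpos (by positivity) h4
  have hcp := cp hΩ hwC hgC hwS hgS (isCompact_closedBall (0 : Cn n) (12 / 5))
    (closedBall_subset_ball (by norm_num)) (η := 1 / 10) (by norm_num) (by
      intro z hz hzL
      rw [mem_closedBall_zero_iff, not_le] at hzL
      have h1 := (hw1 z hz).2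
      have h2 : (144 : ℝ) / 25 ≤ ‖z‖ ^ 2 := by nlinarith
      have h3 : g z = ‖z‖ ^ 2 + (-(11 / 2)) := rfl
      rw [h3]
      linarith)
  have hmg : ∀ z, mad g z = 1 := by
    intro z
    unfold mad
    rw [hg, CLN_LM, Matrix.det_one, Complex.one_re]
  have hR : ∫⁻ z in closedBall (0 : Cn n) (12 / 5), ENNReal.ofReal (mad g z) =
      volume (closedBall (0 : Cn n) (12 / 5)) := by
    simp only [hmg, ENNReal.ofReal_one, setLIntegral_one]
  rw [hR] at hcp
  have hsub : ball (0 : Cn n) 2 ⊆ {z | z ∈ ball (0 : Cn n) (5 / 2) ∧ g z + 1 / 10 < w z} := by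
    intro z hz
    have hz2 : z ∈ ball (0 : Cn n) (5 / 2) := ball_subset_ball (by norm_num) hz
    refine ⟨hz2, ?_⟩
    have h1 := (hw1 z hz2).1
    rw [mem_ball_zero_iff] at hz
    have h2 : ‖z‖ ^ 2 ≤ 4 := by nlinarith [norm_nonneg z]
    have h3 : g z = ‖z‖ ^ 2 + (-(11 / 2)) := rfl
    rw [h3]
    linarith
  have hmw : ∀ z, TwD u z → (LM u z + 1).det.re = a ^ n * mad w z := by
    intro z hz
    unfold mad
    rw [hLMw z hz, Matrix.det_smul, Fintype.card_fin, ← Complex.ofReal_pow, Complex.re_ofReal_mul,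
      ← mul_assoc, ← mul_pow, mul_inv_cancel₀ ha0.ne', one_pow, one_mul]
  calc ∫⁻ z in ball (0 : Cn n) 2, ENNReal.ofReal (((LM u z).adjugate.trace).re)
      ≤ ∫⁻ z in ball (0 : Cn n) 2, ENNReal.ofReal (a ^ n) * ENNReal.ofReal (mad w z) := by
        apply setLIntegral_mono_ae' measurableSet_ball
        filter_upwards [hpsd, htw] with z h1 h2 hz
        have hz2 : z ∈ ball (0 : Cn n) (5 / 2) := ball_subset_ball (by norm_num) hz
        rw [← ENNReal.ofReal_mul (by positivity), ← hmw z (h2 hz2)]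
        exact ENNReal.ofReal_le_ofReal (mat_trace_adj_le (h1 hz2)).2
    _ = ENNReal.ofReal (a ^ n) * ∫⁻ z in ball (0 : Cn n) 2, ENNReal.ofReal (mad w z) :=
        lintegral_const_mul' _ _ ENNReal.ofReal_ne_top
    _ ≤ ENNReal.ofReal (a ^ n) * volume (closedBall (0 : Cn n) (12 / 5)) := by
        gcongr
        exact (lintegral_mono_set hsub).trans hcp
    _ = ENNReal.ofReal (a ^ n * V) := by
        rw [ENNReal.ofReal_mul (by positivity), hV, ENNReal.ofReal_toReal hVfin]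
    _ ≤ ENNReal.ofReal (9 ^ n * (V + 1) * M ^ n) := by
        apply ENNReal.ofReal_le_ofReal
        have h1 : a ^ n ≤ (9 * M) ^ n := pow_le_pow_left₀ ha0.le (by rw [ha]; linarith) n
        have h2 : 0 ≤ V := ENNReal.toReal_nonneg
        calc a ^ n * V ≤ (9 * M) ^ n * (V + 1) := by
              apply mul_le_mul h1 (by linarith) h2 (by positivity)
          _ = 9 ^ n * (V + 1) * M ^ n := by rw [mul_pow]; ring

end HMA
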