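import Pool.Agent.H85.KM.Defs
import Pool.Agent.H85.MA.PshBall
import Pool.Agent.H85.MA.LExt

/-! # Module LocGlob: the local sub-mean value property implies the global one -/

open MeasureTheory Metric Set
open scoped ENNReal Topology ContDiff ComplexOrder

namespace HMA

/-- continuous functions with the mean value property -/
structure LocGlob_MV (F : ℂ → ℂ) : Prop where
  cont : Continuous F
  mv : ∀ (c : ℂ) (s : ℝ), Real.circleAverage F c s = F c

theorem LocGlob_MV.add {F G : ℂ → ℂ} (hF : LocGlob_MV F) (hG : LocGlob_MV G) :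
    LocGlob_MV (fun z => F z + G z) := by
  refine ⟨hF.cont.add hG.cont, fun c s => ?_⟩
  rw [Real.circleAverage_fun_add hF.cont.continuousOn.circleIntegrable'
    hG.cont.continuousOn.circleIntegrable', hF.mv, hG.mv]

theorem LocGlob_MV.smul {F : ℂ → ℂ} (hF : LocGlob_MV F) (a : ℂ) :
    LocGlob_MV (fun z => a * F z) := by
  refine ⟨continuous_const.mul hF.cont, fun c s => ?_⟩
  have h := Real.circleAverage_fun_smul (a := a) (f := F) (c := c) (R := s)
  simp only [smul_eq_mul] at h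
  rw [h, hF.mv]

theorem LocGlob_MV.pow (n : ℕ) : LocGlob_MV (fun z => z ^ n) := by
  refine ⟨continuous_pow n, fun c s => ?_⟩
  exact DiffContOnCl.circleAverage ((differentiable_pow n).diffContOnCl)

theorem LocGlob_MV.conj {F : ℂ → ℂ} (hF : LocGlob_MV F) :
    LocGlob_MV (fun z => (starRingEnd ℂ) (F z)) := by
  refine ⟨Complex.continuous_conj.comp hF.cont, fun c s => ?_⟩
  have h := (Complex.conjCLE : ℂ →L[ℝ] ℂ).circleAverage_comp_comm
    (f := F) (c := c) (R := s) hF.cont.continuousOn.circleIntegrable'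
  rw [hF.mv] at h
  simpa [Function.comp_def] using h

theorem LocGlob_span (f : C(AddCircle (2 * Real.pi), ℂ))
    (hf : f ∈ Submodule.span ℂ (range (@fourier (2 * Real.pi)))) :
    ∃ F : ℂ → ℂ, LocGlob_MV F ∧ ∀ x, f x = F (AddCircle.toCircle x : ℂ) := by
  induction hf using Submodule.span_induction with
  | mem f hf =>
    obtain ⟨n, rfl⟩ := hf
    obtain ⟨m, rfl | rfl⟩ := n.eq_nat_or_neg
    · refine ⟨fun z => z ^ m, LocGlob_MV.pow m, fun x => ?_⟩
      rw [fourier_apply, AddCircle.toCircle_zsmul]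
      simp
    · refine ⟨fun z => (starRingEnd ℂ) (z ^ m), (LocGlob_MV.pow m).conj, fun x => ?_⟩
      rw [fourier_neg, fourier_apply, AddCircle.toCircle_zsmul]
      simp
  | zero =>
    refine ⟨fun _ => 0, ⟨continuous_const, fun c s => by simp [Real.circleAverage_const]⟩,
      fun x => by simp⟩
  | add f g _ _ h1 h2 =>
    obtain ⟨F, hF, hF'⟩ := h1
    obtain ⟨G, hG, hG'⟩ := h2
    exact ⟨_, hF.add hG, fun x => by simp [hF', hG']⟩
  | smul a f _ h1 =>
    obtain ⟨F, hF, hF'⟩ := h1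
    exact ⟨_, hF.smul a, fun x => by simp [hF']⟩

/-- harmonic approximation from above of continuous functions on the unit circle -/
theorem LocGlob_harm {g : ℂ → ℝ} (hg : Continuous g) {ε : ℝ} (hε : 0 < ε) :
    ∃ h : ℂ → ℝ, Continuous h ∧
      (∀ (c : ℂ) (s : ℝ), (2 * Real.pi)⁻¹ * ∫ θ in (0 : ℝ)..(2 * Real.pi),
        h (c + s * Complex.exp (θ * Complex.I)) = h c) ∧
      ∀ z : ℂ, ‖z‖ = 1 → g z ≤ h z ∧ h z ≤ g z + 2 * ε := by
  have : Fact (0 < 2 * Real.pi) := ⟨Real.two_pi_pos⟩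
  set G : C(AddCircle (2 * Real.pi), ℂ) :=
    ⟨fun x => ((g (AddCircle.toCircle x : ℂ) : ℝ) : ℂ),
      Complex.continuous_ofReal.comp (hg.comp
        (continuous_subtype_val.comp AddCircle.continuous_toCircle))⟩ with hG
  have h1 : G ∈ (Submodule.span ℂ (range (@fourier (2 * Real.pi)))).topologicalClosure := by
    rw [span_fourier_closure_eq_top]; trivial
  rw [← SetLike.mem_coe, Submodule.topologicalClosure_coe, Metric.mem_closure_iff] at h1
  obtain ⟨f, hf, hfG⟩ := h1 ε hε
  obtain ⟨F, hF, hF'⟩ := LocGlob_span f hf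
  refine ⟨fun z => (F z).re + ε, (Complex.continuous_re.comp hF.cont).add continuous_const,
    fun c s => ?_, fun z hz => ?_⟩
  · have h2 := hF.mv c s
    rw [Real.circleAverage_def] at h2
    have h3 : (∫ θ in (0 : ℝ)..(2 * Real.pi), F (circleMap c s θ)) = (2 * Real.pi : ℝ) • F c := by
      rw [← h2, smul_smul, mul_inv_cancel₀ Real.two_pi_pos.ne', one_smul]
    have hint : IntervalIntegrable (fun θ : ℝ => F (circleMap c s θ)) volume 0 (2 * Real.pi) :=
      (hF.cont.comp (continuous_circleMap c s)).intervalIntegrable _ _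
    have h4 := Complex.reCLM.intervalIntegral_comp_comm hint
    simp only [Complex.reCLM_apply] at h4
    rw [h3] at h4
    have h5 : (∫ θ in (0 : ℝ)..(2 * Real.pi), ((F (c + s * Complex.exp (θ * Complex.I))).re + ε)) =
        2 * Real.pi * ((F c).re + ε) := by
      rw [intervalIntegral.integral_add]
      · have h6 : (∫ θ in (0 : ℝ)..(2 * Real.pi), (F (c + s * Complex.exp (θ * Complex.I))).re) =
            2 * Real.pi * (F c).re := by
          simp only [circleMap] at h4
          rw [h4]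
          simp
        rw [h6]
        simp
        ring
      · exact (Continuous.intervalIntegrable (by
          have := hF.cont
          fun_prop) _ _)
      · exact continuous_const.intervalIntegrable _ _
    change (2 * Real.pi)⁻¹ * (∫ θ in (0 : ℝ)..(2 * Real.pi),
      ((F (c + s * Complex.exp (θ * Complex.I))).re + ε)) = _
    rw [h5, ← mul_assoc, inv_mul_cancel₀ Real.two_pi_pos.ne', one_mul]
  · obtain ⟨x, hx⟩ := (AddCircle.homeomorphCircle (T := 2 * Real.pi) Real.two_pi_pos.ne').surjective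
      ⟨z, by simpa [Submonoid.unitSphere] using hz⟩
    have hx' : (AddCircle.toCircle x : ℂ) = z := by
      rw [← AddCircle.homeomorphCircle_apply Real.two_pi_pos.ne', hx]
    have h2 : ‖G x - f x‖ < ε := by
      have h3 := ContinuousMap.norm_coe_le_norm (G - f) x
      rw [dist_eq_norm] at hfG
      simp only [ContinuousMap.coe_sub, Pi.sub_apply] at h3
      exact lt_of_le_of_lt h3 hfG
    rw [hF' x, hx'] at h2
    have h3 : G x = ((g z : ℝ) : ℂ) := by rw [hG]; simp [hx']
    rw [h3] at h2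
    have h4 := (Complex.abs_re_le_norm _).trans_lt h2
    rw [Complex.sub_re, Complex.ofReal_re, abs_lt] at h4
    constructor <;> linarith [h4.1, h4.2]


/-- approximation from above of bounded usc functions on the circle by continuous functions -/
theorem LocGlob_usc {φ : ℂ → ℝ} (hφ : UpperSemicontinuousOn φ (sphere (0 : ℂ) 1)) {M : ℝ}
    (hM : ∀ z : ℂ, ‖z‖ = 1 → |φ z| ≤ M) {ε : ℝ} (hε : 0 < ε) :
    ∃ g : ℂ → ℝ, Continuous g ∧ (∀ z : ℂ, ‖z‖ = 1 → φ z ≤ g z) ∧
      (2 * Real.pi)⁻¹ * (∫ θ in (0 : ℝ)..(2 * Real.pi), g (Complex.exp (θ * Complex.I))) ≤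
      (2 * Real.pi)⁻¹ * (∫ θ in (0 : ℝ)..(2 * Real.pi), φ (Complex.exp (θ * Complex.I))) + ε := by
  have hM0 : 0 ≤ M := (abs_nonneg _).trans (hM 1 (by simp))
  set S : Set ℂ := sphere (0 : ℂ) 1 with hS
  have hSm : ∀ z : ℂ, z ∈ S ↔ ‖z‖ = 1 := fun z => by simp [hS]
  have hSne : S.Nonempty := ⟨1, by simp [hS]⟩
  set G : ℕ → ℂ → ℝ := fun k x => sSup ((fun y => φ y - k * dist x y) '' S) with hG
  have hbdd : ∀ (k : ℕ) (x : ℂ), BddAbove ((fun y => φ y - k * dist x y) '' S) := by
    intro k x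
    refine ⟨M, ?_⟩
    rintro _ ⟨y, hy, rfl⟩
    have h1 := (abs_le.1 (hM y ((hSm y).1 hy))).2
    have h2 : 0 ≤ (k : ℝ) * dist x y := by positivity
    simp only
    linarith
  have hle : ∀ (k : ℕ) (x y : ℂ), y ∈ S → φ y - k * dist x y ≤ G k x := fun k x y hy =>
    le_csSup (hbdd k x) ⟨y, hy, rfl⟩
  have hge : ∀ (k : ℕ) (x : ℂ) (c : ℝ), (∀ y ∈ S, φ y - k * dist x y ≤ c) → G k x ≤ c := by
    intro k x c h
    refine csSup_le (hSne.image _) ?_
    rintro _ ⟨y, hy, rfl⟩
    exact h y hy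
  have hlip : ∀ k : ℕ, Continuous (G k) := by
    intro k
    have h1 : LipschitzWith k (G k) := by
      refine LipschitzWith.of_le_add_mul _ fun x y => ?_
      refine hge k x _ fun z hz => ?_
      have h2 := hle k y z hz
      have h3 : dist y z ≤ dist x y + dist x z := by
        rw [dist_comm x y]; exact dist_triangle _ _ _
      have h4 : (k : ℝ) * dist y z ≤ k * (dist x y + dist x z) :=
        mul_le_mul_of_nonneg_left h3 (Nat.cast_nonneg k)
      simp only [NNReal.coe_natCast]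
      linarith
    exact h1.continuous
  have hup : ∀ (k : ℕ) (z : ℂ), ‖z‖ = 1 → φ z ≤ G k z := by
    intro k z hz
    have := hle k z z ((hSm z).2 hz)
    simpa using this
  have hGM : ∀ (k : ℕ) (z : ℂ), G k z ≤ M := by
    intro k z
    refine hge k z _ fun y hy => ?_
    have h1 := (abs_le.1 (hM y ((hSm y).1 hy))).2
    have h2 : 0 ≤ (k : ℝ) * dist z y := by positivity
    linarith
  have hlim : ∀ z : ℂ, ‖z‖ = 1 → Filter.Tendsto (fun k => G k z) Filter.atTop (𝓝 (φ z)) := by
    intro z hz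
    rw [Metric.tendsto_atTop]
    intro e he
    have h1 := hφ z ((hSm z).2 hz) (φ z + e / 2) (by linarith)
    rw [Filter.Eventually, Metric.mem_nhdsWithin_iff] at h1
    obtain ⟨δ, hδ, h1⟩ := h1
    obtain ⟨N, hN⟩ := exists_nat_gt (2 * M / δ)
    refine ⟨N, fun k hk => ?_⟩
    have hkN : 2 * M ≤ k * δ := by
      have h2 : (N : ℝ) ≤ k := by exact_mod_cast hk
      rw [div_lt_iff₀ hδ] at hN
      nlinarith
    have h3 : G k z ≤ φ z + e / 2 := by
      refine hge k z _ fun y hy => ?_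
      by_cases hd : dist z y < δ
      · have h4 : y ∈ ball z δ ∩ S := ⟨by rwa [mem_ball, dist_comm], hy⟩
        have h5 : φ y < φ z + e / 2 := h1 h4
        have h6 : 0 ≤ (k : ℝ) * dist z y := by positivity
        linarith
      · push Not at hd
        have h4 := (abs_le.1 (hM y ((hSm y).1 hy))).2
        have h5 := (abs_le.1 (hM z hz)).1
        have h6 : (k : ℝ) * δ ≤ k * dist z y := mul_le_mul_of_nonneg_left hd (Nat.cast_nonneg k)
        linarith
    rw [Real.dist_eq, abs_lt]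
    have h4 := hup k z hz
    constructor <;> linarith
  have hcirc : Continuous (fun θ : ℝ => Complex.exp (θ * Complex.I)) := by fun_prop
  have hcn : ∀ θ : ℝ, ‖Complex.exp (θ * Complex.I)‖ = 1 := fun θ => Complex.norm_exp_ofReal_mul_I θ
  have hlimI : Filter.Tendsto (fun k => ∫ θ in (0 : ℝ)..(2 * Real.pi),
      G k (Complex.exp (θ * Complex.I))) Filter.atTop
      (𝓝 (∫ θ in (0 : ℝ)..(2 * Real.pi), φ (Complex.exp (θ * Complex.I)))) := by
    refine intervalIntegral.tendsto_integral_filter_of_dominated_convergence (fun _ => M) ?_ ?_ ?_ ?_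
    · exact Filter.Eventually.of_forall fun k => ((hlip k).comp hcirc).aestronglyMeasurable
    · refine Filter.Eventually.of_forall fun k => ae_of_all _ fun θ _ => ?_
      rw [Real.norm_eq_abs, abs_le]
      refine ⟨?_, hGM k _⟩
      have h1 := hup k _ (hcn θ)
      have h2 := (abs_le.1 (hM _ (hcn θ))).1
      linarith
    · exact intervalIntegrable_const
    · exact ae_of_all _ fun θ _ => hlim _ (hcn θ)
  have h1 := hlimI.const_mul ((2 * Real.pi)⁻¹)
  have h2 := (h1.eventually (gt_mem_nhds (lt_add_of_pos_right _ hε))).exists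
  obtain ⟨k, hk⟩ := h2
  exact ⟨G k, hlip k, hup k, hk.le⟩

/-- the maximum principle -/
theorem LocGlob_max {φ h : ℂ → ℝ} (hφ : UpperSemicontinuousOn φ (closedBall (0 : ℂ) 1))
    (hh : Continuous h)
    (hm : ∀ (c : ℂ) (s : ℝ), (2 * Real.pi)⁻¹ * ∫ θ in (0 : ℝ)..(2 * Real.pi),
        h (c + s * Complex.exp (θ * Complex.I)) = h c)
    (hloc : ∀ c : ℂ, ‖c‖ < 1 → ∃ r > 0, ∀ s : ℝ, 0 < s → s ≤ r →
      IntervalIntegrable (fun θ : ℝ => φ (c + s * Complex.exp (θ * Complex.I))) volume 0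
        (2 * Real.pi) ∧
      φ c ≤ (2 * Real.pi)⁻¹ * ∫ θ in (0 : ℝ)..(2 * Real.pi),
        φ (c + s * Complex.exp (θ * Complex.I)))
    (hb : ∀ z : ℂ, ‖z‖ = 1 → φ z ≤ h z) : φ 0 ≤ h 0 := by
  have hpi := Real.two_pi_pos
  by_contra hcon
  push Not at hcon
  set ε : ℝ := (φ 0 - h 0) / 2 with hε
  have hε0 : 0 < ε := by rw [hε]; linarith
  set ψ : ℂ → ℝ := fun z => φ z + (-(h z) + ε * ‖z‖ ^ 2 - ε) with hψ
  have hψu : UpperSemicontinuousOn ψ (closedBall (0 : ℂ) 1) := by
    refine hφ.add ?_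
    have h1 : Continuous (fun z : ℂ => -(h z) + ε * ‖z‖ ^ 2 - ε) := by fun_prop
    exact h1.upperSemicontinuous.upperSemicontinuousOn _
  obtain ⟨c, hc, hcmax⟩ := hψu.exists_isMaxOn ⟨0, by simp⟩ (isCompact_closedBall _ _)
  have hc0 : ψ 0 ≤ ψ c := hcmax (by simp : (0 : ℂ) ∈ closedBall (0 : ℂ) 1)
  have hψ0 : 0 < ψ 0 := by
    simp only [hψ, norm_zero]
    have : φ 0 - h 0 = 2 * ε := by rw [hε]; ring
    nlinarith
  have hc1 : ‖c‖ < 1 := by
    rcases lt_or_eq_of_le (mem_closedBall_zero_iff.1 hc) with h1 | h1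
    · exact h1
    · exfalso
      have h2 := hb c h1
      have h3 : ψ c ≤ 0 := by
        simp only [hψ, h1]
        linarith
      linarith
  obtain ⟨r, hr, hloc⟩ := hloc c hc1
  set s : ℝ := min r (1 - ‖c‖) with hs
  have hs0 : 0 < s := lt_min hr (by linarith)
  obtain ⟨hint, hle⟩ := hloc s hs0 (min_le_left _ _)
  have hin : ∀ θ : ℝ, c + s * Complex.exp (θ * Complex.I) ∈ closedBall (0 : ℂ) 1 := by
    intro θ
    rw [mem_closedBall_zero_iff]
    refine (norm_add_le _ _).trans ?_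
    rw [norm_mul, Complex.norm_exp_ofReal_mul_I, Complex.norm_real, Real.norm_eq_abs,
      abs_of_pos hs0]
    have := min_le_right r (1 - ‖c‖)
    linarith
  -- the mean of `‖z‖ ^ 2`
  have hsq : (∫ θ in (0 : ℝ)..(2 * Real.pi), ‖c + s * Complex.exp (θ * Complex.I)‖ ^ 2) =
      2 * Real.pi * (‖c‖ ^ 2 + s ^ 2) := by
    have h1 : ∀ θ : ℝ, ‖c + s * Complex.exp (θ * Complex.I)‖ ^ 2 =
        (‖c‖ ^ 2 + s ^ 2) + (2 * s * c.re * Real.cos θ + 2 * s * c.im * Real.sin θ) := by
      intro θ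
      rw [← Complex.normSq_eq_norm_sq, ← Complex.normSq_eq_norm_sq, Complex.normSq_apply,
        Complex.normSq_apply]
      have e1 : (c + s * Complex.exp (θ * Complex.I)).re = c.re + s * Real.cos θ := by
        rw [Complex.add_re, Complex.re_ofReal_mul, Complex.exp_ofReal_mul_I_re]
      have e2 : (c + s * Complex.exp (θ * Complex.I)).im = c.im + s * Real.sin θ := by
        rw [Complex.add_im, Complex.im_ofReal_mul, Complex.exp_ofReal_mul_I_im]
      rw [e1, e2]
      have := Real.sin_sq_add_cos_sq θ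
      nlinarith
    simp_rw [h1]
    rw [intervalIntegral.integral_add (f := fun _ => ‖c‖ ^ 2 + s ^ 2) (by simp)
        (Continuous.intervalIntegrable (by fun_prop) _ _), intervalIntegral.integral_const,
      intervalIntegral.integral_add (Continuous.intervalIntegrable (by fun_prop) _ _)
        (Continuous.intervalIntegrable (by fun_prop) _ _),
      intervalIntegral.integral_const_mul, intervalIntegral.integral_const_mul, integral_cos,
      integral_sin]
    simp
  have hcont : Continuous (fun θ : ℝ => c + s * Complex.exp (θ * Complex.I)) := by fun_prop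
  have key : ∀ θ : ℝ, φ (c + s * Complex.exp (θ * Complex.I)) ≤
      (ψ c + ε) + (h (c + s * Complex.exp (θ * Complex.I)) -
        ε * ‖c + s * Complex.exp (θ * Complex.I)‖ ^ 2) := by
    intro θ
    have h1 : ψ (c + s * Complex.exp (θ * Complex.I)) ≤ ψ c := hcmax (hin θ)
    simp only [hψ] at h1 ⊢
    linarith
  have hI : (∫ θ in (0 : ℝ)..(2 * Real.pi), φ (c + s * Complex.exp (θ * Complex.I))) ≤
      ∫ θ in (0 : ℝ)..(2 * Real.pi), ((ψ c + ε) + (h (c + s * Complex.exp (θ * Complex.I)) -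
        ε * ‖c + s * Complex.exp (θ * Complex.I)‖ ^ 2)) := by
    refine intervalIntegral.integral_mono_on hpi.le hint ?_ (fun θ _ => key θ)
    exact Continuous.intervalIntegrable (by fun_prop) _ _
  have hm' : (∫ θ in (0 : ℝ)..(2 * Real.pi), h (c + s * Complex.exp (θ * Complex.I))) =
      2 * Real.pi * h c := by
    rw [← hm c s, ← mul_assoc, mul_inv_cancel₀ hpi.ne', one_mul]
  rw [intervalIntegral.integral_add (by simp) (Continuous.intervalIntegrable (by fun_prop) _ _),
    intervalIntegral.integral_sub (Continuous.intervalIntegrable (by fun_prop) _ _)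
      (Continuous.intervalIntegrable (by fun_prop) _ _),
    intervalIntegral.integral_const_mul, hsq, hm'] at hI
  have h5 : (2 * Real.pi)⁻¹ * (∫ θ in (0 : ℝ)..(2 * Real.pi),
      φ (c + s * Complex.exp (θ * Complex.I))) ≤
      (ψ c + ε) + (h c - ε * (‖c‖ ^ 2 + s ^ 2)) := by
    rw [inv_mul_le_iff₀ hpi]
    refine hI.trans (le_of_eq ?_)
    simp
    ring
  have h6 : ψ c = φ c + (-(h c) + ε * ‖c‖ ^ 2 - ε) := rfl
  have h7 : 0 < ε * s ^ 2 := by positivity
  linarith

/-- restriction to circles is interval integrable -/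
theorem LocGlob_int {n : ℕ} {Ω : Set (Cn n)} {v : Cn n → ℝ}
    (hv : UpperSemicontinuousOn v Ω)
    (hb : ∀ L ⊆ Ω, IsCompact L → ∃ M : ℝ, ∀ z ∈ L, -M ≤ v z) (a b : Cn n)
    (hab : ∀ θ : ℝ, a + Complex.exp (θ * Complex.I) • b ∈ Ω) :
    IntervalIntegrable (fun θ : ℝ => v (a + Complex.exp (θ * Complex.I) • b)) volume 0
        (2 * Real.pi) ∧
      ∃ B : ℝ, ∀ θ : ℝ, |v (a + Complex.exp (θ * Complex.I) • b)| ≤ B := by
  set K : Set (Cn n) := (fun ζ : ℂ => a + ζ • b) '' sphere (0 : ℂ) 1 with hK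
  have hKc : IsCompact K := (isCompact_sphere _ _).image (by fun_prop)
  have hKi : ∀ θ : ℝ, a + Complex.exp (θ * Complex.I) • b ∈ K := fun θ =>
    ⟨Complex.exp (θ * Complex.I), by simp [Complex.norm_exp_ofReal_mul_I], rfl⟩
  have hKΩ : K ⊆ Ω := by
    rintro _ ⟨ζ, hζ, rfl⟩
    have h1 : ‖ζ‖ = 1 := by simpa using hζ
    have h2 : ζ = Complex.exp (Complex.arg ζ * Complex.I) := by
      have := Complex.norm_mul_exp_arg_mul_I ζ
      rw [h1] at this
      simpa using this.symm
    have h3 := hab (Complex.arg ζ)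
    rw [← h2] at h3
    exact h3
  obtain ⟨M1, hM1⟩ := hb K hKΩ hKc
  obtain ⟨M2, hM2⟩ := (hv.mono hKΩ).bddAbove_of_isCompact hKc
  have hbound : ∀ θ : ℝ, |v (a + Complex.exp (θ * Complex.I) • b)| ≤ max M1 M2 := by
    intro θ
    rw [abs_le]
    have h1 := hM1 _ (hKi θ)
    have h2 := hM2 (mem_image_of_mem v (hKi θ))
    have h3 := le_max_left M1 M2
    have h4 := le_max_right M1 M2
    constructor <;> linarith
  refine ⟨?_, _, hbound⟩
  have hu : UpperSemicontinuous (fun θ : ℝ => v (a + Complex.exp (θ * Complex.I) • b)) := by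
    intro θ y hy
    have h3 := hv _ (hab θ) y hy
    have h4 : Filter.Tendsto (fun θ : ℝ => a + Complex.exp (θ * Complex.I) • b) (𝓝 θ)
        (𝓝[Ω] (a + Complex.exp (θ * Complex.I) • b)) := by
      refine tendsto_nhdsWithin_iff.2 ⟨(lext_circ_cont a b).tendsto θ, ?_⟩
      exact Filter.Eventually.of_forall hab
    exact h4.eventually h3
  rw [intervalIntegrable_iff]
  refine Measure.integrableOn_of_bounded (M := max M1 M2) ?_ hu.measurable.aestronglyMeasurable ?_
  · rw [uIoc_of_le Real.two_pi_pos.le]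
    exact measure_Ioc_lt_top.ne
  · exact ae_of_all _ fun θ => by rw [Real.norm_eq_abs]; exact hbound θ

theorem loc_glob {n : ℕ} {Ω : Set (Cn n)} (hΩ : IsOpen Ω) {v : Cn n → ℝ}
    (hv : UpperSemicontinuousOn v Ω)
    (hb : ∀ L ⊆ Ω, IsCompact L → ∃ M : ℝ, ∀ z ∈ L, -M ≤ v z)
    (hloc : ∀ a ∈ Ω, ∃ r > 0, ∀ b : Cn n, ‖b‖ ≤ r → v a ≤ (2 * Real.pi)⁻¹ *
      ∫ θ in (0 : ℝ)..(2 * Real.pi), v (a + Complex.exp (θ * Complex.I) • b)) : SubOn Ω v := by
  intro a b hab
  set φ : ℂ → ℝ := fun ζ => v (a + ζ • b) with hφ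
  have hφu : UpperSemicontinuousOn φ (closedBall (0 : ℂ) 1) := by
    intro ζ hζ y hy
    have h3 := hv _ (hab ζ (by simpa using hζ)) y hy
    have h4 : Filter.Tendsto (fun ζ : ℂ => a + ζ • b) (𝓝[closedBall (0 : ℂ) 1] ζ)
        (𝓝[Ω] (a + ζ • b)) := by
      refine tendsto_nhdsWithin_iff.2 ⟨?_, ?_⟩
      · have : Continuous (fun ζ : ℂ => a + ζ • b) := by fun_prop
        exact (this.tendsto ζ).mono_left nhdsWithin_le_nhds
      · exact eventually_nhdsWithin_of_forall fun ζ hζ => hab ζ (by simpa using hζ)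
    exact h4.eventually h3
  have hexp : ∀ θ : ℝ, ‖Complex.exp (θ * Complex.I)‖ = 1 :=
    fun θ => Complex.norm_exp_ofReal_mul_I θ
  obtain ⟨-, B, hB⟩ := LocGlob_int hv hb a b (fun θ => hab _ (hexp θ).le)
  have hφB : ∀ z : ℂ, ‖z‖ = 1 → |φ z| ≤ B := by
    intro z hz
    have h2 : z = Complex.exp (Complex.arg z * Complex.I) := by
      have := Complex.norm_mul_exp_arg_mul_I z
      rw [hz] at this
      simpa using this.symm
    have h3 := hB (Complex.arg z)
    rw [← h2] at h3
    exact h3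
  have hlocφ : ∀ c : ℂ, ‖c‖ < 1 → ∃ r > 0, ∀ s : ℝ, 0 < s → s ≤ r →
      IntervalIntegrable (fun θ : ℝ => φ (c + s * Complex.exp (θ * Complex.I))) volume 0
        (2 * Real.pi) ∧
      φ c ≤ (2 * Real.pi)⁻¹ * ∫ θ in (0 : ℝ)..(2 * Real.pi),
        φ (c + s * Complex.exp (θ * Complex.I)) := by
    intro c hc
    obtain ⟨r, hr, h1⟩ := hloc (a + c • b) (hab c hc.le)
    refine ⟨min (r / (‖b‖ + 1)) (1 - ‖c‖), lt_min (by positivity) (by linarith), ?_⟩
    intro s hs hsr
    have e1 : ∀ θ : ℝ, φ (c + s * Complex.exp (θ * Complex.I)) =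
        v ((a + c • b) + Complex.exp (θ * Complex.I) • ((s : ℂ) • b)) := by
      intro θ
      simp only [hφ]
      congr 1
      rw [add_smul, ← add_assoc, smul_smul, mul_comm (s : ℂ)]
    simp_rw [e1]
    constructor
    · refine (LocGlob_int hv hb _ _ fun θ => ?_).1
      have h2 := hab (c + s * Complex.exp (θ * Complex.I)) ?_
      · convert h2 using 1
        rw [add_smul, ← add_assoc, smul_smul, mul_comm (s : ℂ)]
      · refine (norm_add_le _ _).trans ?_
        rw [norm_mul, hexp, Complex.norm_real, Real.norm_eq_abs, abs_of_pos hs]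
        have := hsr.trans (min_le_right _ _)
        linarith
    · refine h1 _ ?_
      rw [norm_smul, Complex.norm_real, Real.norm_eq_abs, abs_of_pos hs]
      have h2 := hsr.trans (min_le_left _ _)
      rw [le_div_iff₀ (by positivity)] at h2
      have := norm_nonneg b
      nlinarith
  have hmain : ∀ ε : ℝ, 0 < ε → φ 0 ≤ (2 * Real.pi)⁻¹ *
      (∫ θ in (0 : ℝ)..(2 * Real.pi), φ (Complex.exp (θ * Complex.I))) + ε := by
    intro ε hε
    obtain ⟨g, hgc, hg1, hg2⟩ := LocGlob_usc (hφu.mono sphere_subset_closedBall) hφB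
      (half_pos hε)
    obtain ⟨h, hhc, hhm, hh⟩ := LocGlob_harm hgc (show 0 < ε / 4 by positivity)
    have h1 := LocGlob_max hφu hhc hhm hlocφ (fun z hz => (hg1 z hz).trans (hh z hz).1)
    have h2 := hhm 0 1
    have hpi := Real.two_pi_pos
    have hcc : Continuous (fun θ : ℝ => Complex.exp (θ * Complex.I)) := by fun_prop
    have h3 : (∫ θ in (0 : ℝ)..(2 * Real.pi), h (0 + (1 : ℝ) * Complex.exp (θ * Complex.I))) ≤
        ∫ θ in (0 : ℝ)..(2 * Real.pi), (g (Complex.exp (θ * Complex.I)) + ε / 2) := by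
      refine intervalIntegral.integral_mono_on hpi.le ?_ ?_ (fun θ _ => ?_)
      · exact Continuous.intervalIntegrable (by fun_prop) _ _
      · exact Continuous.intervalIntegrable (by fun_prop) _ _
      · have h4 := (hh _ (hexp θ)).2
        simp only [zero_add, Complex.ofReal_one, one_mul]
        linarith
    rw [intervalIntegral.integral_add (Continuous.intervalIntegrable (by fun_prop) _ _)
      (by simp)] at h3
    have h5 : h 0 ≤ (2 * Real.pi)⁻¹ *
        (∫ θ in (0 : ℝ)..(2 * Real.pi), g (Complex.exp (θ * Complex.I))) + ε / 2 := by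
      rw [← h2, inv_mul_le_iff₀ hpi]
      refine h3.trans (le_of_eq ?_)
      rw [mul_add, ← mul_assoc, mul_inv_cancel₀ hpi.ne', one_mul]
      simp
      ring
    linarith
  have hfin := le_of_forall_pos_le_add hmain
  simpa [hφ] using hfin

/-- maximum of two functions -/
theorem sub_max {n : ℕ} {Ω : Set (Cn n)} {u v : Cn n → ℝ}
    (hu : UpperSemicontinuousOn u Ω) (hv : UpperSemicontinuousOn v Ω)
    (hbu : ∀ L ⊆ Ω, IsCompact L → ∃ M : ℝ, ∀ z ∈ L, -M ≤ u z)
    (hbv : ∀ L ⊆ Ω, IsCompact L → ∃ M : ℝ, ∀ z ∈ L, -M ≤ v z)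
    (hu1 : SubOn Ω u) (hv1 : SubOn Ω v) : SubOn Ω (fun z => max (u z) (v z)) := by
  intro a b hab
  have hexp : ∀ θ : ℝ, ‖Complex.exp (θ * Complex.I)‖ = 1 :=
    fun θ => Complex.norm_exp_ofReal_mul_I θ
  have hi1 := (LocGlob_int hu hbu a b (fun θ => hab _ (hexp θ).le)).1
  have hi2 := (LocGlob_int hv hbv a b (fun θ => hab _ (hexp θ).le)).1
  have hi3 : IntervalIntegrable (fun θ : ℝ => max (u (a + Complex.exp (θ * Complex.I) • b))
      (v (a + Complex.exp (θ * Complex.I) • b))) volume 0 (2 * Real.pi) :=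
    ⟨hi1.1.sup hi2.1, hi1.2.sup hi2.2⟩
  have hpi := Real.two_pi_pos
  refine max_le ?_ ?_
  · refine (hu1 a b hab).trans ?_
    refine mul_le_mul_of_nonneg_left ?_ (inv_nonneg.2 hpi.le)
    exact intervalIntegral.integral_mono_on hpi.le hi1 hi3 (fun θ _ => le_max_left _ _)
  · refine (hv1 a b hab).trans ?_
    refine mul_le_mul_of_nonneg_left ?_ (inv_nonneg.2 hpi.le)
    exact intervalIntegral.integral_mono_on hpi.le hi2 hi3 (fun θ _ => le_max_right _ _)

end HMA
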