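import Pool.Agent.H85.KM.C11B
import Pool.Agent.H85.KM.C11M
import Pool.Agent.H85.KM.LocGlob
import Pool.Agent.H85.MA.Smooth1

/-! # Module Sub11: sub-mean value property and positivity of the Levi matrix -/

open MeasureTheory Metric Set
open scoped ENNReal Topology ContDiff ComplexOrder

namespace HMA

variable {n : ℕ} {Ω : Set (Cn n)} {u : Cn n → ℝ}

/-- rotated vectors -/
theorem sub11_rot (θ : ℝ) (ξ : Cn n) : Complex.exp (θ * Complex.I) • ξ =
    Real.cos θ • ξ + Real.sin θ • (Complex.I • ξ) := by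
  rw [Complex.exp_mul_I, add_smul, ← Complex.ofReal_cos, ← Complex.ofReal_sin, mul_smul]
  rfl

theorem sub11_rot_norm (θ : ℝ) (ξ : Cn n) : ‖Complex.exp (θ * Complex.I) • ξ‖ = ‖ξ‖ := by
  rw [norm_smul, Complex.norm_exp_ofReal_mul_I, one_mul]

/-- second order Taylor formula with Peano remainder -/
theorem sub11_taylor {z : Cn n} (h : TwD u z) {ε : ℝ} (hε : 0 < ε) :
    ∃ δ > 0, ∀ η : Cn n, ‖η‖ ≤ δ →
      |u (z + η) - u z - fderiv ℝ u z η - hes u z η η / 2| ≤ ε * ‖η‖ ^ 2 := by
  obtain ⟨h1, h2⟩ := h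
  have h3 := h2.hasFDerivAt
  rw [hasFDerivAt_iff_isLittleO_nhds_zero] at h3
  have h4 := h3.def hε
  rw [Metric.eventually_nhds_iff] at h1 h4
  obtain ⟨δ1, hδ1, h1⟩ := h1
  obtain ⟨δ2, hδ2, h4⟩ := h4
  refine ⟨min δ1 δ2 / 2, by positivity, fun η hη => ?_⟩
  have hη1 : ‖η‖ < δ1 := lt_of_le_of_lt hη (by
    have := min_le_left δ1 δ2
    linarith)
  have hη2 : ‖η‖ < δ2 := lt_of_le_of_lt hη (by
    have := min_le_right δ1 δ2
    have := lt_min hδ1 hδ2
    linarith)
  set f : ℝ → ℝ := fun s => u (z + s • η) - u z - s * fderiv ℝ u z η -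
    s ^ 2 / 2 * hes u z η η with hf
  set f' : ℝ → ℝ := fun s => fderiv ℝ u (z + s • η) η - fderiv ℝ u z η -
    s * hes u z η η with hf'
  have hd : ∀ s ∈ Icc (0 : ℝ) 1, HasDerivAt f (f' s) s := by
    intro s hs
    have hline : HasDerivAt (fun s : ℝ => z + s • η) η s := by
      simpa using ((hasDerivAt_id s).smul_const η).const_add z
    have hdu : DifferentiableAt ℝ u (z + s • η) := by
      apply h1
      rw [dist_eq_norm, add_sub_cancel_left, norm_smul, Real.norm_eq_abs, abs_of_nonneg hs.1]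
      calc s * ‖η‖ ≤ 1 * ‖η‖ := by
            gcongr
            exact hs.2
        _ < δ1 := by rw [one_mul]; exact hη1
    have e1 := hdu.hasFDerivAt.comp_hasDerivAt s hline
    have e2 := (hasDerivAt_id s).mul_const (fderiv ℝ u z η)
    have e3 := ((hasDerivAt_pow 2 s).div_const 2).mul_const (hes u z η η)
    have e4 := ((e1.sub_const (u z)).sub e2).sub e3
    refine e4.congr_deriv ?_
    simp only [hf', Nat.cast_ofNat, Nat.add_one_sub_one, pow_one]
    ring
  have hb : ∀ s ∈ Ico (0 : ℝ) 1, ‖f' s‖ ≤ ε * ‖η‖ ^ 2 := by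
    intro s hs
    have hsn : ‖s • η‖ ≤ ‖η‖ := by
      rw [norm_smul, Real.norm_eq_abs, abs_of_nonneg hs.1]
      calc s * ‖η‖ ≤ 1 * ‖η‖ := by
            gcongr
            exact hs.2.le
        _ = ‖η‖ := one_mul _
    have e1 : dist (s • η) 0 < δ2 := by
      rw [dist_zero_right]
      exact lt_of_le_of_lt hsn hη2
    have e2 := h4 e1
    have e3 : f' s = (fderiv ℝ u (z + s • η) - fderiv ℝ u z -
        fderiv ℝ (fderiv ℝ u) z (s • η)) η := by
      simp only [hf', hes, sub_apply, map_smul, smul_apply, smul_eq_mul]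
    rw [e3]
    calc ‖(fderiv ℝ u (z + s • η) - fderiv ℝ u z - fderiv ℝ (fderiv ℝ u) z (s • η)) η‖
        ≤ ‖fderiv ℝ u (z + s • η) - fderiv ℝ u z - fderiv ℝ (fderiv ℝ u) z (s • η)‖ * ‖η‖ :=
          ContinuousLinearMap.le_opNorm _ _
      _ ≤ (ε * ‖s • η‖) * ‖η‖ := by gcongr
      _ ≤ (ε * ‖η‖) * ‖η‖ := by gcongr
      _ = ε * ‖η‖ ^ 2 := by ring
  have key := norm_image_sub_le_of_norm_deriv_le_segment' (f := f) (f' := f') (a := 0) (b := 1)
    (C := ε * ‖η‖ ^ 2) (fun s hs => (hd s hs).hasDerivWithinAt) hb 1 (right_mem_Icc.2 zero_le_one)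
  have hf1 : f 1 - f 0 = u (z + η) - u z - fderiv ℝ u z η - hes u z η η / 2 := by
    simp only [hf, one_smul, zero_smul, add_zero]
    ring
  rw [hf1, Real.norm_eq_abs] at key
  simpa using key

theorem sub11_twD_smooth (hΩ : IsOpen Ω) (hu : ContDiffOn ℝ ∞ u Ω) {z : Cn n} (hz : z ∈ Ω) :
    TwD u z := by
  have h1 : ContDiffAt ℝ ∞ u z := hu.contDiffAt (hΩ.mem_nhds hz)
  refine ⟨?_, ?_⟩
  · filter_upwards [hΩ.mem_nhds hz] with w hw
    exact (hu.contDiffAt (hΩ.mem_nhds hw)).differentiableAt (by simp)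
  · exact (h1.fderiv_right (m := ∞) le_rfl).differentiableAt (by simp)

/-- expansion of the mean over small circles -/
theorem sub11_expand (ξ : Cn n) (t e : ℝ) (θ : ℝ) (D : Cn n →L[ℝ] ℝ)
    (H : Cn n →L[ℝ] Cn n →L[ℝ] ℝ) (c : ℝ) :
    c + D (Complex.exp (θ * Complex.I) • (t • ξ)) +
      H (Complex.exp (θ * Complex.I) • (t • ξ)) (Complex.exp (θ * Complex.I) • (t • ξ)) / 2 +
        e * t ^ 2 / 2 =
      c + t * (Real.cos θ * D ξ + Real.sin θ * D (Complex.I • ξ)) +
      t ^ 2 / 2 * (Real.cos θ ^ 2 * H ξ ξ + Real.cos θ * Real.sin θ *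
        (H ξ (Complex.I • ξ) + H (Complex.I • ξ) ξ) +
        Real.sin θ ^ 2 * H (Complex.I • ξ) (Complex.I • ξ) + e) := by
  have e1 : Complex.exp (θ * Complex.I) • (t • ξ) =
      (t * Real.cos θ) • ξ + (t * Real.sin θ) • (Complex.I • ξ) := by
    rw [smul_comm, sub11_rot, smul_add, smul_smul, smul_smul]
  rw [e1]
  simp only [map_add, map_smul, add_apply, smul_apply, smul_eq_mul]
  ring

theorem smooth_sub (hΩ : IsOpen Ω) (hu : ContDiffOn ℝ ∞ u Ω)
    (h : ∀ z ∈ Ω, ∀ ξ : Cn n, 0 ≤ lev u z ξ) : SubOn Ω u := by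
  have hc : ContinuousOn u Ω := hu.continuousOn
  have hpi : (0 : ℝ) < 2 * Real.pi := by positivity
  -- the perturbed function
  have main : ∀ ε : ℝ, 0 < ε → SubOn Ω (fun z => u z + ε * ‖z‖ ^ 2) := by
    intro ε hε
    have hcε : ContinuousOn (fun z => u z + ε * ‖z‖ ^ 2) Ω :=
      hc.add (Continuous.continuousOn (by fun_prop))
    refine loc_glob hΩ hcε.upperSemicontinuousOn ?_ ?_
    · intro L hL hLc
      obtain ⟨M, hM⟩ := (hLc.image_of_continuousOn (hcε.mono hL)).bddBelow
      refine ⟨-M, fun z hz => ?_⟩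
      rw [neg_neg]
      exact hM (mem_image_of_mem _ hz)
    · intro a ha
      have hT : TwD u a := sub11_twD_smooth hΩ hu ha
      obtain ⟨δ, hδ, hδ'⟩ := sub11_taylor hT hε
      obtain ⟨r, hr, hr'⟩ := Metric.nhds_basis_closedBall.mem_iff.1 (hΩ.mem_nhds ha)
      refine ⟨min δ r, lt_min hδ hr, fun b hb => ?_⟩
      have hb1 : ‖b‖ ≤ δ := hb.trans (min_le_left _ _)
      have hb2 : ‖b‖ ≤ r := hb.trans (min_le_right _ _)
      have hmem : ∀ θ : ℝ, a + Complex.exp (θ * Complex.I) • b ∈ Ω := by
        intro θ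
        apply hr'
        rw [mem_closedBall, dist_eq_norm, add_sub_cancel_left, sub11_rot_norm]
        exact hb2
      have hcirc : Continuous fun θ : ℝ => a + Complex.exp (θ * Complex.I) • b := by fun_prop
      have hcu : Continuous fun θ : ℝ => u (a + Complex.exp (θ * Complex.I) • b) :=
        hc.comp_continuous hcirc hmem
      -- mean of the norm
      have hnsq : ∀ θ : ℝ, ‖a + Complex.exp (θ * Complex.I) • b‖ ^ 2 = ‖a‖ ^ 2 +
          2 * (Real.cos θ * (inner ℝ a b : ℝ) + Real.sin θ * (inner ℝ a (Complex.I • b) : ℝ)) +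
            ‖b‖ ^ 2 := by
        intro θ
        have e1 := @norm_add_sq_real (Cn n) _ _ a (Complex.exp (θ * Complex.I) • b)
        rw [e1, sub11_rot_norm, sub11_rot, inner_add_right, real_inner_smul_right,
          real_inner_smul_right]
      -- lower bound
      have hlow : ∀ θ : ℝ, (u a + ε * ‖a‖ ^ 2) + 1 * (Real.cos θ * (fderiv ℝ u a b +
          2 * ε * (inner ℝ a b : ℝ)) + Real.sin θ * (fderiv ℝ u a (Complex.I • b) +
            2 * ε * (inner ℝ a (Complex.I • b) : ℝ))) +
          1 ^ 2 / 2 * (Real.cos θ ^ 2 * hes u a b b + Real.cos θ * Real.sin θ *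
        (hes u a b (Complex.I • b) + hes u a (Complex.I • b) b) +
        Real.sin θ ^ 2 * hes u a (Complex.I • b) (Complex.I • b) + 0) ≤
          u (a + Complex.exp (θ * Complex.I) • b) +
            ε * ‖a + Complex.exp (θ * Complex.I) • b‖ ^ 2 := by
        intro θ
        have e1 := hδ' (Complex.exp (θ * Complex.I) • b) (by rw [sub11_rot_norm]; exact hb1)
        rw [sub11_rot_norm] at e1
        have e2 := (abs_le.1 e1).1
        have e3 := sub11_expand b 1 0 θ (fderiv ℝ u a) (hes u a) (u a)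
        rw [one_smul] at e3
        rw [hnsq]
        nlinarith [e2, e3]
      have hcu2 : Continuous fun θ : ℝ => u (a + Complex.exp (θ * Complex.I) • b) +
          ε * ‖a + Complex.exp (θ * Complex.I) • b‖ ^ 2 := hcu.add (by fun_prop)
      have h1 := intervalIntegral.integral_mono (μ := volume) (a := 0) (b := 2 * Real.pi) hpi.le
        (Continuous.intervalIntegrable (by fun_prop) _ _)
        (hcu2.intervalIntegrable _ _) hlow
      rw [Smooth1_mean] at h1
      have h2 := h a ha b
      rw [hT.lev] at h2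
      have h3 : u a + ε * ‖a‖ ^ 2 ≤ (u a + ε * ‖a‖ ^ 2) + 1 ^ 2 / 2 * ((hes u a b b +
          hes u a (Complex.I • b) (Complex.I • b)) / 2 + 0) := by
        linarith
      refine h3.trans ?_
      rw [← div_eq_inv_mul, le_div_iff₀ hpi]
      linarith
  -- the limit
  intro a b hab
  have hmem : ∀ θ : ℝ, a + Complex.exp (θ * Complex.I) • b ∈ Ω := fun θ =>
    hab _ (by rw [Complex.norm_exp_ofReal_mul_I])
  have hcirc : Continuous fun θ : ℝ => a + Complex.exp (θ * Complex.I) • b := by fun_prop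
  have hcu : Continuous fun θ : ℝ => u (a + Complex.exp (θ * Complex.I) • b) :=
    hc.comp_continuous hcirc hmem
  have hcn : Continuous fun θ : ℝ => ‖a + Complex.exp (θ * Complex.I) • b‖ ^ 2 := by fun_prop
  refine le_of_forall_pos_le_add fun ε hε => ?_
  set S : ℝ := (2 * Real.pi)⁻¹ * ∫ θ in (0 : ℝ)..(2 * Real.pi),
    ‖a + Complex.exp (θ * Complex.I) • b‖ ^ 2 with hS
  have hS0 : 0 ≤ S := by
    rw [hS]
    exact mul_nonneg (by positivity) (intervalIntegral.integral_nonneg hpi.le
      fun θ _ => by positivity)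
  have h1 := main (ε / (S + 1)) (by positivity) a b hab
  have h2 : ∫ θ in (0 : ℝ)..(2 * Real.pi), (u (a + Complex.exp (θ * Complex.I) • b) +
      ε / (S + 1) * ‖a + Complex.exp (θ * Complex.I) • b‖ ^ 2) =
      (∫ θ in (0 : ℝ)..(2 * Real.pi), u (a + Complex.exp (θ * Complex.I) • b)) +
        ε / (S + 1) * ∫ θ in (0 : ℝ)..(2 * Real.pi),
          ‖a + Complex.exp (θ * Complex.I) • b‖ ^ 2 := by
    have hcn' : Continuous fun θ : ℝ =>
      ε / (S + 1) * ‖a + Complex.exp (θ * Complex.I) • b‖ ^ 2 := continuous_const.mul hcn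
    rw [intervalIntegral.integral_add (hcu.intervalIntegrable _ _)
      (hcn'.intervalIntegrable _ _), intervalIntegral.integral_const_mul]
  have h3 : ε / (S + 1) * S ≤ ε := by
    rw [div_mul_eq_mul_div, div_le_iff₀ (by positivity)]
    nlinarith
  have h4 : (0 : ℝ) ≤ ε / (S + 1) * ‖a‖ ^ 2 := by positivity
  simp only at h1
  rw [h2, mul_add] at h1
  have h5 : (2 * Real.pi)⁻¹ * (ε / (S + 1) * ∫ θ in (0 : ℝ)..(2 * Real.pi),
      ‖a + Complex.exp (θ * Complex.I) • b‖ ^ 2) = ε / (S + 1) * S := by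
    rw [hS]
    ring
  rw [h5] at h1
  linarith

/-- uniform limits -/
theorem sub_of_tendsto (U : ℕ → Cn n → ℝ) (hU : ∀ k, SubOn Ω (U k))
    (hc : ∀ k, ContinuousOn (U k) Ω)
    (h : ∀ L ⊆ Ω, IsCompact L → TendstoUniformlyOn U u Filter.atTop L) : SubOn Ω u := by
  intro a b hab
  have hpi : (0 : ℝ) < 2 * Real.pi := by positivity
  set L : Set (Cn n) := (fun ζ : ℂ => a + ζ • b) '' closedBall 0 1 with hL
  have hLΩ : L ⊆ Ω := by
    rintro _ ⟨ζ, hζ, rfl⟩
    exact hab ζ (by simpa using hζ)
  have hLc : IsCompact L := (isCompact_closedBall (0 : ℂ) 1).image (by fun_prop)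
  have hmem : ∀ θ : ℝ, a + Complex.exp (θ * Complex.I) • b ∈ L := fun θ =>
    ⟨Complex.exp (θ * Complex.I), by
      rw [mem_closedBall, dist_zero_right, Complex.norm_exp_ofReal_mul_I], rfl⟩
  have haL : a ∈ L := ⟨0, by simp, by simp⟩
  have hunif := h L hLΩ hLc
  have hcu : ContinuousOn u L :=
    hunif.continuousOn (Filter.Frequently.of_forall fun k => (hc k).mono hLΩ)
  have hcirc : Continuous fun θ : ℝ => a + Complex.exp (θ * Complex.I) • b := by fun_prop
  have hcu' : Continuous fun θ : ℝ => u (a + Complex.exp (θ * Complex.I) • b) :=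
    hcu.comp_continuous hcirc hmem
  refine le_of_forall_pos_le_add fun ε hε => ?_
  rw [Metric.tendstoUniformlyOn_iff] at hunif
  obtain ⟨k, hk⟩ := (hunif (ε / 2) (by positivity)).exists
  have hcU : Continuous fun θ : ℝ => U k (a + Complex.exp (θ * Complex.I) • b) :=
    ((hc k).mono hLΩ).comp_continuous hcirc hmem
  have h1 := hU k a b hab
  have h2 : ∫ θ in (0 : ℝ)..(2 * Real.pi), U k (a + Complex.exp (θ * Complex.I) • b) ≤
      ∫ θ in (0 : ℝ)..(2 * Real.pi), (u (a + Complex.exp (θ * Complex.I) • b) + ε / 2) := by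
    refine intervalIntegral.integral_mono hpi.le (hcU.intervalIntegrable _ _)
      ((hcu'.add continuous_const).intervalIntegrable _ _) fun θ => ?_
    have := hk _ (hmem θ)
    rw [Real.dist_eq, abs_lt] at this
    simp only
    linarith [this.1]
  rw [intervalIntegral.integral_add (hcu'.intervalIntegrable _ _)
    (continuous_const.intervalIntegrable _ _), intervalIntegral.integral_const, sub_zero,
    smul_eq_mul] at h2
  have h3 := hk a haL
  rw [Real.dist_eq, abs_lt] at h3
  have h4 : (2 * Real.pi)⁻¹ * ∫ θ in (0 : ℝ)..(2 * Real.pi),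
      U k (a + Complex.exp (θ * Complex.I) • b) ≤ (2 * Real.pi)⁻¹ *
      ((∫ θ in (0 : ℝ)..(2 * Real.pi), u (a + Complex.exp (θ * Complex.I) • b)) +
        2 * Real.pi * (ε / 2)) := by gcongr
  have h5 : (2 * Real.pi)⁻¹ *
      ((∫ θ in (0 : ℝ)..(2 * Real.pi), u (a + Complex.exp (θ * Complex.I) • b)) +
        2 * Real.pi * (ε / 2)) = (2 * Real.pi)⁻¹ *
      (∫ θ in (0 : ℝ)..(2 * Real.pi), u (a + Complex.exp (θ * Complex.I) • b)) + ε / 2 := by
    rw [mul_add, inv_mul_cancel_left₀ hpi.ne']
  linarith [h3.2]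

/-- the derivative of a convolution with a Lipschitz function -/
theorem sub11_conv {g : Cn n → ℝ} {C : NNReal} (hg : LipschitzWith C g) {ψ : Cn n → ℝ}
    (hψ : ContDiff ℝ ∞ ψ) (hψc : HasCompactSupport ψ) (z ξ : Cn n) :
    fderiv ℝ (fun w => ∫ y, ψ y * g (w - y)) z ξ = ∫ y, ψ y * lineDeriv ℝ g (z - y) ξ := by
  have hsm : ContDiff ℝ ∞ (fun w => ∫ y, ψ y * g (w - y)) :=
    hψc.contDiff_convolution_left (ContinuousLinearMap.lsmul ℝ ℝ) hψ
      hg.continuous.locallyIntegrable
  have hd : Differentiable ℝ (fun w => ∫ y, ψ y * g (w - y)) := hsm.differentiable (by simp)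
  have hint : ∀ w, Integrable (fun y => ψ y * g (w - y)) := fun w =>
    Continuous.integrable_of_hasCompactSupport
      (hψ.continuous.mul (hg.continuous.comp (by fun_prop))) hψc.mul_right
  have hline : HasDerivAt (fun s : ℝ => z + s • ξ) ξ 0 := by
    simpa using ((hasDerivAt_id (0 : ℝ)).smul_const ξ).const_add z
  have hd0 : DifferentiableAt ℝ (fun w => ∫ y, ψ y * g (w - y)) (z + (0 : ℝ) • ξ) := hd _
  have h1 := (hd0.hasFDerivAt.comp_hasDerivAt (0 : ℝ) hline).tendsto_slope_zero_right
  have hlip : LipschitzWith (C * 1) (fun y => g (z - y)) := hg.comp (by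
    refine LipschitzWith.of_dist_le_mul fun x y => ?_
    rw [NNReal.coe_one, one_mul, dist_eq_norm, dist_eq_norm]
    rw [sub_sub_sub_cancel_left, norm_sub_rev])
  have h2 := hlip.integral_inv_smul_sub_mul_tendsto_integral_lineDeriv_mul (μ := volume)
    (hψ.continuous.integrable_of_hasCompactSupport hψc) (-ξ)
  have h3 : ∀ t : ℝ, ∫ y, (t⁻¹ • (g (z - (y + t • (-ξ))) - g (z - y))) * ψ y =
      t⁻¹ • (((fun w => ∫ y, ψ y * g (w - y)) ∘ fun s : ℝ => z + s • ξ) (0 + t) -
        ((fun w => ∫ y, ψ y * g (w - y)) ∘ fun s : ℝ => z + s • ξ) 0) := by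
    intro t
    simp only [Function.comp, zero_add, zero_smul, add_zero]
    rw [← integral_sub (hint _) (hint _), ← integral_smul]
    refine integral_congr_ae (Filter.Eventually.of_forall fun y => ?_)
    have : z - (y + t • (-ξ)) = z + t • ξ - y := by
      rw [smul_neg]
      abel
    simp only [this, smul_eq_mul]
    ring
  have h4 := tendsto_nhds_unique h1 (h2.congr h3)
  have h5 : fderiv ℝ (fun w => ∫ y, ψ y * g (w - y)) (z + (0 : ℝ) • ξ) ξ =
      fderiv ℝ (fun w => ∫ y, ψ y * g (w - y)) z ξ := by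
    rw [zero_smul, add_zero]
  rw [← h5, h4]
  refine integral_congr_ae (Filter.Eventually.of_forall fun y => ?_)
  have h6 : (fun t : ℝ => g (z - (y + t • (-ξ)))) = fun t : ℝ => g (z - y + t • ξ) := by
    funext t
    have : z - (y + t • (-ξ)) = z - y + t • ξ := by
      rw [smul_neg]
      abel
    rw [this]
  simp only [lineDeriv, h6]
  exact mul_comm _ _

/-- a compactly supported `C^{1,1}` function is Lipschitz together with its derivative -/
theorem sub11_lip {g : Cn n → ℝ} (hg : C11 univ g) (hc : HasCompactSupport g) :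
    ∃ C : NNReal, LipschitzWith C (fderiv ℝ g) := by
  obtain ⟨R, hR⟩ := hc.isCompact.isBounded.subset_closedBall (0 : Cn n)
  obtain ⟨C, hC⟩ := hg.lip (closedBall 0 (R + 1)) (isCompact_closedBall _ _) (subset_univ _)
  have hcont : ContinuousOn (fderiv ℝ g) (closedBall 0 (R + 1)) := hC.continuousOn
  obtain ⟨M, hM⟩ := (isCompact_closedBall (0 : Cn n) (R + 1)).exists_bound_of_continuousOn hcont
  have hzero : ∀ w, w ∉ closedBall (0 : Cn n) R → fderiv ℝ g w = 0 := by
    intro w hw
    have h1 : w ∉ tsupport g := fun h => hw (hR h)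
    have h2 : w ∉ tsupport (fderiv ℝ g) := fun h => h1 (tsupport_fderiv_subset ℝ h)
    exact image_eq_zero_of_notMem_tsupport h2
  have hbd : ∀ w, ‖fderiv ℝ g w‖ ≤ |M| := by
    intro w
    by_cases hw : w ∈ closedBall (0 : Cn n) (R + 1)
    · exact (hM w hw).trans (le_abs_self M)
    · rw [hzero w (fun h => hw (closedBall_subset_closedBall (by linarith) h))]
      have : ‖(0 : Cn n →L[ℝ] ℝ)‖ = 0 := norm_zero (E := (Cn n →L[ℝ] ℝ))
      rw [this]
      exact abs_nonneg M
  refine ⟨max C (Real.toNNReal |M|), LipschitzWith.of_dist_le_mul fun x y => ?_⟩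
  have aux : ∀ x y : Cn n, x ∈ closedBall (0 : Cn n) (R + 1) →
      y ∉ closedBall (0 : Cn n) (R + 1) → dist (fderiv ℝ g x) (fderiv ℝ g y) ≤
        (max C (Real.toNNReal |M|) : NNReal) * dist x y := by
    intro x y _ hy
    rw [hzero y (fun h => hy (closedBall_subset_closedBall (by linarith) h))]
    by_cases hx' : x ∈ closedBall (0 : Cn n) R
    · have h1 : 1 ≤ dist x y := by
        have h2 := dist_triangle y x 0
        rw [mem_closedBall] at hx' hy
        rw [dist_comm x y]
        linarith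
      have h2 : dist (fderiv ℝ g x) 0 ≤ |M| := by
        rw [dist_zero_right]
        exact hbd x
      refine h2.trans ?_
      rw [NNReal.coe_max, Real.coe_toNNReal _ (abs_nonneg M)]
      calc |M| = |M| * 1 := (mul_one _).symm
        _ ≤ max (C : ℝ) |M| * dist x y := by
            gcongr
            exact le_max_right _ _
    · rw [hzero x hx', dist_self]
      positivity
  by_cases hx : x ∈ closedBall (0 : Cn n) (R + 1)
  · by_cases hy : y ∈ closedBall (0 : Cn n) (R + 1)
    · refine (hC.dist_le_mul x hx y hy).trans ?_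
      gcongr
      exact le_max_left _ _
    · exact aux x y hx hy
  · by_cases hy : y ∈ closedBall (0 : Cn n) (R + 1)
    · rw [dist_comm (fderiv ℝ g x), dist_comm x y]
      exact aux y x hy hx
    · rw [hzero y (fun h => hy (closedBall_subset_closedBall (by linarith) h)),
        hzero x (fun h => hx (closedBall_subset_closedBall (by linarith) h)), dist_self]
      positivity

theorem sub11_lip0 {g : Cn n → ℝ} (hg : C11 univ g) (hc : HasCompactSupport g) :
    ∃ C : NNReal, LipschitzWith C g := by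
  obtain ⟨C, hC⟩ := sub11_lip hg hc
  obtain ⟨M, hM⟩ := hC.continuous.bounded_above_of_compact_support (hc.fderiv ℝ)
  refine ⟨Real.toNNReal |M|, ?_⟩
  refine lipschitzWith_of_nnnorm_fderiv_le (𝕜 := ℝ) (fun z => hg.diff z (mem_univ z))
    fun z => ?_
  rw [← NNReal.coe_le_coe, coe_nnnorm, Real.coe_toNNReal _ (abs_nonneg M)]
  exact (hM z).trans (le_abs_self M)

/-- the Levi form of a mollification -/
theorem sub11_lev {g : Cn n → ℝ} (hg : C11 univ g) (hc : HasCompactSupport g) {ψ : Cn n → ℝ}
    (hψ : ContDiff ℝ ∞ ψ) (hψc : HasCompactSupport ψ) (z ξ : Cn n) :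
    lev (fun w => ∫ y, ψ y * g (w - y)) z ξ = ∫ y, ψ y *
      ((hes g (z - y) ξ ξ + hes g (z - y) (Complex.I • ξ) (Complex.I • ξ)) / 4) := by
  obtain ⟨C, hC⟩ := sub11_lip hg hc
  obtain ⟨C0, hC0⟩ := sub11_lip0 hg hc
  have hlip1 : ∀ η : Cn n, LipschitzWith (‖η‖₊ * C) (fun w => fderiv ℝ g w η) := by
    intro η
    refine LipschitzWith.of_dist_le_mul fun x y => ?_
    rw [dist_eq_norm, ← sub_apply]
    refine (ContinuousLinearMap.le_opNorm _ _).trans ?_
    have := hC.dist_le_mul x y
    rw [dist_eq_norm] at this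
    rw [NNReal.coe_mul, coe_nnnorm]
    calc ‖fderiv ℝ g x - fderiv ℝ g y‖ * ‖η‖ ≤ (C * dist x y) * ‖η‖ := by gcongr
      _ = ‖η‖ * C * dist x y := by ring
  have h1 : ∀ η : Cn n, (fun w => fderiv ℝ (fun w => ∫ y, ψ y * g (w - y)) w η) =
      fun w => ∫ y, ψ y * fderiv ℝ g (w - y) η := by
    intro η
    funext w
    rw [sub11_conv hC0 hψ hψc]
    refine integral_congr_ae (Filter.Eventually.of_forall fun y => ?_)
    simp only
    rw [(hg.diff (w - y) (mem_univ _)).lineDeriv_eq_fderiv]
  have htw : ∀ᵐ w : Cn n, TwD g w := by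
    filter_upwards [C11.ae_twD isOpen_univ hg] with w hw using hw (mem_univ w)
  have htw' : ∀ᵐ y : Cn n, TwD g (z - y) :=
    (quasiMeasurePreserving_sub_left volume z).ae htw
  have h2 : ∀ η : Cn n, fderiv ℝ (fun w => fderiv ℝ (fun w => ∫ y, ψ y * g (w - y)) w η) z η =
      ∫ y, ψ y * hes g (z - y) η η := by
    intro η
    rw [h1 η, sub11_conv (hlip1 η) hψ hψc]
    refine integral_congr_ae ?_
    filter_upwards [htw'] with y hy
    have h3 : HasFDerivAt (fun w => fderiv ℝ g w η)
        ((ContinuousLinearMap.apply ℝ ℝ η).comp (fderiv ℝ (fderiv ℝ g) (z - y))) (z - y) :=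
      (ContinuousLinearMap.apply ℝ ℝ η).hasFDerivAt.comp _ hy.2.hasFDerivAt
    rw [h3.differentiableAt.lineDeriv_eq_fderiv, h3.fderiv]
    rfl
  have hint : ∀ η : Cn n, Integrable (fun y => ψ y * hes g (z - y) η η) := by
    intro η
    have hbd : ∀ y, ‖hes g (z - y) η η‖ ≤ C * ‖η‖ * ‖η‖ := by
      intro y
      refine (ContinuousLinearMap.le_opNorm₂ _ _ _).trans ?_
      gcongr
      exact norm_fderiv_le_of_lipschitz ℝ hC
    have hm : Measurable fun y => hes g (z - y) η η := by
      have h3 : Measurable (fderiv ℝ (fderiv ℝ g)) := measurable_fderiv ℝ _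
      have h4 : Measurable (fun w => fderiv ℝ (fderiv ℝ g) w η η) := by
        have h5 : Measurable (fun w => fderiv ℝ (fderiv ℝ g) w η) := by
          exact (ContinuousLinearMap.apply ℝ (Cn n →L[ℝ] ℝ) η).continuous.measurable.comp h3
        exact (ContinuousLinearMap.apply ℝ ℝ η).continuous.measurable.comp h5
      exact h4.comp (measurable_const.sub measurable_id)
    exact (hψ.continuous.integrable_of_hasCompactSupport hψc).mul_bdd
      hm.aestronglyMeasurable (Filter.Eventually.of_forall hbd)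
  unfold lev
  rw [h2, h2, ← integral_add (hint _) (hint _), ← integral_div]
  refine integral_congr_ae (Filter.Eventually.of_forall fun y => ?_)
  simp only
  ring

theorem c11_sub_iff (hΩ : IsOpen Ω) (hu : C11 Ω u) :
    SubOn Ω u ↔ ∀ᵐ z : Cn n, z ∈ Ω → (LM u z).PosSemidef := by
  have hcu : ContinuousOn u Ω := hu.continuousOn
  have hpi : (0 : ℝ) < 2 * Real.pi := by positivity
  constructor
  · intro hs
    filter_upwards [C11.ae_twD hΩ hu] with z hz hzΩ
    have hT : TwD u z := hz hzΩ
    rw [hT.psd_iff]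
    intro ξ
    have key : ∀ e : ℝ, 0 < e → 0 ≤ (hes u z ξ ξ + hes u z (Complex.I • ξ) (Complex.I • ξ)) / 2 +
        e := by
      intro e he
      obtain ⟨δ, hδ, hδ'⟩ := sub11_taylor hT (ε := e / (2 * (‖ξ‖ ^ 2 + 1))) (by positivity)
      obtain ⟨r, hr, hr'⟩ := Metric.nhds_basis_closedBall.mem_iff.1 (hΩ.mem_nhds hzΩ)
      set t : ℝ := min δ r / (‖ξ‖ + 1) with ht
      have hξ1 : 0 < ‖ξ‖ + 1 := by positivity
      have ht0 : 0 < t := div_pos (lt_min hδ hr) hξ1
      have htn : ‖t • ξ‖ ≤ min δ r := by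
        rw [norm_smul, Real.norm_eq_abs, abs_of_pos ht0]
        calc t * ‖ξ‖ ≤ t * (‖ξ‖ + 1) := by
              gcongr
              linarith
          _ = min δ r := by rw [ht]; field_simp
      have hb1 : ‖t • ξ‖ ≤ δ := htn.trans (min_le_left _ _)
      have hb2 : ‖t • ξ‖ ≤ r := htn.trans (min_le_right _ _)
      have hball : ∀ ζ : ℂ, ‖ζ‖ ≤ 1 → z + ζ • (t • ξ) ∈ Ω := by
        intro ζ hζ
        apply hr'
        rw [mem_closedBall, dist_eq_norm, add_sub_cancel_left, norm_smul]
        calc ‖ζ‖ * ‖t • ξ‖ ≤ 1 * ‖t • ξ‖ := by gcongr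
          _ ≤ r := by rw [one_mul]; exact hb2
      have hmem : ∀ θ : ℝ, z + Complex.exp (θ * Complex.I) • (t • ξ) ∈ Ω := fun θ =>
        hball _ (by rw [Complex.norm_exp_ofReal_mul_I])
      have hcirc : Continuous fun θ : ℝ => z + Complex.exp (θ * Complex.I) • (t • ξ) := by
        fun_prop
      have hcu1 : Continuous fun θ : ℝ => u (z + Complex.exp (θ * Complex.I) • (t • ξ)) :=
        hcu.comp_continuous hcirc hmem
      have hup : ∀ θ : ℝ, u (z + Complex.exp (θ * Complex.I) • (t • ξ)) ≤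
          u z + t * (Real.cos θ * fderiv ℝ u z ξ + Real.sin θ * fderiv ℝ u z (Complex.I • ξ)) +
          t ^ 2 / 2 * (Real.cos θ ^ 2 * hes u z ξ ξ + Real.cos θ * Real.sin θ *
            (hes u z ξ (Complex.I • ξ) + hes u z (Complex.I • ξ) ξ) +
            Real.sin θ ^ 2 * hes u z (Complex.I • ξ) (Complex.I • ξ) + e) := by
        intro θ
        have e1 := hδ' (Complex.exp (θ * Complex.I) • (t • ξ)) (by
          rw [sub11_rot_norm]; exact hb1)
        rw [sub11_rot_norm] at e1
        have e2 := (abs_le.1 e1).2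
        have e3 := sub11_expand ξ t e θ (fderiv ℝ u z) (hes u z) (u z)
        have e4 : e / (2 * (‖ξ‖ ^ 2 + 1)) * ‖t • ξ‖ ^ 2 ≤ e * t ^ 2 / 2 := by
          rw [norm_smul, Real.norm_eq_abs, mul_pow, sq_abs]
          have e5 : ‖ξ‖ ^ 2 / (‖ξ‖ ^ 2 + 1) ≤ 1 := by
            rw [div_le_one (by positivity)]
            linarith
          calc e / (2 * (‖ξ‖ ^ 2 + 1)) * (t ^ 2 * ‖ξ‖ ^ 2) =
                e * t ^ 2 / 2 * (‖ξ‖ ^ 2 / (‖ξ‖ ^ 2 + 1)) := by
                field_simp
            _ ≤ e * t ^ 2 / 2 * 1 := by gcongr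
            _ = e * t ^ 2 / 2 := mul_one _
        rw [← e3]
        linarith
      have h1 := intervalIntegral.integral_mono (μ := volume) (a := 0) (b := 2 * Real.pi) hpi.le
        (hcu1.intervalIntegrable _ _)
        (Continuous.intervalIntegrable (by fun_prop) _ _) hup
      rw [Smooth1_mean] at h1
      have h2 := hs z (t • ξ) hball
      have h3 : u z ≤ u z + t ^ 2 / 2 * ((hes u z ξ ξ +
          hes u z (Complex.I • ξ) (Complex.I • ξ)) / 2 + e) := by
        refine h2.trans ?_
        rw [← div_eq_inv_mul, div_le_iff₀ hpi]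
        linarith
      have h4 : 0 ≤ t ^ 2 / 2 * ((hes u z ξ ξ +
          hes u z (Complex.I • ξ) (Complex.I • ξ)) / 2 + e) := by linarith
      exact nonneg_of_mul_nonneg_right h4 (by positivity)
    have h0 : 0 ≤ (hes u z ξ ξ + hes u z (Complex.I • ξ) (Complex.I • ξ)) / 2 :=
      le_of_forall_pos_le_add fun ε hε => by
        have := key ε hε
        linarith
    rw [hT.lev]
    linarith
  · intro hae
    refine loc_glob hΩ hcu.upperSemicontinuousOn ?_ ?_
    · intro L hL hLc
      obtain ⟨M, hM⟩ := (hLc.image_of_continuousOn (hcu.mono hL)).bddBelow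
      refine ⟨-M, fun z hz => ?_⟩
      rw [neg_neg]
      exact hM (mem_image_of_mem _ hz)
    · intro a ha
      obtain ⟨R, hR, hR'⟩ := Metric.nhds_basis_closedBall.mem_iff.1 (hΩ.mem_nhds ha)
      set r : ℝ := R / 4 with hr
      have hr0 : 0 < r := by positivity
      let χ : ContDiffBump a := ⟨3 * r, 4 * r, by positivity, by linarith⟩
      have hχs : tsupport (χ : Cn n → ℝ) ⊆ Ω := by
        rw [χ.tsupport_eq]
        refine Subset.trans (closedBall_subset_closedBall ?_) hR'
        change 4 * r ≤ R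
        rw [hr]
        linarith
      set g : Cn n → ℝ := fun z => χ z * u z with hg
      have hg11 : C11 univ g := hu.cutoff hΩ χ.contDiff χ.hasCompactSupport hχs
      have hgc : HasCompactSupport g := χ.hasCompactSupport.mul_right
      have hgu : ∀ z ∈ ball a (3 * r), g z = u z := by
        intro z hz
        have : χ z = 1 := χ.one_of_mem_closedBall (ball_subset_closedBall hz)
        rw [hg]
        simp only [this, one_mul]
      obtain ⟨C0, hC0⟩ := sub11_lip0 hg11 hgc
      let η : ℕ → ContDiffBump (0 : Cn n) := fun k =>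
        ⟨r / (2 * (k + 1)), r / (k + 1), by positivity, by
          gcongr
          linarith⟩
      have hηr : ∀ k, (η k).rOut ≤ r := by
        intro k
        change r / ((k : ℝ) + 1) ≤ r
        exact div_le_self hr0.le (by
          have : (0 : ℝ) ≤ k := Nat.cast_nonneg k
          linarith)
      set Φ : ℕ → Cn n → ℝ := fun k z => ∫ y, (η k).normed volume y * g (z - y) with hΦ
      have hψ : ∀ k, ContDiff ℝ ∞ ((η k).normed (volume : Measure (Cn n))) := fun k =>
        (η k).contDiff_normed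
      have hψc : ∀ k, HasCompactSupport ((η k).normed (volume : Measure (Cn n))) := fun k =>
        (η k).hasCompactSupport_normed
      have hΦs : ∀ k, ContDiff ℝ ∞ (Φ k) := fun k =>
        (hψc k).contDiff_convolution_left (ContinuousLinearMap.lsmul ℝ ℝ) (hψ k)
          hC0.continuous.locallyIntegrable
      have hΦsub : ∀ k, SubOn (ball a r) (Φ k) := by
        intro k
        refine smooth_sub isOpen_ball (hΦs k).contDiffOn fun z hz ξ => ?_
        rw [hΦ]
        simp only
        rw [sub11_lev hg11 hgc (hψ k) (hψc k)]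
        refine integral_nonneg_of_ae ?_
        have hae' := (quasiMeasurePreserving_sub_left volume z).ae hae
        have htw : ∀ᵐ y : Cn n, z - y ∈ Ω → TwD u (z - y) :=
          (quasiMeasurePreserving_sub_left volume z).ae (C11.ae_twD hΩ hu)
        filter_upwards [hae', htw] with y hy hty
        simp only [Pi.zero_apply]
        by_cases hyr : y ∈ ball (0 : Cn n) r
        · have hzy : z - y ∈ ball a (3 * r) := by
            rw [mem_ball, dist_eq_norm] at hz hyr ⊢
            rw [sub_zero] at hyr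
            calc ‖z - y - a‖ = ‖(z - a) - y‖ := by congr 1; abel
              _ ≤ ‖z - a‖ + ‖y‖ := norm_sub_le _ _
              _ < 3 * r := by linarith
          have hzyΩ : z - y ∈ Ω := by
            apply hR'
            rw [mem_closedBall]
            rw [mem_ball] at hzy
            have : 3 * r ≤ R := by rw [hr]; linarith
            linarith
          have hev : g =ᶠ[𝓝 (z - y)] u := by
            filter_upwards [isOpen_ball.mem_nhds hzy] with w hw using hgu w hw
          have hh : hes g (z - y) = hes u (z - y) := by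
            unfold hes
            exact (hev.fderiv (𝕜 := ℝ)).fderiv_eq
          have hT := hty hzyΩ
          have hp := (hT.psd_iff.1 (hy hzyΩ)) ξ
          rw [hT.lev] at hp
          rw [hh]
          exact mul_nonneg ((η k).nonneg_normed y) hp
        · have : (η k).normed volume y = 0 := by
            have h5 : y ∉ Function.support ((η k).normed (volume : Measure (Cn n))) := by
              rw [(η k).support_normed_eq]
              intro h6
              exact hyr (ball_subset_ball (hηr k) h6)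
            exact Function.notMem_support.1 h5
          rw [this, zero_mul]
      have hunif : ∀ ε > 0, ∃ k₀ : ℕ, ∀ k ≥ k₀, ∀ z, dist (Φ k z) (g z) < ε := by
        intro ε hε
        obtain ⟨k₀, hk₀⟩ := exists_nat_gt (C0 * r / ε)
        refine ⟨k₀, fun k hk z => ?_⟩
        have h5 : dist (Φ k z) (g z) ≤ C0 * (r / (k + 1)) := by
          refine (η k).dist_normed_convolution_le (μ := volume)
            hC0.continuous.aestronglyMeasurable fun x hx => ?_
          refine (hC0.dist_le_mul x z).trans ?_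
          gcongr
          exact (mem_ball.1 hx).le
        refine lt_of_le_of_lt h5 ?_
        have hk1 : (0 : ℝ) < (k : ℝ) + 1 := by positivity
        rw [← mul_div_assoc, div_lt_iff₀ hk1]
        have h6 : C0 * r / ε < (k : ℝ) + 1 := by
          have : (k₀ : ℝ) ≤ k := by exact_mod_cast hk
          linarith
        rw [div_lt_iff₀ hε] at h6
        linarith
      have hsub : SubOn (ball a r) u := by
        refine sub_of_tendsto Φ hΦsub (fun k => (hΦs k).continuous.continuousOn) ?_
        intro L hL _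
        rw [Metric.tendstoUniformlyOn_iff]
        intro ε hε
        obtain ⟨k₀, hk₀⟩ := hunif ε hε
        filter_upwards [Filter.eventually_ge_atTop k₀] with k hk x hx
        have h5 : x ∈ ball a (3 * r) := ball_subset_ball (by linarith) (hL hx)
        rw [← hgu x h5, dist_comm]
        exact hk₀ k hk x
      refine ⟨r / 2, by positivity, fun b hb => hsub a b fun ζ hζ => ?_⟩
      rw [mem_ball, dist_eq_norm, add_sub_cancel_left, norm_smul]
      calc ‖ζ‖ * ‖b‖ ≤ 1 * (r / 2) := by gcongr
        _ < r := by linarith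

end HMA
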