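import Pool.Agent.H85.KM.Seg
import Pool.Agent.H85.KM.Sub11

/-! # Module CPn: comparison of Monge-Ampère masses -/

open MeasureTheory Metric Set
open scoped ENNReal Topology ContDiff ComplexOrder

namespace HMA

/-- the derivative of `θ` -/
noncomputable def cpn_t (η x : ℝ) : ℝ := Real.smoothTransition ((x + η) / (2 * η))

theorem cpn_t_smooth (η : ℝ) : ContDiff ℝ ∞ (cpn_t η) := by
  unfold cpn_t
  have h1 : ContDiff ℝ ∞ Real.smoothTransition := Real.smoothTransition.contDiff
  exact h1.comp ((contDiff_id.add contDiff_const).div_const _)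

theorem cpn_t_mono {η : ℝ} (hη : 0 < η) : Monotone (cpn_t η) := by
  intro x y hxy
  unfold cpn_t
  refine Real.smoothTransition.monotone ?_
  exact div_le_div_of_nonneg_right (by linarith) (by positivity)

theorem cpn_t_neg {η : ℝ} (hη : 0 < η) {x : ℝ} (hx : x ≤ -η) : cpn_t η x = 0 := by
  unfold cpn_t
  refine Real.smoothTransition.zero_of_nonpos ?_
  exact div_nonpos_of_nonpos_of_nonneg (by linarith) (by positivity)

theorem cpn_t_pos {η : ℝ} (hη : 0 < η) {x : ℝ} (hx : η ≤ x) : cpn_t η x = 1 := by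
  unfold cpn_t
  refine Real.smoothTransition.one_of_one_le ?_
  rw [le_div_iff₀ (by positivity)]
  linarith

theorem cpn_t_symm {η : ℝ} (hη : 0 < η) (x : ℝ) : cpn_t η x + cpn_t η (-x) = 1 := by
  unfold cpn_t
  have h1 : (-x + η) / (2 * η) = 1 - (x + η) / (2 * η) := by
    field_simp
    ring
  rw [h1]
  generalize (x + η) / (2 * η) = y
  unfold Real.smoothTransition
  have h2 := Real.smoothTransition.pos_denom y
  have h3 : expNegInvGlue (1 - y) + expNegInvGlue (1 - (1 - y)) =
      expNegInvGlue y + expNegInvGlue (1 - y) := by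
    rw [sub_sub_cancel]
    ring
  rw [h3, ← add_div, div_self h2.ne']

/-- a smooth convex function with `θ x = 0` for `x ≤ -η`, `θ x = x` for `x ≥ η` -/
theorem exists_theta {η : ℝ} (hη : 0 < η) : ∃ θ : ℝ → ℝ, ContDiff ℝ ∞ θ ∧
    (∀ x, x ≤ -η → θ x = 0) ∧ (∀ x, η ≤ x → θ x = x) ∧
    (∀ x, 0 ≤ deriv θ x ∧ deriv θ x ≤ 1) ∧ (∀ x, 0 ≤ deriv (deriv θ) x) ∧
    ∀ x, max x 0 ≤ θ x ∧ θ x ≤ max x 0 + η := by
  have hcont : Continuous (cpn_t η) := (cpn_t_smooth η).continuous
  have hint : ∀ a b : ℝ, IntervalIntegrable (cpn_t η) volume a b := fun a b =>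
    hcont.intervalIntegrable a b
  let θ : ℝ → ℝ := fun x => ∫ y in (-η)..x, cpn_t η y
  have hd : ∀ x, HasDerivAt θ (cpn_t η x) x := fun x =>
    intervalIntegral.integral_hasDerivAt_right (hint _ _)
      (hcont.stronglyMeasurableAtFilter _ _) hcont.continuousAt
  have hderiv : deriv θ = cpn_t η := funext fun x => (hd x).deriv
  have hsm : ContDiff ℝ ∞ θ := by
    rw [contDiff_infty_iff_deriv]
    exact ⟨fun x => (hd x).differentiableAt, by rw [hderiv]; exact cpn_t_smooth η⟩
  have h01 : ∀ x, 0 ≤ cpn_t η x ∧ cpn_t η x ≤ 1 := fun x =>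
    ⟨Real.smoothTransition.nonneg _, Real.smoothTransition.le_one _⟩
  have hθ0 : ∀ x, x ≤ -η → θ x = 0 := by
    intro x hx
    show ∫ y in (-η)..x, cpn_t η y = 0
    rw [intervalIntegral.integral_congr (g := fun _ => (0 : ℝ))]
    · simp
    · intro y hy
      rw [uIcc_of_ge hx] at hy
      exact cpn_t_neg hη hy.2
  have hθη : θ η = η := by
    have h1 : θ η = ∫ y in (-η)..η, cpn_t η y := rfl
    have h2 : ∫ y in (-η)..η, cpn_t η (-y) = ∫ y in (-η)..η, cpn_t η y := by
      have h3 := intervalIntegral.integral_comp_neg (a := -η) (b := η) (f := cpn_t η)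
      rw [neg_neg] at h3
      exact h3
    have h4 : (∫ y in (-η)..η, cpn_t η y) + ∫ y in (-η)..η, cpn_t η (-y) = 2 * η := by
      have hint' : IntervalIntegrable (fun y => cpn_t η (-y)) volume (-η) η :=
        (hcont.comp continuous_neg).intervalIntegrable _ _
      rw [← intervalIntegral.integral_add (hint _ _) hint']
      rw [intervalIntegral.integral_congr (g := fun _ => (1 : ℝ)) (fun y _ => cpn_t_symm hη y)]
      simp
      ring
    rw [h2] at h4
    rw [h1]
    linarith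
  have hθ1 : ∀ x, η ≤ x → θ x = x := by
    intro x hx
    have h1 : θ x = θ η + ∫ y in η..x, cpn_t η y :=
      (intervalIntegral.integral_add_adjacent_intervals (hint _ _) (hint _ _)).symm
    have h2 : ∫ y in η..x, cpn_t η y = x - η := by
      rw [intervalIntegral.integral_congr (g := fun _ => (1 : ℝ))]
      · simp
      · intro y hy
        rw [uIcc_of_le hx] at hy
        exact cpn_t_pos hη hy.1
    rw [h1, h2, hθη]
    ring
  have hmono : Monotone θ := by
    refine monotone_of_deriv_nonneg (fun x => (hd x).differentiableAt) (fun x => ?_)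
    rw [hderiv]
    exact (h01 x).1
  have hanti : Antitone (fun x => θ x - x) := by
    refine antitone_of_deriv_nonpos
      (fun x => ((hd x).sub (hasDerivAt_id x)).differentiableAt) (fun x => ?_)
    have h1 : deriv (fun x => θ x - x) x = cpn_t η x - 1 :=
      ((hd x).sub (hasDerivAt_id x)).deriv
    rw [h1]
    linarith [(h01 x).2]
  refine ⟨θ, hsm, hθ0, hθ1, fun x => by rw [hderiv]; exact h01 x, fun x => ?_, fun x => ?_⟩
  · rw [hderiv]
    exact (cpn_t_mono hη).deriv_nonneg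
  · have hnn : 0 ≤ θ x := by
      rcases le_total x (-η) with h | h
      · rw [hθ0 x h]
      · rw [← hθ0 (-η) le_rfl]
        exact hmono h
    rcases le_total x η with h | h
    · have h1 : x ≤ θ x := by
        have h2 := hanti h
        simp only [hθη, sub_self] at h2
        linarith
      refine ⟨max_le h1 hnn, ?_⟩
      have h3 : θ x ≤ η := by
        rw [← hθη]
        exact (hmono h).trans (le_of_eq (by rw [hθη]))
      have h4 := le_max_right x 0
      linarith
    · rw [hθ1 x h]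
      have h4 : max x 0 = x := max_eq_left (by linarith)
      rw [h4]
      exact ⟨le_refl _, by linarith⟩

theorem cpn_int {n : ℕ} {Ω : Set (Cn n)} (hΩ : IsOpen Ω) {u : Cn n → ℝ} (hu : C11 Ω u)
    {L : Set (Cn n)} (hL : IsCompact L) (hLΩ : L ⊆ Ω) : IntegrableOn (mad u) L := by
  obtain ⟨C, hC0, hC⟩ := C11.hes_bdd hΩ hu hL hLΩ
  obtain ⟨B, hB0, hB⟩ := mad_bdd n C
  have hfin : volume L < ⊤ := hL.measure_lt_top
  refine Measure.integrableOn_of_bounded (M := B) hfin.ne
    (measurable_mad u).aestronglyMeasurable ?_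
  rw [ae_restrict_iff' hL.measurableSet]
  exact Filter.Eventually.of_forall (fun z hz => (hB u u z (hC z hz) (hC z hz)).1)

theorem cp {n : ℕ} {Ω : Set (Cn n)} (hΩ : IsOpen Ω) {v h : Cn n → ℝ} (hv : C11 Ω v)
    (hh : C11 Ω h) (hvs : SubOn Ω v) (hhs : SubOn Ω h) {L : Set (Cn n)} (hL : IsCompact L)
    (hLΩ : L ⊆ Ω) {η : ℝ} (hη : 0 < η) (h1 : ∀ z ∈ Ω, z ∉ L → v z ≤ h z - η) :
    ∫⁻ z in {z | z ∈ Ω ∧ h z + η < v z}, ENNReal.ofReal (mad v z) ≤
      ∫⁻ z in L, ENNReal.ofReal (mad h z) := by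
  classical
  obtain ⟨θ, hθ, hθ0, hθ1, hθ2, hθ3, -⟩ := exists_theta hη
  have hθ2' : ContDiff ℝ 2 θ := by exact_mod_cast contDiff_infty.1 hθ 2
  let d : Cn n → ℝ := fun z => v z + (-1) * h z
  have hd : C11 Ω d := C11.add hΩ hv (C11.const_mul hΩ hh (-1))
  have hθd : C11 Ω (fun z => θ (d z)) := C11.comp_real hΩ hd hθ2'
  let w : Cn n → ℝ := fun z => if z ∈ Ω then θ (d z) else 0
  have hwΩ : ∀ z ∈ Ω, w z = θ (d z) := fun z hz => if_pos hz
  have hw : C11 Ω w := C11.congr hΩ hθd hwΩ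
  have hw0 : ∀ z, z ∉ L → w z = 0 := by
    intro z hz
    by_cases hzΩ : z ∈ Ω
    · rw [hwΩ z hzΩ]
      refine hθ0 _ ?_
      have h2 := h1 z hzΩ hz
      show v z + (-1) * h z ≤ -η
      linarith
    · exact if_neg hzΩ
  have hm : C11 Ω (fun z => h z + w z) := C11.add hΩ hh hw
  have hmass := seg_mass hΩ hh hw hL hLΩ hw0
  -- positivity
  have hpos_h : ∀ᵐ z : Cn n, z ∈ Ω → 0 ≤ mad h z := by
    filter_upwards [(c11_sub_iff hΩ hh).1 hhs] with z hz hzΩ
    exact (mat_det_nonneg (hz hzΩ)).1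
  have hpos_m : ∀ᵐ z : Cn n, z ∈ Ω → 0 ≤ mad (fun z => h z + w z) z := by
    filter_upwards [(c11_sub_iff hΩ hh).1 hhs, (c11_sub_iff hΩ hv).1 hvs, C11.ae_twD hΩ hv,
      C11.ae_twD hΩ hh] with z hz1 hz2 hz3 hz4 hzΩ
    obtain ⟨h5, h6⟩ := (hz4 hzΩ).const_mul (-1)
    obtain ⟨h7, h8⟩ := (hz3 hzΩ).add h5
    obtain ⟨h9, G, hG, h10⟩ := h7.comp_real hθ2'
    obtain ⟨-, h11⟩ := (hz4 hzΩ).add h9
    have h12 : LM (fun z => h z + w z) z = LM (fun z => h z + θ (v z + (-1) * h z)) z := by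
      refine LM_congr ?_
      filter_upwards [hΩ.mem_nhds hzΩ] with y hy
      rw [hwΩ y hy]
    have h13 : LM (fun z => h z + w z) z =
        ((1 - deriv θ (v z + (-1) * h z) : ℝ) : ℂ) • LM h z +
        ((deriv θ (v z + (-1) * h z) : ℝ) : ℂ) • LM v z +
        ((deriv (deriv θ) (v z + (-1) * h z) : ℝ) : ℂ) • G := by
      rw [h12, h11, h10, h8, h6]
      push_cast
      rw [smul_add, smul_smul, sub_smul, one_smul]
      have h14 : (((deriv θ (v z + (-1) * h z) : ℝ) : ℂ) * (-1)) • LM h z =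
          -(((deriv θ (v z + (-1) * h z) : ℝ) : ℂ) • LM h z) := by
        rw [mul_neg, mul_one, neg_smul]
      rw [h14]
      abel
    have h15 : (LM (fun z => h z + w z) z).PosSemidef := by
      rw [h13]
      have ht := hθ2 (v z + (-1) * h z)
      refine ((Matrix.PosSemidef.smul (hz1 hzΩ) ?_).add
        (Matrix.PosSemidef.smul (hz2 hzΩ) ?_)).add (Matrix.PosSemidef.smul hG ?_)
      · exact Complex.zero_le_real.2 (by linarith [ht.2])
      · exact Complex.zero_le_real.2 ht.1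
      · exact Complex.zero_le_real.2 (hθ3 _)
    exact (mat_det_nonneg h15).1
  -- the set
  set U : Set (Cn n) := {z | z ∈ Ω ∧ h z + η < v z} with hU
  have hUL : U ⊆ L := by
    rintro z ⟨hz1, hz2⟩
    by_contra hzL
    have := h1 z hz1 hzL
    linarith
  have hUopen : IsOpen U := by
    have h2 : ContinuousOn (fun z => v z - (h z + η)) Ω :=
      hv.continuousOn.sub (hh.continuousOn.add continuousOn_const)
    have h3 : U = Ω ∩ (fun z => v z - (h z + η)) ⁻¹' (Ioi 0) := by
      ext z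
      simp only [hU, mem_ofPred_eq, mem_inter_iff, mem_preimage, mem_Ioi, sub_pos]
    rw [h3]
    exact h2.isOpen_inter_preimage hΩ isOpen_Ioi
  have hmv : ∀ z ∈ U, mad v z = mad (fun z => h z + w z) z := by
    intro z hz
    unfold mad
    rw [LM_congr (z := z) (u := v) (v := fun z => h z + w z)]
    filter_upwards [hUopen.mem_nhds hz] with y hy
    rw [hwΩ y hy.1, hθ1]
    · show v y = h y + (v y + (-1) * h y)
      ring
    · show η ≤ v y + (-1) * h y
      linarith [hy.2]
  have hposL : ∀ u : Cn n → ℝ, (∀ᵐ z : Cn n, z ∈ Ω → 0 ≤ mad u z) →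
      0 ≤ᵐ[volume.restrict L] mad u := by
    intro u hu
    rw [Filter.EventuallyLE, ae_restrict_iff' hL.measurableSet]
    filter_upwards [hu] with z hz hzL
    exact hz (hLΩ hzL)
  calc ∫⁻ z in U, ENNReal.ofReal (mad v z) =
        ∫⁻ z in U, ENNReal.ofReal (mad (fun z => h z + w z) z) :=
        setLIntegral_congr_fun hUopen.measurableSet (fun z hz => by rw [hmv z hz])
    _ ≤ ∫⁻ z in L, ENNReal.ofReal (mad (fun z => h z + w z) z) := lintegral_mono_set hUL
    _ = ENNReal.ofReal (∫ z in L, mad (fun z => h z + w z) z) :=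
        (ofReal_integral_eq_lintegral_ofReal (cpn_int hΩ hm hL hLΩ) (hposL _ hpos_m)).symm
    _ = ENNReal.ofReal (∫ z in L, mad h z) := by rw [hmass]
    _ = ∫⁻ z in L, ENNReal.ofReal (mad h z) :=
        ofReal_integral_eq_lintegral_ofReal (cpn_int hΩ hh hL hLΩ) (hposL _ hpos_h)

end HMA
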