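import Pool.Agent.H85.KM.Defs
import Pool.Agent.H85.MA.Weyl

/-! # Module HolSm: holomorphic maps of several variables are smooth -/

open MeasureTheory Metric Set
open scoped ENNReal Topology ContDiff ComplexOrder

namespace HMA

theorem holsm_deriv {n m : ℕ} {F : Cn n → Cn m} {z v : Cn n} {r : ℝ} (hr : 0 < r)
    (hF : ∀ ζ : ℂ, ‖ζ‖ ≤ r → DifferentiableAt ℂ F (z + ζ • v)) :
    DiffContOnCl ℂ (fun ζ : ℂ => F (z + ζ • v)) (ball 0 r) ∧
    deriv (fun ζ : ℂ => F (z + ζ • v)) 0 = fderiv ℂ F z v ∧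
    fderiv ℂ F z v = (2 * Real.pi * Complex.I : ℂ)⁻¹ •
      ∫ θ in (0 : ℝ)..(2 * Real.pi),
        (deriv (circleMap 0 r) θ * (1 / (circleMap 0 r θ) ^ 2)) •
          F (z + circleMap 0 r θ • v) := by
  have hd : ∀ ζ : ℂ, ‖ζ‖ ≤ r → DifferentiableAt ℂ (fun ζ : ℂ => F (z + ζ • v)) ζ := by
    intro ζ hζ
    have h1 : DifferentiableAt ℂ (fun ζ : ℂ => z + ζ • v) ζ := by fun_prop
    exact DifferentiableAt.comp (g := F) ζ (hF ζ hζ) h1
  have hc : DiffContOnCl ℂ (fun ζ : ℂ => F (z + ζ • v)) (ball 0 r) := by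
    refine DifferentiableOn.diffContOnCl ?_
    intro ζ hζ
    refine (hd ζ ?_).differentiableWithinAt
    have : ζ ∈ closedBall (0 : ℂ) r := by
      have := Metric.closure_ball_subset_closedBall hζ
      exact this
    simpa using this
  have h1 := hc.deriv_eq_smul_circleIntegral hr
  have h2 : deriv (fun ζ : ℂ => F (z + ζ • v)) 0 = fderiv ℂ F z v := by
    have h3 : HasFDerivAt F (fderiv ℂ F z) (z + (0 : ℂ) • v) := by
      have := hF 0 (by simpa using hr.le)
      simp only [zero_smul, add_zero] at this ⊢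
      exact this.hasFDerivAt
    have h4 : HasDerivAt (fun ζ : ℂ => z + ζ • v) v 0 := by
      simpa using ((hasDerivAt_id (0 : ℂ)).smul_const v).const_add z
    exact (h3.comp_hasDerivAt 0 h4).deriv
  refine ⟨hc, h2, ?_⟩
  have h5 : (2 * Real.pi * Complex.I : ℂ) ≠ 0 := by
    simp [Real.pi_ne_zero]
  rw [← h2, eq_comm, inv_smul_eq_iff₀ h5, ← h1, circleIntegral]
  refine intervalIntegral.integral_congr fun θ _ => ?_
  simp [smul_smul]

/-- Cauchy estimate for the Fréchet derivative -/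
theorem holsm_cauchy {n m : ℕ} {F : Cn n → Cn m} {w : Cn n} {R M : ℝ} (hR : 0 < R)
    (hF : ∀ z ∈ closedBall w R, DifferentiableAt ℂ F z) (hM : ∀ z ∈ closedBall w R, ‖F z‖ ≤ M) :
    ‖fderiv ℂ F w‖ ≤ M / R := by
  have hM0 : 0 ≤ M := (norm_nonneg _).trans (hM w (mem_closedBall_self hR.le))
  refine ContinuousLinearMap.opNorm_le_of_unit_norm (by positivity) ?_
  intro v hv
  have hmem : ∀ ζ : ℂ, ‖ζ‖ ≤ R → w + ζ • v ∈ closedBall w R := by
    intro ζ hζ
    rw [mem_closedBall, dist_eq_norm, add_sub_cancel_left, norm_smul, hv, mul_one]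
    exact hζ
  obtain ⟨h1, h2, -⟩ := holsm_deriv (z := w) (v := v) hR (fun ζ hζ => hF _ (hmem ζ hζ))
  rw [← h2]
  refine Complex.norm_deriv_le_of_forall_mem_sphere_norm_le hR h1 ?_
  intro ζ hζ
  exact hM _ (hmem ζ (by simpa using (mem_sphere.1 hζ).le))

theorem holsm_diff {n m : ℕ} {Ω : Set (Cn n)} (hΩ : IsOpen Ω) {F : Cn n → Cn m}
    (hF : DifferentiableOn ℂ F Ω) (v : Cn n) :
    DifferentiableOn ℂ (fun z => fderiv ℂ F z v) Ω := by
  intro z0 hz0
  refine DifferentiableAt.differentiableWithinAt ?_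
  have hFd : ∀ z ∈ Ω, DifferentiableAt ℂ F z := fun z hz => hF.differentiableAt (hΩ.mem_nhds hz)
  obtain ⟨R, hR, hRΩ⟩ := Metric.isOpen_iff.1 hΩ z0 hz0
  have hL : closedBall z0 (R / 2) ⊆ Ω := (closedBall_subset_ball (by linarith)).trans hRΩ
  obtain ⟨M, hM⟩ := (isCompact_closedBall z0 (R / 2)).exists_bound_of_continuousOn
    (hF.continuousOn.mono hL)
  -- radius of the circle
  set r : ℝ := R / (8 * (‖v‖ + 1)) with hr
  have hr0 : 0 < r := by positivity
  have hrv : r * ‖v‖ ≤ R / 8 := by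
    rw [hr, div_mul_eq_mul_div, div_le_div_iff₀ (by positivity) (by norm_num)]
    nlinarith [norm_nonneg v]
  have hmem : ∀ z ∈ ball z0 (R / 8), ∀ ζ : ℂ, ‖ζ‖ ≤ r → z + ζ • v ∈ closedBall z0 (R / 4) := by
    intro z hz ζ hζ
    rw [mem_closedBall, dist_eq_norm]
    rw [mem_ball, dist_eq_norm] at hz
    have h1 : z + ζ • v - z0 = (z - z0) + ζ • v := by abel
    rw [h1]
    refine (norm_add_le _ _).trans ?_
    rw [norm_smul]
    have : ‖ζ‖ * ‖v‖ ≤ r * ‖v‖ := by gcongr
    linarith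
  have hL4 : closedBall z0 (R / 4) ⊆ Ω :=
    (closedBall_subset_closedBall (by linarith)).trans hL
  have hbound : ∀ w ∈ closedBall z0 (R / 4), ‖fderiv ℂ F w‖ ≤ M / (R / 4) := by
    intro w hw
    have hsub : closedBall w (R / 4) ⊆ closedBall z0 (R / 2) := by
      refine closedBall_subset_closedBall' ?_
      rw [mem_closedBall] at hw
      linarith
    exact holsm_cauchy (by positivity) (fun z hz => hFd z (hL (hsub hz)))
      (fun z hz => hM z (hsub hz))
  have hcn : ∀ θ : ℝ, ‖circleMap 0 r θ‖ ≤ r := by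
    intro θ
    simp [abs_of_pos hr0]
  -- the integrand
  set s : ℝ → ℂ := fun θ => deriv (circleMap 0 r) θ * (1 / (circleMap 0 r θ) ^ 2) with hs
  have hsc : Continuous s := by
    have h1 : ∀ θ, circleMap 0 r θ ≠ 0 := fun θ => circleMap_ne_center hr0.ne'
    have h2 : Continuous (circleMap (0 : ℂ) r) := continuous_circleMap 0 r
    have h3 : s = fun θ => circleMap 0 r θ * Complex.I * (1 / (circleMap 0 r θ) ^ 2) := by
      funext θ
      simp [hs]
    rw [h3]
    refine (h2.mul continuous_const).mul (continuous_const.div (h2.pow 2) ?_)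
    intro θ
    exact pow_ne_zero 2 (h1 θ)
  obtain ⟨S, hS⟩ : ∃ S : ℝ, ∀ θ, ‖s θ‖ ≤ S := by
    refine ⟨1 / r, fun θ => ?_⟩
    simp only [hs, deriv_circleMap, norm_mul, norm_div, norm_pow, norm_one, Complex.norm_I,
      mul_one]
    simp only [norm_circleMap_zero, abs_of_pos hr0]
    apply le_of_eq
    field_simp
  have hS0 : 0 ≤ S := (norm_nonneg _).trans (hS 0)
  have : ProperSpace (Cn n →L[ℂ] Cn m) := FiniteDimensional.proper ℂ _
  have hcz : ∀ z : Cn n, Continuous (fun θ : ℝ => z + circleMap 0 r θ • v) := by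
    intro z
    have : Continuous (circleMap (0 : ℂ) r) := continuous_circleMap 0 r
    fun_prop
  have hFc : ∀ z ∈ ball z0 (R / 8), Continuous (fun θ : ℝ => s θ • F (z + circleMap 0 r θ • v)) := by
    intro z hz
    refine hsc.smul ?_
    refine hF.continuousOn.comp_continuous (hcz z) fun θ => hL4 (hmem z hz _ (hcn θ))
  have hmeas : Measurable (fderiv ℂ F) := measurable_fderiv ℂ F
  have key := intervalIntegral.hasFDerivAt_integral_of_dominated_of_fderiv_le (𝕜 := ℂ)
    (μ := volume) (a := 0) (b := 2 * Real.pi) (s := ball z0 (R / 8))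
    (F := fun z θ => s θ • F (z + circleMap 0 r θ • v))
    (F' := fun z θ => s θ • fderiv ℂ F (z + circleMap 0 r θ • v)) (x₀ := z0)
    (bound := fun _ => S * (M / (R / 4))) (ball_mem_nhds z0 (by positivity))
    (by
      filter_upwards [ball_mem_nhds z0 (show 0 < R / 8 by positivity)] with z hz
      exact (hFc z hz).aestronglyMeasurable)
    ((hFc z0 (mem_ball_self (by positivity))).intervalIntegrable _ _)
    (by
      refine AEStronglyMeasurable.smul hsc.aestronglyMeasurable ?_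
      exact (hmeas.comp (hcz z0).measurable).aestronglyMeasurable)
    (by
      refine Filter.Eventually.of_forall fun θ _ z hz => ?_
      rw [norm_smul]
      exact mul_le_mul (hS θ) (hbound _ (hmem z hz _ (hcn θ))) (norm_nonneg _) hS0)
    (by simp)
    (by
      refine Filter.Eventually.of_forall fun θ _ z hz => ?_
      have h1 : HasFDerivAt F (fderiv ℂ F (z + circleMap 0 r θ • v))
          (z + circleMap 0 r θ • v) := (hFd _ (hL4 (hmem z hz _ (hcn θ)))).hasFDerivAt
      have h2 : HasFDerivAt (fun z : Cn n => z + circleMap 0 r θ • v)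
          (ContinuousLinearMap.id ℂ (Cn n)) z := (hasFDerivAt_id z).add_const _
      have h3 := h1.comp z h2
      rw [ContinuousLinearMap.comp_id] at h3
      exact h3.const_smul (s θ))
  have h4 : (fun z => fderiv ℂ F z v) =ᶠ[𝓝 z0] fun z =>
      (2 * Real.pi * Complex.I : ℂ)⁻¹ • ∫ θ in (0 : ℝ)..(2 * Real.pi),
        s θ • F (z + circleMap 0 r θ • v) := by
    filter_upwards [ball_mem_nhds z0 (show 0 < R / 8 by positivity)] with z hz
    exact (holsm_deriv hr0 (fun ζ hζ => hFd _ (hL4 (hmem z hz ζ hζ)))).2.2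
  have h5 : DifferentiableAt ℂ (fun z => (2 * Real.pi * Complex.I : ℂ)⁻¹ •
      ∫ θ in (0 : ℝ)..(2 * Real.pi), s θ • F (z + circleMap 0 r θ • v)) z0 :=
    key.differentiableAt.fun_const_smul _
  exact h5.congr_of_eventuallyEq h4

theorem hol_contDiffOn {n m : ℕ} {Ω : Set (Cn n)} (hΩ : IsOpen Ω) {F : Cn n → Cn m}
    (hF : DifferentiableOn ℂ F Ω) : ContDiffOn ℂ ∞ F Ω := by
  have key : ∀ k : ℕ, ∀ F : Cn n → Cn m, DifferentiableOn ℂ F Ω → ContDiffOn ℂ k F Ω := by
    intro k
    induction k with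
    | zero =>
      intro F hF
      exact contDiffOn_zero.2 hF.continuousOn
    | succ k ih =>
      intro F hF
      rw [Nat.cast_add, Nat.cast_one, contDiffOn_succ_iff_fderiv_of_isOpen hΩ]
      refine ⟨hF, fun h => by simp at h, ?_⟩
      rw [contDiffOn_clm_apply]
      intro v
      exact ih _ (holsm_diff hΩ hF v)
  exact contDiffOn_infty.2 fun k => key k F hF

end HMA
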