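import Pool.Agent.H85.KM.C11B
import Pool.Agent.H85.KM.Mat
import Pool.Agent.H85.KM.HolSm

/-! # Module Cov: holomorphic changes of variables -/

open MeasureTheory Metric Set
open scoped ENNReal Topology ContDiff ComplexOrder

namespace HMA

variable {n : ℕ}

/-- the sesquilinear form of a real bilinear form -/
noncomputable def covL (H : Cn n →L[ℝ] Cn n →L[ℝ] ℝ) (a b : Cn n) : ℂ :=
  (((H a b + H (Complex.I • a) (Complex.I • b) : ℝ) : ℂ) +
      Complex.I * ((H a (Complex.I • b) - H (Complex.I • a) b : ℝ) : ℂ)) / 4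

theorem covL_I (H : Cn n →L[ℝ] Cn n →L[ℝ] ℝ) (a b : Cn n) :
    covL H (Complex.I • a) b = Complex.I * covL H a b := by
  simp only [covL, smul_smul, Complex.I_mul_I, neg_smul, one_smul, map_neg,
    ContinuousLinearMap.neg_apply]
  push_cast
  ring_nf
  rw [Complex.I_sq]
  ring

theorem covL_I' (H : Cn n →L[ℝ] Cn n →L[ℝ] ℝ) (a b : Cn n) :
    covL H a (Complex.I • b) = - Complex.I * covL H a b := by
  simp only [covL, smul_smul, Complex.I_mul_I, neg_smul, one_smul, map_neg,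
    ContinuousLinearMap.neg_apply]
  push_cast
  ring_nf
  rw [Complex.I_sq]
  ring

theorem covL_add (H : Cn n →L[ℝ] Cn n →L[ℝ] ℝ) (a a' b : Cn n) :
    covL H (a + a') b = covL H a b + covL H a' b := by
  simp only [covL, smul_add, map_add, ContinuousLinearMap.add_apply]
  push_cast
  ring

theorem covL_add' (H : Cn n →L[ℝ] Cn n →L[ℝ] ℝ) (a b b' : Cn n) :
    covL H a (b + b') = covL H a b + covL H a b' := by
  simp only [covL, smul_add, map_add]
  push_cast
  ring

theorem covL_real (H : Cn n →L[ℝ] Cn n →L[ℝ] ℝ) (c : ℝ) (a b : Cn n) :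
    covL H (c • a) b = c * covL H a b := by
  simp only [covL, smul_comm Complex.I c, map_smul, ContinuousLinearMap.smul_apply, smul_eq_mul]
  push_cast
  ring

theorem covL_real' (H : Cn n →L[ℝ] Cn n →L[ℝ] ℝ) (c : ℝ) (a b : Cn n) :
    covL H a (c • b) = c * covL H a b := by
  simp only [covL, smul_comm Complex.I c, map_smul, smul_eq_mul]
  push_cast
  ring

theorem cov_smul_eq (c : ℂ) (a : Cn n) : c • a = c.re • a + c.im • (Complex.I • a) := by
  conv_lhs => rw [← Complex.re_add_im c]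
  rw [add_smul, mul_smul]
  simp only [Complex.real_smul, ← Complex.coe_smul]

theorem covL_smul (H : Cn n →L[ℝ] Cn n →L[ℝ] ℝ) (c : ℂ) (a b : Cn n) :
    covL H (c • a) b = c * covL H a b := by
  rw [cov_smul_eq, covL_add, covL_real, covL_real, covL_I, ← mul_assoc, ← add_mul,
    Complex.re_add_im]

theorem covL_smul' (H : Cn n →L[ℝ] Cn n →L[ℝ] ℝ) (c : ℂ) (a b : Cn n) :
    covL H a (c • b) = (starRingEnd ℂ) c * covL H a b := by
  rw [cov_smul_eq, covL_add', covL_real', covL_real', covL_I', ← mul_assoc, ← add_mul]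
  congr 1
  apply Complex.ext <;> simp

theorem covL_zero (H : Cn n →L[ℝ] Cn n →L[ℝ] ℝ) (b : Cn n) : covL H 0 b = 0 := by
  simpa using covL_smul H 0 0 b

theorem covL_zero' (H : Cn n →L[ℝ] Cn n →L[ℝ] ℝ) (b : Cn n) : covL H b 0 = 0 := by
  simpa using covL_smul' H 0 b 0

theorem covL_sum {ι : Type*} (s : Finset ι) (H : Cn n →L[ℝ] Cn n →L[ℝ] ℝ) (f : ι → Cn n)
    (b : Cn n) : covL H (∑ i ∈ s, f i) b = ∑ i ∈ s, covL H (f i) b := by
  classical
  induction s using Finset.induction_on with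
  | empty => simp [covL_zero]
  | insert i s hi ih => rw [Finset.sum_insert hi, Finset.sum_insert hi, covL_add, ih]

theorem covL_sum' {ι : Type*} (s : Finset ι) (H : Cn n →L[ℝ] Cn n →L[ℝ] ℝ) (f : ι → Cn n)
    (a : Cn n) : covL H a (∑ i ∈ s, f i) = ∑ i ∈ s, covL H a (f i) := by
  classical
  induction s using Finset.induction_on with
  | empty => simp [covL_zero']
  | insert i s hi ih => rw [Finset.sum_insert hi, Finset.sum_insert hi, covL_add', ih]

theorem cov_LM_eq (u : Cn n → ℝ) (z : Cn n) (j k : Fin n) :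
    LM u z j k = covL (hes u z) (bv n j) (bv n k) := rfl

theorem cov_expand (x : Cn n) : x = ∑ a, x a • bv n a := by
  ext i
  simp [bv, Finset.sum_apply, Pi.single_apply]

/-- second derivative of a composition -/
theorem cov_hes {F : Cn n → Cn n} {u : Cn n → ℝ} {z : Cn n} (hF : ContDiffAt ℂ 2 F z)
    (hu : TwD u (F z)) : TwD (fun w => u (F w)) z ∧ ∀ a b : Cn n,
      hes (fun w => u (F w)) z a b = hes u (F z) (fderiv ℂ F z a) (fderiv ℂ F z b) +
        fderiv ℝ u (F z) (fderiv ℂ (fderiv ℂ F) z a b) := by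
  have hFc : ContinuousAt F z := hF.continuousAt
  have hFd : ∀ᶠ w in 𝓝 z, DifferentiableAt ℂ F w := by
    have := (hF.eventually (by simp)).mono fun w hw => hw.differentiableAt (by simp)
    exact this
  have hFr : ∀ᶠ w in 𝓝 z, fderiv ℝ F w = (fderiv ℂ F w).restrictScalars ℝ :=
    hFd.mono fun w hw => hw.fderiv_restrictScalars ℝ
  have hud : ∀ᶠ w in 𝓝 z, DifferentiableAt ℝ u (F w) := hFc.eventually hu.1
  have hcd : ∀ᶠ w in 𝓝 z, DifferentiableAt ℝ (fun w => u (F w)) w := by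
    filter_upwards [hFd, hud] with w h1 h2
    exact h2.comp w (h1.restrictScalars ℝ)
  have hder : fderiv ℝ (fun w => u (F w)) =ᶠ[𝓝 z]
      fun w => (fderiv ℝ u (F w)).comp ((fderiv ℂ F w).restrictScalars ℝ) := by
    filter_upwards [hFd, hud, hFr] with w h1 h2 h3
    rw [← h3]
    exact fderiv_comp w h2 (h1.restrictScalars ℝ)
  have hF2 : DifferentiableAt ℂ (fderiv ℂ F) z :=
    (hF.fderiv_right (m := 1) (by norm_num)).differentiableAt (by simp)
  have hd : HasFDerivAt (fun w => (fderiv ℂ F w).restrictScalars ℝ)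
      ((ContinuousLinearMap.restrictScalarsL ℂ (Cn n) (Cn n) ℝ ℝ).comp
        ((fderiv ℂ (fderiv ℂ F) z).restrictScalars ℝ)) z :=
    (ContinuousLinearMap.restrictScalarsL ℂ (Cn n) (Cn n) ℝ ℝ).hasFDerivAt.comp z
      (hF2.hasFDerivAt.restrictScalars ℝ)
  have hc : HasFDerivAt (fun w => fderiv ℝ u (F w))
      ((fderiv ℝ (fderiv ℝ u) (F z)).comp ((fderiv ℂ F z).restrictScalars ℝ)) z :=
    hu.2.hasFDerivAt.comp z ((hFd.self_of_nhds.hasFDerivAt).restrictScalars ℝ)
  have hcomp := hc.clm_comp hd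
  have hcomp' := hcomp.congr_of_eventuallyEq hder
  refine ⟨⟨hcd, hcomp'.differentiableAt⟩, fun a b => ?_⟩
  unfold hes
  rw [hcomp'.fderiv]
  simp [ContinuousLinearMap.add_apply, ContinuousLinearMap.comp_apply, add_comm]

/-- chain rule for the Levi matrix -/
theorem LM_comp {F : Cn n → Cn n} {u : Cn n → ℝ} {z : Cn n} (hF : ContDiffAt ℂ 2 F z)
    (hu : TwD u (F z)) : TwD (fun w => u (F w)) z ∧
      LM (fun w => u (F w)) z = jac F z * LM u (F z) * (jac F z).conjTranspose := by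
  obtain ⟨h1, h2⟩ := cov_hes hF hu
  refine ⟨h1, ?_⟩
  ext j k
  have e1 : LM (fun w => u (F w)) z j k =
      covL (hes u (F z)) (fderiv ℂ F z (bv n j)) (fderiv ℂ F z (bv n k)) := by
    rw [cov_LM_eq]
    unfold covL
    simp only [h2, map_smul, ContinuousLinearMap.smul_apply, smul_smul, Complex.I_mul_I, neg_smul,
      one_smul, map_neg, ContinuousLinearMap.neg_apply]
    push_cast
    ring
  rw [e1]
  conv_lhs => rw [cov_expand (fderiv ℂ F z (bv n j)), cov_expand (fderiv ℂ F z (bv n k))]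
  rw [covL_sum, Matrix.mul_apply]
  simp only [covL_sum', covL_smul, covL_smul', Matrix.mul_apply, Matrix.conjTranspose_apply,
    ← cov_LM_eq, jac, Finset.sum_mul]
  rw [Finset.sum_comm]
  refine Finset.sum_congr rfl fun b _ => Finset.sum_congr rfl fun a _ => ?_
  simp only [starRingEnd_apply]
  ring

theorem mad_comp {F : Cn n → Cn n} {u : Cn n → ℝ} {z : Cn n} (hF : ContDiffAt ℂ 2 F z)
    (hu : TwD u (F z)) : mad (fun w => u (F w)) z = ‖(jac F z).det‖ ^ 2 * mad u (F z) := by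
  unfold mad
  rw [(LM_comp hF hu).2, mat_det_conj, Complex.re_ofReal_mul]

theorem mal_comp {F : Cn n → Cn n} {u w : Cn n → ℝ} {z : Cn n} (hF : ContDiffAt ℂ 2 F z)
    (hu : TwD u (F z)) (hw : TwD w (F z)) :
    mal (fun y => u (F y)) (fun y => w (F y)) z = ‖(jac F z).det‖ ^ 2 * mal u w (F z) := by
  unfold mal
  rw [(LM_comp hF hu).2, (LM_comp hF hw).2, mat_adj_conj, Complex.re_ofReal_mul]

theorem jac_det_ne_zero {F : Cn n → Cn n} {z : Cn n} (h : Function.Injective (fderiv ℂ F z)) :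
    (jac F z).det ≠ 0 := by
  intro h0
  obtain ⟨v, hv, hv0⟩ := Matrix.exists_vecMul_eq_zero_iff.mpr h0
  apply hv
  have h1 : fderiv ℂ F z (∑ j, v j • bv n j) = 0 := by
    ext a
    have := congrFun hv0 a
    simp only [Matrix.vecMul, dotProduct, jac, Pi.zero_apply] at this
    rw [map_sum]
    simp only [map_smul]
    simpa [Finset.sum_apply] using this
  have h2 : ∑ j, v j • bv n j = 0 := h (by rw [h1, map_zero])
  ext a
  have h3 := congrArg (fun x : Cn n => x a) h2
  simpa [bv, Finset.sum_apply, Pi.single_apply] using h3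

theorem cov_det (L : Cn n →L[ℂ] Cn n) (M : Matrix (Fin n) (Fin n) ℂ)
    (hM : ∀ j a, M j a = (L (bv n j)) a) :
    |(L.restrictScalars ℝ).det| = ‖M.det‖ ^ 2 := by
  have h1 : (L.restrictScalars ℝ).det = Algebra.norm ℝ (LinearMap.det (L : Cn n →ₗ[ℂ] Cn n)) := by
    rw [← LinearMap.det_restrictScalars]
    rfl
  have h2 : LinearMap.det (L : Cn n →ₗ[ℂ] Cn n) = M.det := by
    rw [← LinearMap.det_toMatrix (EuclideanSpace.basisFun (Fin n) ℂ).toBasis, ← Matrix.det_transpose]
    congr 1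
    ext j a
    rw [Matrix.transpose_apply, LinearMap.toMatrix_apply, hM]
    simp [bv]
  rw [h1, h2, Algebra.norm_complex_apply, ← Complex.sq_norm, abs_of_nonneg (by positivity)]

/-- change of variables in integrals -/
theorem lintegral_hol {Ω : Set (Cn n)} (hΩ : IsOpen Ω) {F : Cn n → Cn n}
    (hF : DifferentiableOn ℂ F Ω) {E : Set (Cn n)} (hE : MeasurableSet E) (hEΩ : E ⊆ Ω)
    (hi : InjOn F E) (g : Cn n → ℝ≥0∞) :
    ∫⁻ y in F '' E, g y = ∫⁻ z in E, ENNReal.ofReal (‖(jac F z).det‖ ^ 2) * g (F z) := by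
  rw [lintegral_image_eq_lintegral_abs_det_fderiv_mul volume hE
    (f' := fun z => (fderiv ℂ F z).restrictScalars ℝ) _ hi g]
  · refine lintegral_congr fun z => ?_
    rw [cov_det (fderiv ℂ F z) (jac F z) fun j a => rfl]
  · intro z hz
    exact (((hF.differentiableAt (hΩ.mem_nhds (hEΩ hz))).hasFDerivAt).restrictScalars
      ℝ).hasFDerivWithinAt

theorem cov_meas_det (F : Cn n → Cn n) :
    Measurable fun z => ENNReal.ofReal (‖(jac F z).det‖ ^ 2) := by
  have h1 : ∀ j a, Measurable fun z => jac F z j a := by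
    intro j a
    have h := measurable_fderiv_apply_const ℂ F (bv n j)
    exact (PiLp.continuous_apply 2 _ a).measurable.comp h
  have h2 : Measurable fun z => (jac F z).det := by
    simp only [Matrix.det_apply]
    refine Finset.measurable_sum _ fun σ _ => ?_
    refine Measurable.const_smul ?_ _
    exact Finset.measurable_prod _ fun i _ => h1 _ _
  exact (h2.norm.pow_const 2).ennreal_ofReal

/-- null sets under holomorphic maps with invertible derivative -/
theorem ae_comp_hol {Ω : Set (Cn n)} (hΩ : IsOpen Ω) {F : Cn n → Cn n}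
    (hF : DifferentiableOn ℂ F Ω) (hi : InjOn F Ω)
    (hd : ∀ z ∈ Ω, Function.Injective (fderiv ℂ F z)) {p : Cn n → Prop}
    (hp : ∀ᵐ y : Cn n, y ∈ F '' Ω → p y) : ∀ᵐ z : Cn n, z ∈ Ω → p (F z) := by
  set N : Set (Cn n) := toMeasurable volume {y | ¬ (y ∈ F '' Ω → p y)} with hN
  have hN0 : volume N = 0 := by
    rw [hN, measure_toMeasurable]
    exact hp
  have hNm : MeasurableSet N := measurableSet_toMeasurable _ _
  have hres : Measurable (Ω.restrict F) :=
    (continuousOn_iff_continuous_restrict.mp hF.continuousOn).measurable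
  set E : Set (Cn n) := Subtype.val '' ((Ω.restrict F) ⁻¹' N) with hE
  have hEm : MeasurableSet E := hΩ.measurableSet.subtype_image (hres hNm)
  have hEs : ∀ z, z ∈ E ↔ z ∈ Ω ∧ F z ∈ N := by
    intro z
    constructor
    · rintro ⟨y, hy, rfl⟩
      exact ⟨y.2, hy⟩
    · rintro ⟨h1, h2⟩
      exact ⟨⟨z, h1⟩, h2, rfl⟩
  have hEΩ : E ⊆ Ω := fun z hz => ((hEs z).mp hz).1
  have hint : ∫⁻ z in E, ENNReal.ofReal (‖(jac F z).det‖ ^ 2) = 0 := by
    have h := lintegral_hol hΩ hF hEm hEΩ (hi.mono hEΩ) (fun _ => 1)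
    simp only [mul_one] at h
    rw [← h, setLIntegral_one]
    refine measure_mono_null ?_ hN0
    rintro _ ⟨z, hz, rfl⟩
    exact ((hEs z).mp hz).2
  have hae := (lintegral_eq_zero_iff (cov_meas_det F)).mp hint
  have hae' := (ae_restrict_iff' hEm).mp hae
  filter_upwards [hae'] with z hz hzΩ
  by_contra hpz
  have hzE : z ∈ E := by
    refine (hEs z).mpr ⟨hzΩ, subset_toMeasurable _ _ ?_⟩
    intro h
    exact hpz (h ⟨z, hzΩ, rfl⟩)
  have h0 := hz hzE
  simp only [Pi.zero_apply, ENNReal.ofReal_eq_zero] at h0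
  have h1 : 0 < ‖(jac F z).det‖ := norm_pos_iff.mpr (jac_det_ne_zero (hd z hzΩ))
  have h2 : 0 < ‖(jac F z).det‖ ^ 2 := by positivity
  linarith

/-- images of open sets -/
theorem isOpen_image_hol {Ω : Set (Cn n)} (hΩ : IsOpen Ω) {F : Cn n → Cn n}
    (hF : DifferentiableOn ℂ F Ω) (hd : ∀ z ∈ Ω, Function.Injective (fderiv ℂ F z))
    {U : Set (Cn n)} (hU : IsOpen U) (hUΩ : U ⊆ Ω) : IsOpen (F '' U) := by
  rw [isOpen_iff_mem_nhds]
  rintro _ ⟨z, hz, rfl⟩
  have hzΩ := hUΩ hz
  have hsm : ContDiffAt ℂ 1 F z :=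
    ((hol_contDiffOn hΩ hF).contDiffAt (hΩ.mem_nhds hzΩ)).of_le (by simp)
  have hstr := hsm.hasStrictFDerivAt (by simp)
  have hinj := hd z hzΩ
  let e : Cn n ≃L[ℂ] Cn n :=
    (LinearEquiv.ofInjectiveEndo (fderiv ℂ F z : Cn n →ₗ[ℂ] Cn n) hinj).toContinuousLinearEquiv
  have he : (e : Cn n →L[ℂ] Cn n) = fderiv ℂ F z := by
    ext x
    rfl
  have hstr' : HasStrictFDerivAt F (e : Cn n →L[ℂ] Cn n) z := by rw [he]; exact hstr
  rw [← hstr'.map_nhds_eq_of_equiv]
  exact Filter.image_mem_map (hU.mem_nhds hz)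

end HMA
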