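import Pool.Agent.H85.MA.Defs

/-!
# Compact Kähler manifolds and their `ω`-plurisubharmonic functions: definitions
-/

open MeasureTheory Metric Set
open scoped ENNReal Topology ContDiff

namespace HMA

/-! ### Complex Monge-Ampère calculus for `C^{1,1}` functions -/

/-- the second derivative -/
noncomputable def hes {n : ℕ} (u : Cn n → ℝ) (z : Cn n) : Cn n →L[ℝ] Cn n →L[ℝ] ℝ :=
  fderiv ℝ (fderiv ℝ u) z

/-- the Levi matrix `(∂² u / ∂z_j ∂\bar z_k)` -/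
noncomputable def LM {n : ℕ} (u : Cn n → ℝ) (z : Cn n) : Matrix (Fin n) (Fin n) ℂ :=
  fun j k =>
    (((hes u z (bv n j) (bv n k) +
        hes u z (Complex.I • bv n j) (Complex.I • bv n k) : ℝ) : ℂ) +
      Complex.I * ((hes u z (bv n j) (Complex.I • bv n k) -
        hes u z (Complex.I • bv n j) (bv n k) : ℝ) : ℂ)) / 4

/-- the determinant of the Levi matrix -/
noncomputable def mad {n : ℕ} (u : Cn n → ℝ) (z : Cn n) : ℝ := ((LM u z).det).re

/-- the derivative of the determinant in the direction of `w` -/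
noncomputable def mal {n : ℕ} (u w : Cn n → ℝ) (z : Cn n) : ℝ :=
  (((LM u z).adjugate * LM w z).trace).re

/-- `C^{1,1}` functions on an open set -/
structure C11 {n : ℕ} (Ω : Set (Cn n)) (u : Cn n → ℝ) : Prop where
  diff : ∀ z ∈ Ω, DifferentiableAt ℝ u z
  lip : ∀ L : Set (Cn n), IsCompact L → L ⊆ Ω → ∃ C : NNReal, LipschitzOnWith C (fderiv ℝ u) L

/-- the sub-mean value inequality on all closed complex discs in `Ω` -/
def SubOn {n : ℕ} (Ω : Set (Cn n)) (u : Cn n → ℝ) : Prop :=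
  ∀ a b : Cn n, (∀ ζ : ℂ, ‖ζ‖ ≤ 1 → a + ζ • b ∈ Ω) → u a ≤ (2 * Real.pi)⁻¹ *
    ∫ θ in (0 : ℝ)..(2 * Real.pi), u (a + Complex.exp (θ * Complex.I) • b)

/-- the complex Jacobian matrix `(∂F_a / ∂z_j)` (row `j`, column `a`) -/
noncomputable def jac {n : ℕ} (F : Cn n → Cn n) (z : Cn n) : Matrix (Fin n) (Fin n) ℂ :=
  fun j a => (fderiv ℂ F z (bv n j)) a

/-- competitors for the envelope -/
structure EnvF {n : ℕ} (Ω : Set (Cn n)) (u f v : Cn n → ℝ) : Prop where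
  usc : UpperSemicontinuousOn v Ω
  sub : SubOn Ω v
  le : ∀ z ∈ Ω, v z ≤ f z
  ge : ∀ z ∈ Ω, u z ≤ v z

/-- the largest plurisubharmonic function between `u` and `f` -/
noncomputable def envP {n : ℕ} (Ω : Set (Cn n)) (u f : Cn n → ℝ) (z : Cn n) : ℝ :=
  sSup {t | ∃ v, EnvF Ω u f v ∧ v z = t}

/-! ### Compact Kähler manifolds -/

/-- A Kähler manifold `(X, ω)` of dimension `n` with a finite holomorphic atlas: charts
`κ i : ball 0 3 → X` (homeomorphisms onto open subsets such that the images of the unit ball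
cover `X`), holomorphic transition maps, and smooth strictly plurisubharmonic local potentials
`ρ i` of `ω` (`ω = dd^c ρ i` in the chart `i`, the Levi forms agree on the overlaps). -/
structure KM (n : ℕ) (X : Type) [TopologicalSpace X] where
  N : ℕ
  κ : Fin N → Cn n → X
  injOn : ∀ i, InjOn (κ i) (ball 0 3)
  cont : ∀ i, ContinuousOn (κ i) (ball 0 3)
  isOpen_image : ∀ i, ∀ U ⊆ ball (0 : Cn n) 3, IsOpen U → IsOpen (κ i '' U)
  cover : ∀ x : X, ∃ i, x ∈ κ i '' ball 0 1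
  τ : Fin N → Fin N → Cn n → Cn n
  τ_spec : ∀ i j, ∀ z ∈ ball (0 : Cn n) 3, κ i z ∈ κ j '' ball 0 3 →
    τ i j z ∈ ball (0 : Cn n) 3 ∧ κ j (τ i j z) = κ i z
  τ_hol : ∀ i j, DifferentiableOn ℂ (τ i j) (ball 0 3 ∩ κ i ⁻¹' (κ j '' ball 0 3))
  ρ : Fin N → Cn n → ℝ
  ρ_smooth : ∀ i, ContDiffOn ℝ ∞ (ρ i) (ball 0 3)
  ρ_pos : ∀ i, ∀ z ∈ ball (0 : Cn n) 3, ∀ ξ : Cn n, ξ ≠ 0 → 0 < lev (ρ i) z ξ
  ρ_compat : ∀ i j, ∀ z ∈ ball (0 : Cn n) 3 ∩ κ i ⁻¹' (κ j '' ball 0 3), ∀ ξ : Cn n,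
    lev (fun w => ρ j (τ i j w)) z ξ = lev (ρ i) z ξ

section

variable {n : ℕ} {X : Type} [TopologicalSpace X] (K : KM n X)

/-- `F = exp ψ` for an `ω`-plurisubharmonic function `ψ : X → [-∞, ∞)`, `ψ ≢ -∞` -/
structure KPsh (F : X → ℝ) : Prop where
  loc : ∀ i, PshOn (ball 0 3) (fun z => F (K.κ i z) * Real.exp (K.ρ i z))
  nontrivial : ∃ x, F x ≠ 0

/-- `exp (- ε PSH (X, ω)) ⊂ L^1 (μ)` for some `ε > 0` -/
def KModerate [MeasurableSpace X] (μ : Measure X) : Prop :=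
  ∃ ε : ℝ, 0 < ε ∧ ∀ F : X → ℝ, KPsh K F → ∫⁻ x, (ENNReal.ofReal (F x)) ^ (-ε) ∂μ < ⊤

/-- `C^{1,1}` functions on `X` -/
def C11X (ψ : X → ℝ) : Prop := ∀ i, C11 (ball 0 3) (fun z => ψ (K.κ i z))

/-- `C^{1,1}` `ω`-plurisubharmonic functions -/
structure WK (ψ : X → ℝ) : Prop where
  c11 : C11X K ψ
  sub : ∀ i, SubOn (ball 0 3) (fun z => K.ρ i z + ψ (K.κ i z))

/-- the first chart whose unit ball contains the point -/
theorem KM.exists_ix (x : X) : ∃ i, x ∈ K.κ i '' ball 0 1 ∧ ∀ j < i, x ∉ K.κ j '' ball 0 1 := by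
  classical
  obtain ⟨i, hi⟩ := K.cover x
  have h : ∃ k : ℕ, ∃ hk : k < K.N, x ∈ K.κ ⟨k, hk⟩ '' ball 0 1 := ⟨i.1, i.2, hi⟩
  obtain ⟨hk, hx⟩ := Nat.find_spec h
  refine ⟨⟨Nat.find h, hk⟩, hx, fun j hj hx' => ?_⟩
  exact Nat.find_min h (m := j.1) hj ⟨j.2, hx'⟩

noncomputable def KM.ix (x : X) : Fin K.N := (K.exists_ix x).choose

/-- the coordinates of a point in the first chart -/
noncomputable def KM.co (x : X) : Cn n := Function.invFunOn (K.κ (K.ix x)) (ball 0 1) x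

/-- the volume measure `ω^n` (up to a constant factor) -/
noncomputable def KM.vol [MeasurableSpace X] : Measure X :=
  ∑ i, Measure.map (K.κ i) ((volume.withDensity fun z => ENNReal.ofReal (mad (K.ρ i) z)).restrict
    (ball 0 1 ∩ K.κ i ⁻¹' {x | K.ix x = i}))

/-- the density of `(ω + dd^c ψ)^n` with respect to `ω^n` -/
noncomputable def KM.RM (ψ : X → ℝ) (x : X) : ℝ :=
  mad (fun z => K.ρ (K.ix x) z + ψ (K.κ (K.ix x) z)) (K.co x) / mad (K.ρ (K.ix x)) (K.co x)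

/-- the density of `n dd^c w ∧ (ω + dd^c ψ)^(n-1)` with respect to `ω^n` -/
noncomputable def KM.RL (ψ w : X → ℝ) (x : X) : ℝ :=
  mal (fun z => K.ρ (K.ix x) z + ψ (K.κ (K.ix x) z)) (fun z => w (K.κ (K.ix x) z)) (K.co x) /
    mad (K.ρ (K.ix x)) (K.co x)

/-- the energy -/
noncomputable def KM.E [MeasurableSpace X] (ψ : X → ℝ) : ℝ :=
  ∫ s in (0 : ℝ)..1, ∫ x, ψ x * K.RM (fun y => s * ψ y) x ∂K.vol

/-- extension by zero of a function in a chart -/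
noncomputable def KM.ext (i : Fin K.N) (w : Cn n → ℝ) (x : X) : ℝ :=
  open Classical in
  if x ∈ K.κ i '' ball 0 3 then w (Function.invFunOn (K.κ i) (ball 0 3) x) else 0

end

end HMA
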