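import Pool.Agent.H85.KM.C11B
import Pool.Agent.H85.MA.Smooth1
import Pool.Agent.H85.MA.PshBall

/-! # Module EnvC: semiconcave plurisubharmonic functions are `C^{1,1}` -/

open MeasureTheory Metric Set
open scoped ENNReal Topology ContDiff ComplexOrder

namespace HMA

section SecondDiff

variable {E : Type*} [NormedAddCommGroup E] [NormedSpace ℝ E]

/-- two-sided second difference bounds give a first order Taylor expansion -/
theorem EnvC_taylor {v : E → ℝ} {z : E} {ρ C M : ℝ} (hρ : 0 < ρ) (hC : 0 ≤ C)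
    (H : ∀ y h : E, ‖y - z‖ < ρ → ‖h‖ < ρ → |v (y + h) + v (y - h) - 2 * v y| ≤ C * ‖h‖ ^ 2)
    (B : ∀ y : E, ‖y - z‖ < ρ → |v y| ≤ M) :
    ∃ L : E →L[ℝ] ℝ, ∀ h : E, ‖h‖ < ρ → |v (z + h) - v z - L h| ≤ C * ‖h‖ ^ 2 := by
  set a : ℕ → E → ℝ := fun n h => 2 ^ n * (v (z + ((1 / 2 : ℝ) ^ n) • h) - v z) with ha
  have hhalf : ∀ n : ℕ, (0 : ℝ) < (1 / 2) ^ n := fun n => by positivity
  have hhalf1 : ∀ n : ℕ, ((1 : ℝ) / 2) ^ n ≤ 1 := fun n => pow_le_one₀ (by norm_num) (by norm_num)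
  have h2half : ∀ n : ℕ, (2 : ℝ) ^ n * (1 / 2) ^ n = 1 := fun n => by
    rw [← mul_pow]; norm_num
  have hnorm : ∀ (n : ℕ) (h : E), ‖((1 / 2 : ℝ) ^ n) • h‖ = (1 / 2 : ℝ) ^ n * ‖h‖ := fun n h => by
    rw [norm_smul, Real.norm_eq_abs, abs_of_pos (hhalf n)]
  -- geometric estimate
  have hgeo : ∀ h : E, ‖h‖ < ρ → ∀ n, dist (a n h) (a (n + 1) h) ≤ (C * ‖h‖ ^ 2 / 4) * (1 / 2) ^ n := by
    intro h hh n
    have e1 : z + ((1 / 2 : ℝ) ^ (n + 1)) • h + ((1 / 2 : ℝ) ^ (n + 1)) • h = z + ((1 / 2 : ℝ) ^ n) • h := by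
      rw [add_assoc, ← add_smul]
      congr 2
      ring
    have e2 : z + ((1 / 2 : ℝ) ^ (n + 1)) • h - ((1 / 2 : ℝ) ^ (n + 1)) • h = z := by
      rw [add_sub_cancel_right]
    have hs : ‖((1 / 2 : ℝ) ^ (n + 1)) • h‖ < ρ := by
      rw [hnorm]
      calc (1 / 2 : ℝ) ^ (n + 1) * ‖h‖ ≤ 1 * ‖h‖ :=
            mul_le_mul_of_nonneg_right (hhalf1 _) (norm_nonneg _)
        _ < ρ := by rw [one_mul]; exact hh
    have key := H (z + ((1 / 2 : ℝ) ^ (n + 1)) • h) (((1 / 2 : ℝ) ^ (n + 1)) • h)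
      (by rw [add_sub_cancel_left]; exact hs) hs
    rw [e1, e2, hnorm] at key
    have e3 : a n h - a (n + 1) h = 2 ^ n * (v (z + ((1 / 2 : ℝ) ^ n) • h) + v z -
        2 * v (z + ((1 / 2 : ℝ) ^ (n + 1)) • h)) := by
      simp only [ha]
      ring
    rw [Real.dist_eq, e3, abs_mul, abs_of_pos (by positivity : (0 : ℝ) < 2 ^ n)]
    calc 2 ^ n * |v (z + ((1 / 2 : ℝ) ^ n) • h) + v z - 2 * v (z + ((1 / 2 : ℝ) ^ (n + 1)) • h)|
        ≤ 2 ^ n * (C * ((1 / 2 : ℝ) ^ (n + 1) * ‖h‖) ^ 2) :=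
          mul_le_mul_of_nonneg_left key (by positivity)
      _ = (2 ^ n * (1 / 2) ^ n) * ((C * ‖h‖ ^ 2 / 4) * (1 / 2) ^ n) := by ring
      _ = _ := by rw [h2half, one_mul]
  have hlim0 : ∀ h : E, ‖h‖ < ρ → ∃ l, Filter.Tendsto (fun n => a n h) Filter.atTop (𝓝 l) ∧
      |v (z + h) - v z - l| ≤ C * ‖h‖ ^ 2 / 2 := by
    intro h hh
    obtain ⟨l, hl⟩ := cauchySeq_tendsto_of_complete
      (cauchySeq_of_le_geometric (1 / 2) _ (by norm_num) (hgeo h hh))
    refine ⟨l, hl, ?_⟩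
    have h1 := dist_le_of_le_geometric_of_tendsto₀ (1 / 2) _ (by norm_num) (hgeo h hh) hl
    have h2 : a 0 h = v (z + h) - v z := by simp [ha]
    rw [h2, Real.dist_eq] at h1
    refine h1.trans (le_of_eq ?_)
    ring
  have hlim : ∀ h : E, ∃ l, Filter.Tendsto (fun n => a n h) Filter.atTop (𝓝 l) := by
    intro h
    obtain ⟨m, hm⟩ : ∃ m : ℕ, (1 / 2 : ℝ) ^ m * ‖h‖ < ρ := by
      have h1 : Filter.Tendsto (fun m : ℕ => (1 / 2 : ℝ) ^ m * ‖h‖) Filter.atTop (𝓝 (0 * ‖h‖)) :=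
        (tendsto_pow_atTop_nhds_zero_of_lt_one (by norm_num) (by norm_num)).mul_const _
      rw [zero_mul] at h1
      exact ((h1.eventually (gt_mem_nhds hρ)).exists)
    obtain ⟨l, hl, -⟩ := hlim0 (((1 / 2 : ℝ) ^ m) • h) (by rw [hnorm]; exact hm)
    refine ⟨2 ^ m * l, ?_⟩
    rw [← Filter.tendsto_add_atTop_iff_nat m]
    refine (hl.const_mul (2 ^ m)).congr fun n => ?_
    simp only [ha]
    rw [smul_smul, ← pow_add, pow_add (2 : ℝ) n m]
    ring
  choose l hl using hlim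
  have hadd : ∀ h k : E, l (h + k) = l h + l k := by
    intro h k
    have h1 : Filter.Tendsto (fun n => a n h + a n k - a (n + 1) (h + k)) Filter.atTop
        (𝓝 (l h + l k - l (h + k))) :=
      ((hl h).add (hl k)).sub ((hl (h + k)).comp (Filter.tendsto_add_atTop_nat 1))
    have hz : ∀ x : E, Filter.Tendsto (fun n : ℕ => (1 / 2 : ℝ) ^ (n + 1) * ‖x‖) Filter.atTop
        (𝓝 0) := by
      intro x
      have h2 : Filter.Tendsto (fun m : ℕ => (1 / 2 : ℝ) ^ m * ‖x‖) Filter.atTop (𝓝 (0 * ‖x‖)) :=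
        (tendsto_pow_atTop_nhds_zero_of_lt_one (by norm_num) (by norm_num)).mul_const _
      rw [zero_mul] at h2
      exact h2.comp (Filter.tendsto_add_atTop_nat 1)
    have h0 : Filter.Tendsto (fun n => a n h + a n k - a (n + 1) (h + k)) Filter.atTop (𝓝 0) := by
      rw [tendsto_zero_iff_abs_tendsto_zero]
      have hb : Filter.Tendsto (fun n : ℕ => (C * ‖h - k‖ ^ 2 / 4) * (1 / 2) ^ n) Filter.atTop
          (𝓝 0) := by
        have := (tendsto_pow_atTop_nhds_zero_of_lt_one (r := (1 / 2 : ℝ)) (by norm_num)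
          (by norm_num)).const_mul (C * ‖h - k‖ ^ 2 / 4)
        rwa [mul_zero] at this
      refine squeeze_zero' (Filter.Eventually.of_forall fun n => abs_nonneg _) ?_ hb
      filter_upwards [(hz (h + k)).eventually (gt_mem_nhds hρ),
        (hz (h - k)).eventually (gt_mem_nhds hρ)] with n hn1 hn2
      have e1 : z + ((1 / 2 : ℝ) ^ (n + 1)) • (h + k) + ((1 / 2 : ℝ) ^ (n + 1)) • (h - k) =
          z + ((1 / 2 : ℝ) ^ n) • h := by
        rw [add_assoc, ← smul_add, show h + k + (h - k) = (2 : ℝ) • h by rw [two_smul]; abel, smul_smul]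
        congr 2
        ring
      have e2 : z + ((1 / 2 : ℝ) ^ (n + 1)) • (h + k) - ((1 / 2 : ℝ) ^ (n + 1)) • (h - k) =
          z + ((1 / 2 : ℝ) ^ n) • k := by
        rw [add_sub_assoc, ← smul_sub, show h + k - (h - k) = (2 : ℝ) • k by rw [two_smul]; abel, smul_smul]
        congr 2
        ring
      have key := H (z + ((1 / 2 : ℝ) ^ (n + 1)) • (h + k)) (((1 / 2 : ℝ) ^ (n + 1)) • (h - k))
        (by rw [add_sub_cancel_left, hnorm]; exact hn1) (by rw [hnorm]; exact hn2)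
      rw [e1, e2, hnorm] at key
      have e3 : a n h + a n k - a (n + 1) (h + k) = 2 ^ n * (v (z + ((1 / 2 : ℝ) ^ n) • h) +
          v (z + ((1 / 2 : ℝ) ^ n) • k) - 2 * v (z + ((1 / 2 : ℝ) ^ (n + 1)) • (h + k))) := by
        simp only [ha]
        ring
      show |a n h + a n k - a (n + 1) (h + k)| ≤ _
      rw [e3, abs_mul, abs_of_pos (by positivity : (0 : ℝ) < 2 ^ n)]
      calc 2 ^ n * |v (z + ((1 / 2 : ℝ) ^ n) • h) + v (z + ((1 / 2 : ℝ) ^ n) • k) -
            2 * v (z + ((1 / 2 : ℝ) ^ (n + 1)) • (h + k))|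
          ≤ 2 ^ n * (C * ((1 / 2 : ℝ) ^ (n + 1) * ‖h - k‖) ^ 2) :=
            mul_le_mul_of_nonneg_left key (by positivity)
        _ = (2 ^ n * (1 / 2) ^ n) * ((C * ‖h - k‖ ^ 2 / 4) * (1 / 2) ^ n) := by ring
        _ = _ := by rw [h2half, one_mul]
    have := tendsto_nhds_unique h1 h0
    linarith
  have happ : ∀ h : E, ‖h‖ < ρ → |v (z + h) - v z - l h| ≤ C * ‖h‖ ^ 2 := by
    intro h hh
    obtain ⟨l', hl', hb⟩ := hlim0 h hh
    rw [tendsto_nhds_unique (hl h) hl']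
    refine hb.trans ?_
    have : 0 ≤ C * ‖h‖ ^ 2 := by positivity
    linarith
  let lh : E →+ ℝ := AddMonoidHom.mk' l hadd
  have hlh : ∀ h, lh h = l h := fun _ => rfl
  have hbd : ∀ h : E, ‖h‖ < ρ → |lh h| ≤ 2 * M + C * ρ ^ 2 := by
    intro h hh
    have h1 := abs_le.1 (happ h hh)
    have h2 := abs_le.1 (B (z + h) (by rw [add_sub_cancel_left]; exact hh))
    have h3 := abs_le.1 (B z (by rw [sub_self, norm_zero]; exact hρ))
    have h4 : C * ‖h‖ ^ 2 ≤ C * ρ ^ 2 := by gcongr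
    rw [hlh, abs_le]
    constructor <;> linarith [h1.1, h1.2, h2.1, h2.2, h3.1, h3.2]
  have hcont : Continuous lh := by
    apply continuous_of_continuousAt_zero
    rw [ContinuousAt, map_zero, Metric.tendsto_nhds_nhds]
    intro ε hε
    obtain ⟨n, hn⟩ := exists_nat_gt ((2 * M + C * ρ ^ 2) / ε)
    have hn1 : (0 : ℝ) < (n : ℝ) + 1 := by positivity
    refine ⟨ρ / (n + 1), by positivity, fun h hh => ?_⟩
    rw [dist_zero_right] at hh
    rw [dist_zero_right, Real.norm_eq_abs]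
    have h1 : ‖(n + 1) • h‖ < ρ := by
      refine (norm_nsmul_le).trans_lt ?_
      rw [lt_div_iff₀ hn1] at hh
      push_cast
      linarith [mul_comm ((n : ℝ) + 1) ‖h‖]
    have h2 := hbd _ h1
    rw [map_nsmul, nsmul_eq_mul, abs_mul, Nat.abs_cast] at h2
    push_cast at h2
    rw [div_lt_iff₀ hε] at hn
    by_contra hcon
    push Not at hcon
    have h3 : ((n : ℝ) + 1) * ε ≤ ((n : ℝ) + 1) * |lh h| := mul_le_mul_of_nonneg_left hcon hn1.le
    nlinarith
  refine ⟨lh.toRealLinearMap hcont, fun h hh => ?_⟩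
  exact happ h hh

/-- ... and a Lipschitz derivative -/
theorem EnvC_c11 {v : E → ℝ} {z₀ : E} {ρ C M : ℝ} (hρ : 0 < ρ) (hC : 0 ≤ C)
    (H : ∀ y h : E, ‖y - z₀‖ < 2 * ρ → ‖h‖ < ρ → |v (y + h) + v (y - h) - 2 * v y| ≤ C * ‖h‖ ^ 2)
    (B : ∀ y : E, ‖y - z₀‖ < 2 * ρ → |v y| ≤ M) :
    (∀ z ∈ ball z₀ (ρ / 4), DifferentiableAt ℝ v z) ∧
      LipschitzOnWith (Real.toNNReal (6 * C)) (fderiv ℝ v) (ball z₀ (ρ / 4)) := by
  have hT : ∀ z ∈ ball z₀ (ρ / 4), ∃ L : E →L[ℝ] ℝ, ∀ h : E, ‖h‖ < ρ →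
      |v (z + h) - v z - L h| ≤ C * ‖h‖ ^ 2 := by
    intro z hz
    rw [mem_ball_iff_norm] at hz
    refine EnvC_taylor (M := M) hρ hC (fun y h hy hh => H y h ?_ hh) (fun y hy => B y ?_)
    · calc ‖y - z₀‖ = ‖(y - z) + (z - z₀)‖ := by congr 1; abel
        _ ≤ ‖y - z‖ + ‖z - z₀‖ := norm_add_le _ _
        _ < 2 * ρ := by linarith
    · calc ‖y - z₀‖ = ‖(y - z) + (z - z₀)‖ := by congr 1; abel
        _ ≤ ‖y - z‖ + ‖z - z₀‖ := norm_add_le _ _
        _ < 2 * ρ := by linarith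
  choose! L hL using hT
  have hder : ∀ z ∈ ball z₀ (ρ / 4), HasFDerivAt v (L z) z := by
    intro z hz
    rw [hasFDerivAt_iff_isLittleO_nhds_zero]
    have h1 : (fun h : E => v (z + h) - v z - L z h) =O[𝓝 0] fun h : E => ‖h‖ ^ 2 := by
      refine Asymptotics.IsBigO.of_bound C ?_
      filter_upwards [ball_mem_nhds (0 : E) hρ] with h hh
      rw [mem_ball_zero_iff] at hh
      rw [Real.norm_eq_abs, Real.norm_eq_abs, abs_of_nonneg (by positivity : (0 : ℝ) ≤ ‖h‖ ^ 2)]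
      exact hL z hz h hh
    exact h1.trans_isLittleO (Asymptotics.isLittleO_norm_pow_id one_lt_two)
  refine ⟨fun z hz => (hder z hz).differentiableAt, ?_⟩
  refine LipschitzOnWith.of_dist_le_mul fun z hz z' hz' => ?_
  rw [(hder z hz).fderiv, (hder z' hz').fderiv, dist_eq_norm, dist_eq_norm,
    Real.coe_toNNReal _ (by positivity)]
  set d := ‖z - z'‖ with hd
  have hdρ : 2 * d < ρ := by
    have h1 := mem_ball_iff_norm.1 hz
    have h2 := mem_ball_iff_norm.1 hz'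
    have : d ≤ ‖z - z₀‖ + ‖z' - z₀‖ := by
      rw [hd]
      calc ‖z - z'‖ = ‖(z - z₀) - (z' - z₀)‖ := by congr 1; abel
        _ ≤ _ := norm_sub_le _ _
    linarith
  have hd0 : 0 ≤ d := norm_nonneg _
  -- estimate for vectors of length `d`
  have hkey : ∀ h : E, ‖h‖ = d → |(L z - L z') h| ≤ 6 * C * d * ‖h‖ := by
    intro h hh
    have e1 := abs_le.1 (hL z hz h (by rw [hh]; linarith))
    have hn2 : ‖z - z' + h‖ ≤ 2 * d := by
      refine (norm_add_le _ _).trans ?_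
      rw [hh]; linarith
    have e2 := abs_le.1 (hL z' hz' (z - z' + h) (by linarith))
    have e3 := abs_le.1 (hL z' hz' (z - z') (by rw [← hd]; linarith))
    have f1 : z' + (z - z' + h) = z + h := by abel
    have f2 : z' + (z - z') = z := by abel
    rw [f1, map_add] at e2
    rw [f2] at e3
    have hn2' : C * ‖z - z' + h‖ ^ 2 ≤ C * (2 * d) ^ 2 := by gcongr
    rw [← hd] at e3
    rw [hh] at e1
    have f3 : (L z - L z') h = L z h - L z' h := rfl
    rw [f3, hh, abs_le]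
    constructor <;> nlinarith [e1.1, e1.2, e2.1, e2.2, e3.1, e3.2]
  refine ContinuousLinearMap.opNorm_le_bound _ (by positivity) fun h => ?_
  rw [Real.norm_eq_abs]
  by_cases hd1 : d = 0
  · have : z = z' := by rwa [hd, norm_eq_zero, sub_eq_zero] at hd1
    subst this
    simp only [sub_self, zero_apply, abs_zero]
    positivity
  by_cases hh : h = 0
  · subst hh; simp
  have hdpos : 0 < d := lt_of_le_of_ne hd0 (Ne.symm hd1)
  have hhpos : 0 < ‖h‖ := norm_pos_iff.2 hh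
  have h1 := hkey ((d / ‖h‖) • h) (by
    rw [norm_smul, Real.norm_eq_abs, abs_of_pos (by positivity)]
    field_simp)
  rw [map_smul, smul_eq_mul, abs_mul, abs_of_pos (by positivity : 0 < d / ‖h‖), norm_smul,
    Real.norm_eq_abs, abs_of_pos (by positivity : 0 < d / ‖h‖)] at h1
  have h2 : (d / ‖h‖) * |(L z - L z') h| ≤ (d / ‖h‖) * (6 * C * d * ‖h‖) := by
    refine h1.trans (le_of_eq ?_)
    ring
  exact le_of_mul_le_mul_left h2 (by positivity)

end SecondDiff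

/-- the monotonicity of even midpoint concave functions -/
theorem EnvC_even {φ : ℝ → ℝ} {c M : ℝ} (hc : 0 ≤ c) (he : ∀ t, φ (-t) = φ t)
    (hM : ∀ t ∈ Icc (-c) c, M ≤ φ t)
    (hm : ∀ t s, t + s ∈ Icc (-c) c → t - s ∈ Icc (-c) c → φ (t + s) + φ (t - s) ≤ 2 * φ t) :
    ∀ t ∈ Icc (-c) c, φ c ≤ φ t := by
  have hbdd : BddBelow (φ '' Icc (-c) c) := ⟨M, by rintro _ ⟨t, ht, rfl⟩; exact hM t ht⟩
  have hne : (φ '' Icc (-c) c).Nonempty := ⟨_, ⟨c, ⟨by linarith, le_rfl⟩, rfl⟩⟩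
  set m := sInf (φ '' Icc (-c) c) with hmdef
  have hlow : ∀ t ∈ Icc (-c) c, m ≤ φ t := fun t ht => csInf_le hbdd ⟨t, ht, rfl⟩
  have hpos : ∀ t ∈ Icc (0 : ℝ) c, (φ c + m) / 2 ≤ φ t := by
    intro t ht
    have h1 := hm t (c - t) ⟨by linarith, by linarith⟩ ⟨by linarith [ht.1], by linarith [ht.2]⟩
    have h2 := hlow (t - (c - t)) ⟨by linarith [ht.1], by linarith [ht.2]⟩
    rw [add_sub_cancel] at h1
    linarith
  have hall : ∀ t ∈ Icc (-c) c, (φ c + m) / 2 ≤ φ t := by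
    intro t ht
    rcases le_total 0 t with h | h
    · exact hpos t ⟨h, ht.2⟩
    · rw [← he t]
      exact hpos (-t) ⟨by linarith, by linarith [ht.1]⟩
  have h3 : (φ c + m) / 2 ≤ m := le_csInf hne (by rintro _ ⟨t, ht, rfl⟩; exact hall t ht)
  intro t ht
  have := hlow t ht
  linarith

/-- integrability on circles -/
theorem EnvC_int {n : ℕ} {R : ℝ} {v : Cn n → ℝ} (hv : UpperSemicontinuousOn v (ball 0 R))
    (hb : ∀ L ⊆ ball (0 : Cn n) R, IsCompact L → ∃ M : ℝ, ∀ z ∈ L, |v z| ≤ M)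
    {a b : Cn n} (hab : closedBall a ‖b‖ ⊆ ball 0 R) (s t : ℝ) :
    IntervalIntegrable (fun θ : ℝ => v (a + Complex.exp (θ * Complex.I) • b)) volume s t := by
  obtain ⟨M, hM⟩ := hb _ hab (isCompact_closedBall _ _)
  have hmem : ∀ θ : ℝ, a + Complex.exp (θ * Complex.I) • b ∈ closedBall a ‖b‖ := by
    intro θ
    rw [mem_closedBall_iff_norm, add_sub_cancel_left, norm_smul, Complex.norm_exp_ofReal_mul_I,
      one_mul]
  have hcont : Continuous fun θ : ℝ => a + Complex.exp (θ * Complex.I) • b := by fun_prop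
  have husc : UpperSemicontinuous fun θ : ℝ => v (a + Complex.exp (θ * Complex.I) • b) := by
    intro θ y hy
    have h1 := hv _ (hab (hmem θ)) y hy
    have h2 : Filter.Tendsto (fun θ : ℝ => a + Complex.exp (θ * Complex.I) • b) (𝓝 θ)
        (𝓝[ball 0 R] (a + Complex.exp (θ * Complex.I) • b)) :=
      tendsto_nhdsWithin_iff.2 ⟨hcont.tendsto θ, Filter.Eventually.of_forall fun θ' =>
        hab (hmem θ')⟩
    exact h2.eventually h1
  have hmeas := husc.measurable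
  rw [intervalIntegrable_iff]
  refine Measure.integrableOn_of_bounded (M := M) ?_ hmeas.aestronglyMeasurable ?_
  · rw [uIoc]; exact measure_Ioc_lt_top.ne
  · exact Filter.Eventually.of_forall fun θ => by
      rw [Real.norm_eq_abs]; exact hM _ (hmem θ)

/-- the lower bound on second differences -/
theorem EnvC_lower {n : ℕ} {R R' δ C : ℝ} (hC0 : 0 ≤ C) (hR : R' ≤ R)
    {v : Cn n → ℝ} (hv : UpperSemicontinuousOn v (ball 0 R))
    (hb : ∀ L ⊆ ball (0 : Cn n) R, IsCompact L → ∃ M : ℝ, ∀ z ∈ L, |v z| ≤ M)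
    (hs : SubOn (ball 0 R) v)
    (hC : ∀ z : Cn n, ‖z‖ < R' → ∀ h : Cn n, ‖h‖ ≤ δ →
      v (z + h) + v (z - h) - 2 * v z ≤ C * ‖h‖ ^ 2)
    {a k : Cn n} (hak : ‖a‖ + 2 * ‖k‖ < R') (hk : 2 * ‖k‖ ≤ δ) :
    |v (a + k) + v (a - k) - 2 * v a| ≤ 12 * C * ‖k‖ ^ 2 := by
  set b : Cn n := (2 : ℝ) • k with hbdef
  have hnb : ‖b‖ = 2 * ‖k‖ := by rw [hbdef, norm_smul]; norm_num
  have hball : closedBall a ‖b‖ ⊆ ball 0 R := by
    intro z hz
    rw [mem_closedBall_iff_norm] at hz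
    rw [mem_ball_zero_iff]
    calc ‖z‖ = ‖a + (z - a)‖ := by congr 1; abel
      _ ≤ ‖a‖ + ‖z - a‖ := norm_add_le _ _
      _ < R := by linarith
  obtain ⟨M, hM⟩ := hb _ hball (isCompact_closedBall _ _)
  set D : Cn n → ℝ := fun p => 2 * v a - v (a + p) - v (a - p) + C * ‖p‖ ^ 2 with hD
  have ha : ‖a‖ < R' := by linarith [norm_nonneg k]
  have hD0 : ∀ p : Cn n, ‖p‖ ≤ ‖b‖ → 0 ≤ D p := by
    intro p hp
    have := hC a ha p (by linarith)
    simp only [hD]
    linarith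
  have hDneg : ∀ p : Cn n, D (-p) = D p := by
    intro p
    simp only [hD, norm_neg, sub_neg_eq_add, ← sub_eq_add_neg]
    ring
  -- monotonicity along the ray
  have hray : ∀ c : ℝ, 1 / 2 ≤ c → c ≤ 1 → D k ≤ D (c • b) := by
    intro c hc1 hc2
    have hsm : ∀ t ∈ Icc (-c) c, ‖t • b‖ ≤ ‖b‖ := by
      intro t ht
      rw [norm_smul, Real.norm_eq_abs]
      have : |t| ≤ 1 := abs_le.2 ⟨by linarith [ht.1], by linarith [ht.2]⟩
      nlinarith [norm_nonneg b]
    have hM' : ∀ t ∈ Icc (-c) c, -(2 * M) - C * ‖b‖ ^ 2 ≤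
        v (a + t • b) + v (a - t • b) - C * ‖t • b‖ ^ 2 := by
      intro t ht
      have h1 := abs_le.1 (hM (a + t • b) (by
        rw [mem_closedBall_iff_norm, add_sub_cancel_left]; exact hsm t ht))
      have h2 := abs_le.1 (hM (a - t • b) (by
        rw [mem_closedBall_iff_norm, sub_sub_cancel_left, norm_neg]; exact hsm t ht))
      have h3 : C * ‖t • b‖ ^ 2 ≤ C * ‖b‖ ^ 2 := by
        have := hsm t ht
        gcongr
      linarith [h1.1, h2.1]
    have key := EnvC_even (φ := fun t => v (a + t • b) + v (a - t • b) - C * ‖t • b‖ ^ 2)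
      (c := c) (M := -(2 * M) - C * ‖b‖ ^ 2) (by linarith)
      (fun t => by
        simp only [neg_smul, norm_neg, sub_neg_eq_add, ← sub_eq_add_neg]
        ring) hM'
      (fun t s h1 h2 => by
        have ht : |t| ≤ 1 := abs_le.2 ⟨by linarith [h1.1, h2.1], by linarith [h1.2, h2.2]⟩
        have hs' : |s| ≤ 1 := abs_le.2 ⟨by linarith [h1.1, h2.2], by linarith [h1.2, h2.1]⟩
        have htb : ‖t • b‖ ≤ ‖b‖ := by
          rw [norm_smul, Real.norm_eq_abs]; nlinarith [norm_nonneg b]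
        have hsb : ‖s • b‖ ≤ δ := by
          rw [norm_smul, Real.norm_eq_abs]; nlinarith [norm_nonneg b]
        have e1 := hC (a + t • b) ((norm_add_le _ _).trans_lt (by linarith)) (s • b) hsb
        have e2 := hC (a - t • b) ((norm_sub_le _ _).trans_lt (by linarith)) (-(s • b))
          (by rw [norm_neg]; exact hsb)
        have f1 : a + t • b + s • b = a + (t + s) • b := by rw [add_smul]; abel
        have f2 : a + t • b - s • b = a + (t - s) • b := by rw [sub_smul]; abel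
        have f3 : a - t • b + -(s • b) = a - (t + s) • b := by rw [add_smul]; abel
        have f4 : a - t • b - -(s • b) = a - (t - s) • b := by rw [sub_smul]; abel
        rw [f1, f2, norm_smul, mul_pow, Real.norm_eq_abs, sq_abs] at e1
        rw [f3, f4, norm_neg, norm_smul, mul_pow, Real.norm_eq_abs, sq_abs] at e2
        simp only [norm_smul, mul_pow, Real.norm_eq_abs, sq_abs]
        nlinarith [e1, e2])
    have h4 := key (1 / 2) ⟨by linarith, hc1⟩
    have e5 : (1 / 2 : ℝ) • b = k := by rw [hbdef, smul_smul]; norm_num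
    simp only [e5] at h4
    simp only [hD]
    linarith
  -- the midpoint inequality
  set g : ℝ → ℝ := fun θ => D (Complex.exp (θ * Complex.I) • b) with hg
  have hmid : ∀ θ : ℝ, 2 * D (Real.cos θ • b) ≤ g θ + g (Real.pi - θ) := by
    intro θ
    have hexp : Complex.exp (θ * Complex.I) • b = Real.cos θ • b + (Real.sin θ * Complex.I) • b := by
      rw [Complex.exp_mul_I, add_smul, ← Complex.ofReal_cos, ← Complex.ofReal_sin,
        Complex.coe_smul]
    have hexp2 : Complex.exp (((Real.pi - θ : ℝ) : ℂ) * Complex.I) • b =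
        -(Real.cos θ • b) + (Real.sin θ * Complex.I) • b := by
      rw [Complex.exp_mul_I, add_smul, ← Complex.ofReal_cos, ← Complex.ofReal_sin,
        Complex.coe_smul, Real.cos_pi_sub, Real.sin_pi_sub, neg_smul]
    have hn1 : ‖Real.cos θ • b‖ ≤ ‖b‖ := by
      rw [norm_smul, Real.norm_eq_abs]
      nlinarith [norm_nonneg b, Real.abs_cos_le_one θ]
    have hn2 : ‖((Real.sin θ : ℂ) * Complex.I) • b‖ = |Real.sin θ| * ‖b‖ := by
      rw [norm_smul, norm_mul, Complex.norm_I, mul_one, Complex.norm_real, Real.norm_eq_abs]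
    have hn3 : ‖((Real.sin θ : ℂ) * Complex.I) • b‖ ≤ δ := by
      rw [hn2]
      nlinarith [norm_nonneg b, Real.abs_sin_le_one θ]
    have e1 := hC (a + Real.cos θ • b) ((norm_add_le _ _).trans_lt (by linarith))
      (((Real.sin θ : ℂ) * Complex.I) • b) hn3
    have e2 := hC (a - Real.cos θ • b) ((norm_sub_le _ _).trans_lt (by linarith))
      (((Real.sin θ : ℂ) * Complex.I) • b) hn3
    rw [hn2, mul_pow, sq_abs] at e1 e2
    have hgn : ∀ θ : ℝ, ‖Complex.exp (θ * Complex.I) • b‖ = ‖b‖ := fun θ => by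
      rw [norm_smul, Complex.norm_exp_ofReal_mul_I, one_mul]
    simp only [hg, hD]
    rw [hgn, hgn, hexp, hexp2, norm_smul, Real.norm_eq_abs, mul_pow, sq_abs]
    have hcs := Real.sin_sq_add_cos_sq θ
    have f1 : a + (Real.cos θ • b + ((Real.sin θ : ℂ) * Complex.I) • b) =
      a + Real.cos θ • b + ((Real.sin θ : ℂ) * Complex.I) • b := by abel
    have f2 : a - (Real.cos θ • b + ((Real.sin θ : ℂ) * Complex.I) • b) =
      a - Real.cos θ • b - ((Real.sin θ : ℂ) * Complex.I) • b := by abel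
    have f3 : a + (-(Real.cos θ • b) + ((Real.sin θ : ℂ) * Complex.I) • b) =
      a - Real.cos θ • b + ((Real.sin θ : ℂ) * Complex.I) • b := by abel
    have f4 : a - (-(Real.cos θ • b) + ((Real.sin θ : ℂ) * Complex.I) • b) =
      a + Real.cos θ • b - ((Real.sin θ : ℂ) * Complex.I) • b := by abel
    rw [f1, f2, f3, f4]
    have hcs2 : Real.sin θ ^ 2 = 1 - Real.cos θ ^ 2 := by linarith
    rw [hcs2] at e1 e2
    nlinarith [e1, e2]
  -- integrals
  have hball' : closedBall a ‖-b‖ ⊆ ball 0 R := by rw [norm_neg]; exact hball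
  have hi1 := fun s t => EnvC_int hv hb hball s t
  have hi2 := fun s t => EnvC_int hv hb hball' s t
  have hgeq : ∀ θ, g θ = (2 * v a + C * ‖b‖ ^ 2) - v (a + Complex.exp (θ * Complex.I) • b) -
      v (a + Complex.exp (θ * Complex.I) • (-b)) := by
    intro θ
    simp only [hg, hD, smul_neg, ← sub_eq_add_neg, norm_smul, Complex.norm_exp_ofReal_mul_I,
      one_mul]
    ring
  have hgi : ∀ s t : ℝ, IntervalIntegrable g volume s t := by
    intro s t
    have h1 := (intervalIntegrable_const (c := 2 * v a + C * ‖b‖ ^ 2).sub (hi1 s t)).sub (hi2 s t)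
    exact h1.congr fun θ _ => (hgeq θ).symm
  have hg0 : ∀ θ, 0 ≤ g θ := fun θ => hD0 _ (by
    rw [norm_smul, Complex.norm_exp_ofReal_mul_I, one_mul])
  have hpi := Real.pi_pos
  have htot : ∫ θ in (0 : ℝ)..(2 * Real.pi), g θ ≤ 2 * Real.pi * (C * ‖b‖ ^ 2) := by
    have h1 := hs a b (fun ζ hζ => hball (by
      rw [mem_closedBall_iff_norm, add_sub_cancel_left, norm_smul]
      nlinarith [norm_nonneg b]))
    have h2 := hs a (-b) (fun ζ hζ => hball (by
      rw [mem_closedBall_iff_norm, add_sub_cancel_left, norm_smul, norm_neg]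
      nlinarith [norm_nonneg b]))
    simp only [hgeq]
    rw [intervalIntegral.integral_sub (intervalIntegrable_const.sub (hi1 _ _)) (hi2 _ _),
      intervalIntegral.integral_sub intervalIntegrable_const (hi1 _ _),
      intervalIntegral.integral_const, smul_eq_mul]
    have h2pi : (0 : ℝ) < 2 * Real.pi := by positivity
    rw [inv_mul_eq_div, le_div_iff₀ h2pi] at h1 h2
    linarith
  have hsplit : (∫ θ in (0 : ℝ)..(Real.pi / 3), g θ) +
      (∫ θ in (Real.pi - Real.pi / 3)..Real.pi, g θ) ≤ ∫ θ in (0 : ℝ)..(2 * Real.pi), g θ := by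
    rw [← intervalIntegral.integral_add_adjacent_intervals (hgi 0 (Real.pi / 3))
        (hgi (Real.pi / 3) (2 * Real.pi)),
      ← intervalIntegral.integral_add_adjacent_intervals (hgi (Real.pi / 3) (Real.pi - Real.pi / 3))
        (hgi (Real.pi - Real.pi / 3) (2 * Real.pi)),
      ← intervalIntegral.integral_add_adjacent_intervals (hgi (Real.pi - Real.pi / 3) Real.pi)
        (hgi Real.pi (2 * Real.pi))]
    have h1 : 0 ≤ ∫ θ in (Real.pi / 3)..(Real.pi - Real.pi / 3), g θ :=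
      intervalIntegral.integral_nonneg (by linarith) fun θ _ => hg0 θ
    have h2 : 0 ≤ ∫ θ in Real.pi..(2 * Real.pi), g θ :=
      intervalIntegral.integral_nonneg (by linarith) fun θ _ => hg0 θ
    linarith
  have hrefl : ∫ θ in (0 : ℝ)..(Real.pi / 3), g (Real.pi - θ) =
      ∫ θ in (Real.pi - Real.pi / 3)..Real.pi, g θ := by
    rw [intervalIntegral.integral_comp_sub_left (fun θ => g θ) Real.pi, sub_zero]
  have hgi' : IntervalIntegrable (fun θ => g (Real.pi - θ)) volume 0 (Real.pi / 3) := by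
    have := (hgi Real.pi (Real.pi - Real.pi / 3)).comp_sub_left Real.pi
    simpa using this
  have hlow : (Real.pi / 3) * (2 * D k) ≤ (∫ θ in (0 : ℝ)..(Real.pi / 3), g θ) +
      (∫ θ in (Real.pi - Real.pi / 3)..Real.pi, g θ) := by
    rw [← hrefl, ← intervalIntegral.integral_add (hgi _ _) hgi']
    have h1 : ∫ θ in (0 : ℝ)..(Real.pi / 3), (2 * D k) = (Real.pi / 3) * (2 * D k) := by
      rw [intervalIntegral.integral_const, smul_eq_mul, sub_zero]
    rw [← h1]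
    refine intervalIntegral.integral_mono_on (by positivity) intervalIntegrable_const
      ((hgi _ _).add hgi') fun θ hθ => ?_
    refine le_trans ?_ (hmid θ)
    have hc : 1 / 2 ≤ Real.cos θ := by
      rw [← Real.cos_pi_div_three]
      exact Real.cos_le_cos_of_nonneg_of_le_pi hθ.1 (by linarith) hθ.2
    linarith [hray _ hc (Real.cos_le_one θ)]
  have hDk : D k ≤ 12 * C * ‖k‖ ^ 2 := by
    have h1 : (Real.pi / 3) * (2 * D k) ≤ 2 * Real.pi * (C * ‖b‖ ^ 2) := by linarith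
    rw [hnb] at h1
    have h2 : Real.pi * D k ≤ Real.pi * (12 * C * ‖k‖ ^ 2) := by nlinarith
    exact le_of_mul_le_mul_left h2 hpi
  have hup := hC a ha k (by linarith [norm_nonneg k])
  simp only [hD] at hDk
  have h0 : 0 ≤ C * ‖k‖ ^ 2 := by positivity
  rw [abs_le]
  constructor <;> linarith

theorem c11_of_semi {n : ℕ} {R R' δ C : ℝ} (hδ : 0 < δ) (hR' : 0 < R') (hR : R' + δ ≤ R)
    {v : Cn n → ℝ} (hv : UpperSemicontinuousOn v (ball 0 R))
    (hb : ∀ L ⊆ ball (0 : Cn n) R, IsCompact L → ∃ M : ℝ, ∀ z ∈ L, |v z| ≤ M)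
    (hs : SubOn (ball 0 R) v)
    (hC : ∀ z : Cn n, ‖z‖ < R' → ∀ h : Cn n, ‖h‖ ≤ δ →
      v (z + h) + v (z - h) - 2 * v z ≤ C * ‖h‖ ^ 2) : C11 (ball 0 R') v := by
  set C' := max C 0 with hC'
  have hC0 : 0 ≤ C' := le_max_right _ _
  have hCC : ∀ z : Cn n, ‖z‖ < R' → ∀ h : Cn n, ‖h‖ ≤ δ →
      v (z + h) + v (z - h) - 2 * v z ≤ C' * ‖h‖ ^ 2 := fun z hz h hh =>
    (hC z hz h hh).trans (mul_le_mul_of_nonneg_right (le_max_left _ _) (by positivity))
  have hRR : R' ≤ R := by linarith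
  refine c11_of_local isOpen_ball fun z₀ hz₀ => ?_
  rw [mem_ball_zero_iff] at hz₀
  obtain ⟨ρ, hρ0, hρ1, hρ2⟩ : ∃ ρ : ℝ, 0 < ρ ∧ ‖z₀‖ + 4 * ρ < R' ∧ 2 * ρ ≤ δ := by
    refine ⟨min (δ / 2) ((R' - ‖z₀‖) / 8), lt_min (by positivity) (by linarith), ?_, ?_⟩
    · have := min_le_right (δ / 2) ((R' - ‖z₀‖) / 8)
      linarith
    · have := min_le_left (δ / 2) ((R' - ‖z₀‖) / 8)
      linarith
  have hcb : closedBall z₀ (2 * ρ) ⊆ ball 0 R := by
    intro z hz
    rw [mem_closedBall_iff_norm] at hz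
    rw [mem_ball_zero_iff]
    calc ‖z‖ = ‖z₀ + (z - z₀)‖ := by congr 1; abel
      _ ≤ ‖z₀‖ + ‖z - z₀‖ := norm_add_le _ _
      _ < R := by linarith
  obtain ⟨M, hM⟩ := hb _ hcb (isCompact_closedBall _ _)
  have key := EnvC_c11 (v := v) (z₀ := z₀) (ρ := ρ) (C := 12 * C') (M := M) hρ0 (by positivity)
    (fun y h hy hh => EnvC_lower hC0 hRR hv hb hs hCC (by
      have : ‖y‖ ≤ ‖z₀‖ + ‖y - z₀‖ := by
        calc ‖y‖ = ‖z₀ + (y - z₀)‖ := by congr 1; abel
          _ ≤ ‖z₀‖ + ‖y - z₀‖ := norm_add_le _ _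
      linarith) (by linarith))
    (fun y hy => hM y (by rw [mem_closedBall_iff_norm]; exact hy.le))
  refine ⟨ρ / 4, by positivity, _, ?_, key.1, key.2⟩
  intro z hz
  rw [mem_ball_iff_norm] at hz
  rw [mem_ball_zero_iff]
  calc ‖z‖ = ‖z₀ + (z - z₀)‖ := by congr 1; abel
    _ ≤ ‖z₀‖ + ‖z - z₀‖ := norm_add_le _ _
    _ < R' := by linarith

end HMA
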