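import Pool.Agent.H85.KM.EnvA
import Pool.Agent.H85.KM.Sub11

/-! # Module EnvD: the Monge-Ampère measure vanishes off the contact set -/

open MeasureTheory Metric Set
open scoped ENNReal Topology ContDiff ComplexOrder

namespace HMA

/-- quadratic functions -/
theorem EnvD_quad {n : ℕ} (S : Cn n →L[ℝ] Cn n →L[ℝ] ℝ) (hS : ∀ a b, S a b = S b a)
    (L : Cn n →L[ℝ] ℝ) (c : ℝ) (z₀ : Cn n) :
    ContDiff ℝ ∞ (fun z => c + L (z - z₀) + 1 / 2 * S (z - z₀) (z - z₀)) ∧
    (∀ w, HasFDerivAt (fun z => c + L (z - z₀) + 1 / 2 * S (z - z₀) (z - z₀))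
      (L + S (w - z₀)) w) ∧
    ∀ z ξ : Cn n, lev (fun z => c + L (z - z₀) + 1 / 2 * S (z - z₀) (z - z₀)) z ξ =
      (S ξ ξ + S (Complex.I • ξ) (Complex.I • ξ)) / 4 := by
  have hd : ∀ w, HasFDerivAt (fun z => c + L (z - z₀) + 1 / 2 * S (z - z₀) (z - z₀))
      (L + S (w - z₀)) w := by
    intro w
    have h1 : HasFDerivAt (fun z : Cn n => z - z₀) (ContinuousLinearMap.id ℝ (Cn n)) w :=
      (hasFDerivAt_id w).sub_const z₀
    have h2 : HasFDerivAt (fun z : Cn n => L (z - z₀)) L w := by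
      have h := (L.hasFDerivAt (x := w - z₀)).comp w h1
      rwa [ContinuousLinearMap.comp_id] at h
    have h3 : HasFDerivAt (fun z : Cn n => S (z - z₀) (z - z₀))
        ((2 : ℝ) • S (w - z₀)) w := by
      have h4 := S.hasFDerivAt_of_bilinear h1 h1
      refine h4.congr_fderiv ?_
      ext v
      change S (w - z₀) v + S v (w - z₀) = 2 * S (w - z₀) v
      rw [hS v (w - z₀)]
      ring
    have h5 := (h2.const_add c).add (h3.const_mul (1 / 2 : ℝ))
    refine h5.congr_fderiv ?_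
    ext v
    simp only [add_apply, smul_apply, smul_eq_mul]
    ring
  refine ⟨?_, hd, ?_⟩
  · have h1 : ContDiff ℝ ∞ (fun z : Cn n => z - z₀) := contDiff_id.sub contDiff_const
    have h2 : ContDiff ℝ ∞ (fun z : Cn n => L (z - z₀)) := L.contDiff.comp h1
    have h3 : ContDiff ℝ ∞ (fun z : Cn n => S (z - z₀) (z - z₀)) :=
      (S.contDiff.comp h1).clm_apply h1
    exact (contDiff_const.add h2).add (contDiff_const.mul h3)
  · intro z ξ
    have h1 : ∀ η : Cn n, fderiv ℝ (fun w => fderiv ℝ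
        (fun z => c + L (z - z₀) + 1 / 2 * S (z - z₀) (z - z₀)) w η) z η = S η η := by
      intro η
      have h2 : (fun w => fderiv ℝ
          (fun z => c + L (z - z₀) + 1 / 2 * S (z - z₀) (z - z₀)) w η)
          = fun w => L η + S (w - z₀) η := by
        funext w
        rw [(hd w).fderiv]
        rfl
      rw [h2]
      have h3 : HasFDerivAt (fun w : Cn n => L η + S (w - z₀) η) (S.flip η) z := by
        have h4 : HasFDerivAt (fun w : Cn n => (S.flip η) (w - z₀)) (S.flip η) z := by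
          have h := ((S.flip η).hasFDerivAt (x := z - z₀)).comp z
            ((hasFDerivAt_id z).sub_const z₀)
          rwa [ContinuousLinearMap.comp_id] at h
        exact h4.const_add (L η)
      rw [h3.fderiv]
      rfl
    rw [lev, h1 ξ, h1 (Complex.I • ξ)]

/-- second order Taylor expansion -/
theorem EnvD_taylor {n : ℕ} {P : Cn n → ℝ} {z₀ : Cn n} (h : TwD P z₀) {ε : ℝ} (hε : 0 < ε) :
    ∃ r > 0, ∀ w ∈ ball z₀ r, |P w - (P z₀ + fderiv ℝ P z₀ (w - z₀) +
      1 / 2 * hes P z₀ (w - z₀) (w - z₀))| ≤ ε * ‖w - z₀‖ ^ 2 := by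
  have hsymm : ∀ a b, hes P z₀ a b = hes P z₀ b a := h.symm
  obtain ⟨-, hq, -⟩ := EnvD_quad (hes P z₀) hsymm (fderiv ℝ P z₀) (P z₀) z₀
  have h2 : HasFDerivAt (fderiv ℝ P) (hes P z₀) z₀ := h.2.hasFDerivAt
  have h3 := h2.isLittleO.def hε
  have h4 := h.1.and h3
  obtain ⟨r, hr, hball⟩ := Metric.eventually_nhds_iff_ball.1 h4
  refine ⟨r, hr, fun w hw => ?_⟩
  set q : Cn n → ℝ := fun z => P z₀ + fderiv ℝ P z₀ (z - z₀) +
    1 / 2 * hes P z₀ (z - z₀) (z - z₀) with hqdef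
  have h5 : ∀ x ∈ closedBall z₀ ‖w - z₀‖, HasFDerivWithinAt (fun z => P z - q z)
      (fderiv ℝ P x - (fderiv ℝ P z₀ + hes P z₀ (x - z₀))) (closedBall z₀ ‖w - z₀‖) x := by
    intro x hx
    have hx' : x ∈ ball z₀ r := by
      rw [mem_closedBall, dist_eq_norm] at hx
      rw [mem_ball, dist_eq_norm] at hw ⊢
      exact lt_of_le_of_lt hx hw
    exact ((hball x hx').1.hasFDerivAt.sub (hq x)).hasFDerivWithinAt
  have h6 : ∀ x ∈ closedBall z₀ ‖w - z₀‖,
      ‖fderiv ℝ P x - (fderiv ℝ P z₀ + hes P z₀ (x - z₀))‖ ≤ ε * ‖w - z₀‖ := by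
    intro x hx
    have hx' : x ∈ ball z₀ r := by
      rw [mem_closedBall, dist_eq_norm] at hx
      rw [mem_ball, dist_eq_norm] at hw ⊢
      exact lt_of_le_of_lt hx hw
    have h7 := (hball x hx').2
    rw [mem_closedBall, dist_eq_norm] at hx
    rw [← sub_sub]
    exact h7.trans (by gcongr)
  have h8 := (convex_closedBall z₀ ‖w - z₀‖).norm_image_sub_le_of_norm_hasFDerivWithin_le h5 h6
    (mem_closedBall_self (norm_nonneg _)) (y := w) (by rw [mem_closedBall, dist_eq_norm])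
  have h9 : P z₀ - q z₀ = 0 := by
    simp [hqdef]
  rw [h9, sub_zero, Real.norm_eq_abs] at h8
  calc |P w - q w| ≤ ε * ‖w - z₀‖ * ‖w - z₀‖ := h8
    _ = ε * ‖w - z₀‖ ^ 2 := by ring

/-- strict positivity of the Levi form -/
theorem EnvD_pos {n : ℕ} {P : Cn n → ℝ} {z₀ : Cn n} (h : TwD P z₀)
    (hpsd : (LM P z₀).PosSemidef) (hdet : mad P z₀ ≠ 0) :
    ∃ lam > 0, ∀ ξ : Cn n, lam * ‖ξ‖ ^ 2 ≤
      (hes P z₀ ξ ξ + hes P z₀ (Complex.I • ξ) (Complex.I • ξ)) / 4 := by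
  have hd : (LM P z₀).det ≠ 0 := by
    intro h0
    apply hdet
    rw [mad, h0]
    rfl
  have hpd : (LM P z₀).PosDef := hpsd.posDef_iff_det_ne_zero.2 hd
  have hpos : ∀ ξ : Cn n, ξ ≠ 0 → 0 < lev P z₀ ξ := by
    intro ξ hξ
    have hx : (fun k => (starRingEnd ℂ) (ξ k)) ≠ 0 := by
      intro h0
      apply hξ
      ext k
      have h1 := congrFun h0 k
      simpa using h1
    have h1 := hpd.dotProduct_mulVec_pos hx
    have h2 : star (fun k => (starRingEnd ℂ) (ξ k)) ⬝ᵥ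
        (LM P z₀).mulVec (fun k => (starRingEnd ℂ) (ξ k)) = (lev P z₀ ξ : ℂ) := by
      rw [h.lev_LM, dotProduct]
      refine Finset.sum_congr rfl fun j _ => ?_
      rw [Matrix.mulVec, dotProduct, Finset.mul_sum]
      refine Finset.sum_congr rfl fun k _ => ?_
      simp only [Pi.star_apply, RCLike.star_def, Complex.conj_conj]
      ring
    rw [h2] at h1
    exact_mod_cast h1
  have hcont : Continuous fun ξ : Cn n =>
      (hes P z₀ ξ ξ + hes P z₀ (Complex.I • ξ) (Complex.I • ξ)) / 4 := by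
    have h1 : Continuous fun ξ : Cn n => Complex.I • ξ := continuous_const_smul _
    have h2 : Continuous fun ξ : Cn n => hes P z₀ ξ ξ :=
      (hes P z₀).continuous.clm_apply continuous_id
    have h3 : Continuous fun ξ : Cn n => hes P z₀ (Complex.I • ξ) (Complex.I • ξ) :=
      ((hes P z₀).continuous.comp h1).clm_apply h1
    exact (h2.add h3).div_const 4
  have hhom : ∀ (c : ℝ) (ξ : Cn n),
      (hes P z₀ (c • ξ) (c • ξ) + hes P z₀ (Complex.I • (c • ξ)) (Complex.I • (c • ξ))) / 4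
        = c ^ 2 * ((hes P z₀ ξ ξ + hes P z₀ (Complex.I • ξ) (Complex.I • ξ)) / 4) := by
    intro c ξ
    have h1 : Complex.I • (c • ξ) = c • (Complex.I • ξ) := smul_comm _ _ _
    rw [h1]
    simp only [map_smul, smul_apply, smul_eq_mul]
    ring
  by_cases hne : (sphere (0 : Cn n) 1).Nonempty
  · obtain ⟨η, hη, hmin⟩ := (isCompact_sphere (0 : Cn n) 1).exists_isMinOn hne hcont.continuousOn
    have hη0 : η ≠ 0 := by
      rintro rfl
      simp at hη
    refine ⟨(hes P z₀ η η + hes P z₀ (Complex.I • η) (Complex.I • η)) / 4, ?_, ?_⟩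
    · have := hpos η hη0
      rwa [h.lev] at this
    · intro ξ
      by_cases hξ : ξ = 0
      · subst hξ
        simp
      · have hn : 0 < ‖ξ‖ := norm_pos_iff.2 hξ
        have h1 : (‖ξ‖⁻¹ : ℝ) • ξ ∈ sphere (0 : Cn n) 1 := by
          rw [mem_sphere_zero_iff_norm, norm_smul, norm_inv, norm_norm, inv_mul_cancel₀ hn.ne']
        have h2 := hmin h1
        rw [mem_ofPred_eq] at h2
        beta_reduce at h2
        rw [hhom] at h2
        have h3 := mul_le_mul_of_nonneg_right h2 (sq_nonneg ‖ξ‖)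
        refine h3.trans (le_of_eq ?_)
        field_simp
  · refine ⟨1, one_pos, fun ξ => ?_⟩
    have hξ : ξ = 0 := by
      by_contra hξ
      apply hne
      have hn : 0 < ‖ξ‖ := norm_pos_iff.2 hξ
      refine ⟨(‖ξ‖⁻¹ : ℝ) • ξ, ?_⟩
      rw [mem_sphere_zero_iff_norm, norm_smul, norm_inv, norm_norm, inv_mul_cancel₀ hn.ne']
    subst hξ
    simp

theorem EnvD_disc {n : ℕ} {Ω : Set (Cn n)} (hΩ : IsOpen Ω) {a : Cn n} (ha : a ∈ Ω) :
    ∃ r > 0, ∀ b : Cn n, ‖b‖ ≤ r → ∀ ζ : ℂ, ‖ζ‖ ≤ 1 → a + ζ • b ∈ Ω := by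
  obtain ⟨r, hr, hball⟩ := Metric.isOpen_iff.1 hΩ a ha
  refine ⟨r / 2, by positivity, fun b hb ζ hζ => hball ?_⟩
  rw [mem_ball, dist_eq_norm, add_sub_cancel_left, norm_smul]
  calc ‖ζ‖ * ‖b‖ ≤ 1 * (r / 2) := by gcongr
    _ < r := by linarith

theorem EnvD_circ (θ : ℝ) : ‖Complex.exp (θ * Complex.I)‖ ≤ 1 := by
  rw [Complex.norm_exp_ofReal_mul_I]

/-- gluing -/
theorem EnvD_glue {n : ℕ} {Ω : Set (Cn n)} (hΩ : IsOpen Ω) {P q : Cn n → ℝ} {z₀ : Cn n} {r : ℝ}
    (hr : 0 < r) (hball : ball z₀ r ⊆ Ω) (hP : ContinuousOn P Ω) (hPs : SubOn Ω P)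
    (hq : Continuous q) (hqs : SubOn univ q)
    (h : ∀ w ∈ ball z₀ r, 7 / 8 * r ≤ ‖w - z₀‖ → q w ≤ P w) :
    ∃ g : Cn n → ℝ, ContinuousOn g Ω ∧ SubOn Ω g ∧ (∀ w ∈ ball z₀ r, g w = max (P w) (q w)) ∧
      (∀ w ∉ ball z₀ r, g w = P w) := by
  classical
  set g : Cn n → ℝ := fun w => if w ∈ ball z₀ r then max (P w) (q w) else P w with hg
  have hg1 : ∀ w ∈ ball z₀ r, g w = max (P w) (q w) := fun w hw => if_pos hw
  have hg2 : ∀ w ∉ ball z₀ r, g w = P w := fun w hw => if_neg hw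
  have hg3 : ∀ w, 7 / 8 * r < ‖w - z₀‖ → g w = P w := by
    intro w hw
    by_cases hwr : w ∈ ball z₀ r
    · rw [hg1 w hwr]
      exact max_eq_left (h w hwr hw.le)
    · exact hg2 w hwr
  have hopen : IsOpen {w : Cn n | 7 / 8 * r < ‖w - z₀‖} :=
    isOpen_lt continuous_const ((continuous_id.sub continuous_const).norm)
  have hcov : ∀ w : Cn n, w ∈ ball z₀ r ∨ w ∈ {w : Cn n | 7 / 8 * r < ‖w - z₀‖} := by
    intro w
    by_cases hwr : w ∈ ball z₀ r
    · exact Or.inl hwr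
    · right
      rw [mem_ball, dist_eq_norm, not_lt] at hwr
      rw [mem_ofPred_eq]
      linarith
  have hgc : ContinuousOn g Ω := by
    intro w hw
    have hPw : ContinuousAt P w := hP.continuousAt (hΩ.mem_nhds hw)
    refine ContinuousAt.continuousWithinAt ?_
    rcases hcov w with hw1 | hw1
    · have h1 : ContinuousAt (fun w => max (P w) (q w)) w := hPw.max hq.continuousAt
      refine h1.congr ?_
      filter_upwards [isOpen_ball.mem_nhds hw1] with y hy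
      exact (hg1 y hy).symm
    · refine hPw.congr ?_
      filter_upwards [hopen.mem_nhds hw1] with y hy
      exact (hg3 y hy).symm
  have hle : ∀ w, P w ≤ g w := by
    intro w
    by_cases hwr : w ∈ ball z₀ r
    · rw [hg1 w hwr]
      exact le_max_left _ _
    · rw [hg2 w hwr]
  have hqb : ∀ s : Set (Cn n), ∀ L ⊆ s, IsCompact L → ∃ M : ℝ, ∀ z ∈ L, -M ≤ q z := by
    intro s L _ hL
    obtain ⟨C, hC⟩ := hL.exists_bound_of_continuousOn hq.continuousOn
    exact ⟨C, fun z hz => neg_le_of_abs_le (hC z hz)⟩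
  have hPb : ∀ L ⊆ Ω, IsCompact L → ∃ M : ℝ, ∀ z ∈ L, -M ≤ P z := by
    intro L hLΩ hL
    obtain ⟨C, hC⟩ := hL.exists_bound_of_continuousOn (hP.mono hLΩ)
    exact ⟨C, fun z hz => neg_le_of_abs_le (hC z hz)⟩
  have hmax : SubOn (ball z₀ r) (fun z => max (P z) (q z)) := by
    refine sub_max ?_ ?_ ?_ (hqb _) ?_ ?_
    · exact (hP.mono hball).upperSemicontinuousOn
    · exact hq.continuousOn.upperSemicontinuousOn
    · exact fun L hL hLc => hPb L (hL.trans hball) hLc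
    · exact fun a b hab => hPs a b fun ζ hζ => hball (hab ζ hζ)
    · exact fun a b _ => hqs a b fun ζ _ => mem_univ _
  refine ⟨g, hgc, ?_, hg1, hg2⟩
  refine loc_glob hΩ hgc.upperSemicontinuousOn ?_ ?_
  · intro L hL hLc
    obtain ⟨M, hM⟩ := hPb L hL hLc
    exact ⟨M, fun z hz => (hM z hz).trans (hle z)⟩
  · intro a ha
    rcases hcov a with ha1 | ha1
    · obtain ⟨ρ, hρ, hdisc⟩ := EnvD_disc isOpen_ball ha1
      refine ⟨ρ, hρ, fun b hb => ?_⟩
      have h1 := hmax a b (hdisc b hb)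
      have h2 : ∫ θ in (0 : ℝ)..(2 * Real.pi), g (a + Complex.exp (θ * Complex.I) • b)
          = ∫ θ in (0 : ℝ)..(2 * Real.pi), max (P (a + Complex.exp (θ * Complex.I) • b))
            (q (a + Complex.exp (θ * Complex.I) • b)) := by
        refine intervalIntegral.integral_congr fun θ _ => ?_
        exact hg1 _ (hdisc b hb _ (EnvD_circ θ))
      rw [h2, hg1 a ha1]
      exact h1
    · obtain ⟨ρ, hρ, hdisc⟩ := EnvD_disc (hopen.inter hΩ) ⟨ha1, ha⟩
      refine ⟨ρ, hρ, fun b hb => ?_⟩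
      have h1 := hPs a b fun ζ hζ => (hdisc b hb ζ hζ).2
      have h2 : ∫ θ in (0 : ℝ)..(2 * Real.pi), g (a + Complex.exp (θ * Complex.I) • b)
          = ∫ θ in (0 : ℝ)..(2 * Real.pi), P (a + Complex.exp (θ * Complex.I) • b) := by
        refine intervalIntegral.integral_congr fun θ _ => ?_
        exact hg3 _ (hdisc b hb _ (EnvD_circ θ)).1
      rw [h2, hg3 a ha1]
      exact h1

theorem envP_det {n : ℕ} {u χ : Cn n → ℝ} (hu : C11 (ball 0 3) u) (hus : SubOn (ball 0 3) u)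
    (hχ : ContDiff ℝ ∞ χ) (hχ0 : ∀ z, 0 ≤ χ z) (hχs : tsupport χ ⊆ ball 0 2) {t : ℝ}
    (ht : 0 < t) (hP : C11 (ball 0 3) (envP (ball 0 3) u (fun z => u z + t * χ z))) :
    ∀ᵐ z : Cn n, z ∈ ball (0 : Cn n) 3 →
      envP (ball 0 3) u (fun z => u z + t * χ z) z < u z + t * χ z →
        mad (envP (ball 0 3) u (fun z => u z + t * χ z)) z = 0 := by
  have hΩ : IsOpen (ball (0 : Cn n) 3) := isOpen_ball
  have hfc : ContinuousOn (fun z => u z + t * χ z) (ball 0 3) :=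
    hu.continuousOn.add (continuous_const.mul hχ.continuous).continuousOn
  have huf : ∀ z ∈ ball (0 : Cn n) 3, u z ≤ u z + t * χ z := fun z _ =>
    le_add_of_nonneg_right (mul_nonneg ht.le (hχ0 z))
  have hE := envP_mem hΩ hu.continuousOn hfc hus huf
  revert hP hE
  set f : Cn n → ℝ := fun z => u z + t * χ z with hf
  set P := envP (ball 0 3) u f with hPdef
  intro hP hE
  filter_upwards [hP.ae_twD hΩ, (c11_sub_iff hΩ hP).1 hE.sub] with z₀ h1 h2 hz hlt
  by_contra hdet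
  obtain ⟨lam, hlam, hpos⟩ := EnvD_pos (h1 hz) (h2 hz) hdet
  obtain ⟨r₁, hr₁, htay⟩ := EnvD_taylor (h1 hz) (ε := lam / 16) (by positivity)
  set δ : ℝ := (f z₀ - P z₀) / 2 with hδ
  have hδ0 : 0 < δ := by
    have : P z₀ < f z₀ := hlt
    rw [hδ]
    linarith
  have hgc : ContinuousAt (fun z => f z - P z) z₀ :=
    (hfc.continuousAt (hΩ.mem_nhds hz)).sub (hP.continuousOn.continuousAt (hΩ.mem_nhds hz))
  have hev : ∀ᶠ w in 𝓝 z₀, w ∈ ball (0 : Cn n) 3 ∧ δ < f w - P w := by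
    refine Filter.Eventually.and (hΩ.mem_nhds hz) ?_
    refine hgc.eventually (lt_mem_nhds ?_)
    rw [hδ]
    have : P z₀ < f z₀ := hlt
    linarith
  obtain ⟨r₂, hr₂, hgap⟩ := Metric.eventually_nhds_iff_ball.1 hev
  obtain ⟨r, hr, hrr₁, hrr₂, hrδ⟩ : ∃ r > 0, r < r₁ ∧ r < r₂ ∧ lam * r ^ 2 ≤ δ := by
    refine ⟨min (min (r₁ / 2) (r₂ / 2)) (min 1 (δ / lam)), by positivity, ?_, ?_, ?_⟩
    · exact lt_of_le_of_lt ((min_le_left _ _).trans (min_le_left _ _)) (by linarith)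
    · exact lt_of_le_of_lt ((min_le_left _ _).trans (min_le_right _ _)) (by linarith)
    · set r := min (min (r₁ / 2) (r₂ / 2)) (min 1 (δ / lam)) with hrdef
      have hr0 : 0 ≤ r := by positivity
      have hr1 : r ≤ 1 := (min_le_right _ _).trans (min_le_left _ _)
      have hr2 : r ≤ δ / lam := (min_le_right _ _).trans (min_le_right _ _)
      have hr3 : r ^ 2 ≤ r := by nlinarith
      calc lam * r ^ 2 ≤ lam * (δ / lam) := by gcongr; exact hr3.trans hr2
        _ = δ := by field_simp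
  -- the quadratic function
  set S : Cn n →L[ℝ] Cn n →L[ℝ] ℝ := hes P z₀ -
    lam • (isBoundedBilinearMap_inner (𝕜 := ℝ) (E := Cn n)).toContinuousLinearMap with hS
  have hSa : ∀ a b, S a b = hes P z₀ a b - lam * inner ℝ a b := fun a b => by
    rw [hS]
    rfl
  have hSs : ∀ a b, S a b = S b a := by
    intro a b
    rw [hSa, hSa, (h1 hz).symm a b, real_inner_comm]
  have hSn : ∀ a, S a a = hes P z₀ a a - lam * ‖a‖ ^ 2 := by
    intro a
    rw [hSa, real_inner_self_eq_norm_sq]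
  obtain ⟨hqsm, -, hqlev⟩ := EnvD_quad S hSs (fderiv ℝ P z₀) (P z₀ + lam / 4 * r ^ 2) z₀
  set q : Cn n → ℝ := fun z => P z₀ + lam / 4 * r ^ 2 + fderiv ℝ P z₀ (z - z₀) +
    1 / 2 * S (z - z₀) (z - z₀) with hq
  have hqs : SubOn univ q := by
    refine smooth_sub isOpen_univ hqsm.contDiffOn fun z _ ξ => ?_
    rw [hqlev, hSn, hSn, norm_smul, Complex.norm_I, one_mul]
    have h3 := hpos ξ
    nlinarith [mul_nonneg hlam.le (sq_nonneg ‖ξ‖)]
  have hqP : ∀ w ∈ ball z₀ r, q w ≤ P w + lam / 16 * ‖w - z₀‖ ^ 2 - lam / 2 * ‖w - z₀‖ ^ 2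
      + lam / 4 * r ^ 2 := by
    intro w hw
    have hw1 : w ∈ ball z₀ r₁ := ball_subset_ball hrr₁.le hw
    have h3 := (abs_le.1 (htay w hw1)).1
    rw [hq]
    beta_reduce
    rw [hSn]
    linarith
  have hann : ∀ w ∈ ball z₀ r, 7 / 8 * r ≤ ‖w - z₀‖ → q w ≤ P w := by
    intro w hw hw2
    have h3 := hqP w hw
    have h4 : (7 / 8 * r) ^ 2 ≤ ‖w - z₀‖ ^ 2 := by gcongr
    have h5 := mul_le_mul_of_nonneg_left h4 hlam.le
    have h6 : 0 ≤ lam * r ^ 2 := by positivity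
    nlinarith
  have hball : ball z₀ r ⊆ ball (0 : Cn n) 3 := fun w hw =>
    (hgap w (ball_subset_ball hrr₂.le hw)).1
  obtain ⟨g, hgc, hgs, hg1, hg2⟩ := EnvD_glue hΩ hr hball hP.continuousOn hE.sub
    hqsm.continuous hqs hann
  have hEg : EnvF (ball 0 3) u f g := by
    refine ⟨hgc.upperSemicontinuousOn, hgs, fun w hw => ?_, fun w hw => ?_⟩
    · by_cases hwr : w ∈ ball z₀ r
      · rw [hg1 w hwr]
        refine max_le (hE.le w hw) ?_
        have h3 := hqP w hwr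
        have h4 := (hgap w (ball_subset_ball hrr₂.le hwr)).2
        have h5 : 0 ≤ lam * ‖w - z₀‖ ^ 2 := by positivity
        have h6 : 0 ≤ lam * r ^ 2 := by positivity
        nlinarith
      · rw [hg2 w hwr]
        exact hE.le w hw
    · by_cases hwr : w ∈ ball z₀ r
      · rw [hg1 w hwr]
        exact (hE.ge w hw).trans (le_max_left _ _)
      · rw [hg2 w hwr]
        exact hE.ge w hw
  have h3 := le_envP hEg hz
  rw [hg1 z₀ (mem_ball_self hr)] at h3
  have h4 : q z₀ ≤ P z₀ := (le_max_right _ _).trans h3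
  have h5 : q z₀ = P z₀ + lam / 4 * r ^ 2 := by
    rw [hq]
    simp
  have h6 : 0 < lam / 4 * r ^ 2 := by positivity
  linarith

end HMA
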