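import Pool.Agent.H85.KM.EnvB
import Pool.Agent.H85.KM.EnvC
import Pool.Agent.H85.KM.EnvD

/-! # Module Env: the envelope (assembly) -/

open MeasureTheory Metric Set
open scoped ENNReal Topology ContDiff ComplexOrder

namespace HMA

theorem env_union {n : ℕ} {Ω₁ Ω₂ : Set (Cn n)} (h1 : IsOpen Ω₁) (h2 : IsOpen Ω₂) {u : Cn n → ℝ}
    (hu1 : C11 Ω₁ u) (hu2 : C11 Ω₂ u) : C11 (Ω₁ ∪ Ω₂) u := by
  refine c11_of_local (h1.union h2) ?_
  have key : ∀ Ω : Set (Cn n), IsOpen Ω → C11 Ω u → ∀ z ∈ Ω, ∃ r > 0, ∃ C : NNReal,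
      ball z r ⊆ Ω ∧ (∀ w ∈ ball z r, DifferentiableAt ℝ u w) ∧
        LipschitzOnWith C (fderiv ℝ u) (ball z r) := by
    intro Ω hΩ hu z hz
    obtain ⟨R, hR, hRΩ⟩ := Metric.isOpen_iff.1 hΩ z hz
    have hL : closedBall z (R / 2) ⊆ Ω := (closedBall_subset_ball (by linarith)).trans hRΩ
    obtain ⟨C, hC⟩ := hu.lip _ (isCompact_closedBall z (R / 2)) hL
    exact ⟨R / 2, by positivity, C, ball_subset_closedBall.trans hL,
      fun w hw => hu.diff w (hL (ball_subset_closedBall hw)), hC.mono ball_subset_closedBall⟩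
  rintro z (hz | hz)
  · obtain ⟨r, hr, C, h3, h4, h5⟩ := key Ω₁ h1 hu1 z hz
    exact ⟨r, hr, C, h3.trans subset_union_left, h4, h5⟩
  · obtain ⟨r, hr, C, h3, h4, h5⟩ := key Ω₂ h2 hu2 z hz
    exact ⟨r, hr, C, h3.trans subset_union_right, h4, h5⟩

theorem envelope {n : ℕ} {u χ : Cn n → ℝ} (hu : C11 (ball 0 3) u) (hus : SubOn (ball 0 3) u)
    (hχ : ContDiff ℝ ∞ χ) (hχ0 : ∀ z, 0 ≤ χ z) (hχs : tsupport χ ⊆ ball 0 2) {t : ℝ}
    (ht : 0 < t) : ∃ P : Cn n → ℝ, C11 (ball 0 3) P ∧ SubOn (ball 0 3) P ∧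
      (∀ z, u z ≤ P z ∧ P z ≤ u z + t * χ z) ∧
      ∀ᵐ z : Cn n, z ∈ ball (0 : Cn n) 3 → P z < u z + t * χ z → mad P z = 0 := by
  classical
  set f : Cn n → ℝ := fun z => u z + t * χ z with hf
  have huc : ContinuousOn u (ball 0 3) := hu.continuousOn
  have hfc : ContinuousOn f (ball 0 3) :=
    huc.add (continuous_const.mul hχ.continuous).continuousOn
  have huf : ∀ z, u z ≤ f z := fun z => by
    have : 0 ≤ t * χ z := mul_nonneg ht.le (hχ0 z)
    simp only [hf]
    linarith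
  have hE : EnvF (ball 0 3) u f (envP (ball 0 3) u f) :=
    envP_mem isOpen_ball huc hfc hus (fun z _ => huf z)
  set P₀ : Cn n → ℝ := envP (ball 0 3) u f with hP₀
  obtain ⟨C, hC0, hC⟩ := envP_semi hu hus hχ hχ0 hχs ht
  have hb : ∀ L ⊆ ball (0 : Cn n) 3, IsCompact L → ∃ M : ℝ, ∀ z ∈ L, |P₀ z| ≤ M := by
    intro L hL hLc
    obtain ⟨M1, hM1⟩ := hLc.exists_bound_of_continuousOn (huc.mono hL)
    obtain ⟨M2, hM2⟩ := hLc.exists_bound_of_continuousOn (hfc.mono hL)
    refine ⟨max M1 M2, fun z hz => abs_le.2 ⟨?_, ?_⟩⟩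
    · have h1 := (abs_le.1 (hM1 z hz)).1
      have h2 := le_max_left M1 M2
      have h3 := hE.ge z (hL hz)
      linarith
    · have h1 := (abs_le.1 (hM2 z hz)).2
      have h2 := le_max_right M1 M2
      have h3 := hE.le z (hL hz)
      linarith
  have hc1 : C11 (ball 0 (14 / 5)) P₀ :=
    c11_of_semi (R := 3) (R' := 14 / 5) (δ := 1 / 10) (C := C) (by norm_num) (by norm_num)
      (by norm_num) hE.usc hb hE.sub hC
  have hχz : ∀ z, z ∉ ball (0 : Cn n) 2 → χ z = 0 := fun z hz =>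
    image_eq_zero_of_notMem_tsupport fun h => hz (hχs h)
  have hopen : IsOpen (ball (0 : Cn n) 3 \ closedBall 0 2) :=
    isOpen_ball.sdiff isClosed_closedBall
  have hc2 : C11 (ball (0 : Cn n) 3 \ closedBall 0 2) P₀ := by
    refine (hu.mono Set.sdiff_subset).congr hopen ?_
    intro z hz
    have h1 := hE.ge z hz.1
    have h2 := hE.le z hz.1
    have h3 : χ z = 0 := hχz z fun h => hz.2 (ball_subset_closedBall h)
    simp only [hf, h3, mul_zero, add_zero] at h2
    exact le_antisymm h2 h1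
  have hc3 : C11 (ball (0 : Cn n) 3) P₀ := by
    have h1 := env_union isOpen_ball hopen hc1 hc2
    refine h1.mono ?_
    intro z hz
    by_cases h : z ∈ ball (0 : Cn n) (14 / 5)
    · exact Or.inl h
    · refine Or.inr ⟨hz, fun h2 => h ?_⟩
      rw [mem_ball]
      rw [mem_closedBall] at h2
      linarith
  have hdet := envP_det hu hus hχ hχ0 hχs ht hc3
  refine ⟨fun z => if z ∈ ball (0 : Cn n) 3 then P₀ z else u z, ?_, ?_, ?_, ?_⟩
  · refine hc3.congr isOpen_ball ?_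
    intro z hz
    simp only [if_pos hz]
  · intro a b hab
    have h0 : a ∈ ball (0 : Cn n) 3 := by simpa using hab 0 (by simp)
    simp only [if_pos h0]
    refine (hE.sub a b hab).trans (le_of_eq ?_)
    congr 1
    refine intervalIntegral.integral_congr fun θ _ => ?_
    have h1 := hab _ (Complex.norm_exp_ofReal_mul_I θ).le
    simp only [if_pos h1]
  · intro z
    by_cases hz : z ∈ ball (0 : Cn n) 3
    · simp only [if_pos hz]
      exact ⟨hE.ge z hz, hE.le z hz⟩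
    · simp only [if_neg hz]
      exact ⟨le_rfl, huf z⟩
  · filter_upwards [hdet] with z hz hzB hlt
    simp only [if_pos hzB] at hlt
    have h1 := hz hzB hlt
    have h2 : (fun z => if z ∈ ball (0 : Cn n) 3 then P₀ z else u z) =ᶠ[𝓝 z] P₀ := by
      filter_upwards [isOpen_ball.mem_nhds hzB] with w hw
      simp only [if_pos hw]
    unfold mad at h1 ⊢
    rw [LM_congr h2]
    exact h1

end HMA
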