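import Pool.Agent.H85.KM.LocGlob

/-! # Module EnvA: the envelope is plurisubharmonic -/

open MeasureTheory Metric Set
open scoped ENNReal Topology ContDiff ComplexOrder

namespace HMA

variable {n : ℕ} {Ω : Set (Cn n)} {u f v : Cn n → ℝ}

theorem le_envP (hv : EnvF Ω u f v) {z : Cn n} (hz : z ∈ Ω) : v z ≤ envP Ω u f z := by
  refine le_csSup ⟨f z, ?_⟩ ⟨v, hv, rfl⟩
  rintro t ⟨w, hw, rfl⟩
  exact hw.le z hz

theorem enva_self (hu : ContinuousOn u Ω) (hus : SubOn Ω u) (huf : ∀ z ∈ Ω, u z ≤ f z) :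
    EnvF Ω u f u :=
  ⟨hu.upperSemicontinuousOn, hus, huf, fun _ _ => le_rfl⟩

theorem enva_le_f (hu : ContinuousOn u Ω) (hus : SubOn Ω u) (huf : ∀ z ∈ Ω, u z ≤ f z)
    {z : Cn n} (hz : z ∈ Ω) : envP Ω u f z ≤ f z := by
  refine csSup_le ⟨u z, u, enva_self hu hus huf, rfl⟩ ?_
  rintro t ⟨w, hw, rfl⟩
  exact hw.le z hz

/-- upper semicontinuous regularisation -/
noncomputable def envaQ (Ω : Set (Cn n)) (u f : Cn n → ℝ) (z : Cn n) : ℝ :=
  sInf {y | ∀ᶠ w in 𝓝 z, w ∈ Ω → envP Ω u f w < y}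

theorem enva_bddBelow (hu : ContinuousOn u Ω) (hus : SubOn Ω u) (huf : ∀ z ∈ Ω, u z ≤ f z)
    {z : Cn n} (hz : z ∈ Ω) :
    BddBelow {y | ∀ᶠ w in 𝓝 z, w ∈ Ω → envP Ω u f w < y} := by
  refine ⟨envP Ω u f z, ?_⟩
  intro y hy
  exact (hy.self_of_nhds hz).le

theorem enva_nonempty (hΩ : IsOpen Ω) (hu : ContinuousOn u Ω) (hf : ContinuousOn f Ω)
    (hus : SubOn Ω u) (huf : ∀ z ∈ Ω, u z ≤ f z)
    {z : Cn n} (hz : z ∈ Ω) {c : ℝ} (hc : f z < c) :
    ∀ᶠ w in 𝓝 z, w ∈ Ω → envP Ω u f w < c := by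
  have h1 : ContinuousAt f z := hf.continuousAt (hΩ.mem_nhds hz)
  filter_upwards [h1.eventually_lt continuousAt_const hc] with w hw hwΩ
  exact lt_of_le_of_lt (enva_le_f hu hus huf hwΩ) hw

theorem enva_Q_le_f (hΩ : IsOpen Ω) (hu : ContinuousOn u Ω) (hf : ContinuousOn f Ω)
    (hus : SubOn Ω u) (huf : ∀ z ∈ Ω, u z ≤ f z)
    {z : Cn n} (hz : z ∈ Ω) : envaQ Ω u f z ≤ f z := by
  refine le_of_forall_gt_imp_ge_of_dense ?_
  intro c hc
  exact csInf_le (enva_bddBelow hu hus huf hz) (enva_nonempty hΩ hu hf hus huf hz hc)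

theorem enva_P_le_Q (hΩ : IsOpen Ω) (hu : ContinuousOn u Ω) (hf : ContinuousOn f Ω)
    (hus : SubOn Ω u) (huf : ∀ z ∈ Ω, u z ≤ f z)
    {z : Cn n} (hz : z ∈ Ω) : envP Ω u f z ≤ envaQ Ω u f z := by
  refine le_csInf ⟨f z + 1, enva_nonempty hΩ hu hf hus huf hz (by linarith)⟩ ?_
  intro y hy
  exact (hy.self_of_nhds hz).le

theorem enva_lt_of_Q_lt (hΩ : IsOpen Ω) (hu : ContinuousOn u Ω) (hf : ContinuousOn f Ω)
    (hus : SubOn Ω u) (huf : ∀ z ∈ Ω, u z ≤ f z)
    {z : Cn n} (hz : z ∈ Ω) {y : ℝ} (hy : envaQ Ω u f z < y) :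
    ∀ᶠ w in 𝓝 z, w ∈ Ω → envP Ω u f w < y := by
  obtain ⟨y', hy', hlt⟩ := exists_lt_of_csInf_lt
    ⟨f z + 1, enva_nonempty hΩ hu hf hus huf hz (by linarith)⟩ hy
  filter_upwards [hy'] with w hw hwΩ
  exact (hw hwΩ).trans hlt

theorem enva_Q_usc (hΩ : IsOpen Ω) (hu : ContinuousOn u Ω) (hf : ContinuousOn f Ω)
    (hus : SubOn Ω u) (huf : ∀ z ∈ Ω, u z ≤ f z) : UpperSemicontinuousOn (envaQ Ω u f) Ω := by
  intro z hz y hy
  obtain ⟨y', h1, h2⟩ := exists_between hy
  have h3 := enva_lt_of_Q_lt hΩ hu hf hus huf hz h1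
  rw [eventually_nhdsWithin_iff]
  filter_upwards [h3.eventually_nhds] with w hw hwΩ
  exact lt_of_le_of_lt (csInf_le (enva_bddBelow hu hus huf hwΩ) hw) h2

/-- an upper semicontinuous function along a continuous curve -/
theorem enva_usc_comp (w : Cn n → ℝ) (hw : UpperSemicontinuousOn w Ω) {c : ℝ → Cn n}
    (hc : Continuous c) (hcΩ : ∀ θ, c θ ∈ Ω) : UpperSemicontinuous (fun θ => w (c θ)) := by
  intro θ y hy
  have h1 := hw (c θ) (hcΩ θ) y hy
  have h2 : Filter.Tendsto c (𝓝 θ) (𝓝[Ω] (c θ)) :=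
    tendsto_nhdsWithin_iff.2 ⟨hc.continuousAt, Filter.Eventually.of_forall hcΩ⟩
  exact h2.eventually h1

theorem enva_curve (a b : Cn n) :
    Continuous (fun θ : ℝ => a + Complex.exp (θ * Complex.I) • b) := by
  fun_prop

theorem enva_norm (θ : ℝ) : ‖Complex.exp (θ * Complex.I)‖ = 1 :=
  Complex.norm_exp_ofReal_mul_I θ

theorem enva_intble (w : Cn n → ℝ) (hw : UpperSemicontinuousOn w Ω) {a b : Cn n}
    (hcΩ : ∀ θ : ℝ, a + Complex.exp (θ * Complex.I) • b ∈ Ω) {M : ℝ}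
    (hM : ∀ θ : ℝ, |w (a + Complex.exp (θ * Complex.I) • b)| ≤ M) (x y : ℝ) :
    IntervalIntegrable (fun θ : ℝ => w (a + Complex.exp (θ * Complex.I) • b)) volume x y := by
  have h1 := (enva_usc_comp w hw (enva_curve a b) hcΩ).measurable
  refine ⟨?_, ?_⟩ <;>
  · refine Measure.integrableOn_of_bounded (M := M) (by simp) h1.aestronglyMeasurable ?_
    exact Filter.Eventually.of_forall fun θ => by simpa using hM θ

theorem enva_exists_seq (hΩ : IsOpen Ω) (hu : ContinuousOn u Ω) (hf : ContinuousOn f Ω)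
    (hus : SubOn Ω u) (huf : ∀ z ∈ Ω, u z ≤ f z) {a : Cn n} (ha : a ∈ Ω) {ε : ℝ} (hε : 0 < ε) :
    ∃ a' ∈ Ω, ‖a' - a‖ < ε ∧ ∃ w, EnvF Ω u f w ∧ envaQ Ω u f a - ε < w a' := by
  by_contra hcon
  push Not at hcon
  have h1 : ∀ᶠ w in 𝓝 a, w ∈ Ω → envP Ω u f w < envaQ Ω u f a - ε / 2 := by
    filter_upwards [Metric.ball_mem_nhds a hε] with z hz hzΩ
    have h2 : envP Ω u f z ≤ envaQ Ω u f a - ε := by
      refine csSup_le ⟨u z, u, enva_self hu hus huf, rfl⟩ ?_
      rintro t ⟨w, hw, rfl⟩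
      exact hcon z hzΩ (by simpa [dist_eq_norm] using hz) w hw
    linarith
  have h2 : envaQ Ω u f a ≤ envaQ Ω u f a - ε / 2 :=
    csInf_le (enva_bddBelow hu hus huf ha) h1
  linarith

theorem enva_key (hΩ : IsOpen Ω) {Q : Cn n → ℝ} (hQ : UpperSemicontinuousOn Q Ω) {a b : Cn n}
    {A : ℕ → Cn n} (hA : Filter.Tendsto A Filter.atTop (𝓝 a)) {M : ℝ}
    (hc : ∀ θ : ℝ, a + Complex.exp (θ * Complex.I) • b ∈ Ω)
    (hcA : ∀ k, ∀ θ : ℝ, A k + Complex.exp (θ * Complex.I) • b ∈ Ω)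
    (hM : ∀ θ : ℝ, |Q (a + Complex.exp (θ * Complex.I) • b)| ≤ M)
    (hMA : ∀ k, ∀ θ : ℝ, |Q (A k + Complex.exp (θ * Complex.I) • b)| ≤ M)
    {t : ℝ} {s : ℕ → ℝ} (hs : Filter.Tendsto s Filter.atTop (𝓝 t))
    (h : ∀ k, s k ≤ (2 * Real.pi)⁻¹ *
      ∫ θ in (0 : ℝ)..(2 * Real.pi), Q (A k + Complex.exp (θ * Complex.I) • b)) :
    t ≤ (2 * Real.pi)⁻¹ *
      ∫ θ in (0 : ℝ)..(2 * Real.pi), Q (a + Complex.exp (θ * Complex.I) • b) := by
  have hpi : 0 < 2 * Real.pi := by positivity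
  have hM0 : 0 ≤ M := (abs_nonneg _).trans (hM 0)
  set F : ℕ → ℝ → ℝ≥0∞ := fun k θ =>
    ENNReal.ofReal (Q (A k + Complex.exp (θ * Complex.I) • b) + M) with hF
  set G : ℝ → ℝ≥0∞ := fun θ =>
    ENNReal.ofReal (Q (a + Complex.exp (θ * Complex.I) • b) + M) with hG
  -- integrals as lower integrals
  have key : ∀ a' : Cn n, (∀ θ : ℝ, a' + Complex.exp (θ * Complex.I) • b ∈ Ω) →
      (∀ θ : ℝ, |Q (a' + Complex.exp (θ * Complex.I) • b)| ≤ M) →
      ∫⁻ θ in Set.Ioc 0 (2 * Real.pi),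
        ENNReal.ofReal (Q (a' + Complex.exp (θ * Complex.I) • b) + M) =
      ENNReal.ofReal ((∫ θ in (0 : ℝ)..(2 * Real.pi),
        Q (a' + Complex.exp (θ * Complex.I) • b)) + 2 * Real.pi * M) := by
    intro a' h1 h2
    have h3 := enva_intble Q hQ h1 h2 0 (2 * Real.pi)
    have h4 : IntegrableOn (fun θ : ℝ => Q (a' + Complex.exp (θ * Complex.I) • b) + M)
        (Set.Ioc 0 (2 * Real.pi)) volume := by
      have := h3.1
      exact this.add (integrableOn_const measure_Ioc_lt_top.ne)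
    rw [← ofReal_integral_eq_lintegral_ofReal h4]
    · congr 1
      rw [← intervalIntegral.integral_of_le hpi.le, intervalIntegral.integral_add h3
        (by simp)]
      simp
    · refine Filter.Eventually.of_forall fun θ => ?_
      have := (abs_le.1 (h2 θ)).1
      simp only [Pi.zero_apply]
      linarith
  have hmeas : ∀ k, Measurable (F k) := fun k =>
    ((enva_usc_comp Q hQ (enva_curve (A k) b) (hcA k)).measurable.add_const M).ennreal_ofReal
  have h1 : Filter.limsup (fun k => ∫⁻ θ in Set.Ioc 0 (2 * Real.pi), F k θ) Filter.atTop ≤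
      ∫⁻ θ in Set.Ioc 0 (2 * Real.pi), Filter.limsup (fun k => F k θ) Filter.atTop := by
    refine limsup_lintegral_le (fun _ => ENNReal.ofReal (2 * M)) hmeas ?_ ?_
    · intro k
      refine Filter.Eventually.of_forall fun θ => ?_
      refine ENNReal.ofReal_le_ofReal ?_
      have := (abs_le.1 (hMA k θ)).2
      linarith
    · simp [ENNReal.mul_eq_top]
  have h2 : ∫⁻ θ in Set.Ioc 0 (2 * Real.pi), Filter.limsup (fun k => F k θ) Filter.atTop ≤
      ∫⁻ θ in Set.Ioc 0 (2 * Real.pi), G θ := by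
    refine lintegral_mono fun θ => ?_
    have h3 : ∀ y : ℝ, Q (a + Complex.exp (θ * Complex.I) • b) < y →
        Filter.limsup (fun k => F k θ) Filter.atTop ≤ ENNReal.ofReal (y + M) := by
      intro y hy
      refine Filter.limsup_le_of_le (by isBoundedDefault) ?_
      have h4 := hQ _ (hc θ) y hy
      have h5 : Filter.Tendsto (fun k => A k + Complex.exp (θ * Complex.I) • b) Filter.atTop
          (𝓝[Ω] (a + Complex.exp (θ * Complex.I) • b)) := by
        refine tendsto_nhdsWithin_iff.2 ⟨hA.add_const _, ?_⟩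
        exact Filter.Eventually.of_forall fun k => hcA k θ
      filter_upwards [h5.eventually h4] with k hk
      exact ENNReal.ofReal_le_ofReal (by linarith)
    have h6 : Filter.Tendsto (fun y : ℝ => ENNReal.ofReal (y + M))
        (𝓝[>] (Q (a + Complex.exp (θ * Complex.I) • b))) (𝓝 (G θ)) := by
      have : ContinuousAt (fun y : ℝ => ENNReal.ofReal (y + M))
          (Q (a + Complex.exp (θ * Complex.I) • b)) :=
        (ENNReal.continuous_ofReal.comp (continuous_id.add continuous_const)).continuousAt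
      exact this.tendsto.mono_left nhdsWithin_le_nhds
    refine ge_of_tendsto h6 ?_
    filter_upwards [self_mem_nhdsWithin] with y hy
    exact h3 y hy
  have h7 := h1.trans h2
  rw [key a hc hM] at h7
  have h8 : Filter.limsup (fun k => ENNReal.ofReal (2 * Real.pi * s k + 2 * Real.pi * M))
      Filter.atTop ≤ Filter.limsup (fun k => ∫⁻ θ in Set.Ioc 0 (2 * Real.pi), F k θ)
      Filter.atTop := by
    refine Filter.limsup_le_limsup (Filter.Eventually.of_forall fun k => ?_)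
      (by isBoundedDefault) (by isBoundedDefault)
    simp only [hF]
    rw [key (A k) (hcA k) (hMA k)]
    refine ENNReal.ofReal_le_ofReal ?_
    have := h k
    rw [inv_mul_eq_div, le_div_iff₀ hpi] at this
    linarith
  have h9 : Filter.Tendsto (fun k => ENNReal.ofReal (2 * Real.pi * s k + 2 * Real.pi * M))
      Filter.atTop (𝓝 (ENNReal.ofReal (2 * Real.pi * t + 2 * Real.pi * M))) :=
    ENNReal.tendsto_ofReal ((hs.const_mul _).add_const _)
  rw [h9.limsup_eq] at h8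
  have h10 := h8.trans h7
  have h11 : 0 ≤ (∫ θ in (0 : ℝ)..(2 * Real.pi),
      Q (a + Complex.exp (θ * Complex.I) • b)) + 2 * Real.pi * M := by
    have h12 := enva_intble Q hQ hc hM 0 (2 * Real.pi)
    have h13 : ∫ θ in (0 : ℝ)..(2 * Real.pi), (-M : ℝ) ≤ ∫ θ in (0 : ℝ)..(2 * Real.pi),
        Q (a + Complex.exp (θ * Complex.I) • b) := by
      refine intervalIntegral.integral_mono_on hpi.le (by simp) h12 ?_
      intro θ _
      exact (abs_le.1 (hM θ)).1
    simp at h13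
    linarith
  rw [ENNReal.ofReal_le_ofReal_iff h11] at h10
  rw [inv_mul_eq_div, le_div_iff₀ hpi]
  linarith

theorem envP_mem (hΩ : IsOpen Ω) (hu : ContinuousOn u Ω) (hf : ContinuousOn f Ω)
    (hus : SubOn Ω u) (huf : ∀ z ∈ Ω, u z ≤ f z) : EnvF Ω u f (envP Ω u f) := by
  have hQu : UpperSemicontinuousOn (envaQ Ω u f) Ω := enva_Q_usc hΩ hu hf hus huf
  have huP : ∀ z ∈ Ω, u z ≤ envP Ω u f z := fun z hz => le_envP (enva_self hu hus huf) hz
  have hPQ : ∀ z ∈ Ω, envP Ω u f z ≤ envaQ Ω u f z :=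
    fun z hz => enva_P_le_Q hΩ hu hf hus huf hz
  have hQf : ∀ z ∈ Ω, envaQ Ω u f z ≤ f z := fun z hz => enva_Q_le_f hΩ hu hf hus huf hz
  -- bounds on compact sets
  have hbd : ∀ L ⊆ Ω, IsCompact L → ∃ M : ℝ, ∀ z ∈ L, -M ≤ u z ∧ f z ≤ M := by
    intro L hL hLc
    obtain ⟨M1, hM1⟩ := hLc.exists_bound_of_continuousOn (hu.mono hL)
    obtain ⟨M2, hM2⟩ := hLc.exists_bound_of_continuousOn (hf.mono hL)
    refine ⟨max M1 M2, fun z hz => ⟨?_, ?_⟩⟩
    · have := (abs_le.1 (hM1 z hz)).1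
      have := le_max_left M1 M2
      linarith
    · have := (abs_le.1 (hM2 z hz)).2
      have := le_max_right M1 M2
      linarith
  have hsub : SubOn Ω (envaQ Ω u f) := by
    refine loc_glob hΩ hQu ?_ ?_
    · intro L hL hLc
      obtain ⟨M, hM⟩ := hbd L hL hLc
      refine ⟨M, fun z hz => ?_⟩
      exact (hM z hz).1.trans ((huP z (hL hz)).trans (hPQ z (hL hz)))
    · intro a ha
      obtain ⟨R, hR, hRΩ⟩ := Metric.isOpen_iff.1 hΩ a ha
      refine ⟨R / 4, by positivity, fun b hb => ?_⟩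
      have hL : closedBall a (R / 2) ⊆ Ω :=
        (Metric.closedBall_subset_ball (by linarith)).trans hRΩ
      obtain ⟨M, hM⟩ := hbd _ hL (isCompact_closedBall a (R / 2))
      have hmem : ∀ a' : Cn n, ‖a' - a‖ ≤ R / 4 → ∀ θ : ℝ,
          a' + Complex.exp (θ * Complex.I) • b ∈ closedBall a (R / 2) := by
        intro a' ha' θ
        rw [mem_closedBall, dist_eq_norm]
        have h1 : a' + Complex.exp (θ * Complex.I) • b - a =
            (a' - a) + Complex.exp (θ * Complex.I) • b := by abel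
        rw [h1]
        refine (norm_add_le _ _).trans ?_
        rw [norm_smul, enva_norm, one_mul]
        linarith
      have hbQ : ∀ z ∈ closedBall a (R / 2), |envaQ Ω u f z| ≤ M := by
        intro z hz
        rw [abs_le]
        exact ⟨(hM z hz).1.trans ((huP z (hL hz)).trans (hPQ z (hL hz))),
          (hQf z (hL hz)).trans (hM z hz).2⟩
      have hex : ∀ k : ℕ, ∃ a' ∈ Ω, ‖a' - a‖ < min (R / 4) (1 / (k + 1)) ∧
          ∃ w, EnvF Ω u f w ∧ envaQ Ω u f a - min (R / 4) (1 / (k + 1)) < w a' := by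
        intro k
        exact enva_exists_seq hΩ hu hf hus huf ha (by positivity)
      choose A hAΩ hA w hw hwA using hex
      have hA0 : ∀ k, ‖A k - a‖ ≤ R / 4 := fun k => (hA k).le.trans (min_le_left _ _)
      have hAt : Filter.Tendsto A Filter.atTop (𝓝 a) := by
        rw [tendsto_iff_norm_sub_tendsto_zero]
        refine squeeze_zero (fun _ => norm_nonneg _)
          (fun k => (hA k).le.trans (min_le_right _ _)) tendsto_one_div_add_atTop_nhds_zero_nat
      have hs : Filter.Tendsto (fun k : ℕ => envaQ Ω u f a - 1 / ((k : ℝ) + 1)) Filter.atTop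
          (𝓝 (envaQ Ω u f a)) := by
        simpa using tendsto_one_div_add_atTop_nhds_zero_nat.const_sub (envaQ Ω u f a)
      refine enva_key hΩ hQu hAt (M := M) (fun θ => hL (hmem a (by simp; positivity) θ))
        (fun k θ => hL (hmem (A k) (hA0 k) θ)) (fun θ => hbQ _ (hmem a (by simp; positivity) θ))
        (fun k θ => hbQ _ (hmem (A k) (hA0 k) θ)) hs ?_
      intro k
      have hdisc : ∀ ζ : ℂ, ‖ζ‖ ≤ 1 → A k + ζ • b ∈ Ω := by
        intro ζ hζ
        refine hL ?_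
        rw [mem_closedBall, dist_eq_norm]
        have h1 : A k + ζ • b - a = (A k - a) + ζ • b := by abel
        rw [h1]
        refine (norm_add_le _ _).trans ?_
        rw [norm_smul]
        have := hA0 k
        have h2 : ‖ζ‖ * ‖b‖ ≤ 1 * (R / 4) := by gcongr
        linarith
      have h1 := (hw k).sub (A k) b hdisc
      have h2 : envaQ Ω u f a - 1 / ((k : ℝ) + 1) ≤ w k (A k) := by
        have := hwA k
        have := min_le_right (R / 4) (1 / ((k : ℝ) + 1))
        linarith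
      refine h2.trans (h1.trans ?_)
      have hmk := hmem (A k) (hA0 k)
      refine mul_le_mul_of_nonneg_left ?_ (by positivity)
      refine intervalIntegral.integral_mono_on (by positivity) ?_ ?_ ?_
      · refine enva_intble (w k) (hw k).usc (fun θ => hL (hmk θ)) (M := M) ?_ _ _
        intro θ
        rw [abs_le]
        exact ⟨(hM _ (hmk θ)).1.trans ((hw k).ge _ (hL (hmk θ))),
          ((hw k).le _ (hL (hmk θ))).trans (hM _ (hmk θ)).2⟩
      · exact enva_intble _ hQu (fun θ => hL (hmk θ)) (fun θ => hbQ _ (hmk θ)) _ _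
      · intro θ _
        exact (le_envP (hw k) (hL (hmk θ))).trans (hPQ _ (hL (hmk θ)))
  have hQmem : EnvF Ω u f (envaQ Ω u f) :=
    ⟨hQu, hsub, hQf, fun z hz => (huP z hz).trans (hPQ z hz)⟩
  have heq : ∀ z ∈ Ω, envP Ω u f z = envaQ Ω u f z := fun z hz =>
    le_antisymm (hPQ z hz) (le_envP hQmem hz)
  refine ⟨?_, ?_, fun z hz => (heq z hz).trans_le (hQf z hz), huP⟩
  · intro z hz y hy
    rw [heq z hz] at hy
    filter_upwards [hQu z hz y hy, self_mem_nhdsWithin] with w hw hwΩ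
    rw [heq w hwΩ]
    exact hw
  · intro a b hab
    have h0 : a ∈ Ω := by simpa using hab 0 (by simp)
    rw [heq a h0]
    refine (hsub a b hab).trans (le_of_eq ?_)
    congr 1
    refine intervalIntegral.integral_congr fun θ _ => ?_
    exact (heq _ (hab _ (enva_norm θ).le)).symm

end HMA
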