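import Pool.Agent.H85.KM.EnvA
import Pool.Agent.H85.KM.C11B

/-! # Module EnvB: semiconcavity of the envelope -/

open MeasureTheory Metric Set
open scoped ENNReal Topology ContDiff ComplexOrder

namespace HMA

theorem EnvB_sd {n : ℕ} {u : Cn n → ℝ} (hu : C11 (ball 0 3) u) :
    ∃ C : ℝ, 0 ≤ C ∧ ∀ z : Cn n, ‖z‖ < 14 / 5 → ∀ h : Cn n, ‖h‖ ≤ 1 / 10 →
      u (z + h) + u (z - h) - 2 * u z ≤ C * ‖h‖ ^ 2 := by
  obtain ⟨K, hK⟩ := hu.lip (closedBall 0 (29 / 10)) (isCompact_closedBall _ _)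
    (closedBall_subset_ball (by norm_num))
  refine ⟨2 * K, by positivity, fun z hz h hh => ?_⟩
  have hin : ∀ s : ℝ, |s| ≤ 1 → ‖z + s • h‖ ≤ 29 / 10 := by
    intro s hs
    have h1 : ‖s • h‖ ≤ 1 / 10 := by
      rw [norm_smul, Real.norm_eq_abs]
      calc |s| * ‖h‖ ≤ 1 * (1 / 10) := mul_le_mul hs hh (norm_nonneg _) zero_le_one
        _ = 1 / 10 := one_mul _
    have h2 := norm_add_le z (s • h)
    linarith
  have hlin : ∀ s : ℝ, |s| ≤ 1 → HasDerivAt (fun s : ℝ => u (z + s • h))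
      (fderiv ℝ u (z + s • h) h) s := by
    intro s hs
    have h1 : HasDerivAt (fun s : ℝ => z + s • h) h s := by
      simpa using ((hasDerivAt_id s).smul_const h).const_add z
    have h2 : DifferentiableAt ℝ u (z + s • h) := hu.diff _ (by
      rw [mem_ball_zero_iff]
      have := hin s hs
      linarith)
    exact h2.hasFDerivAt.comp_hasDerivAt s h1
  have key := norm_image_sub_le_of_norm_deriv_le_segment_01'
    (f := fun s : ℝ => u (z + s • h) + u (z + (-s) • h))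
    (f' := fun s : ℝ => fderiv ℝ u (z + s • h) h - fderiv ℝ u (z + (-s) • h) h)
    (C := 2 * K * ‖h‖ ^ 2) ?_ ?_
  · simp only [one_smul, zero_smul, neg_zero, add_zero, neg_smul] at key
    rw [← sub_eq_add_neg, Real.norm_eq_abs] at key
    have := le_abs_self (u (z + h) + u (z - h) - (u z + u z))
    linarith
  · intro s hs
    have hs1 : |s| ≤ 1 := by rw [abs_of_nonneg hs.1]; exact hs.2
    have hs2 : |-s| ≤ 1 := by rwa [abs_neg]
    have h1 := hlin s hs1
    have h2 := (hlin (-s) hs2).scomp s (hasDerivAt_neg s)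
    have h3 := h1.add h2
    refine HasDerivAt.hasDerivWithinAt ?_
    have e1 : fderiv ℝ u (z + s • h) h - fderiv ℝ u (z + (-s) • h) h =
        fderiv ℝ u (z + s • h) h + (-1 : ℝ) • fderiv ℝ u (z + (-s) • h) h := by
      rw [smul_eq_mul]; ring
    rw [e1]
    exact h3
  · intro s hs
    have hs1 : |s| ≤ 1 := by rw [abs_of_nonneg hs.1]; exact hs.2.le
    have hs2 : |-s| ≤ 1 := by rwa [abs_neg]
    have h1 := hK.dist_le_mul (z + s • h) (by
      rw [mem_closedBall_zero_iff]; exact hin s hs1) (z + (-s) • h) (by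
      rw [mem_closedBall_zero_iff]; exact hin (-s) hs2)
    rw [dist_eq_norm, dist_eq_norm] at h1
    have h2 : ‖z + s • h - (z + (-s) • h)‖ ≤ 2 * ‖h‖ := by
      have : z + s • h - (z + (-s) • h) = (2 * s) • h := by
        module
      rw [this, norm_smul, Real.norm_eq_abs, abs_mul]
      have : |(2 : ℝ)| = 2 := by norm_num
      rw [this]
      have := mul_le_mul_of_nonneg_right hs1 (norm_nonneg h)
      linarith
    have h3 : fderiv ℝ u (z + s • h) h - fderiv ℝ u (z + (-s) • h) h =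
        (fderiv ℝ u (z + s • h) - fderiv ℝ u (z + (-s) • h)) h := by
      rfl
    rw [h3]
    calc ‖(fderiv ℝ u (z + s • h) - fderiv ℝ u (z + (-s) • h)) h‖
        ≤ ‖fderiv ℝ u (z + s • h) - fderiv ℝ u (z + (-s) • h)‖ * ‖h‖ :=
          ContinuousLinearMap.le_opNorm _ _
      _ ≤ (K * (2 * ‖h‖)) * ‖h‖ := mul_le_mul_of_nonneg_right
          (h1.trans (mul_le_mul_of_nonneg_left h2 K.coe_nonneg)) (norm_nonneg _)
      _ = 2 * K * ‖h‖ ^ 2 := by ring

theorem EnvB_int {n : ℕ} {Ω : Set (Cn n)} {v : Cn n → ℝ}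
    (hv : UpperSemicontinuousOn v Ω)
    (hb : ∀ L ⊆ Ω, IsCompact L → ∃ M : ℝ, ∀ z ∈ L, -M ≤ v z) {a b : Cn n}
    (h : ∀ ζ : ℂ, ‖ζ‖ ≤ 1 → a + ζ • b ∈ Ω) :
    IntervalIntegrable (fun θ : ℝ => v (a + Complex.exp (θ * Complex.I) • b)) volume
      0 (2 * Real.pi) := by
  have hcirc : ∀ θ : ℝ, a + Complex.exp (θ * Complex.I) • b ∈ Ω := fun θ =>
    h _ (Complex.norm_exp_ofReal_mul_I θ).le
  have hmeas : Measurable (fun θ : ℝ => v (a + Complex.exp (θ * Complex.I) • b)) := by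
    have h1 : UpperSemicontinuousOn (v ∘ fun θ : ℝ => a + Complex.exp (θ * Complex.I) • b) univ :=
      hv.comp (lext_circ_cont a b).continuousOn (fun θ _ => hcirc θ)
    exact (upperSemicontinuousOn_univ_iff.1 h1).measurable
  have hK : IsCompact ((fun ζ : ℂ => a + ζ • b) '' sphere 0 1) :=
    (isCompact_sphere 0 1).image (by fun_prop)
  have hKΩ : (fun ζ : ℂ => a + ζ • b) '' sphere 0 1 ⊆ Ω := by
    rintro _ ⟨ζ, hζ, rfl⟩
    exact h ζ (mem_sphere_zero_iff_norm.1 hζ).le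
  obtain ⟨M, hM⟩ := (hv.mono hKΩ).bddAbove_of_isCompact hK
  obtain ⟨M', hM'⟩ := hb _ hKΩ hK
  have hmem : ∀ θ : ℝ, a + Complex.exp (θ * Complex.I) • b ∈
      (fun ζ : ℂ => a + ζ • b) '' sphere 0 1 := fun θ =>
    ⟨_, mem_sphere_zero_iff_norm.2 (Complex.norm_exp_ofReal_mul_I θ), rfl⟩
  refine (intervalIntegrable_const (c := max |M| |M'|)).mono_fun hmeas.aestronglyMeasurable ?_
  refine Filter.Eventually.of_forall fun θ => ?_
  have h1 := hM (mem_image_of_mem v (hmem θ))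
  have h2 := hM' _ (hmem θ)
  show ‖v (a + Complex.exp (θ * Complex.I) • b)‖ ≤ ‖max |M| |M'|‖
  rw [Real.norm_eq_abs, Real.norm_eq_abs,
    abs_of_nonneg (le_max_of_le_left (abs_nonneg M) : (0 : ℝ) ≤ max |M| |M'|), abs_le]
  have h3 := le_abs_self M
  have h4 := le_abs_self M'
  have h5 := le_max_left |M| |M'|
  have h6 := le_max_right |M| |M'|
  constructor <;> linarith

/-- the averaged translates -/
theorem EnvB_avg {n : ℕ} {Ω Ω' : Set (Cn n)} {P : Cn n → ℝ}
    (hP : UpperSemicontinuousOn P Ω)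
    (hb : ∀ L ⊆ Ω, IsCompact L → ∃ M : ℝ, ∀ z ∈ L, -M ≤ P z) (hs : SubOn Ω P) (h : Cn n) (c : ℝ)
    (h1 : ∀ z ∈ Ω', z + h ∈ Ω) (h2 : ∀ z ∈ Ω', z - h ∈ Ω) :
    UpperSemicontinuousOn (fun z => (P (z + h) + P (z - h)) / 2 - c) Ω' ∧
    (∀ L ⊆ Ω', IsCompact L → ∃ M : ℝ, ∀ z ∈ L, -M ≤ (P (z + h) + P (z - h)) / 2 - c) ∧
    SubOn Ω' (fun z => (P (z + h) + P (z - h)) / 2 - c) := by
  refine ⟨?_, ?_, ?_⟩
  · have h3 : UpperSemicontinuousOn (P ∘ fun z => z + h) Ω' :=
      hP.comp (by fun_prop) h1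
    have h4 : UpperSemicontinuousOn (P ∘ fun z => z - h) Ω' :=
      hP.comp (by fun_prop) h2
    have h5 := h3.add h4
    have hg : Continuous (fun x : ℝ => x / 2 - c) := by fun_prop
    exact hg.comp_upperSemicontinuousOn h5 (fun x y hxy => by
      show x / 2 - c ≤ y / 2 - c
      linarith)
  · intro L hL hLc
    obtain ⟨M1, hM1⟩ := hb ((fun z => z + h) '' L) (by
      rintro _ ⟨z, hz, rfl⟩
      exact h1 z (hL hz)) (hLc.image (by fun_prop))
    obtain ⟨M2, hM2⟩ := hb ((fun z => z - h) '' L) (by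
      rintro _ ⟨z, hz, rfl⟩
      exact h2 z (hL hz)) (hLc.image (by fun_prop))
    refine ⟨(M1 + M2) / 2 + c, fun z hz => ?_⟩
    have h3 := hM1 _ (mem_image_of_mem _ hz)
    have h4 := hM2 _ (mem_image_of_mem _ hz)
    linarith
  · intro a b hab
    have ha : ∀ ζ : ℂ, ‖ζ‖ ≤ 1 → (a + h) + ζ • b ∈ Ω := fun ζ hζ => by
      have := h1 _ (hab ζ hζ)
      rwa [add_right_comm] at this
    have hb' : ∀ ζ : ℂ, ‖ζ‖ ≤ 1 → (a - h) + ζ • b ∈ Ω := fun ζ hζ => by
      have := h2 _ (hab ζ hζ)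
      rwa [← sub_add_eq_add_sub] at this
    have i1 := EnvB_int hP hb ha
    have i2 := EnvB_int hP hb hb'
    have s1 := hs _ _ ha
    have s2 := hs _ _ hb'
    have e : ∫ θ in (0 : ℝ)..(2 * Real.pi),
        ((P (a + Complex.exp (θ * Complex.I) • b + h) +
          P (a + Complex.exp (θ * Complex.I) • b - h)) / 2 - c) =
        (∫ θ in (0 : ℝ)..(2 * Real.pi), P (a + h + Complex.exp (θ * Complex.I) • b)) / 2 +
        (∫ θ in (0 : ℝ)..(2 * Real.pi), P (a - h + Complex.exp (θ * Complex.I) • b)) / 2 -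
        2 * Real.pi * c := by
      have e1 : (fun θ : ℝ => (P (a + Complex.exp (θ * Complex.I) • b + h) +
          P (a + Complex.exp (θ * Complex.I) • b - h)) / 2 - c) = fun θ : ℝ =>
          (P (a + h + Complex.exp (θ * Complex.I) • b) / 2 +
          P (a - h + Complex.exp (θ * Complex.I) • b) / 2) - c := by
        funext θ
        rw [add_right_comm a _ h, ← sub_add_eq_add_sub a h]
        ring
      rw [e1, intervalIntegral.integral_sub ((i1.div_const 2).add (i2.div_const 2))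
        intervalIntegrable_const, intervalIntegral.integral_add (i1.div_const 2)
        (i2.div_const 2), intervalIntegral.integral_div, intervalIntegral.integral_div,
        intervalIntegral.integral_const]
      simp
    show (P (a + h) + P (a - h)) / 2 - c ≤ (2 * Real.pi)⁻¹ * ∫ θ in (0 : ℝ)..(2 * Real.pi),
        ((P (a + Complex.exp (θ * Complex.I) • b + h) +
          P (a + Complex.exp (θ * Complex.I) • b - h)) / 2 - c)
    rw [e]
    have hpi : (0 : ℝ) < 2 * Real.pi := by positivity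
    have e2 : ∀ A B : ℝ, (2 * Real.pi)⁻¹ * (A / 2 + B / 2 - 2 * Real.pi * c) =
        ((2 * Real.pi)⁻¹ * A + (2 * Real.pi)⁻¹ * B) / 2 - c := by
      intro A B
      field_simp
    rw [e2]
    linarith

/-- glueing: `g = max P v` on a smaller open set, `g = P` elsewhere -/
theorem EnvB_glue {n : ℕ} {Ω Ω' Ω'' : Set (Cn n)} {P v : Cn n → ℝ} (hΩ : IsOpen Ω)
    (hΩ' : IsOpen Ω') (hΩ'' : IsOpen Ω'') (hsub : Ω' ⊆ Ω) (hsub'' : Ω'' ⊆ Ω)
    (hcov : Ω ⊆ Ω' ∪ Ω'')
    (hP : UpperSemicontinuousOn P Ω)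
    (hb : ∀ L ⊆ Ω, IsCompact L → ∃ M : ℝ, ∀ z ∈ L, -M ≤ P z) (hs : SubOn Ω P)
    (hv : UpperSemicontinuousOn v Ω')
    (hbv : ∀ L ⊆ Ω', IsCompact L → ∃ M : ℝ, ∀ z ∈ L, -M ≤ v z) (hsv : SubOn Ω' v)
    {g : Cn n → ℝ} (hg1 : ∀ z ∈ Ω', g z = max (P z) (v z)) (hg2 : ∀ z ∈ Ω'', g z = P z) :
    UpperSemicontinuousOn g Ω ∧ SubOn Ω g := by
  have hPg : ∀ z ∈ Ω, P z ≤ g z := by
    intro z hz
    rcases hcov hz with h | h
    · rw [hg1 z h]; exact le_max_left _ _
    · rw [hg2 z h]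
  have husc : UpperSemicontinuousOn g Ω := by
    intro z hz
    rcases hcov hz with h | h
    · have h1 : UpperSemicontinuousWithinAt (fun z => P z ⊔ v z) Ω' z :=
        UpperSemicontinuousWithinAt.sup (hP.mono hsub z h) (hv z h)
      have h2 : UpperSemicontinuousWithinAt g Ω' z := by
        refine UpperSemicontinuousWithinAt.congr_of_eventuallyEq h1 h ?_
        filter_upwards [self_mem_nhdsWithin] with w hw
        rw [hg1 w hw]
      intro y hy
      have h3 := h2 y hy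
      rw [hΩ'.nhdsWithin_eq h] at h3
      rw [hΩ.nhdsWithin_eq hz]
      exact h3
    · have h2 : UpperSemicontinuousWithinAt g Ω'' z := by
        refine UpperSemicontinuousWithinAt.congr_of_eventuallyEq (hP.mono hsub'' z h) h ?_
        filter_upwards [self_mem_nhdsWithin] with w hw
        rw [hg2 w hw]
      intro y hy
      have h3 := h2 y hy
      rw [hΩ''.nhdsWithin_eq h] at h3
      rw [hΩ.nhdsWithin_eq hz]
      exact h3
  refine ⟨husc, ?_⟩
  have hbg : ∀ L ⊆ Ω, IsCompact L → ∃ M : ℝ, ∀ z ∈ L, -M ≤ g z := by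
    intro L hL hLc
    obtain ⟨M, hM⟩ := hb L hL hLc
    exact ⟨M, fun z hz => (hM z hz).trans (hPg z (hL hz))⟩
  refine loc_glob hΩ husc hbg fun a ha => ?_
  have hmaxsub := sub_max (hP.mono hsub) hv (fun L hL => hb L (hL.trans hsub)) hbv
    (fun a b hab => hs a b (fun ζ hζ => hsub (hab ζ hζ))) hsv
  have hdisc : ∀ (U : Set (Cn n)), IsOpen U → a ∈ U → ∃ r > 0, ∀ b : Cn n, ‖b‖ ≤ r →
      ∀ ζ : ℂ, ‖ζ‖ ≤ 1 → a + ζ • b ∈ U := by
    intro U hU haU
    obtain ⟨r, hr, hrU⟩ := Metric.isOpen_iff.1 hU a haU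
    refine ⟨r / 2, by positivity, fun b hb ζ hζ => hrU ?_⟩
    rw [mem_ball, dist_eq_norm, add_sub_cancel_left, norm_smul]
    have := mul_le_mul hζ hb (norm_nonneg _) zero_le_one
    linarith
  rcases hcov ha with h | h
  · obtain ⟨r, hr, hrU⟩ := hdisc Ω' hΩ' h
    refine ⟨r, hr, fun b hb => ?_⟩
    have h1 := hmaxsub a b (hrU b hb)
    rw [hg1 a h]
    refine h1.trans (le_of_eq ?_)
    congr 1
    apply intervalIntegral.integral_congr
    intro θ _
    exact (hg1 _ (hrU b hb _ (Complex.norm_exp_ofReal_mul_I θ).le)).symm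
  · obtain ⟨r, hr, hrU⟩ := hdisc Ω'' hΩ'' h
    refine ⟨r, hr, fun b hb => ?_⟩
    have h1 := hs a b (fun ζ hζ => hsub'' (hrU b hb ζ hζ))
    rw [hg2 a h]
    refine h1.trans (le_of_eq ?_)
    congr 1
    apply intervalIntegral.integral_congr
    intro θ _
    exact (hg2 _ (hrU b hb _ (Complex.norm_exp_ofReal_mul_I θ).le)).symm

theorem envP_semi {n : ℕ} {u χ : Cn n → ℝ} (hu : C11 (ball 0 3) u) (hus : SubOn (ball 0 3) u)
    (hχ : ContDiff ℝ ∞ χ) (hχ0 : ∀ z, 0 ≤ χ z) (hχs : tsupport χ ⊆ ball 0 2) {t : ℝ}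
    (ht : 0 < t) : ∃ C : ℝ, 0 ≤ C ∧ ∀ z : Cn n, ‖z‖ < 14 / 5 → ∀ h : Cn n, ‖h‖ ≤ 1 / 10 →
      envP (ball 0 3) u (fun z => u z + t * χ z) (z + h) +
        envP (ball 0 3) u (fun z => u z + t * χ z) (z - h) -
        2 * envP (ball 0 3) u (fun z => u z + t * χ z) z ≤ C * ‖h‖ ^ 2 := by
  have hf : C11 (ball (0 : Cn n) 3) (fun z => u z + t * χ z) :=
    hu.add isOpen_ball ((c11_of_contDiffOn isOpen_ball
      ((hχ.of_le (WithTop.coe_le_coe.2 (le_top : (2 : ℕ∞) ≤ ⊤))).contDiffOn)).const_mul isOpen_ball t)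
  have hP : EnvF (ball 0 3) u (fun z => u z + t * χ z)
      (envP (ball 0 3) u (fun z => u z + t * χ z)) :=
    envP_mem isOpen_ball hu.continuousOn hf.continuousOn hus (fun z _ => by
      have := mul_nonneg ht.le (hχ0 z)
      linarith)
  have hzero : ∀ z : Cn n, 2 ≤ ‖z‖ → χ z = 0 := by
    intro z hz
    by_contra h
    have h1 := hχs (subset_tsupport χ h)
    rw [mem_ball_zero_iff] at h1
    linarith
  obtain ⟨C, hC0, hC⟩ := EnvB_sd hf
  refine ⟨C, hC0, fun z₀ hz₀ h hh => ?_⟩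
  set f : Cn n → ℝ := fun z => u z + t * χ z with hfdef
  set P : Cn n → ℝ := envP (ball 0 3) u f with hPdef
  have hbP : ∀ L ⊆ ball (0 : Cn n) 3, IsCompact L → ∃ M : ℝ, ∀ z ∈ L, -M ≤ P z := by
    intro L hL hLc
    obtain ⟨M, hM⟩ := (hLc.image_of_continuousOn (hu.continuousOn.mono hL)).bddBelow
    refine ⟨-M, fun z hz => ?_⟩
    rw [neg_neg]
    exact (hM (mem_image_of_mem u hz)).trans (hP.ge z (hL hz))
  have hin1 : ∀ z ∈ ball (0 : Cn n) (14 / 5), z + h ∈ ball (0 : Cn n) 3 := by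
    intro z hz
    rw [mem_ball_zero_iff] at hz ⊢
    have := norm_add_le z h
    linarith
  have hin2 : ∀ z ∈ ball (0 : Cn n) (14 / 5), z - h ∈ ball (0 : Cn n) 3 := by
    intro z hz
    rw [mem_ball_zero_iff] at hz ⊢
    have := norm_sub_le z h
    linarith
  obtain ⟨v1, v2, v3⟩ := EnvB_avg (Ω' := ball (0 : Cn n) (14 / 5)) hP.usc hbP hP.sub h
    (C / 2 * ‖h‖ ^ 2) hin1 hin2
  set v : Cn n → ℝ := fun z => (P (z + h) + P (z - h)) / 2 - C / 2 * ‖h‖ ^ 2 with hv
  have hvf : ∀ z ∈ ball (0 : Cn n) (14 / 5), v z ≤ f z := by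
    intro z hz
    have h1 := hP.le _ (hin1 z hz)
    have h2 := hP.le _ (hin2 z hz)
    have h3 := hC z (by rwa [mem_ball_zero_iff] at hz) h hh
    rw [hv]
    simp only
    linarith
  have hvP : ∀ z ∈ ball (0 : Cn n) (14 / 5), 21 / 10 < ‖z‖ → v z ≤ P z := by
    intro z hz hz2
    have h1 := hvf z hz
    have h2 : f z = u z := by
      rw [hfdef]
      simp only
      rw [hzero z (by linarith), mul_zero, add_zero]
    rw [h2] at h1
    exact h1.trans (hP.ge z (by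
      rw [mem_ball_zero_iff] at hz ⊢
      linarith))
  classical
  let g : Cn n → ℝ := fun z => if ‖z‖ < 14 / 5 then max (P z) (v z) else P z
  have hg1 : ∀ z ∈ ball (0 : Cn n) (14 / 5), g z = max (P z) (v z) := by
    intro z hz
    rw [mem_ball_zero_iff] at hz
    exact if_pos hz
  have hg2 : ∀ z ∈ ball (0 : Cn n) 3 \ closedBall 0 (21 / 10), g z = P z := by
    intro z hz
    have h2 : 21 / 10 < ‖z‖ := by
      have := hz.2
      rw [mem_closedBall_zero_iff, not_le] at this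
      exact this
    show (if ‖z‖ < 14 / 5 then max (P z) (v z) else P z) = P z
    split_ifs with h3
    · exact max_eq_left (hvP z (by rwa [mem_ball_zero_iff]) h2)
    · rfl
  have hcov : ball (0 : Cn n) 3 ⊆ ball 0 (14 / 5) ∪ (ball (0 : Cn n) 3 \ closedBall 0 (21 / 10)) := by
    intro z hz
    by_cases h3 : ‖z‖ < 14 / 5
    · left; rwa [mem_ball_zero_iff]
    · right
      refine ⟨hz, ?_⟩
      rw [mem_closedBall_zero_iff, not_le]
      rw [not_lt] at h3
      linarith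
  obtain ⟨g1, g2⟩ := EnvB_glue isOpen_ball isOpen_ball
    (isOpen_ball.sdiff isClosed_closedBall) (ball_subset_ball (by norm_num)) sdiff_subset hcov
    hP.usc hbP hP.sub v1 v2 v3 hg1 hg2
  have hgF : EnvF (ball 0 3) u f g := by
    refine ⟨g1, g2, fun z hz => ?_, fun z hz => ?_⟩
    · rcases hcov hz with h3 | h3
      · rw [hg1 z h3]
        exact max_le (hP.le z hz) (hvf z h3)
      · rw [hg2 z h3]
        exact hP.le z hz
    · rcases hcov hz with h3 | h3
      · rw [hg1 z h3]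
        exact (hP.ge z hz).trans (le_max_left _ _)
      · rw [hg2 z h3]
        exact hP.ge z hz
  have hz₀' : z₀ ∈ ball (0 : Cn n) (14 / 5) := by rwa [mem_ball_zero_iff]
  have h1 := le_envP hgF (z := z₀) (ball_subset_ball (by norm_num) hz₀')
  rw [hg1 z₀ hz₀'] at h1
  have h2 := (le_max_right (P z₀) (v z₀)).trans h1
  rw [hv] at h2
  simp only at h2
  rw [← hPdef] at h2
  linarith

end HMA
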