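import Pool.Agent.H85.KM.HFun2

/-! # Module HFun: a comparison function on the polydisc -/

open MeasureTheory Metric Set
open scoped ENNReal Topology ContDiff ComplexOrder

namespace HMA

theorem hFun_pw_contDiff {n : ℕ} (a : Fin n → ℕ) : ContDiff ℂ ∞ (pw (n := n) a) :=
  contDiffOn_univ.1 (hol_contDiffOn isOpen_univ (pw_diff a).differentiableOn)

theorem hFun_log {n : ℕ} {τ : ℝ} (hτ : 0 < τ) :
    ContDiff ℝ ∞ (fun z : Cn n => Real.log (τ + ‖z‖ ^ 2)) := by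
  simpa using smooth_log hτ (0 : Cn n)

theorem hFun_twD {n : ℕ} {u : Cn n → ℝ} (hu : ContDiff ℝ ∞ u) (z : Cn n) : TwD u z := by
  refine ⟨Filter.Eventually.of_forall fun w => (hu.differentiable (by simp)) w, ?_⟩
  have h1 : ContDiff ℝ 1 (fderiv ℝ u) := hu.fderiv_right (m := 1) (by norm_cast)
  exact (h1.differentiable (by simp)) z

theorem hFun_mad_smul {n : ℕ} {u : Cn n → ℝ} {z : Cn n} (hu : TwD u z) (c : ℝ) :
    mad (fun w => c * u w) z = c ^ n * mad u z := by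
  unfold mad
  rw [(hu.const_mul c).2, Matrix.det_smul, Fintype.card_fin, ← Complex.ofReal_pow,
    Complex.re_ofReal_mul]

theorem hFun_mad_log_nonneg {n : ℕ} {τ : ℝ} (hτ : 0 < τ) (z : Cn n) :
    0 ≤ mad (fun z : Cn n => Real.log (τ + ‖z‖ ^ 2)) z := by
  rw [mad_log hτ]
  positivity

theorem hFun_sub {n : ℕ} (a : Fin n → ℕ) {τ : ℝ} (hτ : 0 < τ) {c : ℝ} (hc : 0 ≤ c) :
    SubOn univ (fun z : Cn n => c * Real.log (τ + ‖pw a z‖ ^ 2)) := by
  have h1 : SubOn univ (fun z : Cn n => Real.log (τ + ‖z‖ ^ 2)) := by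
    refine smooth_sub isOpen_univ (hFun_log hτ).contDiffOn fun z _ ξ => ?_
    have h2 := lev_log_ge hτ (0 : Cn n) z ξ
    simp only [sub_zero] at h2
    refine le_trans ?_ h2
    positivity
  have h3 := sub_comp isOpen_univ isOpen_univ
    (c11_of_contDiffOn isOpen_univ ((hFun_log (n := n) hτ).of_le (by norm_cast)).contDiffOn) h1
    (pw_diff a).differentiableOn (mapsTo_univ _ _)
  intro x b hb
  have h4 := h3 x b hb
  rw [intervalIntegral.integral_const_mul, ← mul_assoc, mul_comm (2 * Real.pi)⁻¹ c, mul_assoc]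
  exact mul_le_mul_of_nonneg_left h4 hc

theorem hFun_mass (n : ℕ) (hn : 1 ≤ n) : ∃ C : ℝ, 0 < C ∧ ∀ (a : Fin n → ℕ), (∀ i, 1 ≤ a i) →
    ∀ (τ c : ℝ), 0 < τ → 0 ≤ c →
    ∫⁻ z in pdisc n, ENNReal.ofReal (mad (fun z : Cn n => c * Real.log (τ + ‖pw a z‖ ^ 2)) z) ≤
      ENNReal.ofReal (C * (c ^ n * ∏ i, (a i : ℝ))) := by
  obtain ⟨C, hC, hm⟩ := mass_log n hn
  refine ⟨C, hC, fun a ha τ c hτ hc => ?_⟩
  set g : Cn n → ℝ≥0∞ := fun z => ENNReal.ofReal (mad (fun z : Cn n => Real.log (τ + ‖z‖ ^ 2)) z)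
    with hg
  have hgm : Measurable g := (measurable_mad _).ennreal_ofReal
  have h1 : ∀ z : Cn n, ENNReal.ofReal (mad (fun z : Cn n => c * Real.log (τ + ‖pw a z‖ ^ 2)) z) =
      ENNReal.ofReal (c ^ n) * (ENNReal.ofReal (‖(jac (pw a) z).det‖ ^ 2) * g (pw a z)) := by
    intro z
    have h2 : TwD (fun z : Cn n => Real.log (τ + ‖z‖ ^ 2)) (pw a z) := hFun_twD (hFun_log hτ) _
    have h3 : ContDiffAt ℂ 2 (pw a) z := (hFun_pw_contDiff a).contDiffAt.of_le (by norm_cast)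
    have h4 : TwD (fun z : Cn n => Real.log (τ + ‖pw a z‖ ^ 2)) z := (LM_comp h3 h2).1
    rw [hFun_mad_smul h4, mad_comp (u := fun z : Cn n => Real.log (τ + ‖z‖ ^ 2)) h3 h2,
      ENNReal.ofReal_mul (by positivity), ENNReal.ofReal_mul (by positivity)]
  simp only [h1]
  have hmeas : Measurable fun z : Cn n => ENNReal.ofReal (‖(jac (pw a) z).det‖ ^ 2) * g (pw a z) :=
    (cov_meas_det _).mul (hgm.comp (pw_diff a).continuous.measurable)
  rw [lintegral_const_mul _ hmeas]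
  calc ENNReal.ofReal (c ^ n) * ∫⁻ z in pdisc n, ENNReal.ofReal (‖(jac (pw a) z).det‖ ^ 2) *
        g (pw a z)
      ≤ ENNReal.ofReal (c ^ n) * ((∏ i, (a i : ℝ≥0∞)) * ∫⁻ z, g z) := by
        gcongr
        exact lintegral_pw a ha g hgm
    _ ≤ ENNReal.ofReal (c ^ n) * ((∏ i, (a i : ℝ≥0∞)) * ENNReal.ofReal C) := by
        gcongr
        exact hm τ hτ
    _ = ENNReal.ofReal (C * (c ^ n * ∏ i, (a i : ℝ))) := by
        have h5 : (∏ i, (a i : ℝ≥0∞)) = ENNReal.ofReal (∏ i, (a i : ℝ)) := by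
          rw [ENNReal.ofReal_prod_of_nonneg fun i _ => by positivity]
          simp
        rw [h5, ← ENNReal.ofReal_mul (by positivity), ← ENNReal.ofReal_mul (by positivity)]
        congr 1
        ring

theorem hFun_compact {n : ℕ} (r : ℝ) : IsCompact {ζ : Cn n | ∀ i, ‖ζ i‖ ≤ r} := by
  refine Metric.isCompact_of_isClosed_isBounded ?_ ?_
  · have h1 : {ζ : Cn n | ∀ i, ‖ζ i‖ ≤ r} = ⋂ i : Fin n, {ζ : Cn n | ‖ζ i‖ ≤ r} := by
      ext; simp
    rw [h1]
    refine isClosed_iInter fun i => ?_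
    exact isClosed_le (by fun_prop) continuous_const
  · refine (Metric.isBounded_iff_subset_closedBall 0).2 ⟨Real.sqrt (n * r ^ 2), ?_⟩
    intro ζ hζ
    rw [mem_closedBall_zero_iff, EuclideanSpace.norm_eq]
    refine Real.sqrt_le_sqrt ?_
    calc ∑ i, ‖ζ i‖ ^ 2 ≤ ∑ _i : Fin n, r ^ 2 :=
          Finset.sum_le_sum fun i _ => pow_le_pow_left₀ (norm_nonneg _) (hζ i) 2
      _ = n * r ^ 2 := by simp

theorem hFun_open {n : ℕ} (r : ℝ) : IsOpen {ζ : Cn n | ∀ i, ‖ζ i‖ < r} := by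
  have h1 : {ζ : Cn n | ∀ i, ‖ζ i‖ < r} = ⋂ i : Fin n, {ζ : Cn n | ‖ζ i‖ < r} := by
    ext; simp
  rw [h1]
  exact isOpen_iInter_of_finite fun i => isOpen_lt (by fun_prop) continuous_const

theorem hfun (n : ℕ) (hn : 1 ≤ n) : ∃ C : ℝ, 0 < C ∧ ∀ s : Fin n → ℝ,
    (∀ i, 0 < s i ∧ s i < 1) → ∀ η : ℝ, 0 < η → ∃ (h : Cn n → ℝ) (U L : Set (Cn n)),
      IsOpen U ∧ IsCompact L ∧ {ζ : Cn n | ∀ i, ‖ζ i‖ ≤ s i} ⊆ U ∧ U ⊆ L ∧ L ⊆ pdisc n ∧
      ContDiff ℝ ∞ h ∧ SubOn univ h ∧ (∀ z ∈ U, h z < -1 + η) ∧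
      (∀ z ∈ pdisc n, z ∉ L → -η ≤ h z) ∧
      ∫⁻ z in L, ENNReal.ofReal (mad h z) ≤
        ENNReal.ofReal (C * (∏ i, Real.log (1 / s i))⁻¹) := by
  obtain ⟨C, hC, hm⟩ := hFun_mass n hn
  refine ⟨C * 2 ^ n, by positivity, fun s hs η hη => ?_⟩
  set ℓ : Fin n → ℝ := fun i => Real.log (1 / s i) with hℓ
  have hℓpos : ∀ i, 0 < ℓ i := fun i => Real.log_pos (by
    rw [lt_div_iff₀ (hs i).1, one_mul]; exact (hs i).2)
  have hsℓ : ∀ i, s i = Real.exp (-ℓ i) := by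
    intro i
    rw [hℓ]
    simp only
    rw [one_div, Real.log_inv, neg_neg, Real.exp_log (hs i).1]
  set A : ℝ := 2 * n + ∑ i, ℓ i with hA
  have hn1 : (1 : ℝ) ≤ n := by exact_mod_cast hn
  have hAn : 2 * (n : ℝ) ≤ A := by
    have : 0 ≤ ∑ i, ℓ i := Finset.sum_nonneg fun i _ => (hℓpos i).le
    linarith
  have hAℓ : ∀ i, ℓ i ≤ A := by
    intro i
    have : ℓ i ≤ ∑ i, ℓ i :=
      Finset.single_le_sum (f := ℓ) (fun j _ => (hℓpos j).le) (Finset.mem_univ i)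
    linarith
  have hA0 : 0 < A := by linarith
  set a : Fin n → ℕ := fun i => ⌈A / ℓ i⌉₊ with ha
  have ha1 : ∀ i, 1 ≤ a i := fun i => Nat.one_le_ceil_iff.2 (div_pos hA0 (hℓpos i))
  have ha2 : ∀ i, (a i : ℝ) ≤ 2 * A / ℓ i := by
    intro i
    have h1 := (Nat.ceil_lt_add_one (div_pos hA0 (hℓpos i)).le).le
    have h2 : 1 ≤ A / ℓ i := by
      rw [le_div_iff₀ (hℓpos i), one_mul]; exact hAℓ i
    have h3 : 2 * A / ℓ i = A / ℓ i + A / ℓ i := by ring
    rw [h3]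
    exact h1.trans (by linarith)
  have ha3 : ∀ i, A ≤ a i * ℓ i := by
    intro i
    have h1 := Nat.le_ceil (A / ℓ i)
    rwa [div_le_iff₀ (hℓpos i)] at h1
  set τ : ℝ := Real.exp (-(2 * A)) with hτ
  have hτ0 : 0 < τ := Real.exp_pos _
  set A' : ℝ := A - n with hA'
  have hA'0 : 0 < A' := by linarith
  have hA'A : A ≤ 2 * A' := by linarith
  set c : ℝ := (2 * A')⁻¹ with hc
  have hc0 : 0 < c := by positivity
  set h : Cn n → ℝ := fun z => c * Real.log (τ + ‖pw a z‖ ^ 2) with hh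
  have hsm : ContDiff ℝ ∞ h := by
    have h1 : ContDiff ℝ ∞ (pw (n := n) a) := (hFun_pw_contDiff a).restrict_scalars ℝ
    exact contDiff_const.mul ((hFun_log hτ0).comp h1)
  -- values on the small polydisc
  have hin : ∀ z : Cn n, (∀ i, ‖z i‖ ≤ s i) → h z ≤ -1 := by
    intro z hz
    have h1 : ‖pw a z‖ ^ 2 ≤ n * Real.exp (-(2 * A)) := by
      rw [EuclideanSpace.norm_sq_eq]
      calc ∑ i, ‖(pw a z) i‖ ^ 2 ≤ ∑ _i : Fin n, Real.exp (-(2 * A)) := by
            refine Finset.sum_le_sum fun i _ => ?_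
            have h2 : ‖(pw a z) i‖ = ‖z i‖ ^ a i := by
              show ‖z i ^ a i‖ = _
              rw [norm_pow]
            rw [h2]
            have h3 : ‖z i‖ ^ a i ≤ Real.exp (-A) := by
              calc ‖z i‖ ^ a i ≤ (s i) ^ a i := pow_le_pow_left₀ (norm_nonneg _) (hz i) _
                _ = Real.exp (-(a i * ℓ i)) := by
                    rw [hsℓ i, ← Real.exp_nat_mul]; ring_nf
                _ ≤ Real.exp (-A) := Real.exp_le_exp.2 (by linarith [ha3 i])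
            calc (‖z i‖ ^ a i) ^ 2 ≤ (Real.exp (-A)) ^ 2 :=
                  pow_le_pow_left₀ (by positivity) h3 2
              _ = Real.exp (-(2 * A)) := by
                  rw [← Real.exp_nat_mul]; push_cast; ring_nf
        _ = n * Real.exp (-(2 * A)) := by simp
    have h4 : τ + ‖pw a z‖ ^ 2 ≤ (n + 1) * Real.exp (-(2 * A)) := by
      rw [hτ]; linarith
    have h5 : Real.log (τ + ‖pw a z‖ ^ 2) ≤ 2 * n - 2 * A := by
      calc Real.log (τ + ‖pw a z‖ ^ 2) ≤ Real.log ((n + 1) * Real.exp (-(2 * A))) :=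
            Real.log_le_log (by positivity) h4
        _ = Real.log (n + 1) - 2 * A := by
            rw [Real.log_mul (by positivity) (Real.exp_pos _).ne', Real.log_exp]; ring
        _ ≤ 2 * n - 2 * A := by
            have h6 := Real.log_le_sub_one_of_pos (show (0 : ℝ) < n + 1 by positivity)
            linarith
    show c * Real.log (τ + ‖pw a z‖ ^ 2) ≤ -1
    calc c * Real.log (τ + ‖pw a z‖ ^ 2) ≤ c * (2 * n - 2 * A) :=
          mul_le_mul_of_nonneg_left h5 hc0.le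
      _ = -1 := by
          have h7 : 2 * (n : ℝ) - 2 * A = -(2 * A') := by rw [hA']; ring
          have h8 : 2 * A' ≠ 0 := by positivity
          rw [hc, h7, mul_neg, inv_mul_cancel₀ h8]
  -- the radius
  obtain ⟨r, hr0, hr1, hrs, hrη⟩ : ∃ r : ℝ, 0 < r ∧ r < 1 ∧ (∀ i, s i < r) ∧
      (∀ i, -η ≤ c * (2 * a i) * Real.log r) := by
    have e1 : ∀ᶠ r : ℝ in 𝓝[<] 1, 0 < r := by
      exact nhdsWithin_le_nhds (lt_mem_nhds one_pos)
    have e2 : ∀ᶠ r : ℝ in 𝓝[<] 1, r < 1 := self_mem_nhdsWithin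
    have e3 : ∀ᶠ r : ℝ in 𝓝[<] 1, ∀ i, s i < r :=
      Filter.eventually_all.2 fun i => nhdsWithin_le_nhds (lt_mem_nhds (hs i).2)
    have e4 : ∀ᶠ r : ℝ in 𝓝[<] 1, ∀ i, -η ≤ c * (2 * a i) * Real.log r := by
      refine Filter.eventually_all.2 fun i => ?_
      have h1 : Filter.Tendsto (fun r : ℝ => c * (2 * a i) * Real.log r) (𝓝[<] 1) (𝓝 0) := by
        have h2 : ContinuousAt (fun r : ℝ => c * (2 * a i) * Real.log r) 1 :=
          continuousAt_const.mul (Real.continuousAt_log one_ne_zero)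
        have h3 := h2.tendsto
        simp only [Real.log_one, mul_zero] at h3
        exact h3.mono_left nhdsWithin_le_nhds
      exact h1.eventually (le_mem_nhds (by linarith))
    exact (e1.and (e2.and (e3.and e4))).exists
  refine ⟨h, {ζ | ∀ i, ‖ζ i‖ < r} ∩ {ζ | h ζ < -1 + η}, {ζ | ∀ i, ‖ζ i‖ ≤ r}, ?_, hFun_compact r,
    ?_, ?_, ?_, hsm, hFun_sub a hτ0 hc0.le, ?_, ?_, ?_⟩
  · exact (hFun_open r).inter (isOpen_lt hsm.continuous continuous_const)
  · intro z hz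
    refine ⟨fun i => (hz i).trans_lt (hrs i), ?_⟩
    show h z < -1 + η
    have := hin z hz
    linarith
  · intro z hz i
    exact (hz.1 i).le
  · intro z hz i
    exact (hz i).trans_lt hr1
  · intro z hz
    exact hz.2
  · intro z hz hzL
    simp only [mem_setOf_eq, not_forall, not_le] at hzL
    obtain ⟨i, hi⟩ := hzL
    have hzi : 0 < ‖z i‖ := hr0.trans hi
    have h1 : (‖z i‖ ^ a i) ^ 2 ≤ τ + ‖pw a z‖ ^ 2 := by
      have h2 : ‖(pw a z) i‖ = ‖z i‖ ^ a i := by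
        show ‖z i ^ a i‖ = _
        rw [norm_pow]
      have h3 : ‖(pw a z) i‖ ^ 2 ≤ ‖pw a z‖ ^ 2 := by
        rw [EuclideanSpace.norm_sq_eq (pw a z)]
        exact Finset.single_le_sum (f := fun j => ‖(pw a z) j‖ ^ 2)
          (fun j _ => by positivity) (Finset.mem_univ i)
      rw [h2] at h3
      linarith
    have h4 : Real.log ((‖z i‖ ^ a i) ^ 2) ≤ Real.log (τ + ‖pw a z‖ ^ 2) :=
      Real.log_le_log (by positivity) h1
    have h5 : Real.log ((‖z i‖ ^ a i) ^ 2) = (2 * a i) * Real.log ‖z i‖ := by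
      rw [Real.log_pow, Real.log_pow]; push_cast; ring
    have h6 : Real.log r ≤ Real.log ‖z i‖ := Real.log_le_log hr0 hi.le
    calc -η ≤ c * (2 * a i) * Real.log r := hrη i
      _ ≤ c * (2 * a i) * Real.log ‖z i‖ := mul_le_mul_of_nonneg_left h6 (by positivity)
      _ = c * Real.log ((‖z i‖ ^ a i) ^ 2) := by rw [h5]; ring
      _ ≤ c * Real.log (τ + ‖pw a z‖ ^ 2) := mul_le_mul_of_nonneg_left h4 hc0.le
  · calc ∫⁻ z in {ζ : Cn n | ∀ i, ‖ζ i‖ ≤ r}, ENNReal.ofReal (mad h z)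
        ≤ ∫⁻ z in pdisc n, ENNReal.ofReal (mad h z) := by
          refine lintegral_mono_set ?_
          intro z hz i
          exact (hz i).trans_lt hr1
      _ ≤ ENNReal.ofReal (C * (c ^ n * ∏ i, (a i : ℝ))) := hm a ha1 τ c hτ0 hc0.le
      _ ≤ ENNReal.ofReal (C * 2 ^ n * (∏ i, ℓ i)⁻¹) := by
          refine ENNReal.ofReal_le_ofReal ?_
          rw [mul_assoc]
          refine mul_le_mul_of_nonneg_left ?_ hC.le
          have h1 : ∏ i, (a i : ℝ) ≤ ∏ i, (2 * A / ℓ i) :=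
            Finset.prod_le_prod (fun i _ => by positivity) fun i _ => ha2 i
          have h2 : ∏ i, (2 * A / ℓ i) = (2 * A) ^ n * (∏ i, ℓ i)⁻¹ := by
            rw [Finset.prod_div_distrib, Finset.prod_const, Finset.card_univ, Fintype.card_fin,
              div_eq_mul_inv]
          have h3 : c ^ n * (2 * A) ^ n ≤ 2 ^ n := by
            rw [← mul_pow]
            refine pow_le_pow_left₀ (by positivity) ?_ n
            rw [hc, inv_mul_le_iff₀ (by positivity)]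
            linarith
          have hP : 0 ≤ (∏ i, ℓ i)⁻¹ :=
            inv_nonneg.2 (Finset.prod_nonneg fun i _ => (hℓpos i).le)
          calc c ^ n * ∏ i, (a i : ℝ) ≤ c ^ n * ((2 * A) ^ n * (∏ i, ℓ i)⁻¹) := by
                rw [← h2]
                exact mul_le_mul_of_nonneg_left h1 (by positivity)
            _ = (c ^ n * (2 * A) ^ n) * (∏ i, ℓ i)⁻¹ := by ring
            _ ≤ 2 ^ n * (∏ i, ℓ i)⁻¹ := mul_le_mul_of_nonneg_right h3 hP

end HMA
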