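import Pool.Agent.H85.KM.C11B
import Pool.Agent.H85.MA.LevLog
import Pool.Agent.H85.KM.Mat

/-! # Module HFun1: the Monge-Ampère mass of `log (τ + ‖z‖²)` -/

open MeasureTheory Metric Set
open scoped ENNReal Topology ContDiff ComplexOrder

namespace HMA

theorem hFun1_smooth {n : ℕ} {τ : ℝ} (hτ : 0 < τ) :
    ContDiff ℝ ∞ (fun z : Cn n => Real.log (τ + ‖z‖ ^ 2)) := by
  have := smooth_log (n := n) hτ 0
  simpa only [sub_zero] using this

theorem hFun1_hes {n : ℕ} {τ : ℝ} (hτ : 0 < τ) (z a b : Cn n) :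
    hes (fun z : Cn n => Real.log (τ + ‖z‖ ^ 2)) z a b =
      (2 * (inner ℂ a b).re * (τ + ‖z‖ ^ 2) - 4 * (inner ℂ z b).re * (inner ℂ z a).re) /
        (τ + ‖z‖ ^ 2) ^ 2 := by
  unfold hes
  rw [← dbar2_fd2 (hFun1_smooth hτ)]
  have h0 : (fun w => fderiv ℝ (fun z : Cn n => Real.log (τ + ‖z‖ ^ 2)) w b) =
      fun w => 2 * (inner ℂ w b).re / (τ + ‖w‖ ^ 2) := by
    funext w
    have := LevLog_fderiv hτ 0 w b
    simpa only [sub_zero] using this
  rw [h0]
  have hT : 0 < τ + ‖z‖ ^ 2 := LevLog_pos hτ z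
  have hd : DifferentiableAt ℝ
      (fun w : Cn n => 2 * (inner ℂ w b).re / (τ + ‖w‖ ^ 2)) z := by
    have b1 : ContDiff ℝ ∞ (fun w : Cn n => 2 * (inner ℂ w b).re) := by
      have := LevLog_re 0 b
      simp only [sub_zero] at this
      exact contDiff_const.mul this
    have b2 : ContDiff ℝ ∞ (fun w : Cn n => τ + ‖w‖ ^ 2) :=
      contDiff_const.add (contDiff_norm_sq ℂ)
    exact (b1.div b2 (fun x => (LevLog_pos hτ x).ne')).differentiable (by simp) z
  rw [← hd.lineDeriv_eq_fderiv]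
  unfold lineDeriv
  have h1 : (fun t : ℝ => 2 * (inner ℂ (z + t • a) b).re / (τ + ‖z + t • a‖ ^ 2)) =
      fun t : ℝ => 2 * ((inner ℂ z b).re + t * (inner ℂ a b).re) /
      (τ + (‖z‖ ^ 2 + 2 * t * (inner ℂ z a).re + t ^ 2 * ‖a‖ ^ 2)) := by
    funext t
    have h2 := LevLog_norm_line 0 z a t
    simp only [sub_zero] at h2
    have h3 : z + t • a = z + (t : ℂ) • a := by rw [← Complex.coe_smul]
    rw [h2, h3, inner_add_left, inner_smul_left, Complex.add_re, Complex.conj_ofReal,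
      Complex.re_ofReal_mul]
  rw [h1]
  have h2 : HasDerivAt (fun t : ℝ => τ + (‖z‖ ^ 2 + 2 * t * (inner ℂ z a).re +
      t ^ 2 * ‖a‖ ^ 2)) (2 * (inner ℂ z a).re) 0 := by
    have a1 : HasDerivAt (fun t : ℝ => 2 * t * (inner ℂ z a).re)
        (2 * (inner ℂ z a).re) 0 := by
      have := ((hasDerivAt_id (0 : ℝ)).const_mul 2).mul_const ((inner ℂ z a).re)
      simpa using this
    have a2 : HasDerivAt (fun t : ℝ => t ^ 2 * ‖a‖ ^ 2) 0 0 := by
      have := (hasDerivAt_pow 2 (0 : ℝ)).mul_const (‖a‖ ^ 2)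
      simpa using this
    have a3 := ((a1.const_add (‖z‖ ^ 2)).add a2).const_add τ
    simpa using a3
  have h3 : HasDerivAt (fun t : ℝ => 2 * ((inner ℂ z b).re + t * (inner ℂ a b).re))
      (2 * (inner ℂ a b).re) 0 := by
    have a1 := (((hasDerivAt_id (0 : ℝ)).mul_const ((inner ℂ a b).re)).const_add
      ((inner ℂ z b).re)).const_mul 2
    simpa using a1
  have h4 := h3.div h2 (by simpa using hT.ne')
  refine h4.deriv.trans ?_
  simp only [mul_zero, zero_mul, add_zero, ne_eq, OfNat.ofNat_ne_zero, not_false_eq_true, zero_pow]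
  congr 1
  ring

theorem hFun1_LM {n : ℕ} {τ : ℝ} (hτ : 0 < τ) (z : Cn n) :
    LM (fun z : Cn n => Real.log (τ + ‖z‖ ^ 2)) z =
      (((τ + ‖z‖ ^ 2)⁻¹ : ℝ) : ℂ) • ((1 : Matrix (Fin n) (Fin n) ℂ) +
        Matrix.replicateCol Unit (fun j => -(((τ + ‖z‖ ^ 2)⁻¹ : ℝ) : ℂ) *
          (starRingEnd ℂ) (z j)) * Matrix.replicateRow Unit (fun k => z k)) := by
  have hT : 0 < τ + ‖z‖ ^ 2 := LevLog_pos hτ z
  ext j k
  have e1 : ∀ k, inner ℂ z (bv n k) = (starRingEnd ℂ) (z k) := by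
    intro k
    unfold bv
    rw [EuclideanSpace.inner_single_right, one_mul]
  have e2 : ∀ k, inner ℂ z (Complex.I • bv n k) = Complex.I * (starRingEnd ℂ) (z k) := by
    intro k
    rw [inner_smul_right, e1]
  have e3 : ∀ j k, inner ℂ (bv n j) (bv n k) = if j = k then (1 : ℂ) else 0 := by
    intro j k
    unfold bv
    rw [EuclideanSpace.inner_single_right, one_mul]
    by_cases h : j = k
    · subst h
      simp
    · simp [h, Ne.symm h]
  simp only [LM, Matrix.smul_apply, Matrix.add_apply, Matrix.mul_apply, Finset.univ_unique,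
    Finset.sum_singleton, Matrix.replicateCol_apply, Matrix.replicateRow_apply, Matrix.one_apply,
    smul_eq_mul]
  set T : ℝ := τ + ‖z‖ ^ 2 with hTdef
  have e4 : (inner ℂ (bv n j) (bv n k)).re = if j = k then (1 : ℝ) else 0 := by
    rw [e3]
    split_ifs <;> simp
  have e5 : (inner ℂ (Complex.I • bv n j) (Complex.I • bv n k)).re =
      if j = k then (1 : ℝ) else 0 := by
    rw [inner_smul_left, inner_smul_right, e3]
    split_ifs <;> simp
  have e6 : (inner ℂ (bv n j) (Complex.I • bv n k)).re = 0 := by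
    rw [inner_smul_right, e3]
    split_ifs <;> simp
  have e7 : (inner ℂ (Complex.I • bv n j) (bv n k)).re = 0 := by
    rw [inner_smul_left, e3]
    split_ifs <;> simp
  have e8 : ∀ k, (inner ℂ z (bv n k)).re = (z k).re := by
    intro k
    rw [e1, Complex.conj_re]
  have e9 : ∀ k, (inner ℂ z (Complex.I • bv n k)).re = (z k).im := by
    intro k
    rw [e2]
    simp
  have hP : hes (fun z : Cn n => Real.log (τ + ‖z‖ ^ 2)) z (bv n j) (bv n k) +
      hes (fun z : Cn n => Real.log (τ + ‖z‖ ^ 2)) z (Complex.I • bv n j) (Complex.I • bv n k) =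
      4 * (T⁻¹ * (if j = k then (1 : ℝ) else 0) -
        T⁻¹ * T⁻¹ * ((z j).re * (z k).re + (z j).im * (z k).im)) := by
    rw [hFun1_hes hτ, hFun1_hes hτ, e4, e5, e8, e8, e9, e9, ← hTdef]
    field_simp
    ring
  have hQ : hes (fun z : Cn n => Real.log (τ + ‖z‖ ^ 2)) z (bv n j) (Complex.I • bv n k) -
      hes (fun z : Cn n => Real.log (τ + ‖z‖ ^ 2)) z (Complex.I • bv n j) (bv n k) =
      4 * (T⁻¹ * T⁻¹ * ((z j).im * (z k).re - (z j).re * (z k).im)) := by
    rw [hFun1_hes hτ, hFun1_hes hτ, e6, e7, e8, e8, e9, e9, ← hTdef]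
    field_simp
    ring
  rw [hP, hQ]
  have hzj : (starRingEnd ℂ) (z j) = ((z j).re : ℂ) - Complex.I * ((z j).im : ℂ) := by
    apply Complex.ext <;> simp
  have hzk : z k = ((z k).re : ℂ) + Complex.I * ((z k).im : ℂ) := by
    apply Complex.ext <;> simp
  rw [hzj]
  generalize (z j).re = x
  generalize (z j).im = y
  generalize hx' : (z k).re = x' at *
  generalize hy' : (z k).im = y' at *
  rw [hzk]
  have hI : Complex.I * Complex.I = -1 := Complex.I_mul_I
  split_ifs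
  · push_cast
    linear_combination (-(T : ℂ)⁻¹ * (T : ℂ)⁻¹ * y * y') * hI
  · push_cast
    linear_combination (-(T : ℂ)⁻¹ * (T : ℂ)⁻¹ * y * y') * hI

theorem mad_log {n : ℕ} {τ : ℝ} (hτ : 0 < τ) (z : Cn n) :
    mad (fun z : Cn n => Real.log (τ + ‖z‖ ^ 2)) z = τ / (τ + ‖z‖ ^ 2) ^ (n + 1) := by
  have hT : 0 < τ + ‖z‖ ^ 2 := LevLog_pos hτ z
  unfold mad
  rw [hFun1_LM hτ, Matrix.det_smul, Fintype.card_fin,
    Matrix.det_one_add_replicateCol_mul_replicateRow]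
  have h1 : (fun k => z k) ⬝ᵥ (fun j => -(((τ + ‖z‖ ^ 2)⁻¹ : ℝ) : ℂ) * (starRingEnd ℂ) (z j)) =
      ((-((τ + ‖z‖ ^ 2)⁻¹ * ‖z‖ ^ 2) : ℝ) : ℂ) := by
    rw [EuclideanSpace.norm_sq_eq z]
    unfold dotProduct
    push_cast
    rw [Finset.mul_sum, ← Finset.sum_neg_distrib]
    refine Finset.sum_congr rfl fun j _ => ?_
    have h2 : ((‖z j‖ : ℝ) : ℂ) ^ 2 = z j * (starRingEnd ℂ) (z j) := by
      rw [Complex.mul_conj, Complex.normSq_eq_norm_sq]
      push_cast
      ring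
    rw [h2]
    ring
  rw [h1, ← Complex.ofReal_pow, ← Complex.ofReal_one, ← Complex.ofReal_add, ← Complex.ofReal_mul,
    Complex.ofReal_re]
  set T : ℝ := τ + ‖z‖ ^ 2 with hTdef
  have hz : ‖z‖ ^ 2 = T - τ := by rw [hTdef]; ring
  rw [hz, inv_pow, pow_succ]
  field_simp
  ring

theorem hFun1_finrank (n : ℕ) : Module.finrank ℝ (Cn n) = 2 * n := by
  rw [finrank_real_of_complex, finrank_euclideanSpace_fin]

theorem mass_log (n : ℕ) (hn : 1 ≤ n) : ∃ C : ℝ, 0 < C ∧ ∀ τ : ℝ, 0 < τ →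
    ∫⁻ z : Cn n, ENNReal.ofReal (mad (fun z : Cn n => Real.log (τ + ‖z‖ ^ 2)) z) ≤
      ENNReal.ofReal C := by
  have hint1 : Integrable (fun z : Cn n => (1 : ℝ) / (1 + ‖z‖ ^ 2) ^ (n + 1)) := by
    have h := integrable_rpow_neg_one_add_norm_sq (E := Cn n) (μ := volume)
      (r := 2 * (n : ℝ) + 2) (by rw [hFun1_finrank]; push_cast; linarith)
    refine h.congr (Filter.Eventually.of_forall fun z => ?_)
    have h0 : (0 : ℝ) < 1 + ‖z‖ ^ 2 := by positivity
    have h1 : -(2 * (n : ℝ) + 2) / 2 = -((n + 1 : ℕ) : ℝ) := by push_cast; ring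
    simp only [h1, Real.rpow_neg h0.le, Real.rpow_natCast, one_div]
  set J : ℝ := ∫ z : Cn n, (1 : ℝ) / (1 + ‖z‖ ^ 2) ^ (n + 1) with hJ
  have hJ0 : 0 ≤ J := integral_nonneg fun z => by positivity
  refine ⟨J + 1, by linarith, fun τ hτ => ?_⟩
  set R : ℝ := Real.sqrt τ with hR
  have hR0 : 0 < R := Real.sqrt_pos.2 hτ
  have hR2 : R ^ 2 = τ := Real.sq_sqrt hτ.le
  simp only [mad_log hτ]
  have hscale : (fun z : Cn n => τ / (τ + ‖R • z‖ ^ 2) ^ (n + 1)) =
      fun z : Cn n => (τ ^ n)⁻¹ * ((1 : ℝ) / (1 + ‖z‖ ^ 2) ^ (n + 1)) := by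
    funext z
    rw [norm_smul, mul_pow, Real.norm_eq_abs, sq_abs, hR2]
    have h0 : (0 : ℝ) < 1 + ‖z‖ ^ 2 := by positivity
    have h1 : τ + τ * ‖z‖ ^ 2 = τ * (1 + ‖z‖ ^ 2) := by ring
    rw [h1, mul_pow, pow_succ τ n]
    field_simp
  have hint : Integrable (fun z : Cn n => τ / (τ + ‖z‖ ^ 2) ^ (n + 1)) := by
    rw [← integrable_comp_smul_iff volume (fun z : Cn n => τ / (τ + ‖z‖ ^ 2) ^ (n + 1)) hR0.ne',
      hscale]
    exact hint1.const_mul _
  have hval : ∫ z : Cn n, τ / (τ + ‖z‖ ^ 2) ^ (n + 1) = J := by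
    have h := Measure.integral_comp_smul (volume : Measure (Cn n))
      (fun z : Cn n => τ / (τ + ‖z‖ ^ 2) ^ (n + 1)) R
    rw [hscale, integral_const_mul, hFun1_finrank, pow_mul, hR2, smul_eq_mul,
      abs_of_pos (by positivity : (0 : ℝ) < (τ ^ n)⁻¹)] at h
    have h2 : (τ ^ n)⁻¹ ≠ 0 := by positivity
    exact (mul_left_cancel₀ h2 h).symm
  rw [← ofReal_integral_eq_lintegral_ofReal hint (Filter.Eventually.of_forall fun z => by
    have := LevLog_pos hτ z
    positivity), hval]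
  exact ENNReal.ofReal_le_ofReal (by linarith)

end HMA
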