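import Pool.Agent.H85.KM.Cov
import Pool.Agent.H85.KM.Sub11

/-! # Module SubComp: composition with holomorphic maps -/

open MeasureTheory Metric Set
open scoped ENNReal Topology ContDiff ComplexOrder

namespace HMA

variable {n : ℕ} {Ω Ω' : Set (Cn n)} {F : Cn n → Cn n} {u : Cn n → ℝ}

theorem c11_comp (hΩ : IsOpen Ω) (hΩ' : IsOpen Ω') (hu : C11 Ω u)
    (hF : DifferentiableOn ℂ F Ω') (hm : MapsTo F Ω' Ω) : C11 Ω' (fun z => u (F z)) := by
  have hsm : ContDiffOn ℂ ∞ F Ω' := hol_contDiffOn hΩ' hF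
  have hFr : ∀ z ∈ Ω', DifferentiableAt ℝ F z := fun z hz =>
    (hF.differentiableAt (hΩ'.mem_nhds hz)).restrictScalars ℝ
  have hd : ∀ z ∈ Ω', DifferentiableAt ℝ (fun z => u (F z)) z := fun z hz =>
    (hu.diff _ (hm hz)).comp z (hFr z hz)
  have hder : ∀ z ∈ Ω', fderiv ℝ (fun z => u (F z)) z = (fderiv ℝ u (F z)).comp (fderiv ℝ F z) :=
    fun z hz => fderiv_comp z (hu.diff _ (hm hz)) (hFr z hz)
  refine c11_of_local hΩ' fun z hz => ?_
  have hz1 : ContDiffAt ℝ 2 F z :=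
    (contDiffAt_infty.mp (hsm.contDiffAt (hΩ'.mem_nhds hz)) 2).restrict_scalars ℝ
  obtain ⟨K1, t1, ht1, hK1⟩ := (hz1.of_le (by norm_num : (1 : ℕ∞ω) ≤ 2)).exists_lipschitzOnWith
  have hz2 : ContDiffAt ℝ 1 (fderiv ℝ F) z := hz1.fderiv_right (by norm_num)
  obtain ⟨K2, t2, ht2, hK2⟩ := hz2.exists_lipschitzOnWith
  obtain ⟨s, hs, hsΩ⟩ := Metric.nhds_basis_closedBall.mem_iff.mp (hΩ.mem_nhds (hm hz))
  obtain ⟨C, hC⟩ := hu.lip (closedBall (F z) s) (isCompact_closedBall _ _) hsΩ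
  have hFc : ContinuousAt F z := (hFr z hz).continuousAt
  have ht3 : F ⁻¹' (closedBall (F z) s) ∈ 𝓝 z := hFc.preimage_mem_nhds (closedBall_mem_nhds _ hs)
  obtain ⟨r, hr, hrs⟩ := Metric.nhds_basis_ball.mem_iff.mp
    (Filter.inter_mem (Filter.inter_mem (Filter.inter_mem ht1 ht2) ht3) (hΩ'.mem_nhds hz))
  -- bounds
  set D : NNReal := ‖fderiv ℝ F z‖₊ + K2 * Real.toNNReal r with hD
  set M : NNReal := ‖fderiv ℝ u (F z)‖₊ + C * Real.toNNReal s with hM
  have hDb : ∀ w ∈ ball z r, ‖fderiv ℝ F w‖ ≤ D := by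
    intro w hw
    have h1 := hK2.dist_le_mul w (hrs hw).1.1.2 z (hrs (mem_ball_self hr)).1.1.2
    have h2 : ‖fderiv ℝ F w‖ ≤ ‖fderiv ℝ F z‖ + dist (fderiv ℝ F w) (fderiv ℝ F z) := by
      rw [dist_eq_norm]
      have := norm_add_le (fderiv ℝ F z) (fderiv ℝ F w - fderiv ℝ F z)
      simpa using this
    have h3 : (K2 : ℝ) * dist w z ≤ K2 * r :=
      mul_le_mul_of_nonneg_left (mem_ball.mp hw).le K2.2
    rw [hD]
    push_cast
    rw [Real.coe_toNNReal _ hr.le]
    simp only [coe_nnnorm] at *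
    linarith
  have hMb : ∀ y ∈ closedBall (F z) s, ‖fderiv ℝ u y‖ ≤ M := by
    intro y hy
    have h1 := hC.dist_le_mul y hy (F z) (mem_closedBall_self hs.le)
    have h2 : ‖fderiv ℝ u y‖ ≤ ‖fderiv ℝ u (F z)‖ + dist (fderiv ℝ u y) (fderiv ℝ u (F z)) := by
      rw [dist_eq_norm]
      have := norm_add_le (fderiv ℝ u (F z)) (fderiv ℝ u y - fderiv ℝ u (F z))
      simpa using this
    have h3 : (C : ℝ) * dist y (F z) ≤ C * s :=
      mul_le_mul_of_nonneg_left (mem_closedBall.mp hy) C.2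
    rw [hM]
    push_cast
    rw [Real.coe_toNNReal _ hs.le]
    simp only [coe_nnnorm] at *
    linarith
  refine ⟨r, hr, C * K1 * D + M * K2, fun w hw => (hrs hw).2, fun w hw => hd w (hrs hw).2, ?_⟩
  refine LipschitzOnWith.of_dist_le_mul fun x hx y hy => ?_
  rw [hder x (hrs hx).2, hder y (hrs hy).2, dist_eq_norm]
  have e : (fderiv ℝ u (F x)).comp (fderiv ℝ F x) - (fderiv ℝ u (F y)).comp (fderiv ℝ F y) =
      (fderiv ℝ u (F x) - fderiv ℝ u (F y)).comp (fderiv ℝ F x) +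
        (fderiv ℝ u (F y)).comp (fderiv ℝ F x - fderiv ℝ F y) := by
    ext v
    simp
  rw [e]
  have hx1 := hC.dist_le_mul _ (hrs hx).1.2 _ (hrs hy).1.2
  have hx2 := hK1.dist_le_mul x (hrs hx).1.1.1 y (hrs hy).1.1.1
  have hx3 := hK2.dist_le_mul x (hrs hx).1.1.2 y (hrs hy).1.1.2
  rw [dist_eq_norm] at hx1 hx3
  have n1 : ‖(fderiv ℝ u (F x) - fderiv ℝ u (F y)).comp (fderiv ℝ F x)‖ ≤
      (C * (K1 * dist x y)) * D := by
    refine (ContinuousLinearMap.opNorm_comp_le _ _).trans ?_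
    refine mul_le_mul ?_ (hDb x hx) (norm_nonneg _) (by positivity)
    exact hx1.trans (mul_le_mul_of_nonneg_left hx2 C.2)
  have n2 : ‖(fderiv ℝ u (F y)).comp (fderiv ℝ F x - fderiv ℝ F y)‖ ≤ M * (K2 * dist x y) := by
    refine (ContinuousLinearMap.opNorm_comp_le _ _).trans ?_
    exact mul_le_mul (hMb _ (hrs hy).1.2) hx3 (norm_nonneg _) (by positivity)
  refine (norm_add_le _ _).trans ?_
  push_cast
  nlinarith [n1, n2]

theorem sub_comp (hΩ : IsOpen Ω) (hΩ' : IsOpen Ω') (hu : C11 Ω u) (hs : SubOn Ω u)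
    (hF : DifferentiableOn ℂ F Ω') (hm : MapsTo F Ω' Ω) : SubOn Ω' (fun z => u (F z)) := by
  intro a b hab
  -- the compact disc and a compact neighbourhood
  set D : Set (Cn n) := (fun ζ : ℂ => a + ζ • b) '' closedBall (0 : ℂ) 1 with hD
  have hDc : IsCompact D := by
    refine (isCompact_closedBall (0 : ℂ) 1).image ?_
    fun_prop
  have hDΩ : D ⊆ Ω' := by
    rintro _ ⟨ζ, hζ, rfl⟩
    exact hab ζ (by simpa using hζ)
  obtain ⟨L, hL, hDL, hLΩ⟩ := exists_compact_between hDc hΩ' hDΩ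
  have hFL : IsCompact (F '' L) := hL.image_of_continuousOn (hF.continuousOn.mono hLΩ)
  have hFLΩ : F '' L ⊆ Ω := by
    rintro _ ⟨z, hz, rfl⟩
    exact hm (hLΩ hz)
  obtain ⟨δ, hδ, hδΩ⟩ := hFL.exists_cthickening_subset_open hΩ hFLΩ
  set T := cthickening δ (F '' L) with hT
  have hTc : IsCompact T := hFL.cthickening
  have hin : ∀ τ : Cn n, ‖τ‖ ≤ δ → ∀ z ∈ L, F z + τ ∈ T := by
    intro τ hτ z hz
    refine mem_cthickening_of_dist_le (F z + τ) (F z) δ _ ⟨z, hz, rfl⟩ ?_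
    simpa [dist_eq_norm] using hτ
  -- bad set
  have hbad : ∀ᵐ y : Cn n, y ∈ Ω → TwD u y ∧ (LM u y).PosSemidef := by
    filter_upwards [hu.ae_twD hΩ, (c11_sub_iff hΩ hu).mp hs] with y h1 h2 hy
    exact ⟨h1 hy, h2 hy⟩
  set N : Set (Cn n) := toMeasurable volume {y | ¬ (y ∈ Ω → TwD u y ∧ (LM u y).PosSemidef)} with hN
  have hN0 : volume N = 0 := by
    rw [hN, measure_toMeasurable]
    exact hbad
  have hNm : MeasurableSet N := measurableSet_toMeasurable _ _
  -- measurable version of `F`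
  have hio : IsOpen (interior L) := isOpen_interior
  classical
  set F' : Cn n → Cn n := (interior L).piecewise F (fun _ => 0) with hF'
  have hF'm : Measurable F' := by
    refine ContinuousOn.measurable_piecewise ?_ continuousOn_const hio.measurableSet
    exact hF.continuousOn.mono (interior_subset.trans hLΩ)
  have hae : ∀ᵐ τ : Cn n, ∀ᵐ z : Cn n, F' z + τ ∉ N := by
    have hmeas : MeasurableSet {x : Cn n × Cn n | F' x.1 + x.2 ∉ N} := by
      have : Measurable fun x : Cn n × Cn n => F' x.1 + x.2 :=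
        (hF'm.comp measurable_fst).add measurable_snd
      exact this hNm.compl
    rw [← Measure.ae_ae_comm (μ := (volume : Measure (Cn n))) (ν := (volume : Measure (Cn n)))
      (p := fun z τ => F' z + τ ∉ N) hmeas]
    refine Filter.Eventually.of_forall fun z => ?_
    rw [ae_iff]
    simp only [not_not]
    have : {τ : Cn n | F' z + τ ∈ N} = (fun τ => F' z + τ) ⁻¹' N := rfl
    rw [this, measure_preimage_add]
    exact hN0
  have hdense := Measure.dense_of_ae hae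
  have hseq : ∀ k : ℕ, ∃ τ : Cn n, (∀ᵐ z : Cn n, F' z + τ ∉ N) ∧ ‖τ‖ < min δ (1 / (k + 1)) := by
    intro k
    have hpos : 0 < min δ (1 / ((k : ℝ) + 1)) := lt_min hδ (by positivity)
    obtain ⟨τ, hτ1, hτ2⟩ := hdense.exists_mem_open isOpen_ball
      ⟨(0 : Cn n), mem_ball_self hpos⟩
    exact ⟨τ, hτ1, by simpa using hτ2⟩
  choose τ hτ1 hτ2 using hseq
  have hτδ : ∀ k, ‖τ k‖ ≤ δ := fun k => ((hτ2 k).trans_le (min_le_left _ _)).le
  have hτ0 : ∀ k : ℕ, ‖τ k‖ < 1 / ((k : ℝ) + 1) := fun k => (hτ2 k).trans_le (min_le_right _ _)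
  have hLi : interior L ⊆ Ω' := interior_subset.trans hLΩ
  have hmap : ∀ k, MapsTo (fun z => F z + τ k) (interior L) Ω := fun k z hz =>
    hδΩ (hin (τ k) (hτδ k) z (interior_subset hz))
  have hFk : ∀ k, DifferentiableOn ℂ (fun z => F z + τ k) (interior L) := fun k =>
    (hF.mono hLi).add (differentiableOn_const _)
  have hC : ∀ k, C11 (interior L) (fun z => u (F z + τ k)) := fun k =>
    c11_comp hΩ hio hu (hFk k) (hmap k)
  have hSub : ∀ k, SubOn (interior L) (fun z => u (F z + τ k)) := by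
    intro k
    refine (c11_sub_iff hio (hC k)).mpr ?_
    filter_upwards [hτ1 k] with z hz hzL
    have hzF : F' z = F z := by
      rw [hF']
      exact Set.piecewise_eq_of_mem _ _ _ hzL
    have hgood : TwD u (F z + τ k) ∧ (LM u (F z + τ k)).PosSemidef := by
      by_contra hcon
      apply hz
      rw [hzF]
      refine subset_toMeasurable _ _ ?_
      exact fun h => hcon (h (hmap k hzL))
    have hcd : ContDiffAt ℂ 2 (fun z => F z + τ k) z :=
      contDiffAt_infty.mp ((hol_contDiffOn hio (hFk k)).contDiffAt (hio.mem_nhds hzL)) 2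
    have h3 := LM_comp hcd hgood.1
    rw [h3.2]
    exact hgood.2.mul_mul_conjTranspose_same _
  have hlim : SubOn (interior L) (fun z => u (F z)) := by
    refine sub_of_tendsto (fun k z => u (F z + τ k)) hSub (fun k => (hC k).continuousOn) ?_
    intro M hM hMc
    have huc : UniformContinuousOn u T :=
      hTc.uniformContinuousOn_of_continuous (hu.continuousOn.mono hδΩ)
    rw [Metric.tendstoUniformlyOn_iff]
    intro ε hε
    obtain ⟨δ', hδ', huni⟩ := Metric.uniformContinuousOn_iff.mp huc ε hε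
    obtain ⟨k0, hk0⟩ := exists_nat_one_div_lt hδ'
    filter_upwards [Filter.eventually_ge_atTop k0] with k hk z hz
    have hzL : z ∈ L := interior_subset (hM hz)
    refine huni (F z) ?_ (F z + τ k) (hin (τ k) (hτδ k) z hzL) ?_
    · simpa using hin 0 (by simpa using hδ.le) z hzL
    · rw [dist_eq_norm]
      have h1 : (1 : ℝ) / (k + 1) ≤ 1 / (k0 + 1) := by
        refine one_div_le_one_div_of_le (by positivity) ?_
        have : (k0 : ℝ) ≤ k := by exact_mod_cast hk
        linarith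
      have h2 : ‖F z - (F z + τ k)‖ = ‖τ k‖ := by
        rw [sub_add_cancel_left, norm_neg]
      rw [h2]
      linarith [hτ0 k]
  refine hlim a b fun ζ hζ => hDL ⟨ζ, by simpa using hζ, rfl⟩

end HMA
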