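import Pool.Agent.H85.KM.HFun1
import Pool.Agent.H85.KM.SubComp

/-! # Module HFun2: powers of the coordinates -/

open MeasureTheory Metric Set
open scoped ENNReal Topology ContDiff ComplexOrder

namespace HMA

/-- the map `(z_i) ↦ (z_i ^ (a i))` -/
noncomputable def pw {n : ℕ} (a : Fin n → ℕ) (z : Cn n) : Cn n :=
  WithLp.toLp 2 (fun i => z i ^ a i)

theorem pw_diff {n : ℕ} (a : Fin n → ℕ) : Differentiable ℂ (pw (n := n) a) := by
  rw [differentiable_euclidean]
  intro i
  exact ((EuclideanSpace.proj i : EuclideanSpace ℂ (Fin n) →L[ℂ] ℂ).differentiable).pow (a i)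

/-- the number of the sector of a complex number, `a` sectors -/
noncomputable def hfun2_sec (a : ℕ) (ζ : ℂ) : ℕ :=
  ⌈(Complex.arg ζ + Real.pi) * a / (2 * Real.pi)⌉₊

theorem hfun2_sec_bd {a : ℕ} (ha : 1 ≤ a) (ζ : ℂ) :
    1 ≤ hfun2_sec a ζ ∧ hfun2_sec a ζ ≤ a := by
  have hpi := Real.pi_pos
  have h1 : -Real.pi < Complex.arg ζ := Complex.neg_pi_lt_arg ζ
  have h2 : Complex.arg ζ ≤ Real.pi := Complex.arg_le_pi ζ
  have ha' : (0 : ℝ) < a := by exact_mod_cast ha
  unfold hfun2_sec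
  constructor
  · rw [Nat.one_le_ceil_iff]
    have h3 : 0 < Complex.arg ζ + Real.pi := by linarith
    positivity
  · rw [Nat.ceil_le, div_le_iff₀ (by positivity)]
    have h3 : Complex.arg ζ + Real.pi ≤ 2 * Real.pi := by linarith
    calc (Complex.arg ζ + Real.pi) * a ≤ 2 * Real.pi * a :=
          mul_le_mul_of_nonneg_right h3 ha'.le
      _ = a * (2 * Real.pi) := by ring

theorem hfun2_ceil {x y : ℝ} (hx : 0 ≤ x) (hy : 0 ≤ y) (h : ⌈x⌉₊ = ⌈y⌉₊) : |x - y| < 1 := by
  have h1 := Nat.le_ceil x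
  have h2 := Nat.le_ceil y
  have h3 := Nat.ceil_lt_add_one hx
  have h4 := Nat.ceil_lt_add_one hy
  rw [h] at h1 h3
  rw [abs_lt]
  constructor <;> linarith

theorem hfun2_inj {a : ℕ} (ha : 1 ≤ a) {z w : ℂ} (h : z ^ a = w ^ a)
    (hs : hfun2_sec a z = hfun2_sec a w) : z = w := by
  have hpi := Real.pi_pos
  have ha' : (0 : ℝ) < a := by exact_mod_cast ha
  have ha0 : a ≠ 0 := by omega
  by_cases hz : z = 0
  · rw [hz, zero_pow ha0] at h
    rw [hz, pow_eq_zero_iff ha0 |>.1 h.symm]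
  have hw : w ≠ 0 := by
    rintro rfl
    rw [zero_pow ha0] at h
    exact hz ((pow_eq_zero_iff ha0).1 h)
  have hnorm : ‖z‖ = ‖w‖ := by
    have h1 : ‖z‖ ^ a = ‖w‖ ^ a := by rw [← norm_pow, ← norm_pow, h]
    exact (pow_left_inj₀ (norm_nonneg _) (norm_nonneg _) ha0).1 h1
  refine Complex.ext_norm_arg hnorm ?_
  -- the arguments
  have h2 : z ^ a = (‖z‖ : ℂ) ^ a * Complex.exp ((a : ℂ) * (Complex.arg z * Complex.I)) := by
    conv_lhs => rw [← Complex.norm_mul_exp_arg_mul_I z]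
    rw [mul_pow, ← Complex.exp_nat_mul]
  have h3 : w ^ a = (‖w‖ : ℂ) ^ a * Complex.exp ((a : ℂ) * (Complex.arg w * Complex.I)) := by
    conv_lhs => rw [← Complex.norm_mul_exp_arg_mul_I w]
    rw [mul_pow, ← Complex.exp_nat_mul]
  have hn0 : (‖w‖ : ℂ) ^ a ≠ 0 := by
    refine pow_ne_zero _ ?_
    exact_mod_cast (norm_pos_iff.2 hw).ne'
  have h4 : Complex.exp ((a : ℂ) * (Complex.arg z * Complex.I)) =
      Complex.exp ((a : ℂ) * (Complex.arg w * Complex.I)) := by
    rw [h2, h3, hnorm] at h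
    exact mul_left_cancel₀ hn0 h
  obtain ⟨m, hm⟩ := Complex.exp_eq_exp_iff_exists_int.1 h4
  have h5 : (a : ℝ) * (Complex.arg z - Complex.arg w) = m * (2 * Real.pi) := by
    have h6 : (((a : ℝ) * (Complex.arg z - Complex.arg w) : ℝ) : ℂ) * Complex.I =
        ((m * (2 * Real.pi) : ℝ) : ℂ) * Complex.I := by
      push_cast
      linear_combination hm
    have h7 := mul_right_cancel₀ Complex.I_ne_zero h6
    exact_mod_cast h7
  have h8 := hfun2_ceil (x := (Complex.arg z + Real.pi) * a / (2 * Real.pi))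
    (y := (Complex.arg w + Real.pi) * a / (2 * Real.pi))
    (div_nonneg (mul_nonneg (by linarith [Complex.neg_pi_lt_arg z]) ha'.le) (by positivity))
    (div_nonneg (mul_nonneg (by linarith [Complex.neg_pi_lt_arg w]) ha'.le) (by positivity)) hs
  have h9 : (Complex.arg z + Real.pi) * a / (2 * Real.pi) -
      (Complex.arg w + Real.pi) * a / (2 * Real.pi) = m := by
    rw [← sub_div, div_eq_iff (by positivity)]
    linarith
  rw [h9] at h8
  have h10 : m = 0 := by
    have h11 : |m| < 1 := by exact_mod_cast h8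
    exact Int.abs_lt_one_iff.1 h11
  rw [h10] at h5
  simp only [Int.cast_zero, zero_mul] at h5
  rcases mul_eq_zero.1 h5 with h12 | h12
  · exact absurd h12 ha'.ne'
  · linarith

/-- the integral over the polydisc of a pull back, multiplicity `∏ a i` -/
theorem lintegral_pw {n : ℕ} (a : Fin n → ℕ) (ha : ∀ i, 1 ≤ a i) (g : Cn n → ℝ≥0∞)
    (hg : Measurable g) :
    ∫⁻ z in pdisc n, ENNReal.ofReal (‖(jac (pw a) z).det‖ ^ 2) * g (pw a z) ≤
      (∏ i, (a i : ℝ≥0∞)) * ∫⁻ z, g z := by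
  let E : (∀ i, Fin (a i)) → Set (Cn n) := fun k =>
    {z | ∀ i, hfun2_sec (a i) (z i) = (k i : ℕ) + 1} ∩ pdisc n
  have hpd : MeasurableSet (pdisc n) := by
    have h1 : pdisc n = ⋂ i, {ζ : Cn n | ‖ζ i‖ < 1} := by
      ext ζ
      simp [pdisc]
    rw [h1]
    refine MeasurableSet.iInter (fun i => ?_)
    refine (isOpen_lt ?_ continuous_const).measurableSet
    exact ((EuclideanSpace.proj i : EuclideanSpace ℂ (Fin n) →L[ℂ] ℂ).continuous).norm
  have hE : ∀ k, MeasurableSet (E k) := by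
    intro k
    refine MeasurableSet.inter ?_ hpd
    have h1 : {z : Cn n | ∀ i, hfun2_sec (a i) (z i) = (k i : ℕ) + 1} =
        ⋂ i, {z : Cn n | hfun2_sec (a i) (z i) = (k i : ℕ) + 1} := by
      ext z
      simp
    rw [h1]
    refine MeasurableSet.iInter (fun i => ?_)
    have h2 : Measurable (fun z : Cn n => hfun2_sec (a i) (z i)) := by
      unfold hfun2_sec
      refine Nat.measurable_ceil.comp ?_
      have h3 : Measurable (fun z : Cn n => z i) :=
        ((EuclideanSpace.proj i : EuclideanSpace ℂ (Fin n) →L[ℂ] ℂ).continuous).measurable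
      exact (((Complex.measurable_arg.comp h3).add_const _).mul_const _).div_const _
    exact h2 (measurableSet_singleton _)
  have hcov : pdisc n ⊆ ⋃ k, E k := by
    intro z hz
    rw [mem_iUnion]
    refine ⟨fun i => ⟨hfun2_sec (a i) (z i) - 1, ?_⟩, fun i => ?_, hz⟩
    · have h1 := hfun2_sec_bd (ha i) (z i)
      omega
    · have h1 := hfun2_sec_bd (ha i) (z i)
      show hfun2_sec (a i) (z i) = hfun2_sec (a i) (z i) - 1 + 1
      omega
  have hpiece : ∀ k, ∫⁻ z in E k, ENNReal.ofReal (‖(jac (pw a) z).det‖ ^ 2) * g (pw a z) ≤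
      ∫⁻ z, g z := by
    intro k
    have h1 : InjOn (pw a) (E k) := by
      intro z hz w hw hzw
      have h2 : ∀ i, z i = w i := by
        intro i
        refine hfun2_inj (ha i) ?_ ((hz.1 i).trans (hw.1 i).symm)
        have h3 := congrArg (fun x : Cn n => x i) hzw
        exact h3
      ext i
      exact h2 i
    rw [← lintegral_hol isOpen_univ (pw_diff a).differentiableOn (hE k) (subset_univ _) h1 g]
    exact setLIntegral_le_lintegral _ _
  calc ∫⁻ z in pdisc n, ENNReal.ofReal (‖(jac (pw a) z).det‖ ^ 2) * g (pw a z) ≤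
        ∫⁻ z in ⋃ k, E k, ENNReal.ofReal (‖(jac (pw a) z).det‖ ^ 2) * g (pw a z) :=
        lintegral_mono_set hcov
    _ ≤ ∑' k, ∫⁻ z in E k, ENNReal.ofReal (‖(jac (pw a) z).det‖ ^ 2) * g (pw a z) :=
        lintegral_iUnion_le _ _
    _ = ∑ k, ∫⁻ z in E k, ENNReal.ofReal (‖(jac (pw a) z).det‖ ^ 2) * g (pw a z) :=
        tsum_fintype _
    _ ≤ ∑ _k : (∀ i, Fin (a i)), ∫⁻ z, g z := Finset.sum_le_sum (fun k _ => hpiece k)
    _ = (∏ i, (a i : ℝ≥0∞)) * ∫⁻ z, g z := by
        rw [Finset.sum_const, Finset.card_univ, Fintype.card_pi, nsmul_eq_mul]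
        congr 1
        push_cast
        refine Finset.prod_congr rfl (fun i _ => ?_)
        rw [Fintype.card_fin]

end HMA
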