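import Pool.Agent.H85.KM.Piola
import Pool.Agent.H85.KM.C11M

/-! # Module IBP11: integration by parts for `C^{1,1}` functions -/

open MeasureTheory Metric Set
open scoped ENNReal Topology ContDiff ComplexOrder

namespace HMA

/-- smooth cut off functions -/
theorem IBP11_cut {n : ℕ} {Ω L : Set (Cn n)} (hΩ : IsOpen Ω) (hL : IsCompact L) (hLΩ : L ⊆ Ω) :
    ∃ χ : Cn n → ℝ, ContDiff ℝ ∞ χ ∧ HasCompactSupport χ ∧ tsupport χ ⊆ Ω ∧
      ∃ V : Set (Cn n), IsOpen V ∧ L ⊆ V ∧ ∀ z ∈ V, χ z = 1 := by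
  obtain ⟨K1, hK1, hL1, hK1Ω⟩ := exists_compact_between hL hΩ hLΩ
  obtain ⟨K2, hK2, h12, hK2Ω⟩ := exists_compact_between hK1 hΩ hK1Ω
  obtain ⟨χ, h0, h1, -⟩ := exists_contMDiffMap_zero_one_of_isClosed (n := (⊤ : ℕ∞))
    (modelWithCornersSelf ℝ (Cn n)) (s := (interior K2)ᶜ) (t := K1)
    isOpen_interior.isClosed_compl hK1.isClosed
    (by rw [Set.disjoint_left]; intro z hz hz'; exact hz (h12 hz'))
  have hsub : tsupport χ ⊆ K2 := by
    apply closure_minimal _ hK2.isClosed
    intro z hz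
    by_contra hzK
    exact hz (h0 (fun h => hzK (interior_subset h)))
  refine ⟨χ, χ.contMDiff.contDiff, ?_, hsub.trans hK2Ω, interior K1, isOpen_interior, hL1,
    fun z hz => h1 (interior_subset hz)⟩
  exact hK2.of_isClosed_subset (isClosed_tsupport _) hsub

/-- the Levi matrix as a function of the second derivative -/
noncomputable def IBP11_LH {n : ℕ} (A : Cn n →L[ℝ] Cn n →L[ℝ] ℝ) : Matrix (Fin n) (Fin n) ℂ :=
  fun j k =>
    (((A (bv n j) (bv n k) +
        A (Complex.I • bv n j) (Complex.I • bv n k) : ℝ) : ℂ) +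
      Complex.I * ((A (bv n j) (Complex.I • bv n k) -
        A (Complex.I • bv n j) (bv n k) : ℝ) : ℂ)) / 4

theorem IBP11_LH_cont {n : ℕ} : Continuous (IBP11_LH (n := n)) := by
  refine continuous_pi fun j => continuous_pi fun k => ?_
  unfold IBP11_LH
  have h : ∀ a b : Cn n, Continuous fun A : Cn n →L[ℝ] Cn n →L[ℝ] ℝ => A a b := fun a b => by
    fun_prop
  have h1 := h (bv n j) (bv n k)
  have h2 := h (Complex.I • bv n j) (Complex.I • bv n k)
  have h3 := h (bv n j) (Complex.I • bv n k)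
  have h4 := h (Complex.I • bv n j) (bv n k)
  exact ((Complex.continuous_ofReal.comp (h1.add h2)).add
    (continuous_const.mul (Complex.continuous_ofReal.comp (h3.sub h4)))).div_const 4

theorem IBP11_mal_cont {n : ℕ} : Continuous fun p : (Cn n →L[ℝ] Cn n →L[ℝ] ℝ) ×
    (Cn n →L[ℝ] Cn n →L[ℝ] ℝ) => (((IBP11_LH p.1).adjugate * IBP11_LH p.2).trace).re := by
  apply Complex.continuous_re.comp
  apply Continuous.matrix_trace
  exact ((IBP11_LH_cont.comp continuous_fst).matrix_adjugate).matrix_mul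
    (IBP11_LH_cont.comp continuous_snd)

theorem IBP11_mal_tendsto {n : ℕ} {U W : ℕ → Cn n → ℝ} {u w : Cn n → ℝ} {z : Cn n}
    (hu : Filter.Tendsto (fun k => hes (U k) z) Filter.atTop (𝓝 (hes u z)))
    (hw : Filter.Tendsto (fun k => hes (W k) z) Filter.atTop (𝓝 (hes w z))) :
    Filter.Tendsto (fun k => mal (U k) (W k) z) Filter.atTop (𝓝 (mal u w z)) := by
  have := (IBP11_mal_cont.tendsto (hes u z, hes w z)).comp (hu.prodMk_nhds hw)
  exact this

theorem IBP11_bdd {n : ℕ} {v : Cn n → ℝ} (hv : C11 univ v) (hc : HasCompactSupport v) :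
    ∃ C : ℝ, 0 ≤ C ∧ ∀ z, |v z| ≤ C := by
  have h1 : Continuous v := continuousOn_univ.1 hv.continuousOn
  obtain ⟨C, hC⟩ := hc.exists_bound_of_continuous h1
  exact ⟨|C|, abs_nonneg _, fun z => (hC z).trans (le_abs_self _)⟩

theorem IBP11_supp {n : ℕ} {v : Cn n → ℝ} (hc : HasCompactSupport v) :
    ∃ R : ℝ, ∀ z, R < ‖z‖ → v z = 0 := by
  obtain ⟨R, hR⟩ := hc.isCompact.isBounded.subset_closedBall 0
  refine ⟨R, fun z hz => ?_⟩
  apply image_eq_zero_of_notMem_tsupport
  intro h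
  have := hR h
  rw [mem_closedBall, dist_zero_right] at this
  linarith

theorem IBP11_int {n : ℕ} {u v w : Cn n → ℝ} (hu : C11 univ u) (hv : C11 univ v)
    (hw : C11 univ w) (hcv : HasCompactSupport v) :
    Integrable (fun z => v z * mal u w z) := by
  obtain ⟨Cv, hCv, hv1⟩ := IBP11_bdd hv hcv
  obtain ⟨R, hR⟩ := IBP11_supp hcv
  obtain ⟨C1, hC1, h1⟩ := hu.hes_bdd isOpen_univ (isCompact_closedBall (0 : Cn n) R)
    (subset_univ _)
  obtain ⟨C2, hC2, h2⟩ := hw.hes_bdd isOpen_univ (isCompact_closedBall (0 : Cn n) R)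
    (subset_univ _)
  obtain ⟨B, hB, h3⟩ := mad_bdd n (max C1 C2)
  have hint : Integrable ((closedBall (0 : Cn n) R).indicator fun _ => Cv * B) := by
    rw [integrable_indicator_iff measurableSet_closedBall]
    exact integrableOn_const (measure_closedBall_lt_top.ne) enorm_ne_top
  refine hint.mono' ?_ (Filter.Eventually.of_forall fun z => ?_)
  · exact ((continuousOn_univ.1 hv.continuousOn).measurable.mul
      (measurable_mal u w)).aestronglyMeasurable
  · by_cases hz : z ∈ closedBall (0 : Cn n) R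
    · rw [indicator_of_mem hz, Real.norm_eq_abs, abs_mul]
      exact mul_le_mul (hv1 z) (h3 u w z ((h1 z hz).trans (le_max_left _ _))
        ((h2 z hz).trans (le_max_right _ _))).2 (abs_nonneg _) hCv
    · rw [indicator_of_notMem hz]
      have : v z = 0 := hR z (by
        rw [mem_closedBall, dist_zero_right, not_le] at hz
        exact hz)
      rw [this]; simp

/-- the dominated convergence step -/
theorem IBP11_lim {n : ℕ} {u v w : Cn n → ℝ} {U V W : ℕ → Cn n → ℝ} (hv : C11 univ v)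
    (hcv : HasCompactSupport v)
    (hV1 : ∀ k, ContDiff ℝ ∞ (V k)) (hV2 : ∃ R : ℝ, ∀ k z, R < ‖z‖ → V k z = 0)
    (hV3 : ∀ ε > 0, ∃ k₀ : ℕ, ∀ k ≥ k₀, ∀ z, |V k z - v z| ≤ ε)
    (hU4 : ∃ C : ℝ, ∀ k z, ‖hes (U k) z‖ ≤ C)
    (hU5 : ∀ᵐ z, Filter.Tendsto (fun k => hes (U k) z) Filter.atTop (𝓝 (hes u z)))
    (hW4 : ∃ C : ℝ, ∀ k z, ‖hes (W k) z‖ ≤ C)
    (hW5 : ∀ᵐ z, Filter.Tendsto (fun k => hes (W k) z) Filter.atTop (𝓝 (hes w z))) :
    Filter.Tendsto (fun k => ∫ z, V k z * mal (U k) (W k) z) Filter.atTop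
      (𝓝 (∫ z, v z * mal u w z)) := by
  obtain ⟨Cv, hCv, hv1⟩ := IBP11_bdd hv hcv
  obtain ⟨R, hR⟩ := hV2
  obtain ⟨C1, h1⟩ := hU4
  obtain ⟨C2, h2⟩ := hW4
  obtain ⟨B, hB, h3⟩ := mad_bdd n (max C1 C2)
  have hint : Integrable ((closedBall (0 : Cn n) R).indicator fun _ => (Cv + 1) * B) := by
    rw [integrable_indicator_iff measurableSet_closedBall]
    exact integrableOn_const (measure_closedBall_lt_top.ne) enorm_ne_top
  obtain ⟨k₀, hk₀⟩ := hV3 1 one_pos
  refine tendsto_integral_filter_of_dominated_convergence _ ?_ ?_ hint ?_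
  · exact Filter.Eventually.of_forall fun k => ((hV1 k).continuous.measurable.mul
      (measurable_mal (U k) (W k))).aestronglyMeasurable
  · filter_upwards [Filter.eventually_ge_atTop k₀] with k hk
    refine Filter.Eventually.of_forall fun z => ?_
    by_cases hz : z ∈ closedBall (0 : Cn n) R
    · rw [indicator_of_mem hz, Real.norm_eq_abs, abs_mul]
      refine mul_le_mul ?_ (h3 (U k) (W k) z ((h1 k z).trans (le_max_left _ _))
        ((h2 k z).trans (le_max_right _ _))).2 (abs_nonneg _) (by linarith)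
      have e1 := hk₀ k hk z
      have e2 := hv1 z
      have e3 : |V k z| ≤ |V k z - v z| + |v z| := by
        have := abs_add_le (V k z - v z) (v z)
        simpa using this
      linarith
    · rw [indicator_of_notMem hz]
      have : V k z = 0 := hR k z (by
        rw [mem_closedBall, dist_zero_right, not_le] at hz
        exact hz)
      rw [this]; simp
  · filter_upwards [hU5, hW5] with z hz1 hz2
    refine Filter.Tendsto.mul ?_ (IBP11_mal_tendsto hz1 hz2)
    rw [Metric.tendsto_atTop]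
    intro ε hε
    obtain ⟨k₁, hk₁⟩ := hV3 (ε / 2) (by positivity)
    refine ⟨k₁, fun k hk => ?_⟩
    rw [Real.dist_eq]
    have := hk₁ k hk z
    linarith

/-- the global version -/
theorem IBP11_glob {n : ℕ} {u v w : Cn n → ℝ} (hu : C11 univ u) (hv : C11 univ v)
    (hw : C11 univ w) (hcu : HasCompactSupport u) (hcv : HasCompactSupport v)
    (hcw : HasCompactSupport w) :
    ∫ z, v z * mal u w z = ∫ z, w z * mal u v z := by
  obtain ⟨U, hU1, hU2, hU3, hU4, hU5⟩ := c11_moll hu hcu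
  obtain ⟨V, hV1, hV2, hV3, hV4, hV5⟩ := c11_moll hv hcv
  obtain ⟨W, hW1, hW2, hW3, hW4, hW5⟩ := c11_moll hw hcw
  have l1 := IBP11_lim hv hcv (fun k => (hV1 k).1) hV2 hV3 hU4 hU5 hW4 hW5
  have l2 := IBP11_lim hw hcw (fun k => (hW1 k).1) hW2 hW3 hU4 hU5 hV4 hV5
  have l3 : (fun k => ∫ z, V k z * mal (U k) (W k) z) =
      fun k => ∫ z, W k z * mal (U k) (V k) z := by
    funext k
    exact ibp_mal (hU1 k).1 (hV1 k).1 (hW1 k).1 (hV1 k).2
  rw [l3] at l1
  exact tendsto_nhds_unique l1 l2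

theorem ibp11 {n : ℕ} {Ω : Set (Cn n)} (hΩ : IsOpen Ω) {u v w : Cn n → ℝ} (hu : C11 Ω u)
    (hv : C11 Ω v) (hw : C11 Ω w) {L : Set (Cn n)} (hL : IsCompact L) (hLΩ : L ⊆ Ω)
    (h0 : ∀ z, z ∉ L → v z = 0) :
    IntegrableOn (fun z => v z * mal u w z) Ω ∧ IntegrableOn (fun z => w z * mal u v z) Ω ∧
      ∫ z in Ω, v z * mal u w z = ∫ z in Ω, w z * mal u v z := by
  obtain ⟨χ, hχ, hχc, hχs, V, hVo, hLV, hV1⟩ := IBP11_cut hΩ hL hLΩ
  have hχ2 : ContDiff ℝ 2 χ := hχ.of_le (WithTop.coe_le_coe.2 (le_top (a := (2 : ℕ∞))))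
  set u' : Cn n → ℝ := fun z => χ z * u z with hu'
  set v' : Cn n → ℝ := fun z => χ z * v z with hv'
  set w' : Cn n → ℝ := fun z => χ z * w z with hw'
  have cu : C11 univ u' := hu.cutoff hΩ hχ2 hχc hχs
  have cv : C11 univ v' := hv.cutoff hΩ hχ2 hχc hχs
  have cw : C11 univ w' := hw.cutoff hΩ hχ2 hχc hχs
  have su : HasCompactSupport u' := hχc.mul_right
  have sv : HasCompactSupport v' := hχc.mul_right
  have sw : HasCompactSupport w' := hχc.mul_right
  have eu : ∀ z ∈ L, LM u' z = LM u z := by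
    intro z hz
    apply LM_congr
    filter_upwards [hVo.mem_nhds (hLV hz)] with y hy
    simp [hu', hV1 y hy]
  have ev : ∀ z ∈ L, LM v' z = LM v z := by
    intro z hz
    apply LM_congr
    filter_upwards [hVo.mem_nhds (hLV hz)] with y hy
    simp [hv', hV1 y hy]
  have ew : ∀ z ∈ L, LM w' z = LM w z := by
    intro z hz
    apply LM_congr
    filter_upwards [hVo.mem_nhds (hLV hz)] with y hy
    simp [hw', hV1 y hy]
  have zv : ∀ z, z ∉ L → LM v z = 0 := by
    intro z hz
    rw [← LM_const 0 z]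
    apply LM_congr
    filter_upwards [hL.isClosed.isOpen_compl.mem_nhds hz] with y hy
    exact h0 y hy
  have zv' : ∀ z, z ∉ L → LM v' z = 0 := by
    intro z hz
    rw [← LM_const 0 z]
    apply LM_congr
    filter_upwards [hL.isClosed.isOpen_compl.mem_nhds hz] with y hy
    simp [hv', h0 y hy]
  have f1 : ∀ z, v z * mal u w z = v' z * mal u' w' z := by
    intro z
    by_cases hz : z ∈ L
    · have : v' z = v z := by simp [hv', hV1 z (hLV hz)]
      rw [this, mal, mal, eu z hz, ew z hz]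
    · have : v' z = 0 := by simp [hv', h0 z hz]
      rw [this, h0 z hz]; simp
  have f2 : ∀ z, w z * mal u v z = w' z * mal u' v' z := by
    intro z
    by_cases hz : z ∈ L
    · have : w' z = w z := by simp [hw', hV1 z (hLV hz)]
      rw [this, mal, mal, eu z hz, ev z hz]
    · rw [mal, mal, zv z hz, zv' z hz]; simp
  have i1 := IBP11_int cu cv cw sv
  have i2 := IBP11_int cu cw cv sw
  have g1 : ∀ z, z ∉ Ω → v z * mal u w z = 0 := by
    intro z hz
    rw [h0 z (fun h => hz (hLΩ h))]; simp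
  have g2 : ∀ z, z ∉ Ω → w z * mal u v z = 0 := by
    intro z hz
    rw [mal, zv z (fun h => hz (hLΩ h))]; simp
  have j1 : Integrable (fun z => v z * mal u w z) := by
    simpa only [f1] using i1
  have j2 : Integrable (fun z => w z * mal u v z) := by
    simpa only [f2] using i2
  refine ⟨j1.integrableOn, j2.integrableOn, ?_⟩
  rw [setIntegral_eq_integral_of_forall_compl_eq_zero g1,
    setIntegral_eq_integral_of_forall_compl_eq_zero g2]
  simp only [f1, f2]
  exact IBP11_glob cu cv cw su sv sw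

end HMA
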