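import Pool.Agent.H85.KM.C11B

/-! # Module Piola: integration by parts for smooth functions -/

open MeasureTheory Metric Set
open scoped ENNReal Topology ContDiff ComplexOrder

namespace HMA

variable {n : ℕ}

theorem Piola_dd_dd_comm {f : Cn n → ℂ} (hf : ContDiff ℝ ∞ f) (j k : Fin n) (z : Cn n) :
    dd j (dd k f) z = dd k (dd j f) z := by
  rw [Dbar1_dd_eq j (dd k f), Dbar1_dd_eq k (dd j f), Dbar1_dd_eq k f, Dbar1_dd_eq j f]
  simp only [Dbar1_fderiv_comb hf]
  rw [Dbar1_symm hf z (bv n j) (bv n k), Dbar1_symm hf z (bv n j) (Complex.I • bv n k),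
    Dbar1_symm hf z (Complex.I • bv n j) (bv n k),
    Dbar1_symm hf z (Complex.I • bv n j) (Complex.I • bv n k)]
  ring

/-- first order differential operators -/
structure PiolaOp (D : (Cn n → ℂ) → Cn n → ℂ) : Prop where
  const : ∀ (c : ℂ) (z : Cn n), D (fun _ => c) z = 0
  add : ∀ f g, ContDiff ℝ ∞ f → ContDiff ℝ ∞ g → ∀ z, D (fun z => f z + g z) z = D f z + D g z
  mul : ∀ f g, ContDiff ℝ ∞ f → ContDiff ℝ ∞ g → ∀ z,
    D (fun z => f z * g z) z = D f z * g z + f z * D g z

theorem PiolaOp_dd (j : Fin n) : PiolaOp (dd (n := n) j) where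
  const c z := by simp [dd]
  add f g hf hg z := dd_add hf hg j z
  mul f g hf hg z := dd_mul hf hg j z

theorem PiolaOp_db (j : Fin n) : PiolaOp (db (n := n) j) where
  const c z := by simp [db]
  add f g hf hg z := db_add hf hg j z
  mul f g hf hg z := db_mul hf hg j z

theorem PiolaOp.sum {D : (Cn n → ℂ) → Cn n → ℂ} (hD : PiolaOp D) {ι : Type*} (s : Finset ι)
    (f : ι → Cn n → ℂ) (hf : ∀ i, ContDiff ℝ ∞ (f i)) (z : Cn n) :
    D (fun z => ∑ i ∈ s, f i z) z = ∑ i ∈ s, D (f i) z := by
  classical
  induction s using Finset.induction_on with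
  | empty => simpa using hD.const 0 z
  | insert a s ha ih =>
    simp only [Finset.sum_insert ha]
    rw [hD.add _ _ (hf a) (ContDiff.sum fun i _ => hf i), ih]

theorem PiolaOp.prod {D : (Cn n → ℂ) → Cn n → ℂ} (hD : PiolaOp D) {ι : Type*} [DecidableEq ι]
    (s : Finset ι) (f : ι → Cn n → ℂ) (hf : ∀ i, ContDiff ℝ ∞ (f i)) (z : Cn n) :
    D (fun z => ∏ i ∈ s, f i z) z = ∑ i ∈ s, D (f i) z * ∏ j ∈ s.erase i, f j z := by
  induction s using Finset.induction_on with
  | empty => simpa using hD.const 1 z
  | insert a s ha ih =>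
    simp only [Finset.prod_insert ha, Finset.sum_insert ha, Finset.erase_insert ha]
    rw [hD.mul _ _ (hf a) (contDiff_prod fun i _ => hf i), ih]
    congr 1
    rw [Finset.mul_sum]
    apply Finset.sum_congr rfl
    intro i hi
    have hia : a ≠ i := fun h => ha (h ▸ hi)
    rw [Finset.erase_insert_of_ne hia, Finset.prod_insert (by simp [ha])]
    ring

/-- the entries of the adjugate as sums over permutations -/
theorem Piola_adj (M : Matrix (Fin n) (Fin n) ℂ) (k j : Fin n) :
    M.adjugate k j = ∑ σ : Equiv.Perm (Fin n), if σ k = j then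
      ((Equiv.Perm.sign σ : ℤ) : ℂ) * ∏ i ∈ Finset.univ.erase k, M (σ i) i else 0 := by
  rw [Matrix.adjugate_apply, Matrix.det_apply']
  apply Finset.sum_congr rfl
  intro σ _
  rw [← Finset.mul_prod_erase Finset.univ _ (Finset.mem_univ k)]
  by_cases h : σ k = j
  · rw [if_pos h]
    have h1 : (M.updateRow j (Pi.single k 1)) (σ k) k = 1 := by
      rw [h, Matrix.updateRow_self]; simp
    rw [h1, one_mul]
    congr 1
    apply Finset.prod_congr rfl
    intro i hi
    have hi' : i ≠ k := Finset.ne_of_mem_erase hi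
    rw [Matrix.updateRow_ne]
    intro h2
    exact hi' (σ.injective (h2.trans h.symm))
  · rw [if_neg h]
    have h3 : σ⁻¹ j ≠ k := by
      intro h4
      apply h
      rw [← h4]; simp
    have h5 : ∏ i ∈ Finset.univ.erase k, (M.updateRow j (Pi.single k 1)) (σ i) i = 0 := by
      apply Finset.prod_eq_zero (i := σ⁻¹ j) (by simpa using h3)
      have : σ (σ⁻¹ j) = j := by simp
      rw [this, Matrix.updateRow_self]
      exact Pi.single_eq_of_ne h3 _
    rw [h5]; simp

theorem Piola_adj_smooth {M : Cn n → Matrix (Fin n) (Fin n) ℂ}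
    (hM : ∀ j k, ContDiff ℝ ∞ (fun z => M z j k)) (k j : Fin n) :
    ContDiff ℝ ∞ (fun z => (M z).adjugate k j) := by
  simp only [Piola_adj]
  apply ContDiff.sum
  intro σ _
  by_cases h : σ k = j
  · simp only [if_pos h]
    exact contDiff_const.mul (contDiff_prod fun i _ => hM _ _)
  · simp only [if_neg h]
    exact contDiff_const

/-- the Piola identity -/
theorem Piola_id {D : Fin n → (Cn n → ℂ) → Cn n → ℂ} (hD : ∀ j, PiolaOp (D j))
    {M : Cn n → Matrix (Fin n) (Fin n) ℂ} (hM : ∀ j k, ContDiff ℝ ∞ (fun z => M z j k))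
    (hs : ∀ i j k z, D i (fun z => M z j k) z = D j (fun z => M z i k) z) (k : Fin n) (z : Cn n) :
    ∑ j, D j (fun z => (M z).adjugate k j) z = 0 := by
  have hsm : ∀ (σ : Equiv.Perm (Fin n)), ContDiff ℝ ∞ (fun z =>
      ∏ i ∈ Finset.univ.erase k, M z (σ i) i) := fun σ => contDiff_prod fun i _ => hM _ _
  have h1 : ∀ j, D j (fun z => (M z).adjugate k j) z = ∑ σ : Equiv.Perm (Fin n),
      if σ k = j then ((Equiv.Perm.sign σ : ℤ) : ℂ) *
        D j (fun z => ∏ i ∈ Finset.univ.erase k, M z (σ i) i) z else 0 := by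
    intro j
    simp only [Piola_adj]
    rw [(hD j).sum Finset.univ (fun (σ : Equiv.Perm (Fin n)) z => if σ k = j then
      ((Equiv.Perm.sign σ : ℤ) : ℂ) * ∏ i ∈ Finset.univ.erase k, M z (σ i) i else 0)]
    · apply Finset.sum_congr rfl
      intro σ _
      by_cases h : σ k = j
      · simp only [if_pos h]
        rw [(hD j).mul _ _ contDiff_const (hsm σ), (hD j).const]
        ring
      · simp only [if_neg h]
        exact (hD j).const 0 z
    · intro σ
      by_cases h : σ k = j
      · simp only [if_pos h]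
        exact contDiff_const.mul (hsm σ)
      · simp only [if_neg h]
        exact contDiff_const
  simp only [h1]
  rw [Finset.sum_comm]
  simp only [Finset.sum_ite_eq, Finset.mem_univ, if_true]
  have h2 : ∀ σ : Equiv.Perm (Fin n), ((Equiv.Perm.sign σ : ℤ) : ℂ) *
        D (σ k) (fun z => ∏ i ∈ Finset.univ.erase k, M z (σ i) i) z =
      ∑ l ∈ Finset.univ.erase k, ((Equiv.Perm.sign σ : ℤ) : ℂ) *
        (D (σ k) (fun z => M z (σ l) l) z *
          ∏ i ∈ (Finset.univ.erase k).erase l, M z (σ i) i) := by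
    intro σ
    rw [(hD (σ k)).prod (Finset.univ.erase k) (fun i z => M z (σ i) i) (fun i => hM _ _),
      Finset.mul_sum]
  simp only [h2]
  rw [Finset.sum_comm]
  apply Finset.sum_eq_zero
  intro l hl
  have hlk : l ≠ k := Finset.ne_of_mem_erase hl
  set T : Equiv.Perm (Fin n) → ℂ := fun σ => ((Equiv.Perm.sign σ : ℤ) : ℂ) *
        (D (σ k) (fun z => M z (σ l) l) z *
          ∏ i ∈ (Finset.univ.erase k).erase l, M z (σ i) i) with hT
  have h3 : ∀ σ, T (σ * Equiv.swap k l) = - T σ := by
    intro σ
    simp only [hT]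
    have e1 : (σ * Equiv.swap k l) k = σ l := by simp
    have e2 : (σ * Equiv.swap k l) l = σ k := by simp
    have e3 : ∏ i ∈ (Finset.univ.erase k).erase l, M z ((σ * Equiv.swap k l) i) i =
        ∏ i ∈ (Finset.univ.erase k).erase l, M z (σ i) i := by
      apply Finset.prod_congr rfl
      intro i hi
      have hil : i ≠ l := Finset.ne_of_mem_erase hi
      have hik : i ≠ k := Finset.ne_of_mem_erase (Finset.mem_of_mem_erase hi)
      rw [Equiv.Perm.mul_apply, Equiv.swap_apply_of_ne_of_ne hik hil]
    rw [e1, e2, e3, hs (σ l) (σ k) l z, Equiv.Perm.sign_mul, Equiv.Perm.sign_swap hlk.symm]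
    push_cast
    ring
  have h4 : ∑ σ, T σ = - ∑ σ, T σ := by
    conv_lhs => rw [← Equiv.sum_comp (Equiv.mulRight (Equiv.swap k l)) T]
    rw [← Finset.sum_neg_distrib]
    apply Finset.sum_congr rfl
    intro σ _
    exact h3 σ
  exact self_eq_neg.1 h4

/-- the integrated form of integration by parts, two steps -/
theorem Piola_ibp {A : Fin n → Fin n → Cn n → ℂ} (hA : ∀ k j, ContDiff ℝ ∞ (A k j))
    (h1 : ∀ k z, ∑ j, dd j (A k j) z = 0) (h2 : ∀ j z, ∑ k, db k (A k j) z = 0)
    {V W : Cn n → ℂ} (hV : Tst V) (hW : ContDiff ℝ ∞ W) :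
    ∫ z, V z * ∑ k, ∑ j, A k j z * db k (dd j W) z =
      ∫ z, W z * ∑ k, ∑ j, A k j z * db k (dd j V) z := by
  have int1 : ∀ {f g : Cn n → ℂ}, ContDiff ℝ ∞ f → Tst g → Integrable (fun z => f z * g z) := by
    intro f g hf hg
    exact (hf.continuous.mul hg.smooth.continuous).integrable_of_hasCompactSupport
      hg.supp.mul_left
  have hVA : ∀ k j, Tst (fun z => V z * A k j z) := fun k j => hV.mul_smooth (hA k j)
  have hVA2 : ∀ k j, Tst (fun z => db k V z * A k j z) := fun k j => (hV.db k).mul_smooth (hA k j)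
  -- first step
  have s1 : ∫ z, V z * ∑ k, ∑ j, A k j z * db k (dd j W) z =
      - ∫ z, ∑ k, ∑ j, dd j W z * db k (fun z => V z * A k j z) z := by
    have e1 : (fun z => V z * ∑ k, ∑ j, A k j z * db k (dd j W) z) =
        fun z => ∑ k, ∑ j, db k (dd j W) z * (V z * A k j z) := by
      funext z
      rw [Finset.mul_sum]
      apply Finset.sum_congr rfl
      intro k _
      rw [Finset.mul_sum]
      apply Finset.sum_congr rfl
      intro j _
      ring
    rw [e1, integral_finsetSum, integral_finsetSum, ← Finset.sum_neg_distrib]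
    · apply Finset.sum_congr rfl
      intro k _
      rw [integral_finsetSum, integral_finsetSum, ← Finset.sum_neg_distrib]
      · apply Finset.sum_congr rfl
        intro j _
        exact ibp_db (smooth_dd hW j) (hVA k j) k
      · intro j _
        exact int1 (smooth_dd hW j) ((hVA k j).db k)
      · intro j _
        exact int1 (smooth_db (smooth_dd hW j) k) (hVA k j)
    · intro k _
      exact integrable_finsetSum _ fun j _ => int1 (smooth_dd hW j) ((hVA k j).db k)
    · intro k _
      exact integrable_finsetSum _ fun j _ => int1 (smooth_db (smooth_dd hW j) k) (hVA k j)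
  have s2 : ∀ z, ∑ k, ∑ j, dd j W z * db k (fun z => V z * A k j z) z =
      ∑ k, ∑ j, dd j W z * (db k V z * A k j z) := by
    intro z
    rw [Finset.sum_comm, Finset.sum_comm (f := fun k j => dd j W z * (db k V z * A k j z))]
    apply Finset.sum_congr rfl
    intro j _
    simp only [db_mul hV.smooth (hA _ _)]
    rw [← Finset.mul_sum, ← Finset.mul_sum, Finset.sum_add_distrib, ← Finset.mul_sum (a := V z),
      h2 j z]
    ring
  have s3 : ∫ z, W z * ∑ k, ∑ j, A k j z * db k (dd j V) z =
      ∫ z, ∑ k, ∑ j, W z * dd j (fun z => db k V z * A k j z) z := by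
    congr 1
    funext z
    rw [Finset.mul_sum]
    apply Finset.sum_congr rfl
    intro k _
    simp only [dd_mul (smooth_db hV.smooth k) (hA _ _)]
    rw [← Finset.mul_sum, Finset.sum_add_distrib, ← Finset.mul_sum (a := db k V z), h1 k z]
    rw [mul_zero, add_zero]
    congr 1
    apply Finset.sum_congr rfl
    intro j _
    rw [db_dd_comm hV.smooth k j z]
    ring
  rw [s1, s3]
  simp only [s2]
  rw [integral_finsetSum, integral_finsetSum, ← Finset.sum_neg_distrib]
  · apply Finset.sum_congr rfl
    intro k _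
    rw [integral_finsetSum, integral_finsetSum, ← Finset.sum_neg_distrib]
    · apply Finset.sum_congr rfl
      intro j _
      rw [ibp_dd hW (hVA2 k j) j, neg_neg]
    · intro j _
      exact int1 hW ((hVA2 k j).dd j)
    · intro j _
      exact int1 (smooth_dd hW j) (hVA2 k j)
  · intro k _
    exact integrable_finsetSum _ fun j _ => int1 hW ((hVA2 k j).dd j)
  · intro k _
    exact integrable_finsetSum _ fun j _ => int1 (smooth_dd hW j) (hVA2 k j)

theorem Piola_coe_smooth {u : Cn n → ℝ} (hu : ContDiff ℝ ∞ u) :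
    ContDiff ℝ ∞ (fun z => (u z : ℂ)) :=
  Complex.ofRealCLM.contDiff.comp hu

theorem Piola_mal {u w : Cn n → ℝ} (hw : ContDiff ℝ ∞ w) (z : Cn n) :
    mal u w z = (∑ k, ∑ j, (LM u z).adjugate k j * db k (dd j (fun z => (w z : ℂ))) z).re := by
  unfold mal
  congr 1
  rw [Matrix.trace]
  apply Finset.sum_congr rfl
  intro k _
  rw [Matrix.diag_apply, Matrix.mul_apply]
  apply Finset.sum_congr rfl
  intro j _
  rw [LM_smooth hw]

/-- the adjugate of the Levi matrix is divergence free -/
theorem ibp_mal {n : ℕ} {u v w : Cn n → ℝ} (hu : ContDiff ℝ ∞ u) (hv : ContDiff ℝ ∞ v)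
    (hw : ContDiff ℝ ∞ w) (hc : HasCompactSupport v) :
    ∫ z, v z * mal u w z = ∫ z, w z * mal u v z := by
  set U : Cn n → ℂ := fun z => (u z : ℂ) with hU
  set V : Cn n → ℂ := fun z => (v z : ℂ) with hV
  set W : Cn n → ℂ := fun z => (w z : ℂ) with hW
  have hUs : ContDiff ℝ ∞ U := Piola_coe_smooth hu
  have hVs : ContDiff ℝ ∞ V := Piola_coe_smooth hv
  have hWs : ContDiff ℝ ∞ W := Piola_coe_smooth hw
  have hVt : Tst V := ⟨hVs, hc.comp_left (g := fun x : ℝ => (x : ℂ)) (by simp)⟩
  have hM : ∀ j k, ContDiff ℝ ∞ (fun z => LM u z j k) := by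
    intro j k
    have : (fun z => LM u z j k) = db k (dd j U) := by
      funext z
      exact LM_smooth hu z j k
    rw [this]
    exact smooth_db (smooth_dd hUs j) k
  have hMe : ∀ j k, (fun z => LM u z j k) = db k (dd j U) := by
    intro j k
    funext z
    exact LM_smooth hu z j k
  have p1 : ∀ k z, ∑ j, dd j (fun z => (LM u z).adjugate k j) z = 0 := by
    intro k z
    apply Piola_id (fun j => PiolaOp_dd j) hM
    intro i j k z
    rw [hMe, hMe]
    have a1 : db k (dd j U) = dd j (db k U) := by
      funext z; exact db_dd_comm hUs k j z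
    have a2 : db k (dd i U) = dd i (db k U) := by
      funext z; exact db_dd_comm hUs k i z
    rw [a1, a2]
    exact Piola_dd_dd_comm (smooth_db hUs k) i j z
  have p2 : ∀ j z, ∑ k, db k (fun z => (LM u z).adjugate k j) z = 0 := by
    intro j z
    have h := Piola_id (D := fun k => db k) (fun k => PiolaOp_db k)
      (M := fun z => (LM u z).transpose) (fun a b => hM b a) (by
        intro i j k z
        simp only [Matrix.transpose_apply]
        rw [hMe, hMe]
        exact db_db_comm (smooth_dd hUs k) i j z) j z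
    simpa only [← Matrix.adjugate_transpose, Matrix.transpose_apply] using h
  have key := Piola_ibp (A := fun k j z => (LM u z).adjugate k j)
    (fun k j => Piola_adj_smooth hM k j) p1 p2 hVt hWs
  have hAs := fun k j => Piola_adj_smooth hM k j
  have i1 : Integrable (fun z => V z * ∑ k, ∑ j, (LM u z).adjugate k j * db k (dd j W) z) := by
    have hsum1 : ContDiff ℝ ∞ (fun z => ∑ k, ∑ j, (LM u z).adjugate k j * db k (dd j W) z) :=
      ContDiff.sum fun k _ => ContDiff.sum fun j _ =>
        (hAs k j).mul (smooth_db (smooth_dd hWs j) k)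
    exact (hVt.smooth.continuous.mul hsum1.continuous).integrable_of_hasCompactSupport
      hVt.supp.mul_right
  have i2 : Integrable (fun z => W z * ∑ k, ∑ j, (LM u z).adjugate k j * db k (dd j V) z) := by
    simp only [Finset.mul_sum]
    refine integrable_finsetSum _ fun k _ => integrable_finsetSum _ fun j _ => ?_
    exact (hWs.continuous.mul ((hAs k j).continuous.mul
      (smooth_db (smooth_dd hVs j) k).continuous)).integrable_of_hasCompactSupport
      ((((hVt.dd j).db k).supp.mul_left).mul_left)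
  have r1 : ∫ z, v z * mal u w z =
      (∫ z, V z * ∑ k, ∑ j, (LM u z).adjugate k j * db k (dd j W) z).re := by
    have h := integral_re i1
    refine Eq.trans ?_ h
    congr 1
    funext z
    rw [Piola_mal hw]
    simp only [hV]
    exact (Complex.re_ofReal_mul _ _).symm
  have r2 : ∫ z, w z * mal u v z =
      (∫ z, W z * ∑ k, ∑ j, (LM u z).adjugate k j * db k (dd j V) z).re := by
    have h := integral_re i2
    refine Eq.trans ?_ h
    congr 1
    funext z
    rw [Piola_mal hv]
    simp only [hW]
    exact (Complex.re_ofReal_mul _ _).symm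
  rw [r1, r2, key]

end HMA
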