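import Pool.Agent.H85.KM.IBP11
import Pool.Agent.H85.KM.Mat

/-! # Module Seg: variation of the Monge-Ampère measure along segments -/

open MeasureTheory Metric Set
open scoped ENNReal Topology ContDiff ComplexOrder

namespace HMA

variable {n : ℕ} {Ω : Set (Cn n)} {u w g : Cn n → ℝ}

/-- the derivative of the determinant along a segment of matrices -/
noncomputable def Seg_H (A B : Matrix (Fin n) (Fin n) ℂ) (s : ℝ) : ℝ :=
  (((A + (s : ℂ) • B).adjugate * B).trace).re

theorem Seg_LM {z : Cn n} (hu : TwD u z) (hw : TwD w z) (s : ℝ) :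
    LM (fun y => u y + s * w y) z = LM u z + (s : ℂ) • LM w z := by
  have h1 := hw.const_mul s
  have h2 := hu.add h1.1
  rw [h2.2, h1.2]

theorem Seg_mal {z : Cn n} (hu : TwD u z) (hw : TwD w z) (s : ℝ) :
    mal (fun y => u y + s * w y) w z = Seg_H (LM u z) (LM w z) s := by
  unfold mal Seg_H
  rw [Seg_LM hu hw s]

theorem Seg_hes {z : Cn n} (hu : TwD u z) (hw : TwD w z) (s : ℝ) :
    hes (fun y => u y + s * w y) z = hes u z + s • hes w z := by
  have h : fderiv ℝ (fun y => u y + s * w y) =ᶠ[𝓝 z] fun y => fderiv ℝ u y + s • fderiv ℝ w y := by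
    filter_upwards [hu.1, hw.1] with y hy1 hy2
    exact (hy1.hasFDerivAt.add (hy2.hasFDerivAt.const_mul s)).fderiv
  unfold hes
  rw [h.fderiv_eq]
  exact (hu.2.hasFDerivAt.add (hw.2.hasFDerivAt.const_smul s)).fderiv

/-- joint continuity -/
theorem Seg_cont : Continuous fun p : ((Fin n → Fin n → ℂ) × (Fin n → Fin n → ℂ)) × ℝ =>
    Seg_H (Matrix.of p.1.1) (Matrix.of p.1.2) p.2 := by
  unfold Seg_H
  have h1 : Continuous fun p : ((Fin n → Fin n → ℂ) × (Fin n → Fin n → ℂ)) × ℝ =>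
      (Matrix.of p.1.1 : Matrix (Fin n) (Fin n) ℂ) := continuous_fst.comp continuous_fst
  have h2 : Continuous fun p : ((Fin n → Fin n → ℂ) × (Fin n → Fin n → ℂ)) × ℝ =>
      (Matrix.of p.1.2 : Matrix (Fin n) (Fin n) ℂ) := continuous_snd.comp continuous_fst
  have h3 : Continuous fun p : ((Fin n → Fin n → ℂ) × (Fin n → Fin n → ℂ)) × ℝ =>
      ((p.2 : ℝ) : ℂ) := Complex.continuous_ofReal.comp continuous_snd
  exact Complex.continuous_re.comp (((h1.add (h3.smul h2)).matrix_adjugate.matrix_mul h2).matrix_trace)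

/-- the Levi matrix as a function of two indices -/
noncomputable def Seg_L (u : Cn n → ℝ) (z : Cn n) : Fin n → Fin n → ℂ := fun j k => LM u z j k

theorem Seg_L_eq (u : Cn n → ℝ) (z : Cn n) : Matrix.of (Seg_L u z) = LM u z := rfl

theorem Seg_measL (u : Cn n → ℝ) : Measurable (Seg_L u) := by
  have hm : ∀ a b : Cn n, Measurable fun z => hes u z a b := by
    intro a b
    have h1 : Measurable fun z => hes u z := measurable_fderiv ℝ (fderiv ℝ u)
    have h2 : Measurable fun z => hes u z a := h1.apply_continuousLinearMap a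
    exact h2.apply_continuousLinearMap b
  refine measurable_pi_iff.2 fun j => measurable_pi_iff.2 fun k => ?_
  unfold Seg_L LM
  exact ((Complex.measurable_ofReal.comp ((hm _ _).add (hm _ _))).add
    (measurable_const.mul (Complex.measurable_ofReal.comp ((hm _ _).sub (hm _ _))))).div_const _

theorem Seg_measH (u w : Cn n → ℝ) :
    Measurable fun p : Cn n × ℝ => Seg_H (LM u p.1) (LM w p.1) p.2 := by
  have h1 : Measurable fun p : Cn n × ℝ => ((Seg_L u p.1, Seg_L w p.1), p.2) :=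
    (((Seg_measL u).comp measurable_fst).prodMk ((Seg_measL w).comp measurable_fst)).prodMk
      measurable_snd
  have h2 := (Seg_cont (n := n)).measurable.comp h1
  have h3 : (fun p : Cn n × ℝ => Seg_H (LM u p.1) (LM w p.1) p.2) =
      (fun p : ((Fin n → Fin n → ℂ) × (Fin n → Fin n → ℂ)) × ℝ =>
        Seg_H (Matrix.of p.1.1) (Matrix.of p.1.2) p.2) ∘
        fun p : Cn n × ℝ => ((Seg_L u p.1, Seg_L w p.1), p.2) := by
    funext p
    simp only [Function.comp_apply, Seg_L_eq]
  rw [h3]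
  exact h2

/-- pointwise formula -/
theorem seg_point {z : Cn n} (hu : TwD u z) (hw : TwD w z) :
    mad (fun y => u y + w y) z - mad u z =
      ∫ s in (0 : ℝ)..1, mal (fun y => u y + s * w y) w z := by
  have h1 : (fun s : ℝ => mal (fun y => u y + s * w y) w z) =
      fun s => Seg_H (LM u z) (LM w z) s := by
    funext s
    exact Seg_mal hu hw s
  have hc : Continuous fun s : ℝ => Seg_H (LM u z) (LM w z) s := by
    have h2 := (Seg_cont (n := n)).comp
      ((continuous_const (y := (Seg_L u z, Seg_L w z))).prodMk (continuous_id (X := ℝ)))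
    refine h2.congr fun s => ?_
    simp only [Function.comp_apply, Seg_L_eq, id]
  have h3 := intervalIntegral.integral_eq_sub_of_hasDerivAt (a := 0) (b := 1)
    (f := fun s : ℝ => (LM u z + (s : ℂ) • LM w z).det.re)
    (f' := fun s : ℝ => Seg_H (LM u z) (LM w z) s)
    (fun s _ => mat_det_deriv (LM u z) (LM w z) s) (hc.intervalIntegrable _ _)
  rw [h1, h3]
  unfold mad
  rw [(hu.add hw).2]
  simp

theorem Seg_off {L : Set (Cn n)} (hL : IsCompact L) (h0 : ∀ z, z ∉ L → w z = 0) {z : Cn n}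
    (hz : z ∉ L) : LM w z = 0 ∧ ∀ u : Cn n → ℝ, mad (fun y => u y + w y) z = mad u z := by
  have hev : ∀ᶠ y in 𝓝 z, w y = 0 := by
    filter_upwards [hL.isClosed.isOpen_compl.mem_nhds hz] with y hy
    exact h0 y hy
  constructor
  · have : w =ᶠ[𝓝 z] fun _ => (0 : ℝ) := hev
    rw [LM_congr this, LM_const]
  · intro u
    have : (fun y => u y + w y) =ᶠ[𝓝 z] u := by
      filter_upwards [hev] with y hy
      rw [hy, add_zero]
    unfold mad
    rw [LM_congr this]

theorem Seg_mal_off {L : Set (Cn n)} (hL : IsCompact L) (h0 : ∀ z, z ∉ L → w z = 0) {z : Cn n}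
    (hz : z ∉ L) (U : Cn n → ℝ) : mal U w z = 0 := by
  unfold mal
  rw [(Seg_off hL h0 hz).1]
  simp

theorem seg_mad (hΩ : IsOpen Ω) (hu : C11 Ω u) (hw : C11 Ω w) (hg : C11 Ω g) {L : Set (Cn n)}
    (hL : IsCompact L) (hLΩ : L ⊆ Ω) (h0 : ∀ z, z ∉ L → w z = 0) :
    ∫ z in Ω, g z * (mad (fun y => u y + w y) z - mad u z) =
      ∫ s in (0 : ℝ)..1, ∫ z in Ω, w z * mal (fun y => u y + s * w y) g z := by
  have : IsFiniteMeasure ((volume : Measure (Cn n)).restrict L) :=
    ⟨by rw [Measure.restrict_apply_univ]; exact hL.measure_lt_top⟩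
  have hTw : ∀ᵐ z ∂((volume : Measure (Cn n)).restrict L), z ∈ L ∧ TwD u z ∧ TwD w z := by
    rw [ae_restrict_iff' hL.measurableSet]
    filter_upwards [hu.ae_twD hΩ, hw.ae_twD hΩ] with z h1 h2 hz
    exact ⟨hz, h1 (hLΩ hz), h2 (hLΩ hz)⟩
  -- step 1
  have e1 : ∫ z in Ω, g z * (mad (fun y => u y + w y) z - mad u z) =
      ∫ z in L, g z * (mad (fun y => u y + w y) z - mad u z) := by
    refine setIntegral_eq_of_subset_of_forall_sdiff_eq_zero hΩ.measurableSet hLΩ fun z hz => ?_
    rw [(Seg_off hL h0 hz.2).2 u, sub_self, mul_zero]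
  -- step 2
  have e2 : ∫ z in L, g z * (mad (fun y => u y + w y) z - mad u z) =
      ∫ z in L, ∫ s in Ioc (0 : ℝ) 1, g z * Seg_H (LM u z) (LM w z) s := by
    refine integral_congr_ae ?_
    filter_upwards [hTw] with z hz
    rw [seg_point hz.2.1 hz.2.2, intervalIntegral.integral_of_le zero_le_one,
      ← integral_const_mul]
    refine integral_congr_ae (Filter.Eventually.of_forall fun s => ?_)
    simp only
    rw [Seg_mal hz.2.1 hz.2.2 s]
  -- integrability on the product
  have hgc : ContinuousOn g L := hg.continuousOn.mono hLΩ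
  obtain ⟨Bg, hBg⟩ := hL.exists_bound_of_continuousOn hgc
  obtain ⟨Cu, hCu0, hCu⟩ := hu.hes_bdd hΩ hL hLΩ
  obtain ⟨Cw, hCw0, hCw⟩ := hw.hes_bdd hΩ hL hLΩ
  obtain ⟨B, hB0, hB⟩ := mad_bdd n (Cu + Cw)
  have hint : Integrable (Function.uncurry fun (z : Cn n) (s : ℝ) =>
      g z * Seg_H (LM u z) (LM w z) s)
      (((volume : Measure (Cn n)).restrict L).prod ((volume : Measure ℝ).restrict (Ioc 0 1))) := by
    have hm1 : AEStronglyMeasurable (fun p : Cn n × ℝ => g p.1)
        (((volume : Measure (Cn n)).restrict L).prod ((volume : Measure ℝ).restrict (Ioc 0 1))) :=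
      (hgc.aestronglyMeasurable hL.measurableSet).comp_fst
    have hm2 : AEStronglyMeasurable (fun p : Cn n × ℝ => Seg_H (LM u p.1) (LM w p.1) p.2)
        (((volume : Measure (Cn n)).restrict L).prod ((volume : Measure ℝ).restrict (Ioc 0 1))) :=
      (Seg_measH u w).aestronglyMeasurable
    have hae1 : ∀ᵐ p ∂(((volume : Measure (Cn n)).restrict L).prod
        ((volume : Measure ℝ).restrict (Ioc 0 1))), p.1 ∈ L ∧ TwD u p.1 ∧ TwD w p.1 :=
      Measure.quasiMeasurePreserving_fst.ae hTw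
    have hae2 : ∀ᵐ p ∂(((volume : Measure (Cn n)).restrict L).prod
        ((volume : Measure ℝ).restrict (Ioc 0 1))), p.2 ∈ Ioc (0 : ℝ) 1 :=
      Measure.quasiMeasurePreserving_snd.ae (ae_restrict_mem measurableSet_Ioc)
    refine Integrable.of_bound (hm1.mul hm2) (|Bg| * B) ?_
    filter_upwards [hae1, hae2] with p hp1 hp2
    change ‖g p.1 * Seg_H (LM u p.1) (LM w p.1) p.2‖ ≤ |Bg| * B
    rw [norm_mul]
    refine mul_le_mul ((hBg p.1 hp1.1).trans (le_abs_self _)) ?_ (norm_nonneg _) (abs_nonneg _)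
    rw [← Seg_mal hp1.2.1 hp1.2.2 p.2, Real.norm_eq_abs]
    refine (hB _ _ _ ?_ ?_).2
    · rw [Seg_hes hp1.2.1 hp1.2.2 p.2]
      refine (norm_add_le (hes u p.1) (p.2 • hes w p.1)).trans ?_
      refine add_le_add (hCu _ hp1.1) ?_
      have h9 : ‖p.2 • hes w p.1‖ ≤ ‖p.2‖ * ‖hes w p.1‖ := ContinuousLinearMap.opNorm_smul_le _ _
      rw [Real.norm_eq_abs, abs_of_pos hp2.1] at h9
      have h10 : p.2 * ‖hes w p.1‖ ≤ 1 * ‖hes w p.1‖ :=
        mul_le_mul_of_nonneg_right hp2.2 (ContinuousLinearMap.opNorm_nonneg _)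
      have h11 := hCw _ hp1.1
      linarith
    · have := hCw _ hp1.1
      linarith
  -- step 3
  have e3 := integral_integral_swap hint
  rw [e1, e2, e3, intervalIntegral.integral_of_le zero_le_one]
  refine integral_congr_ae (Filter.Eventually.of_forall fun s => ?_)
  simp only
  have hus : C11 Ω (fun y => u y + s * w y) := hu.add hΩ (hw.const_mul hΩ s)
  rw [(ibp11 hΩ hus hw hg hL hLΩ h0).2.2]
  have e4 : ∫ z in Ω, g z * mal (fun y => u y + s * w y) w z =
      ∫ z in L, g z * mal (fun y => u y + s * w y) w z := by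
    refine setIntegral_eq_of_subset_of_forall_sdiff_eq_zero hΩ.measurableSet hLΩ fun z hz => ?_
    rw [Seg_mal_off hL h0 hz.2, mul_zero]
  rw [e4]
  refine integral_congr_ae ?_
  filter_upwards [hTw] with z hz
  rw [Seg_mal hz.2.1 hz.2.2 s]

theorem Seg_mad_int (hΩ : IsOpen Ω) (hu : C11 Ω u) {L : Set (Cn n)}
    (hL : IsCompact L) (hLΩ : L ⊆ Ω) : IntegrableOn (fun z => mad u z) L := by
  obtain ⟨Cu, hCu0, hCu⟩ := hu.hes_bdd hΩ hL hLΩ
  obtain ⟨B, hB0, hB⟩ := mad_bdd n Cu
  refine Measure.integrableOn_of_bounded (M := B) hL.measure_lt_top.ne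
    (measurable_mad u).aestronglyMeasurable ?_
  filter_upwards [ae_restrict_mem hL.measurableSet] with z hz
  rw [Real.norm_eq_abs]
  exact (hB u u z (hCu z hz) (hCu z hz)).1

/-- equality of masses -/
theorem seg_mass (hΩ : IsOpen Ω) (hu : C11 Ω u) (hw : C11 Ω w) {L : Set (Cn n)}
    (hL : IsCompact L) (hLΩ : L ⊆ Ω) (h0 : ∀ z, z ∉ L → w z = 0) :
    ∫ z in L, mad (fun y => u y + w y) z = ∫ z in L, mad u z := by
  have hg : C11 Ω (fun _ : Cn n => (1 : ℝ)) := c11_of_contDiffOn hΩ contDiffOn_const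
  have h := seg_mad hΩ hu hw hg hL hLΩ h0
  have hr : ∫ s in (0 : ℝ)..1, ∫ z in Ω, w z * mal (fun y => u y + s * w y)
      (fun _ : Cn n => (1 : ℝ)) z = 0 := by
    have : ∀ (s : ℝ) (z : Cn n), mal (fun y => u y + s * w y) (fun _ : Cn n => (1 : ℝ)) z = 0 := by
      intro s z
      unfold mal
      rw [LM_const]
      simp
    simp [this]
  rw [hr] at h
  have e1 : ∫ z in Ω, (1 : ℝ) * (mad (fun y => u y + w y) z - mad u z) =
      ∫ z in L, (1 : ℝ) * (mad (fun y => u y + w y) z - mad u z) := by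
    refine setIntegral_eq_of_subset_of_forall_sdiff_eq_zero hΩ.measurableSet hLΩ fun z hz => ?_
    rw [(Seg_off hL h0 hz.2).2 u, sub_self, mul_zero]
  rw [e1] at h
  simp only [one_mul] at h
  rw [integral_sub (Seg_mad_int hΩ (hu.add hΩ hw) hL hLΩ) (Seg_mad_int hΩ hu hL hLΩ)] at h
  linarith

end HMA
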