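import Pool.Agent.H85.KM.Cov

/-! # Module XTop: topology of the charts -/

open MeasureTheory Metric Set
open scoped ENNReal Topology ContDiff ComplexOrder

namespace HMA

variable {n : ℕ} {X : Type} [TopologicalSpace X] (K : KM n X)

theorem KM.isOpen_range (i : Fin K.N) : IsOpen (K.κ i '' ball 0 3) :=
  K.isOpen_image i _ subset_rfl isOpen_ball

theorem xtop_linv (i : Fin K.N) {z : Cn n} (hz : z ∈ ball (0 : Cn n) 3) :
    Function.invFunOn (K.κ i) (ball 0 3) (K.κ i z) = z :=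
  (K.injOn i).leftInvOn_invFunOn hz

theorem KM.inv_cont (i : Fin K.N) :
    ContinuousOn (Function.invFunOn (K.κ i) (ball 0 3)) (K.κ i '' ball 0 3) := by
  rintro x ⟨z, hz, rfl⟩
  rw [ContinuousWithinAt, xtop_linv K i hz]
  intro V hV
  obtain ⟨U, hUV, hU, hzU⟩ := _root_.mem_nhds_iff.1 hV
  have ho : IsOpen (K.κ i '' (U ∩ ball 0 3)) :=
    K.isOpen_image i _ inter_subset_right (hU.inter isOpen_ball)
  have hm : K.κ i '' (U ∩ ball 0 3) ∈ 𝓝 (K.κ i z) := ho.mem_nhds ⟨z, ⟨hzU, hz⟩, rfl⟩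
  refine Filter.mem_map.2 (mem_nhdsWithin_of_mem_nhds (Filter.mem_of_superset hm ?_))
  rintro y ⟨w, ⟨hwU, hw⟩, rfl⟩
  rw [mem_preimage, xtop_linv K i hw]
  exact hUV hwU

theorem KM.isOpen_overlap (i j : Fin K.N) :
    IsOpen (ball (0 : Cn n) 3 ∩ K.κ i ⁻¹' (K.κ j '' ball 0 3)) :=
  (K.cont i).isOpen_inter_preimage isOpen_ball (K.isOpen_range j)

theorem KM.τ_inv (i j : Fin K.N) {z : Cn n} (hz : z ∈ ball (0 : Cn n) 3)
    (h : K.κ i z ∈ K.κ j '' ball 0 3) : K.τ i j z ∈ ball (0 : Cn n) 3 ∧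
      K.κ j (K.τ i j z) ∈ K.κ i '' ball 0 3 ∧ K.τ j i (K.τ i j z) = z := by
  obtain ⟨h1, h2⟩ := K.τ_spec i j z hz h
  have h3 : K.κ j (K.τ i j z) ∈ K.κ i '' ball 0 3 := ⟨z, hz, h2.symm⟩
  obtain ⟨h4, h5⟩ := K.τ_spec j i _ h1 h3
  exact ⟨h1, h3, K.injOn i h4 hz (h5.trans h2)⟩

theorem KM.τ_inj (i j : Fin K.N) :
    InjOn (K.τ i j) (ball 0 3 ∩ K.κ i ⁻¹' (K.κ j '' ball 0 3)) := by
  intro z hz w hw h
  have h1 := (K.τ_inv i j hz.1 hz.2).2.2
  have h2 := (K.τ_inv i j hw.1 hw.2).2.2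
  rw [← h1, ← h2, h]

theorem KM.τ_fderiv (i j : Fin K.N) {z : Cn n}
    (hz : z ∈ ball (0 : Cn n) 3 ∩ K.κ i ⁻¹' (K.κ j '' ball 0 3)) :
    Function.Injective (fderiv ℂ (K.τ i j) z) := by
  have h1 : DifferentiableAt ℂ (K.τ i j) z :=
    (K.τ_hol i j z hz).differentiableAt ((K.isOpen_overlap i j).mem_nhds hz)
  obtain ⟨h2, h3, h4⟩ := K.τ_inv i j hz.1 hz.2
  have h5 : DifferentiableAt ℂ (K.τ j i) (K.τ i j z) :=
    (K.τ_hol j i _ ⟨h2, h3⟩).differentiableAt ((K.isOpen_overlap j i).mem_nhds ⟨h2, h3⟩)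
  have h6 : (fun w => K.τ j i (K.τ i j w)) =ᶠ[𝓝 z] fun w => w := by
    filter_upwards [(K.isOpen_overlap i j).mem_nhds hz] with w hw
    exact (K.τ_inv i j hw.1 hw.2).2.2
  have h7 : HasFDerivAt (fun w => K.τ j i (K.τ i j w))
      ((fderiv ℂ (K.τ j i) (K.τ i j z)).comp (fderiv ℂ (K.τ i j) z)) z :=
    h5.hasFDerivAt.comp z h1.hasFDerivAt
  have h8 : (fderiv ℂ (K.τ j i) (K.τ i j z)).comp (fderiv ℂ (K.τ i j) z) =
      ContinuousLinearMap.id ℂ (Cn n) :=
    (h7.congr_of_eventuallyEq h6.symm).unique (hasFDerivAt_id z)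
  intro a b hab
  have := congrArg (fun L : Cn n →L[ℂ] Cn n => L a) h8
  have h9 := congrArg (fun L : Cn n →L[ℂ] Cn n => L b) h8
  simp only [ContinuousLinearMap.comp_apply, ContinuousLinearMap.id_apply] at this h9
  rw [← this, ← h9, hab]

theorem KM.ix_spec (x : X) : x ∈ K.κ (K.ix x) '' ball 0 1 ∧
    ∀ j < K.ix x, x ∉ K.κ j '' ball 0 1 := by
  exact (K.exists_ix x).choose_spec

theorem KM.ix_eq (x : X) (i : Fin K.N) (h1 : x ∈ K.κ i '' ball 0 1)
    (h2 : ∀ j < i, x ∉ K.κ j '' ball 0 1) : K.ix x = i := by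
  obtain ⟨h3, h4⟩ := K.ix_spec x
  rcases lt_trichotomy (K.ix x) i with h | h | h
  · exact absurd h3 (h2 _ h)
  · exact h
  · exact absurd h1 (h4 _ h)

theorem KM.co_spec (x : X) : K.co x ∈ ball (0 : Cn n) 1 ∧ K.κ (K.ix x) (K.co x) = x :=
  ⟨Function.invFunOn_mem (K.ix_spec x).1, Function.invFunOn_eq (K.ix_spec x).1⟩

theorem KM.measurableSet_ix [MeasurableSpace X] [BorelSpace X] (i : Fin K.N) :
    MeasurableSet {x : X | K.ix x = i} := by
  have hsub : ball (0 : Cn n) 1 ⊆ ball 0 3 := ball_subset_ball (by norm_num)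
  have h : {x : X | K.ix x = i} = K.κ i '' ball 0 1 \ ⋃ j ∈ {j : Fin K.N | j < i}, K.κ j '' ball 0 1 := by
    ext x
    simp only [Set.mem_ofPred_eq, Set.mem_sdiff, mem_iUnion, exists_prop, not_exists, not_and]
    constructor
    · rintro rfl
      exact ⟨(K.ix_spec x).1, fun j hj => (K.ix_spec x).2 j hj⟩
    · rintro ⟨h1, h2⟩
      exact K.ix_eq x i h1 h2
  rw [h]
  refine (K.isOpen_image i _ hsub isOpen_ball).measurableSet.diff ?_
  exact MeasurableSet.biUnion (Set.to_countable _)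
    (fun j _ => (K.isOpen_image j _ hsub isOpen_ball).measurableSet)

theorem KM.compact_image (i : Fin K.N) {L : Set (Cn n)} (hL : IsCompact L) (h : L ⊆ ball 0 3) :
    IsCompact (K.κ i '' L) :=
  hL.image_of_continuousOn ((K.cont i).mono h)

theorem KM.ext_κ (i : Fin K.N) (w : Cn n → ℝ) {z : Cn n} (hz : z ∈ ball (0 : Cn n) 3) :
    K.ext i w (K.κ i z) = w z := by
  unfold KM.ext
  rw [if_pos ⟨z, hz, rfl⟩, xtop_linv K i hz]

theorem KM.ext_off (i : Fin K.N) (w : Cn n → ℝ) {x : X} (hx : x ∉ K.κ i '' ball 0 3) :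
    K.ext i w x = 0 := by
  unfold KM.ext
  rw [if_neg hx]

/-- the potential is bounded on smaller balls and its Monge-Ampère density is positive -/
theorem KM.ρ_c11 (i : Fin K.N) : C11 (ball 0 3) (K.ρ i) :=
  c11_of_contDiffOn isOpen_ball ((K.ρ_smooth i).of_le (by norm_cast))

theorem xtop_smoothAt (i : Fin K.N) {z : Cn n} (hz : z ∈ ball (0 : Cn n) 3) :
    ContDiffAt ℝ ∞ (K.ρ i) z :=
  (K.ρ_smooth i).contDiffAt (isOpen_ball.mem_nhds hz)

theorem xtop_twD (i : Fin K.N) {z : Cn n} (hz : z ∈ ball (0 : Cn n) 3) : TwD (K.ρ i) z := by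
  constructor
  · filter_upwards [isOpen_ball.mem_nhds hz] with w hw
    exact (xtop_smoothAt K i hw).differentiableAt (by simp)
  · have h := (xtop_smoothAt K i hz).fderiv_right (m := ∞) (by simp)
    exact h.differentiableAt (by simp)

theorem xtop_posDef {u : Cn n → ℝ} {z : Cn n} (h : TwD u z) (hpos : ∀ ξ : Cn n, ξ ≠ 0 → 0 < lev u z ξ) :
    (LM u z).PosDef := by
  refine Matrix.PosDef.of_dotProduct_mulVec_pos h.herm (fun x hx => ?_)
  set ξ : Cn n := WithLp.toLp 2 (star x) with hξ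
  have hξ0 : ξ ≠ 0 := by
    intro h0
    apply hx
    have h1 : star x = 0 := by
      have := congrArg (WithLp.ofLp) h0
      simpa [hξ] using this
    exact star_eq_zero.1 h1
  have h2 := hpos ξ hξ0
  have h3 := h.lev_LM ξ
  have h4 : star x ⬝ᵥ ((LM u z).mulVec x) = ((lev u z ξ : ℝ) : ℂ) := by
    rw [h3]
    simp only [dotProduct, Matrix.mulVec, Finset.mul_sum]
    refine Finset.sum_congr rfl (fun j _ => Finset.sum_congr rfl (fun k _ => ?_))
    simp only [hξ, Pi.star_apply, RCLike.star_def, Complex.conj_conj]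
    ring
  rw [h4]
  exact_mod_cast h2

theorem KM.mad_ρ_pos (i : Fin K.N) {z : Cn n} (hz : z ∈ ball (0 : Cn n) 3) :
    TwD (K.ρ i) z ∧ (LM (K.ρ i) z).PosDef ∧ 0 < mad (K.ρ i) z := by
  have h1 := xtop_twD K i hz
  have h2 := xtop_posDef h1 (K.ρ_pos i z hz)
  refine ⟨h1, h2, ?_⟩
  unfold mad
  have := h2.det_pos
  exact (Complex.pos_iff.1 this).1

theorem KM.mad_ρ_bdd (i : Fin K.N) {L : Set (Cn n)} (hL : IsCompact L) (h : L ⊆ ball 0 3) :
    ∃ a b : ℝ, 0 < a ∧ 0 < b ∧ ∀ z ∈ L, a ≤ mad (K.ρ i) z ∧ mad (K.ρ i) z ≤ b := by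
  have hc : ContinuousOn (mad (K.ρ i)) L := by
    intro z hz
    apply ContinuousAt.continuousWithinAt
    have h1 : ContinuousAt (hes (K.ρ i)) z := by
      have h2 := ((xtop_smoothAt K i (h hz)).fderiv_right (m := ∞) (by simp)).fderiv_right (m := ∞) (by simp)
      exact h2.continuousAt
    have h3 : ∀ a b : Cn n, ContinuousAt (fun w => hes (K.ρ i) w a b) z := fun a b =>
      (h1.clm_apply continuousAt_const).clm_apply continuousAt_const
    have h4 : ContinuousAt (LM (K.ρ i)) z := by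
      refine continuousAt_pi.2 (fun j => continuousAt_pi.2 (fun k => ?_))
      unfold LM
      refine ContinuousAt.div_const ?_ _
      refine ContinuousAt.add ?_ (ContinuousAt.mul continuousAt_const ?_)
      · exact Complex.continuous_ofReal.continuousAt.comp ((h3 _ _).add (h3 _ _))
      · exact Complex.continuous_ofReal.continuousAt.comp ((h3 _ _).sub (h3 _ _))
    have h5 : ContinuousAt (fun w => (LM (K.ρ i) w).det.re) z :=
      ((Complex.continuous_re.comp (continuous_id.matrix_det)).continuousAt (x := LM (K.ρ i) z)).comp h4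
    exact h5
  rcases L.eq_empty_or_nonempty with rfl | hne
  · exact ⟨1, 1, one_pos, one_pos, by simp⟩
  obtain ⟨z0, hz0, hmin⟩ := hL.exists_isMinOn hne hc
  obtain ⟨z1, hz1, hmax⟩ := hL.exists_isMaxOn hne hc
  exact ⟨mad (K.ρ i) z0, mad (K.ρ i) z1, (K.mad_ρ_pos i (h hz0)).2.2, (K.mad_ρ_pos i (h hz1)).2.2,
    fun z hz => ⟨hmin hz, hmax hz⟩⟩

end HMA
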