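import Pool.Agent.H85.KM.XKp
import Pool.Agent.H85.KM.XTop
import Pool.Agent.H85.MA.Sko2
import Pool.Agent.H85.MA.LFin

/-! # Module UChain: normalisation in all charts -/

open MeasureTheory Metric Set
open scoped ENNReal Topology ContDiff ComplexOrder

namespace HMA

variable {n : ℕ} {X : Type} [TopologicalSpace X] (K : KM n X)

theorem UChain_ρ_bdd (i : Fin K.N) : ∃ R : ℝ, 0 < R ∧ ∀ z ∈ closedBall (0 : Cn n) 2,
    |K.ρ i z| ≤ R := by
  have hsub : closedBall (0 : Cn n) 2 ⊆ ball 0 3 := closedBall_subset_ball (by norm_num)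
  obtain ⟨C, hC⟩ := (isCompact_closedBall (0 : Cn n) 2).exists_bound_of_continuousOn
    ((K.ρ_smooth i).continuousOn.mono hsub)
  exact ⟨max C 1, lt_of_lt_of_le one_pos (le_max_right _ _), fun z hz =>
    (hC z hz).trans (le_max_left _ _)⟩

/-- decay of the sublevel sets in a chart -/
theorem UChain_decay [CompactSpace X] (hn : 1 ≤ n) (i : Fin K.N) {A : ℝ} (hA : 0 < A) :
    ∃ c M : ℝ, 0 < c ∧ 0 < M ∧ ∀ F : X → ℝ, KPsh K F → (∀ x, F x ≤ 1) →
      (∃ z : Cn n, ‖z‖ ≤ 1 ∧ A ≤ F (K.κ i z)) → ∀ t : ℝ, 0 < t →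
        volume {z : Cn n | ‖z‖ < 3 / 2 ∧ F (K.κ i z) < Real.exp (-t)} ≤
          ENNReal.ofReal (M * Real.exp (-c * t)) := by
  obtain ⟨R, hR, hρ⟩ := UChain_ρ_bdd K i
  obtain ⟨a, ha, hchart⟩ := KPsh.chart K i
  set A₀ : ℝ := max 0 (-Real.log (a * (A * Real.exp (-R)))) with hA₀
  obtain ⟨c, M, hc, hM, hdec⟩ := psh_decay n hn (A := A₀) (le_max_left _ _)
  set s : ℝ := R + Real.log a with hs
  set V : ℝ := (volume (ball (0 : Cn n) (3 / 2))).toReal with hV
  have hV0 : 0 ≤ V := ENNReal.toReal_nonneg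
  refine ⟨c, (M + V) * Real.exp (c * s), hc, by positivity, ?_⟩
  rintro F hF hF1 ⟨z₀, hz₀, hAz₀⟩ t ht
  obtain ⟨hG, hG1⟩ := hchart F hF hF1
  have hz2 : ∀ z : Cn n, ‖z‖ ≤ 2 → |K.ρ i z| ≤ R := fun z hz =>
    hρ z (by rwa [mem_closedBall, dist_zero_right])
  by_cases hts : s < t
  · have h1 := hdec _ hG hG1 ⟨z₀, hz₀, ?_⟩ (t - s) (by linarith)
    · refine (measure_mono ?_).trans (h1.trans (ENNReal.ofReal_le_ofReal ?_))
      · rintro z ⟨hz, hFz⟩
        refine ⟨hz, ?_⟩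
        have h2 := (abs_le.1 (hz2 z (by linarith))).2
        have h3 : Real.exp (K.ρ i z) ≤ Real.exp R := Real.exp_le_exp.2 h2
        have h4 : Real.exp (-(t - s)) = a * (Real.exp (-t) * Real.exp R) := by
          have h5 : -(t - s) = Real.log a + (-t + R) := by rw [hs]; ring
          rw [h5, Real.exp_add, Real.exp_add, Real.exp_log ha]
        rw [h4]
        have h6 : F (K.κ i z) * Real.exp (K.ρ i z) < Real.exp (-t) * Real.exp R := by
          have h7 : F (K.κ i z) * Real.exp (K.ρ i z) < Real.exp (-t) * Real.exp (K.ρ i z) :=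
            mul_lt_mul_of_pos_right hFz (Real.exp_pos _)
          exact lt_of_lt_of_le h7 (mul_le_mul_of_nonneg_left h3 (Real.exp_pos _).le)
        exact mul_lt_mul_of_pos_left h6 ha
      · have h8 : Real.exp (-c * (t - s)) = Real.exp (c * s) * Real.exp (-c * t) := by
          rw [← Real.exp_add]
          congr 1
          ring
        rw [h8, ← mul_assoc]
        have h9 : M * Real.exp (c * s) ≤ (M + V) * Real.exp (c * s) := by
          gcongr
          linarith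
        exact mul_le_mul_of_nonneg_right h9 (Real.exp_pos _).le
    · have h2 := (abs_le.1 (hz2 z₀ (by linarith))).1
      have h3 : Real.exp (-R) ≤ Real.exp (K.ρ i z₀) := Real.exp_le_exp.2 h2
      have h4 : Real.exp (-A₀) ≤ a * (A * Real.exp (-R)) := by
        have h5 : -A₀ ≤ Real.log (a * (A * Real.exp (-R))) := by
          have := le_max_right 0 (-Real.log (a * (A * Real.exp (-R))))
          rw [← hA₀] at this
          linarith
        calc Real.exp (-A₀) ≤ Real.exp (Real.log (a * (A * Real.exp (-R)))) :=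
              Real.exp_le_exp.2 h5
          _ = a * (A * Real.exp (-R)) := Real.exp_log (by positivity)
      refine h4.trans ?_
      refine mul_le_mul_of_nonneg_left ?_ ha.le
      exact mul_le_mul hAz₀ h3 (Real.exp_pos _).le (hA.le.trans hAz₀)
  · rw [not_lt] at hts
    have h1 : volume {z : Cn n | ‖z‖ < 3 / 2 ∧ F (K.κ i z) < Real.exp (-t)} ≤
        ENNReal.ofReal V := by
      rw [hV, ENNReal.ofReal_toReal measure_ball_lt_top.ne]
      refine measure_mono ?_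
      rintro z ⟨hz, -⟩
      rwa [mem_ball, dist_zero_right]
    refine h1.trans (ENNReal.ofReal_le_ofReal ?_)
    have h2 : 1 ≤ Real.exp (c * s) * Real.exp (-c * t) := by
      rw [← Real.exp_add]
      apply Real.one_le_exp
      nlinarith
    rw [mul_assoc]
    nlinarith

/-- transition of lower bounds between overlapping charts -/
theorem UChain_step [CompactSpace X] (hn : 1 ≤ n) (i j : Fin K.N)
    (hij : (K.κ i '' ball 0 1 ∩ K.κ j '' ball 0 1).Nonempty) {A : ℝ} (hA : 0 < A) :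
    ∃ B : ℝ, 0 < B ∧ ∀ F : X → ℝ, KPsh K F → (∀ x, F x ≤ 1) →
      (∃ z : Cn n, ‖z‖ ≤ 1 ∧ A ≤ F (K.κ i z)) → ∃ z : Cn n, ‖z‖ ≤ 1 ∧ B ≤ F (K.κ j z) := by
  obtain ⟨c, M, hc, hM, hdec⟩ := UChain_decay K hn i hA
  set V : Set (Cn n) := ball 0 1 ∩ K.κ i ⁻¹' (K.κ j '' ball 0 1) with hV
  have h13 : ball (0 : Cn n) 1 ⊆ ball 0 3 := ball_subset_ball (by norm_num)
  have hopen : IsOpen (K.κ j '' ball 0 1) := K.isOpen_image j _ h13 isOpen_ball
  have hVo : IsOpen V := ((K.cont i).mono h13).isOpen_inter_preimage isOpen_ball hopen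
  have hVne : V.Nonempty := by
    obtain ⟨x, ⟨z, hz, rfl⟩, hx2⟩ := hij
    exact ⟨z, hz, hx2⟩
  have hVpos : 0 < volume V := hVo.measure_pos volume hVne
  have hlim : Filter.Tendsto (fun t : ℝ => ENNReal.ofReal (M * Real.exp (-c * t)))
      Filter.atTop (𝓝 0) := by
    rw [← ENNReal.ofReal_zero]
    refine ENNReal.tendsto_ofReal ?_
    have h1 : Filter.Tendsto (fun a : ℝ => -c * a) Filter.atTop Filter.atBot :=
      Filter.tendsto_id.const_mul_atTop_of_neg (by linarith)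
    have h2 := (Real.tendsto_exp_atBot.comp h1).const_mul M
    simpa using h2
  obtain ⟨t, ht1, ht2⟩ :=
    ((hlim.eventually_lt_const hVpos).and (Filter.eventually_gt_atTop (0 : ℝ))).exists
  refine ⟨Real.exp (-t), Real.exp_pos _, fun F hF hF1 hz => ?_⟩
  have h1 := hdec F hF hF1 hz t ht2
  have h2 : ∃ z ∈ V, ¬ F (K.κ i z) < Real.exp (-t) := by
    by_contra hcon
    push Not at hcon
    have h3 : V ⊆ {z : Cn n | ‖z‖ < 3 / 2 ∧ F (K.κ i z) < Real.exp (-t)} := by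
      intro z hzV
      refine ⟨?_, hcon z hzV⟩
      have := hzV.1
      rw [mem_ball, dist_zero_right] at this
      linarith
    exact absurd ((measure_mono h3).trans h1) (not_le.2 ht1)
  obtain ⟨z, ⟨-, w, hw, hwz⟩, hFz⟩ := h2
  refine ⟨w, ?_, ?_⟩
  · rw [mem_ball, dist_zero_right] at hw
    exact hw.le
  · rw [hwz]
    exact not_lt.1 hFz

/-- the set of charts to which lower bounds propagate is everything -/
theorem UChain_all [CompactSpace X] [ConnectedSpace X] (hn : 1 ≤ n) (i j : Fin K.N) :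
    ∀ A : ℝ, 0 < A → ∃ B : ℝ, 0 < B ∧ ∀ F : X → ℝ, KPsh K F → (∀ x, F x ≤ 1) →
      (∃ z : Cn n, ‖z‖ ≤ 1 ∧ A ≤ F (K.κ i z)) → ∃ z : Cn n, ‖z‖ ≤ 1 ∧ B ≤ F (K.κ j z) := by
  by_contra hj
  set S : Set (Fin K.N) := {j | ∀ A : ℝ, 0 < A → ∃ B : ℝ, 0 < B ∧ ∀ F : X → ℝ, KPsh K F →
    (∀ x, F x ≤ 1) → (∃ z : Cn n, ‖z‖ ≤ 1 ∧ A ≤ F (K.κ i z)) →
      ∃ z : Cn n, ‖z‖ ≤ 1 ∧ B ≤ F (K.κ j z)} with hS
  have hjS : j ∉ S := hj
  have hiS : i ∈ S := fun A hA => ⟨A, hA, fun F _ _ h => h⟩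
  have h13 : ball (0 : Cn n) 1 ⊆ ball 0 3 := ball_subset_ball (by norm_num)
  have hopen : ∀ k, IsOpen (K.κ k '' ball 0 1) := fun k => K.isOpen_image k _ h13 isOpen_ball
  have h0 : (0 : Cn n) ∈ ball (0 : Cn n) 1 := mem_ball_self one_pos
  have hpre := (isPreconnected_univ : IsPreconnected (univ : Set X))
    (⋃ k ∈ S, K.κ k '' ball 0 1) (⋃ k ∈ Sᶜ, K.κ k '' ball 0 1)
    (isOpen_biUnion fun k _ => hopen k) (isOpen_biUnion fun k _ => hopen k)
    (fun x _ => by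
      obtain ⟨k, hk⟩ := K.cover x
      by_cases hkS : k ∈ S
      · exact Or.inl (mem_biUnion hkS hk)
      · exact Or.inr (mem_biUnion (show k ∈ Sᶜ from hkS) hk))
    ⟨K.κ i 0, mem_univ _, mem_biUnion hiS ⟨0, h0, rfl⟩⟩
    ⟨K.κ j 0, mem_univ _, mem_biUnion (show j ∈ Sᶜ from hjS) ⟨0, h0, rfl⟩⟩
  obtain ⟨x, -, hx1, hx2⟩ := hpre
  simp only [mem_iUnion] at hx1 hx2
  obtain ⟨k, hk, hxk⟩ := hx1
  obtain ⟨l, hl, hxl⟩ := hx2
  apply hl
  intro A hA
  obtain ⟨B, hB, hAB⟩ := hk A hA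
  obtain ⟨B', hB', hBB'⟩ := UChain_step K hn k l ⟨x, hxk, hxl⟩ hB
  exact ⟨B', hB', fun F hF hF1 hz => hBB' F hF hF1 (hAB F hF hF1 hz)⟩

/-- a positive lower bound of finitely many positive numbers -/
theorem UChain_min {ι : Type*} [Fintype ι] (b : ι → ℝ) (hb : ∀ i, 0 < b i) :
    ∃ B : ℝ, 0 < B ∧ ∀ i, B ≤ b i := by
  have h0 : 0 ≤ ∑ i, (b i)⁻¹ := Finset.sum_nonneg fun i _ => (inv_pos.2 (hb i)).le
  refine ⟨(1 + ∑ i, (b i)⁻¹)⁻¹, by positivity, fun i => ?_⟩
  have h1 : (b i)⁻¹ ≤ 1 + ∑ i, (b i)⁻¹ := by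
    have := Finset.single_le_sum (f := fun i => (b i)⁻¹)
      (fun i _ => (inv_pos.2 (hb i)).le) (Finset.mem_univ i)
    linarith
  exact (inv_le_comm₀ (by positivity) (hb i)).2 h1

/-- `X` connected: functions bounded from below at one point are bounded from below at some point of
each chart -/
theorem KM.chain [CompactSpace X] [ConnectedSpace X] (hn : 1 ≤ n) {A : ℝ} (hA : 0 < A) :
    ∃ B : ℝ, 0 < B ∧ ∀ F : X → ℝ, KPsh K F → (∀ x, F x ≤ 1) → (∃ x, A ≤ F x) →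
      ∀ i, ∃ z : Cn n, ‖z‖ ≤ 1 ∧ B ≤ F (K.κ i z) := by
  have h1 : ∀ p : Fin K.N × Fin K.N, ∃ B : ℝ, 0 < B ∧ ∀ F : X → ℝ, KPsh K F → (∀ x, F x ≤ 1) →
      (∃ z : Cn n, ‖z‖ ≤ 1 ∧ A ≤ F (K.κ p.1 z)) → ∃ z : Cn n, ‖z‖ ≤ 1 ∧ B ≤ F (K.κ p.2 z) :=
    fun p => UChain_all K hn p.1 p.2 A hA
  choose b hb hbF using h1
  obtain ⟨B, hB, hBb⟩ := UChain_min b hb
  refine ⟨B, hB, ?_⟩
  rintro F hF hF1 ⟨x, hx⟩ i
  obtain ⟨j, w, hw, hwx⟩ := K.cover x
  obtain ⟨z, hz, hbz⟩ := hbF (j, i) F hF hF1 ⟨w, by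
    rw [mem_ball, dist_zero_right] at hw
    exact hw.le, by
    rw [hwx]
    exact hx⟩
  exact ⟨z, hz, (hBb (j, i)).trans hbz⟩

/-- uniform integrability of the logarithms in the charts -/
theorem KM.log_L1 [CompactSpace X] [ConnectedSpace X] (hn : 1 ≤ n) {A : ℝ} (hA : 0 < A) :
    ∃ C : ℝ, 0 < C ∧ ∀ F : X → ℝ, KPsh K F → (∀ x, F x ≤ 1) → (∃ x, A ≤ F x) →
      ∀ i, IntegrableOn (fun z => Real.log (F (K.κ i z))) (ball 0 (3 / 2)) ∧
        volume {z : Cn n | ‖z‖ < 3 / 2 ∧ F (K.κ i z) = 0} = 0 ∧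
        ∫ z in ball (0 : Cn n) (3 / 2), |Real.log (F (K.κ i z))| ≤ C := by
  obtain ⟨B, hB, hchain⟩ := K.chain hn hA
  choose c M hc hM hdec using fun i => UChain_decay K hn i hB
  have hCpos : 0 ≤ ∑ i, M i / c i := Finset.sum_nonneg fun i _ => (div_pos (hM i) (hc i)).le
  refine ⟨1 + ∑ i, M i / c i, by positivity, ?_⟩
  intro F hF hF1 hx i
  have hz := hchain F hF hF1 hx i
  set m : Measure (Cn n) := volume.restrict (ball (0 : Cn n) (3 / 2)) with hm
  have hb3 : ball (0 : Cn n) (3 / 2) ⊆ ball 0 3 := ball_subset_ball (by norm_num)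
  have hnn : ∀ z ∈ ball (0 : Cn n) 3, 0 ≤ F (K.κ i z) := by
    intro z hz
    have h1 := (hF.loc i).nonneg z hz
    exact nonneg_of_mul_nonneg_left h1 (Real.exp_pos _)
  have hmeas : AEMeasurable (fun z => F (K.κ i z)) m := by
    have h1 := LFin_meas isOpen_ball (hF.loc i).usc
    have h2 : ContinuousOn (K.ρ i) (ball 0 3) := (K.ρ_smooth i).continuousOn
    have h3 : AEMeasurable (K.ρ i) m :=
      (h2.mono hb3).aemeasurable measurableSet_ball
    have h4 : AEMeasurable (fun z => (ball (0 : Cn n) 3).indicator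
        (fun z => F (K.κ i z) * Real.exp (K.ρ i z)) z * Real.exp (-K.ρ i z)) m :=
      h1.aemeasurable.mul (Real.measurable_exp.comp_aemeasurable h3.neg)
    refine h4.congr ?_
    rw [hm]
    filter_upwards [ae_restrict_mem measurableSet_ball] with z hz
    rw [indicator_of_mem (hb3 hz), mul_assoc, ← Real.exp_add, add_neg_cancel, Real.exp_zero,
      mul_one]
  have hdec' : ∀ t : ℝ, 0 < t → m {z | F (K.κ i z) < Real.exp (-t)} ≤
      ENNReal.ofReal (M i * Real.exp (-c i * t)) := by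
    intro t ht
    refine le_trans ?_ (hdec i F hF hF1 hz t ht)
    rw [hm, Measure.restrict_apply' measurableSet_ball]
    refine measure_mono ?_
    rintro z ⟨hz1, hz2⟩
    rw [mem_ball, dist_zero_right] at hz2
    exact ⟨hz2, hz1⟩
  have h0 : ∀ᵐ z ∂m, 0 ≤ F (K.κ i z) := by
    rw [hm]
    filter_upwards [ae_restrict_mem measurableSet_ball] with z hz
    exact hnn z (hb3 hz)
  obtain ⟨hpos, hint, htail⟩ := LFin_tail hmeas h0 (Filter.Eventually.of_forall fun z => hF1 _)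
    (hc i) (hM i) hdec'
  refine ⟨hint, ?_, ?_⟩
  · rw [hm, ae_restrict_iff' measurableSet_ball, ae_iff] at hpos
    refine measure_mono_null ?_ hpos
    rintro z ⟨hz1, hz2⟩
    rw [mem_ofPred_eq, Classical.not_imp]
    refine ⟨by rwa [mem_ball, dist_zero_right], ?_⟩
    rw [hz2]
    exact lt_irrefl _
  · have h1 := (htail 0 le_rfl).2
    have h2 : ∀ z, Real.log (max (F (K.κ i z)) (Real.exp (-0))) = 0 := by
      intro z
      rw [neg_zero, Real.exp_zero, max_eq_right (hF1 _), Real.log_one]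
    simp only [h2, integral_zero, sub_zero, mul_zero, Real.exp_zero, mul_one] at h1
    have h3 : ∫ z, |Real.log (F (K.κ i z))| ∂m = -∫ z, Real.log (F (K.κ i z)) ∂m := by
      rw [← integral_neg]
      refine integral_congr_ae ?_
      filter_upwards [h0] with z hz
      exact abs_of_nonpos (Real.log_nonpos hz (hF1 _))
    rw [h3]
    have h4 := (abs_le.1 h1).1
    have h5 := Finset.single_le_sum (f := fun i => M i / c i)
      (fun i _ => (div_pos (hM i) (hc i)).le) (Finset.mem_univ i)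
    linarith

end HMA
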