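import Pool.Agent.H85.KM.UPoly
import Pool.Agent.H85.MA.LMain

/-! # Module UFin: the theorem on compact Kähler manifolds -/

open MeasureTheory Metric Set
open scoped ENNReal Topology ContDiff ComplexOrder

namespace HMA

variable {n : ℕ} {X : Type} [TopologicalSpace X] (K : KM n X)

theorem ufin_nonneg {F : X → ℝ} (hF : KPsh K F) (x : X) : 0 ≤ F x := by
  obtain ⟨i, z, hz, rfl⟩ := K.cover x
  have hz3 : z ∈ ball (0 : Cn n) 3 := ball_subset_ball (by norm_num) hz
  have h := (hF.loc i).nonneg z hz3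
  exact nonneg_of_mul_nonneg_left h (Real.exp_pos _)

theorem ufin_pos [MeasurableSpace X] [BorelSpace X] {μ : Measure X} (hμ : KModerate K μ)
    {F : X → ℝ} (hF : KPsh K F) : ∀ᵐ x ∂μ, 0 < F x := by
  obtain ⟨ε, hε, h⟩ := hμ
  have h1 := h F hF
  have hm : Measurable F := (KPsh.usc K hF).measurable
  have h2 : ∀ᵐ x ∂μ, (ENNReal.ofReal (F x)) ^ (-ε) < ⊤ :=
    ae_lt_top (hm.ennreal_ofReal.pow_const _) h1.ne
  filter_upwards [h2] with x hx
  by_contra hcon
  push Not at hcon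
  rw [ENNReal.ofReal_of_nonpos hcon, ENNReal.zero_rpow_of_neg (by linarith)] at hx
  exact lt_irrefl _ hx

/-- comparison of powers -/
theorem ufin_rpow {d D B a α : ℝ} (hd : 0 ≤ d) (hdD : d ≤ D) (hDB : D ≤ B) (hB : 1 ≤ B) (hα : 0 < α)
    (ha : α ≤ a) : d ^ a ≤ B ^ a * D ^ α := by
  have hB0 : 0 < B := by linarith
  have hD0 : 0 ≤ D := hd.trans hdD
  have ha0 : 0 < a := lt_of_lt_of_le hα ha
  have h1 : d ^ a ≤ D ^ a := Real.rpow_le_rpow hd hdD ha0.le
  have h2 : D ^ a = B ^ a * (D / B) ^ a := by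
    rw [← Real.mul_rpow hB0.le (div_nonneg hD0 hB0.le), mul_div_cancel₀ _ hB0.ne']
  have h3 : (D / B) ^ a ≤ (D / B) ^ α :=
    Real.rpow_le_rpow_of_exponent_ge' (div_nonneg hD0 hB0.le) ((div_le_one hB0).2 hDB) hα.le ha
  have h4 : (D / B) ^ α ≤ D ^ α :=
    Real.rpow_le_rpow (div_nonneg hD0 hB0.le) (div_le_self hD0 hB) hα.le
  calc d ^ a ≤ D ^ a := h1
    _ = B ^ a * (D / B) ^ a := h2
    _ ≤ B ^ a * D ^ α := mul_le_mul_of_nonneg_left (h3.trans h4) (Real.rpow_nonneg hB0.le _)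

/-- the pieces of `X` -/
def KM.ufin_S (i : Fin K.N) : Set X := {x | K.ix x = i}

theorem ufin_S_sub (i : Fin K.N) : K.ufin_S i ⊆ K.κ i '' ball 0 1 := by
  intro x hx
  have h := (K.ix_spec x).1
  rw [show K.ix x = i from hx] at h
  exact h

theorem ufin_inter (i : Fin K.N) : K.ufin_S i ∩ K.κ i '' ball 0 1 = K.ufin_S i :=
  inter_eq_left.2 (ufin_S_sub K i)

theorem ufin_inv_ae [MeasurableSpace X] [BorelSpace X] (μ : Measure X) (i : Fin K.N) :
    AEMeasurable (Function.invFunOn (K.κ i) (ball 0 3)) (μ.restrict (K.ufin_S i)) := by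
  have h1 : AEMeasurable (Function.invFunOn (K.κ i) (ball 0 3)) (μ.restrict (K.κ i '' ball 0 3)) :=
    (K.inv_cont i).aemeasurable (K.isOpen_range i).measurableSet
  refine h1.mono_measure (Measure.restrict_mono_set μ ?_)
  exact (ufin_S_sub K i).trans (image_mono (ball_subset_ball (by norm_num)))

theorem ufin_pull [MeasurableSpace X] (μ : Measure X) (i : Fin K.N) :
    K.pull μ i (K.ufin_S i) = (μ.restrict (K.ufin_S i)).map (Function.invFunOn (K.κ i) (ball 0 3)) := by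
  unfold KM.pull
  rw [ufin_inter]

/-- the logarithm in the chart -/
theorem ufin_log {F : X → ℝ} {i : Fin K.N} {a : ℝ} (ha : 0 < a) {x : X} (hx : x ∈ K.ufin_S i) (hFx : 0 < F x) :
    Real.log (a * (F (K.κ i (Function.invFunOn (K.κ i) (ball 0 3) x)) *
      Real.exp (K.ρ i (Function.invFunOn (K.κ i) (ball 0 3) x)))) =
      Real.log a + Real.log (F x) + K.ρ i (Function.invFunOn (K.κ i) (ball 0 3) x) := by
  have h1 : x ∈ K.κ i '' ball 0 3 := image_mono (ball_subset_ball (by norm_num)) (ufin_S_sub K i hx)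
  rw [Function.invFunOn_eq h1, Real.log_mul ha.ne' (mul_pos hFx (Real.exp_pos _)).ne',
    Real.log_mul hFx.ne' (Real.exp_pos _).ne', Real.log_exp]
  ring

theorem ufin_inv_mem {i : Fin K.N} {x : X} (hx : x ∈ K.ufin_S i) :
    Function.invFunOn (K.κ i) (ball 0 3) x ∈ closedBall (0 : Cn n) 1 := by
  obtain ⟨z, hz, rfl⟩ := ufin_S_sub K i hx
  have hz3 : z ∈ ball (0 : Cn n) 3 := ball_subset_ball (by norm_num) hz
  have : Function.invFunOn (K.κ i) (ball 0 3) (K.κ i z) = z := (K.injOn i).leftInvOn_invFunOn hz3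
  rw [this]
  exact ball_subset_closedBall hz

theorem ufin_rho_bdd (i : Fin K.N) : ∃ R : ℝ, 0 < R ∧ ∀ z ∈ closedBall (0 : Cn n) 1, |K.ρ i z| ≤ R := by
  have hc : ContinuousOn (fun z => |K.ρ i z|) (closedBall (0 : Cn n) 1) :=
    ((K.ρ_smooth i).continuousOn.mono (closedBall_subset_ball (by norm_num))).abs
  obtain ⟨R, hR⟩ := (isCompact_closedBall (0 : Cn n) 1).bddAbove_image hc
  refine ⟨max R 1, lt_max_of_lt_right one_pos, fun z hz => ?_⟩
  exact (hR ⟨z, hz, rfl⟩).trans (le_max_left _ _)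

theorem KM.moderate_holder [CompactSpace X] [T2Space X] [ConnectedSpace X] [MeasurableSpace X]
    [BorelSpace X] (hn : 1 ≤ n) {μ : Measure X} [IsProbabilityMeasure μ] (hμ : KModerate K μ) :
    ∃ α : ℝ, 0 < α ∧ ∀ A : ℝ, 0 < A → ∃ C : ℝ, 0 < C ∧
      ∀ F G : X → ℝ, KPsh K F → KPsh K G → (∀ x, F x ≤ 1) → (∀ x, G x ≤ 1) →
        (∃ x, A ≤ F x) → (∃ x, A ≤ G x) →
        Integrable (fun x => Real.log (F x)) μ ∧
        |(∫ x, Real.log (F x) ∂μ) - ∫ x, Real.log (G x) ∂μ| ≤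
          C * (∑ i, ∫ z in ball (0 : Cn n) (3 / 2),
            |Real.log (F (K.κ i z)) - Real.log (G (K.κ i z))|) ^ α := by
  classical
  obtain ⟨C, ε, hC, hε, hP⟩ := K.pull_polyB hn hμ
  have hSm : ∀ i, MeasurableSet (K.ufin_S i) := fun i => K.measurableSet_ix i
  set inv : ∀ i : Fin K.N, X → Cn n := fun i => Function.invFunOn (K.κ i) (ball 0 3) with hinv
  have hfin : ∀ i, IsFiniteMeasure (K.pull μ i (K.ufin_S i)) := fun i =>
    ⟨lt_of_le_of_lt (hP i _ (hSm i)).1 ENNReal.one_lt_top⟩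
  have hloc := fun i => @local_holder n hn (K.pull μ i (K.ufin_S i)) (hfin i)
    (hP i _ (hSm i)).2.1 C ε hC hε (hP i _ (hSm i)).2.2
  choose αi hαi hLoc using hloc
  -- the exponent
  obtain ⟨x0⟩ : Nonempty X := inferInstance
  have hne : (Finset.univ : Finset (Fin K.N)).Nonempty := ⟨K.ix x0, Finset.mem_univ _⟩
  obtain ⟨i0, -, hi0⟩ := Finset.exists_min_image Finset.univ αi hne
  choose a ha hchart using fun i => KPsh.chart K i
  choose R hR0 hR using fun i => ufin_rho_bdd K i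
  refine ⟨αi i0, hαi i0, fun A hA => ?_⟩
  obtain ⟨B, hB, hchain⟩ := K.chain hn hA
  obtain ⟨CL, hCL, hlog⟩ := K.log_L1 hn hA
  -- lower bounds in the charts
  set Ai : Fin K.N → ℝ := fun i => max 0 (-Real.log (a i * (B * Real.exp (-R i)))) with hAi
  have hAi0 : ∀ i, 0 ≤ Ai i := fun i => le_max_left _ _
  choose Ki hKi hmain using fun i => hLoc i (Ai i) (hAi0 i)
  set D0 : ℝ := max 1 (∑ _i : Fin K.N, 2 * CL) with hD0
  have hD01 : 1 ≤ D0 := le_max_left _ _
  refine ⟨∑ i, Ki i * D0 ^ (αi i), Finset.sum_pos (fun i _ => mul_pos (hKi i)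
    (Real.rpow_pos_of_pos (by linarith) _)) hne, ?_⟩
  -- facts for one function
  have hone : ∀ F : X → ℝ, KPsh K F → (∀ x, F x ≤ 1) → (∃ x, A ≤ F x) → ∀ i,
      PshOn (ball 0 2) (fun z => a i * (F (K.κ i z) * Real.exp (K.ρ i z))) ∧
      (∀ z ∈ ball (0 : Cn n) 2, a i * (F (K.κ i z) * Real.exp (K.ρ i z)) ≤ 1) ∧
      (∃ z : Cn n, ‖z‖ ≤ 1 ∧ Real.exp (-(Ai i)) ≤ a i * (F (K.κ i z) * Real.exp (K.ρ i z))) := by
    intro F hF hF1 hFA i
    obtain ⟨h1, h2⟩ := hchart i F hF hF1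
    obtain ⟨z, hz, hz2⟩ := hchain F hF hF1 hFA i
    refine ⟨h1, h2, z, hz, ?_⟩
    have h3 : a i * (B * Real.exp (-R i)) ≤ a i * (F (K.κ i z) * Real.exp (K.ρ i z)) := by
      refine mul_le_mul_of_nonneg_left ?_ (ha i).le
      refine mul_le_mul hz2 (Real.exp_le_exp.2 ?_) (Real.exp_pos _).le (hB.le.trans hz2)
      have := (abs_le.1 (hR i z (by simpa using hz))).1
      linarith
    refine le_trans ?_ h3
    have h4 : 0 < a i * (B * Real.exp (-R i)) := mul_pos (ha i) (mul_pos hB (Real.exp_pos _))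
    rw [← Real.exp_log h4]
    apply Real.exp_le_exp.2
    have : -Real.log (a i * (B * Real.exp (-R i))) ≤ Ai i := le_max_right _ _
    linarith
  -- integrability on the pieces
  have hmeas : ∀ F : X → ℝ, KPsh K F → Measurable (fun x => Real.log (F x)) := fun F hF =>
    Real.measurable_log.comp (KPsh.usc K hF).measurable
  have hmap : ∀ (i : Fin K.N) (g : Cn n → ℝ), Integrable g (K.pull μ i (K.ufin_S i)) →
      Integrable (fun x => g (inv i x)) (μ.restrict (K.ufin_S i)) ∧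
      ∫ z, g z ∂(K.pull μ i (K.ufin_S i)) = ∫ x in K.ufin_S i, g (inv i x) ∂μ := by
    intro i g hg
    rw [ufin_pull] at hg ⊢
    exact ⟨(integrable_map_measure hg.aestronglyMeasurable (ufin_inv_ae K μ i)).1 hg,
      integral_map (ufin_inv_ae K μ i) hg.aestronglyMeasurable⟩
  have hlogF : ∀ F : X → ℝ, KPsh K F → ∀ i, ∀ᵐ x ∂(μ.restrict (K.ufin_S i)),
      Real.log (a i * (F (K.κ i (inv i x)) * Real.exp (K.ρ i (inv i x)))) =
        Real.log (a i) + Real.log (F x) + K.ρ i (inv i x) := by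
    intro F hF i
    have h1 : ∀ᵐ x ∂(μ.restrict (K.ufin_S i)), 0 < F x := ae_restrict_of_ae (ufin_pos K hμ hF)
    filter_upwards [h1, ae_restrict_mem (hSm i)] with x hx hxS
    exact ufin_log K (ha i) hxS hx
  have hint : ∀ F : X → ℝ, KPsh K F → (∀ x, F x ≤ 1) → (∃ x, A ≤ F x) → ∀ i,
      Integrable (fun z => Real.log (a i * (F (K.κ i z) * Real.exp (K.ρ i z)))) (K.pull μ i (K.ufin_S i)) →
      IntegrableOn (fun x => Real.log (F x)) (K.ufin_S i) μ := by
    intro F hF hF1 hFA i hg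
    obtain ⟨h1, -⟩ := hmap i _ hg
    have h2 : Integrable (fun x => |Real.log (a i * (F (K.κ i (inv i x)) * Real.exp (K.ρ i (inv i x))))| +
        (|Real.log (a i)| + R i)) (μ.restrict (K.ufin_S i)) := h1.abs.add (integrable_const _)
    refine h2.mono' (hmeas F hF).aestronglyMeasurable ?_
    filter_upwards [hlogF F hF i, ae_restrict_mem (hSm i)] with x hx hxS
    have h3 := hR i (inv i x) (ufin_inv_mem K hxS)
    rw [hx, Real.norm_eq_abs]
    have h4 : Real.log (F x) = (Real.log (a i) + Real.log (F x) + K.ρ i (inv i x)) -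
        Real.log (a i) - K.ρ i (inv i x) := by ring
    calc |Real.log (F x)| = |(Real.log (a i) + Real.log (F x) + K.ρ i (inv i x)) -
        Real.log (a i) - K.ρ i (inv i x)| := by rw [← h4]
      _ ≤ |(Real.log (a i) + Real.log (F x) + K.ρ i (inv i x)) - Real.log (a i)| + |K.ρ i (inv i x)| := abs_sub _ _
      _ ≤ |Real.log (a i) + Real.log (F x) + K.ρ i (inv i x)| + |Real.log (a i)| + |K.ρ i (inv i x)| := by
          gcongr
          exact abs_sub _ _
      _ ≤ _ := by linarith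
  -- the partition
  have hdisj : Pairwise (Function.onFun Disjoint K.ufin_S) := by
    intro i j hij
    refine Set.disjoint_left.2 (fun x hx hy => hij ?_)
    exact (show K.ix x = i from hx).symm.trans hy
  have hunion : ⋃ i, K.ufin_S i = univ := by
    refine Set.eq_univ_of_forall (fun x => mem_iUnion.2 ⟨K.ix x, rfl⟩)
  intro F G hF hG hF1 hG1 hFA hGA
  have hFG := fun i => hmain i (fun z => a i * (F (K.κ i z) * Real.exp (K.ρ i z)))
    (fun z => a i * (G (K.κ i z) * Real.exp (K.ρ i z))) (hone F hF hF1 hFA i).1 (hone G hG hG1 hGA i).1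
    (hone F hF hF1 hFA i).2.1 (hone G hG hG1 hGA i).2.1 (hone F hF hF1 hFA i).2.2 (hone G hG hG1 hGA i).2.2
  have hGF := fun i => hmain i (fun z => a i * (G (K.κ i z) * Real.exp (K.ρ i z)))
    (fun z => a i * (F (K.κ i z) * Real.exp (K.ρ i z))) (hone G hG hG1 hGA i).1 (hone F hF hF1 hFA i).1
    (hone G hG hG1 hGA i).2.1 (hone F hF hF1 hFA i).2.1 (hone G hG hG1 hGA i).2.2 (hone F hF hF1 hFA i).2.2
  have hIF : ∀ i, IntegrableOn (fun x => Real.log (F x)) (K.ufin_S i) μ := fun i =>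
    hint F hF hF1 hFA i (hFG i).1
  have hIG : ∀ i, IntegrableOn (fun x => Real.log (G x)) (K.ufin_S i) μ := fun i =>
    hint G hG hG1 hGA i (hGF i).1
  have hFi : Integrable (fun x => Real.log (F x)) μ := by
    rw [← integrableOn_univ, ← hunion, integrableOn_finite_iUnion]
    exact hIF
  refine ⟨hFi, ?_⟩
  have hsumF : ∫ x, Real.log (F x) ∂μ = ∑ i, ∫ x in K.ufin_S i, Real.log (F x) ∂μ := by
    rw [← setIntegral_univ, ← hunion, integral_iUnion_fintype hSm hdisj hIF]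
  have hsumG : ∫ x, Real.log (G x) ∂μ = ∑ i, ∫ x in K.ufin_S i, Real.log (G x) ∂μ := by
    rw [← setIntegral_univ, ← hunion, integral_iUnion_fintype hSm hdisj hIG]
  rw [hsumF, hsumG, ← Finset.sum_sub_distrib]
  -- the difference on one piece
  have hpiece : ∀ i, (∫ x in K.ufin_S i, Real.log (F x) ∂μ) - ∫ x in K.ufin_S i, Real.log (G x) ∂μ =
      (∫ z, Real.log (a i * (F (K.κ i z) * Real.exp (K.ρ i z))) ∂(K.pull μ i (K.ufin_S i))) -
        ∫ z, Real.log (a i * (G (K.κ i z) * Real.exp (K.ρ i z))) ∂(K.pull μ i (K.ufin_S i)) := by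
    intro i
    obtain ⟨h1, h2⟩ := hmap i _ (hFG i).1
    obtain ⟨h3, h4⟩ := hmap i _ (hGF i).1
    rw [h2, h4, ← integral_sub h1 h3, ← integral_sub (hIF i) (hIG i)]
    refine integral_congr_ae ?_
    filter_upwards [hlogF F hF i, hlogF G hG i] with x hx hy
    rw [hx, hy]
    ring
  set d : Fin K.N → ℝ := fun i => ∫ z in ball (0 : Cn n) (3 / 2),
            |Real.log (F (K.κ i z)) - Real.log (G (K.κ i z))| with hd
  have hd0 : ∀ i, 0 ≤ d i := fun i => integral_nonneg (fun z => abs_nonneg _)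
  have hd1 : ∀ i, ∫ z in ball (0 : Cn n) (3 / 2), |Real.log (a i * (F (K.κ i z) * Real.exp (K.ρ i z))) -
      Real.log (a i * (G (K.κ i z) * Real.exp (K.ρ i z)))| = d i := by
    intro i
    refine integral_congr_ae ?_
    have e1 : ∀ H : X → ℝ, KPsh K H → (∀ x, H x ≤ 1) → (∃ x, A ≤ H x) →
        ∀ᵐ z ∂(volume.restrict (ball (0 : Cn n) (3 / 2))), 0 < H (K.κ i z) := by
      intro H hH hH1 hHA
      have h5 := (hlog H hH hH1 hHA i).2.1
      rw [ae_restrict_iff' measurableSet_ball]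
      rw [ae_iff]
      refine measure_mono_null ?_ h5
      intro z hz
      simp only [Set.mem_ofPred_eq, Classical.not_imp, not_lt] at hz
      have hz1 : ‖z‖ < 3 / 2 := by simpa using hz.1
      exact ⟨hz1, le_antisymm hz.2 (ufin_nonneg K hH _)⟩
    filter_upwards [e1 F hF hF1 hFA, e1 G hG hG1 hGA] with z hz hz'
    rw [Real.log_mul (ha i).ne' (mul_pos hz (Real.exp_pos _)).ne', Real.log_mul hz.ne' (Real.exp_pos _).ne',
      Real.log_mul (ha i).ne' (mul_pos hz' (Real.exp_pos _)).ne', Real.log_mul hz'.ne' (Real.exp_pos _).ne']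
    congr 1
    ring
  have hd2 : ∀ i, d i ≤ 2 * CL := by
    intro i
    obtain ⟨h1, -, h2⟩ := hlog F hF hF1 hFA i
    obtain ⟨h3, -, h4⟩ := hlog G hG hG1 hGA i
    have h5 : d i ≤ ∫ z in ball (0 : Cn n) (3 / 2), (|Real.log (F (K.κ i z))| + |Real.log (G (K.κ i z))|) := by
      refine integral_mono (h1.sub h3).abs (h1.abs.add h3.abs) (fun z => ?_)
      exact abs_sub _ _
    rw [integral_add h1.abs h3.abs] at h5
    linarith
  have hD : ∑ i, d i ≤ D0 := (Finset.sum_le_sum (fun i _ => hd2 i)).trans (le_max_right _ _)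
  refine (Finset.abs_sum_le_sum_abs _ _).trans ?_
  rw [Finset.sum_mul]
  refine Finset.sum_le_sum (fun i _ => ?_)
  rw [hpiece i]
  have h6 := (hFG i).2
  simp only [hd1] at h6
  refine h6.trans ?_
  rw [mul_assoc]
  refine mul_le_mul_of_nonneg_left ?_ (hKi i).le
  exact ufin_rpow (hd0 i) (Finset.single_le_sum (fun j _ => hd0 j) (Finset.mem_univ i)) hD hD01 (hαi i0)
    (hi0 i (Finset.mem_univ i))

end HMA
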