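import Pool.Agent.H85.KM.XMass
import Pool.Agent.H85.KM.HFun

/-! # Module XWell: deep wells on embedded polydiscs -/

open MeasureTheory Metric Set
open scoped ENNReal Topology ContDiff ComplexOrder

namespace HMA

variable {n : ℕ} {X : Type} [TopologicalSpace X] (K : KM n X)

theorem xWell_two_le : (2 : WithTop ℕ∞) ≤ ((⊤ : ℕ∞) : WithTop ℕ∞) :=
  WithTop.coe_le_coe.2 le_top

theorem xWell_isOpen_pdisc (n : ℕ) : IsOpen (pdisc n) := by
  have h : pdisc n = ⋂ i : Fin n, {ζ : Cn n | ‖ζ i‖ < 1} := by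
    ext ζ
    simp [pdisc]
  rw [h]
  refine isOpen_iInter_of_finite fun i => ?_
  exact isOpen_lt (by fun_prop) continuous_const

theorem xWell_rho_bdd (i : Fin K.N) : ∃ C : ℝ, 0 ≤ C ∧ ∀ z ∈ ball (0 : Cn n) 2, |K.ρ i z| ≤ C := by
  have h1 : ContinuousOn (K.ρ i) (closedBall (0 : Cn n) 2) :=
    (K.ρ_smooth i).continuousOn.mono (closedBall_subset_ball (by norm_num))
  obtain ⟨C, hC⟩ := (isCompact_closedBall (0 : Cn n) 2).exists_bound_of_continuousOn h1
  refine ⟨max C 0, le_max_right _ _, fun z hz => ?_⟩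
  have := hC z (ball_subset_closedBall hz)
  rw [Real.norm_eq_abs] at this
  exact this.trans (le_max_left _ _)

/-- scaling of the Monge-Ampere density -/
theorem xWell_mad_affine {u : Cn n → ℝ} {z : Cn n} (hu : TwD u z) (c d : ℝ) :
    mad (fun w => c * u w + d) z = c ^ n * mad u z := by
  have h1 := hu.const_mul c
  have hconst : TwD (fun _ : Cn n => d) z := by
    refine ⟨Filter.Eventually.of_forall fun w => differentiableAt_const _, ?_⟩
    have : fderiv ℝ (fun _ : Cn n => d) = fun _ => 0 := by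
      funext w
      simp
    rw [this]
    exact differentiableAt_const _
  have h2 := (h1.1.add hconst).2
  unfold mad
  rw [h2, h1.2, LM_const, add_zero, Matrix.det_smul, Fintype.card_fin]
  rw [← Complex.ofReal_pow, Complex.re_ofReal_mul]

/-- combination of the change of variables and of the chain rule -/
theorem xWell_change {Φ : Cn n → Cn n} (hΦ : DifferentiableOn ℂ Φ (pdisc n))
    (hi : InjOn Φ (pdisc n)) (hd : ∀ ζ ∈ pdisc n, Function.Injective (fderiv ℂ Φ ζ))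
    {Ω : Set (Cn n)} (hΩ : IsOpen Ω) (hm : MapsTo Φ (pdisc n) Ω) {u : Cn n → ℝ} (hu : C11 Ω u)
    {U : Set (Cn n)} (hU : IsOpen U) (hUp : U ⊆ pdisc n) :
    ∫⁻ z in Φ '' U, ENNReal.ofReal (mad u z) =
      ∫⁻ z in U, ENNReal.ofReal (mad (fun w => u (Φ w)) z) := by
  have hpo := xWell_isOpen_pdisc n
  rw [lintegral_hol hpo hΦ hU.measurableSet hUp (hi.mono hUp)]
  apply lintegral_congr_ae
  rw [Filter.EventuallyEq, ae_restrict_iff' hU.measurableSet]
  have h1 : ∀ᵐ z : Cn n, z ∈ pdisc n → TwD u (Φ z) := by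
    refine ae_comp_hol hpo hΦ hi hd ?_
    filter_upwards [hu.ae_twD hΩ] with y hy hy2
    obtain ⟨x, hx, rfl⟩ := hy2
    exact hy (hm hx)
  filter_upwards [h1] with z hz hzU
  have hz1 := hz (hUp hzU)
  have h2 : ContDiffAt ℂ 2 Φ z := by
    have h3 := (hol_contDiffOn hpo hΦ).contDiffAt (hpo.mem_nhds (hUp hzU))
    exact h3.of_le xWell_two_le
  rw [mad_comp h2 hz1, ENNReal.ofReal_mul (by positivity)]

variable [MeasurableSpace X] [BorelSpace X] [T2Space X] [CompactSpace X] [Nonempty X]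

/-- upper bound for the mass near an embedded polydisc (comparison with `hfun`) -/
theorem KM.polydisc_mass (hn : 1 ≤ n) (i : Fin K.N) : ∃ C : ℝ, 1 ≤ C ∧
    ∀ (Φ : Cn n → Cn n) (s : Fin n → ℝ), DifferentiableOn ℂ Φ (pdisc n) → InjOn Φ (pdisc n) →
      (∀ ζ ∈ pdisc n, Function.Injective (fderiv ℂ Φ ζ)) →
      MapsTo Φ (pdisc n) (ball 0 2) → (∀ j, 0 < s j ∧ s j < 1) →
      ∃ W : Set (Cn n), IsOpen W ∧ W ⊆ ball 0 2 ∧ Φ '' {ζ | ∀ j, ‖ζ j‖ ≤ s j} ⊆ W ∧
        ∀ (ψ : X → ℝ) (M : ℝ), WK K ψ → 0 ≤ M → (∀ x, -2 ≤ ψ x ∧ ψ x ≤ M) →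
          ∫⁻ z in W, ENNReal.ofReal (mad (fun y => K.ρ i y + ψ (K.κ i y)) z) ≤
            ENNReal.ofReal ((M + C) ^ n * C * (∏ j, Real.log (1 / s j))⁻¹) := by
  obtain ⟨C₀, hC₀, hh⟩ := hfun n hn
  obtain ⟨R, hR0, hR⟩ := xWell_rho_bdd K i
  set C : ℝ := max 1 (max (2 + 2 * R) (2 ^ n * C₀)) with hCdef
  have hC1 : 1 ≤ C := le_max_left _ _
  have hC2 : 2 + 2 * R ≤ C := (le_max_left _ _).trans (le_max_right _ _)
  have hC3 : 2 ^ n * C₀ ≤ C := (le_max_right _ _).trans (le_max_right _ _)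
  refine ⟨C, hC1, ?_⟩
  intro Φ s hΦ hinj hder hmaps hs
  obtain ⟨h, U, L, hUo, hLc, hsU, hUL, hLp, hhs, hhsub, hhU, hhL, hmass⟩ := hh s hs (1 / 8)
    (by norm_num)
  have hpo := xWell_isOpen_pdisc n
  have hUp : U ⊆ pdisc n := hUL.trans hLp
  refine ⟨Φ '' U, isOpen_image_hol hpo hΦ hder hUo hUp, ?_, image_mono hsU, ?_⟩
  · rintro _ ⟨ζ, hζ, rfl⟩
    exact hmaps (hUp hζ)
  intro ψ M hψ hM hψM
  set T : ℝ := ∏ j, Real.log (1 / s j) with hT
  have hTpos : 0 < T := by
    refine Finset.prod_pos fun j _ => Real.log_pos ?_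
    rw [lt_div_iff₀ (hs j).1, one_mul]
    exact (hs j).2
  set u : Cn n → ℝ := fun y => K.ρ i y + ψ (K.κ i y) with hu
  have hb3 : IsOpen (ball (0 : Cn n) 3) := isOpen_ball
  have hu11 : C11 (ball 0 3) u := (K.ρ_c11 i).add hb3 (hψ.c11 i)
  have husub : SubOn (ball 0 3) u := hψ.sub i
  have h23 : ball (0 : Cn n) 2 ⊆ ball 0 3 := ball_subset_ball (by norm_num)
  have hm3 : MapsTo Φ (pdisc n) (ball 0 3) := fun z hz => h23 (hmaps hz)
  have hv11 : C11 (pdisc n) (fun z => u (Φ z)) := c11_comp hb3 hpo hu11 hΦ hm3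
  have hvsub : SubOn (pdisc n) (fun z => u (Φ z)) := sub_comp hb3 hpo hu11 husub hΦ hm3
  have hub : ∀ z ∈ pdisc n, -(2 + R) ≤ u (Φ z) ∧ u (Φ z) ≤ M + R := by
    intro z hz
    have h1 := abs_le.1 (hR (Φ z) (hmaps hz))
    have h2 := hψM (K.κ i (Φ z))
    simp only [hu]
    constructor <;> linarith [h1.1, h1.2, h2.1, h2.2]
  set a : ℝ := M + 2 + 2 * R with ha
  have ha0 : 0 < a := by positivity
  set c : ℝ := 1 / (2 * a) with hc
  have hc0 : 0 < c := by positivity
  set d : ℝ := -(c * (M + R)) - 1 / 4 with hd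
  have hca : c * a = 1 / 2 := by rw [hc]; field_simp
  set v : Cn n → ℝ := fun z => c * u (Φ z) + d with hv
  have hv1 : ∀ z ∈ pdisc n, -(3 / 4) ≤ v z ∧ v z ≤ -(1 / 4) := by
    intro z hz
    obtain ⟨h1, h2⟩ := hub z hz
    simp only [hv, hd]
    have h3 := mul_le_mul_of_nonneg_left h1 hc0.le
    have h4 := mul_le_mul_of_nonneg_left h2 hc0.le
    constructor
    · nlinarith
    · linarith
  have hV11 : C11 (pdisc n) v := by
    have h1 := hv11.const_mul hpo c
    have h2 : C11 (pdisc n) (fun _ : Cn n => d) := c11_of_contDiffOn hpo contDiffOn_const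
    exact h1.add hpo h2
  have hVsub : SubOn (pdisc n) v := by
    intro p q hpq
    have h1 := hvsub p q hpq
    have hint : IntervalIntegrable (fun θ : ℝ => u (Φ (p + Complex.exp (θ * Complex.I) • q)))
        volume 0 (2 * Real.pi) := by
      apply ContinuousOn.intervalIntegrable
      have h2 : ContinuousOn (fun z => u (Φ z)) (pdisc n) := hv11.continuousOn
      refine h2.comp (by fun_prop) ?_
      intro θ _
      apply hpq
      rw [Complex.norm_exp_ofReal_mul_I]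
    have h3 : ∫ θ in (0 : ℝ)..(2 * Real.pi), v (p + Complex.exp (θ * Complex.I) • q) =
        c * (∫ θ in (0 : ℝ)..(2 * Real.pi), u (Φ (p + Complex.exp (θ * Complex.I) • q))) +
          2 * Real.pi * d := by
      simp only [hv]
      rw [intervalIntegral.integral_add (hint.const_mul c) intervalIntegrable_const,
        intervalIntegral.integral_const_mul, intervalIntegral.integral_const]
      simp
    rw [h3]
    have hpi := Real.pi_pos
    have h4 : ∀ J : ℝ, (2 * Real.pi)⁻¹ * (c * J + 2 * Real.pi * d) =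
        c * ((2 * Real.pi)⁻¹ * J) + d := by
      intro J
      field_simp
    rw [h4]
    simp only [hv]
    have h5 := mul_le_mul_of_nonneg_left h1 hc0.le
    linarith
  have hh11 : C11 (pdisc n) h := c11_of_contDiffOn hpo
    ((hhs.of_le xWell_two_le).contDiffOn)
  have hhsub' : SubOn (pdisc n) h := fun p q _ => hhsub p q (fun _ _ => mem_univ _)
  have hcp := cp hpo hV11 hh11 hVsub hhsub' hLc hLp (η := 1 / 8) (by norm_num) (by
    intro z hz hzL
    have h1 := hhL z hz hzL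
    have h2 := (hv1 z hz).2
    linarith)
  have hUsub : U ⊆ {z | z ∈ pdisc n ∧ h z + 1 / 8 < v z} := by
    intro z hz
    refine ⟨hUp hz, ?_⟩
    have h1 := hhU z hz
    have h2 := (hv1 z (hUp hz)).1
    linarith
  have hbd : ∫⁻ z in U, ENNReal.ofReal (mad v z) ≤ ENNReal.ofReal (C₀ * T⁻¹) :=
    ((lintegral_mono_set hUsub).trans hcp).trans hmass
  have hscale : ∫⁻ z in U, ENNReal.ofReal (mad v z) =
      ENNReal.ofReal (c ^ n) * ∫⁻ z in U, ENNReal.ofReal (mad (fun w => u (Φ w)) z) := by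
    rw [← lintegral_const_mul' _ _ ENNReal.ofReal_ne_top]
    apply lintegral_congr_ae
    rw [Filter.EventuallyEq, ae_restrict_iff' hUo.measurableSet]
    filter_upwards [hv11.ae_twD hpo] with z hz hzU
    rw [← ENNReal.ofReal_mul (by positivity)]
    congr 1
    exact xWell_mad_affine (hz (hUp hzU)) c d
  rw [xWell_change hΦ hinj hder hb3 hm3 hu11 hUo hUp]
  have hcn : 0 < c ^ n := by positivity
  have h1 : ∫⁻ z in U, ENNReal.ofReal (mad (fun w => u (Φ w)) z) ≤
      ENNReal.ofReal ((c ^ n)⁻¹) * ENNReal.ofReal (C₀ * T⁻¹) := by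
    rw [hscale] at hbd
    calc ∫⁻ z in U, ENNReal.ofReal (mad (fun w => u (Φ w)) z)
        = ENNReal.ofReal ((c ^ n)⁻¹) * (ENNReal.ofReal (c ^ n) *
          ∫⁻ z in U, ENNReal.ofReal (mad (fun w => u (Φ w)) z)) := by
          rw [← mul_assoc, ← ENNReal.ofReal_mul (by positivity), inv_mul_cancel₀ hcn.ne',
            ENNReal.ofReal_one, one_mul]
      _ ≤ _ := by gcongr
  refine h1.trans ?_
  rw [← ENNReal.ofReal_mul (by positivity)]
  apply ENNReal.ofReal_le_ofReal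
  have h2 : (c ^ n)⁻¹ = 2 ^ n * a ^ n := by
    rw [hc, one_div, inv_pow, inv_inv, mul_pow]
  rw [h2]
  have h3 : a ^ n ≤ (M + C) ^ n := by
    apply pow_le_pow_left₀ ha0.le
    rw [ha]
    linarith
  have h4 : 0 < T⁻¹ := by positivity
  calc 2 ^ n * a ^ n * (C₀ * T⁻¹) = a ^ n * (2 ^ n * C₀) * T⁻¹ := by ring
    _ ≤ (M + C) ^ n * C * T⁻¹ := by
        apply mul_le_mul_of_nonneg_right _ h4.le
        apply mul_le_mul h3 hC3 (by positivity) (by positivity)

/-- the integral of a function supported in the chart `i` against the Monge-Ampere density -/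
theorem xWell_local_mass (i : Fin K.N) {b : Cn n → ℝ} {W : Set (Cn n)} (hW : IsOpen W)
    (hW2 : W ⊆ ball 0 2) (hbc : HasCompactSupport b) (hbW : tsupport b ⊆ W)
    (hb1 : ∀ z, 0 ≤ b z ∧ b z ≤ 1) (hbs : ContDiff ℝ ∞ b) {ψ : X → ℝ} (hψ : WK K ψ) :
    Integrable (fun x => K.ext i b x * K.RM ψ x) K.vol ∧
      ENNReal.ofReal (∫ x, K.ext i b x * K.RM ψ x ∂K.vol) ≤
        ∫⁻ z in W, ENNReal.ofReal (mad (fun y => K.ρ i y + ψ (K.κ i y)) z) := by
  haveI := K.vol_finite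
  have h23 : ball (0 : Cn n) 2 ⊆ ball 0 3 := ball_subset_ball (by norm_num)
  have hb11 : C11 (ball (0 : Cn n) 3) b :=
    c11_of_contDiffOn isOpen_ball ((hbs.of_le xWell_two_le).contDiffOn)
  have hext : C11X K (K.ext i b) := c11X_ext K i hb11 (L := tsupport b) hbc
    ((hbW.trans hW2).trans h23) (fun z hz => image_eq_zero_of_notMem_tsupport hz)
  have hext0 : ∀ x, |K.ext i b x| ≤ 1 := by
    intro x
    by_cases hx : x ∈ K.κ i '' ball 0 3
    · obtain ⟨z, hz, rfl⟩ := hx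
      rw [K.ext_κ i b hz, abs_le]
      constructor <;> linarith [(hb1 z).1, (hb1 z).2]
    · rw [K.ext_off i b hx]
      simp
  obtain ⟨B, hB0, hB⟩ := K.RM_bdd hψ.c11 (c11X_const K 0)
  have hB' : ∀ x, |K.RM ψ x| ≤ B := by
    intro x
    have := hB 1 0 (by norm_num) (by norm_num) x
    simpa using this
  have hint : Integrable (fun x => K.ext i b x * K.RM ψ x) K.vol := by
    refine Integrable.of_bound ((hext.continuous K).aestronglyMeasurable.mul
      (K.RM_meas hψ.c11)) B (Filter.Eventually.of_forall fun x => ?_)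
    rw [Real.norm_eq_abs, abs_mul]
    calc |K.ext i b x| * |K.RM ψ x| ≤ 1 * B :=
          mul_le_mul (hext0 x) (hB' x) (abs_nonneg _) zero_le_one
      _ = B := one_mul B
  refine ⟨hint, ?_⟩
  obtain ⟨h1, h2⟩ := K.integral_chart i hint (by
    intro x hx
    rw [K.ext_off i b hx, zero_mul])
  have h3 : ∀ᵐ z : Cn n, z ∈ ball (0 : Cn n) 3 →
      (K.ext i b (K.κ i z) * K.RM ψ (K.κ i z)) * mad (K.ρ i) z =
        b z * mad (fun y => K.ρ i y + ψ (K.κ i y)) z := by
    filter_upwards [K.RM_chart hψ.c11 i] with z hz hz3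
    rw [hz hz3, K.ext_κ i b hz3]
    have h4 := (K.mad_ρ_pos i hz3).2.2
    field_simp
  have h4 : ∫ z in ball (0 : Cn n) 3,
      (K.ext i b (K.κ i z) * K.RM ψ (K.κ i z)) * mad (K.ρ i) z =
        ∫ z in ball (0 : Cn n) 3, b z * mad (fun y => K.ρ i y + ψ (K.κ i y)) z := by
    apply setIntegral_congr_ae measurableSet_ball h3
  have h5 : IntegrableOn (fun z => b z * mad (fun y => K.ρ i y + ψ (K.κ i y)) z)
      (ball (0 : Cn n) 3) := by
    refine h1.congr_fun_ae ?_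
    rw [Filter.EventuallyEq, ae_restrict_iff' measurableSet_ball]
    exact h3
  rw [h2, h4]
  have h6 : ∫ z in ball (0 : Cn n) 3, b z * mad (fun y => K.ρ i y + ψ (K.κ i y)) z ≤
      (∫⁻ z in ball (0 : Cn n) 3,
        ENNReal.ofReal (b z * mad (fun y => K.ρ i y + ψ (K.κ i y)) z)).toReal := by
    rw [integral_eq_lintegral_pos_part_sub_lintegral_neg_part h5]
    exact sub_le_self _ ENNReal.toReal_nonneg
  refine (ENNReal.ofReal_le_ofReal h6).trans (ENNReal.ofReal_toReal_le.trans ?_)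
  calc ∫⁻ z in ball (0 : Cn n) 3,
        ENNReal.ofReal (b z * mad (fun y => K.ρ i y + ψ (K.κ i y)) z)
      ≤ ∫⁻ z, ENNReal.ofReal (b z * mad (fun y => K.ρ i y + ψ (K.κ i y)) z) :=
        setLIntegral_le_lintegral _ _
    _ ≤ ∫⁻ z, W.indicator
        (fun z => ENNReal.ofReal (mad (fun y => K.ρ i y + ψ (K.κ i y)) z)) z := by
        apply lintegral_mono
        intro z
        by_cases hz : z ∈ W
        · simp only [indicator_of_mem hz]
          rcases le_total 0 (mad (fun y => K.ρ i y + ψ (K.κ i y)) z) with h | h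
          · apply ENNReal.ofReal_le_ofReal
            exact mul_le_of_le_one_left h (hb1 z).2
          · rw [ENNReal.ofReal_of_nonpos (mul_nonpos_of_nonneg_of_nonpos (hb1 z).1 h)]
            exact bot_le
        · have : b z = 0 := image_eq_zero_of_notMem_tsupport (fun h => hz (hbW h))
          simp [this]
    _ = _ := lintegral_indicator hW.measurableSet _

theorem KM.deep_well (hn : 1 ≤ n) (i : Fin K.N) : ∃ c C : ℝ, 0 < c ∧ 0 < C ∧
    ∀ (Φ : Cn n → Cn n) (s : Fin n → ℝ), DifferentiableOn ℂ Φ (pdisc n) → InjOn Φ (pdisc n) →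
      (∀ ζ ∈ pdisc n, Function.Injective (fderiv ℂ Φ ζ)) →
      MapsTo Φ (pdisc n) (ball 0 2) → (∀ j, 0 < s j ∧ s j < 1) →
      ∃ ψ : X → ℝ, WK K ψ ∧ (∀ ζ : Cn n, (∀ j, ‖ζ j‖ ≤ s j) → ψ (K.κ i (Φ ζ)) ≤ 0) ∧
        ∃ x, c * (∏ j, Real.log (1 / s j)) ^ ((n : ℝ)⁻¹) - C ≤ ψ x := by
  obtain ⟨C, hC1, hmass⟩ := K.polydisc_mass hn i
  haveI := K.vol_finite
  have hC0 : 0 < C := by linarith
  set V : ℝ := K.vol.real univ with hV
  have hV0 : 0 < V := by
    rw [hV, measureReal_def]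
    exact ENNReal.toReal_pos K.vol_pos.ne' (measure_ne_top _ _)
  set c : ℝ := 1 / 2 * (V / (2 * C)) ^ ((n : ℝ)⁻¹) with hc
  have hc0 : 0 < c := by positivity
  have hn0 : n ≠ 0 := by omega
  have hcn : c ^ n = (1 / 2) ^ n * (V / (2 * C)) := by
    rw [hc, mul_pow, Real.rpow_inv_natCast_pow (by positivity) hn0]
  refine ⟨c, C, hc0, hC0, ?_⟩
  intro Φ s hΦ hinj hder hmaps hs
  obtain ⟨W, hWo, hW2, hsW, hW⟩ := hmass Φ s hΦ hinj hder hmaps hs
  set T : ℝ := ∏ j, Real.log (1 / s j) with hT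
  have hTpos : 0 < T := by
    refine Finset.prod_pos fun j _ => Real.log_pos ?_
    rw [lt_div_iff₀ (hs j).1, one_mul]
    exact (hs j).2
  set M : ℝ := c * T ^ ((n : ℝ)⁻¹) - C with hM
  obtain ⟨x0⟩ := (inferInstance : Nonempty X)
  rcases lt_or_ge M 0 with hM0 | hM0
  · exact ⟨fun _ => 0, wk_const K 0, fun _ _ => le_refl _, x0, hM0.le⟩
  by_contra hcon
  push Not at hcon
  set Q : Set (Cn n) := Φ '' {ζ | ∀ j, ‖ζ j‖ ≤ s j} with hQ
  have hQc : IsCompact Q := by
    have h1 : IsCompact {ζ : Cn n | ∀ j, ‖ζ j‖ ≤ s j} := by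
      apply Metric.isCompact_of_isClosed_isBounded
      · have : {ζ : Cn n | ∀ j, ‖ζ j‖ ≤ s j} = ⋂ j, {ζ : Cn n | ‖ζ j‖ ≤ s j} := by
          ext ζ
          simp
        rw [this]
        refine isClosed_iInter fun j => ?_
        exact isClosed_le (by fun_prop) continuous_const
      · refine (isBounded_iff_forall_norm_le).2 ⟨Real.sqrt n, fun ζ hζ => ?_⟩
        rw [EuclideanSpace.norm_eq]
        apply Real.sqrt_le_sqrt
        calc ∑ j, ‖ζ j‖ ^ 2 ≤ ∑ _j : Fin n, (1 : ℝ) := by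
              apply Finset.sum_le_sum
              intro j _
              have h2 : ‖ζ j‖ ≤ 1 := (hζ j).trans (hs j).2.le
              exact pow_le_one₀ (norm_nonneg _) h2
          _ = n := by simp
    refine h1.image_of_continuousOn (hΦ.continuousOn.mono ?_)
    intro ζ hζ j
    exact (hζ j).trans_lt (hs j).2
  obtain ⟨b₀, b, ⟨hb0c, hb0W, hb01, hb0s⟩, hb, hsum⟩ := exists_partition' K i hQc hWo hsW hW2
  set η : ℝ := V / (4 * (K.N + 1)) with hη
  have hη0 : 0 < η := by positivity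
  obtain ⟨ψ, hψ, hψQ, hψM, hψη⟩ := K.almost_extremal (K.κ i '' Q) hM0 (by
      intro ψ hψ hψ0 x
      refine (hcon ψ hψ ?_ x).le
      intro ζ hζ
      exact hψ0 _ ⟨Φ ζ, ⟨ζ, hζ, rfl⟩, rfl⟩) b (fun j => (hb j).2.2.2.1)
    (fun j z => ((hb j).2.2.1 z).1) (fun j => (hb j).2.1) (fun j => (hb j).2.2.2.2) hη0
  obtain ⟨hi0, hle0⟩ := xWell_local_mass K i hWo hW2 hb0c hb0W hb01 hb0s hψ
  have hij : ∀ j, Integrable (fun x => K.ext j (b j) x * K.RM ψ x) K.vol := fun j =>
    (xWell_local_mass K j isOpen_ball subset_rfl (hb j).1 (hb j).2.1 (hb j).2.2.1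
      (hb j).2.2.2.1 hψ).1
  have hle0' := hle0.trans (hW ψ M hψ hM0 hψM)
  rw [ENNReal.ofReal_le_ofReal_iff (by positivity)] at hle0'
  have hVeq : V = (∫ x, K.ext i b₀ x * K.RM ψ x ∂K.vol) +
      ∑ j, ∫ x, K.ext j (b j) x * K.RM ψ x ∂K.vol := by
    rw [hV, ← K.mass hψ.c11, ← integral_finset_sum _ (fun j _ => hij j),
      ← integral_add hi0 (integrable_finset_sum _ fun j _ => hij j)]
    congr 1
    funext x
    rw [← Finset.sum_mul, ← add_mul, hsum x, one_mul]
  have hsumle : ∑ j, ∫ x, K.ext j (b j) x * K.RM ψ x ∂K.vol ≤ V / 4 := by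
    calc ∑ j, ∫ x, K.ext j (b j) x * K.RM ψ x ∂K.vol ≤ ∑ _j : Fin K.N, η :=
          Finset.sum_le_sum fun j _ => hψη j
      _ = K.N * η := by simp
      _ ≤ V / 4 := by
          rw [hη]
          have : (0 : ℝ) < K.N + 1 := by positivity
          rw [mul_div_assoc', div_le_div_iff₀ (by positivity) (by norm_num)]
          nlinarith
  have hmain : (M + C) ^ n * C * T⁻¹ ≤ V / 4 := by
    have h1 : M + C = c * T ^ ((n : ℝ)⁻¹) := by rw [hM]; ring
    have h2 : (M + C) ^ n = c ^ n * T := by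
      rw [h1, mul_pow, Real.rpow_inv_natCast_pow hTpos.le hn0]
    rw [h2, hcn]
    have h3 : ((1 : ℝ) / 2) ^ n ≤ 1 / 2 := by
      calc ((1 : ℝ) / 2) ^ n ≤ (1 / 2) ^ 1 :=
            pow_le_pow_of_le_one (by norm_num) (by norm_num) hn
        _ = 1 / 2 := pow_one _
    have h4 : (1 / 2) ^ n * (V / (2 * C)) * T * C * T⁻¹ = (1 / 2) ^ n * (V / 2) := by
      field_simp
    rw [h4]
    nlinarith
  linarith

end HMA
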