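import Pool.Agent.H85.KM.UUnif
import Pool.Agent.H85.KM.XWell

/-! # Module UPoly: the capacity type condition in the charts -/

open MeasureTheory Metric Set
open scoped ENNReal Topology ContDiff ComplexOrder

namespace HMA

variable {n : ℕ} {X : Type} [TopologicalSpace X] (K : KM n X)

/-- the part of `μ` over the set `S`, in the chart `i` -/
noncomputable def KM.pull [MeasurableSpace X] (μ : Measure X) (i : Fin K.N) (S : Set X) :
    Measure (Cn n) :=
  (μ.restrict (S ∩ K.κ i '' ball 0 1)).map (Function.invFunOn (K.κ i) (ball 0 3))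

theorem uPoly_apply [MeasurableSpace X] [BorelSpace X] (μ : Measure X) (i : Fin K.N) {S : Set X}
    (hS : MeasurableSet S) {E : Set (Cn n)} (hE : MeasurableSet E) :
    K.pull μ i S E = μ (Function.invFunOn (K.κ i) (ball 0 3) ⁻¹' E ∩ (S ∩ K.κ i '' ball 0 1)) := by
  have h1 : IsOpen (K.κ i '' ball 0 1) :=
    K.isOpen_image i _ (ball_subset_ball (by norm_num)) isOpen_ball
  have h2 : MeasurableSet (S ∩ K.κ i '' ball 0 1) := hS.inter h1.measurableSet
  have h3 : ContinuousOn (Function.invFunOn (K.κ i) (ball 0 3)) (K.κ i '' ball 0 3) := K.inv_cont i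
  have h4 : AEMeasurable (Function.invFunOn (K.κ i) (ball 0 3))
      (μ.restrict (S ∩ K.κ i '' ball 0 1)) := by
    have h5 : AEMeasurable (Function.invFunOn (K.κ i) (ball 0 3))
      (μ.restrict (K.κ i '' ball 0 3)) := h3.aemeasurable (K.isOpen_range i).measurableSet
    refine h5.mono_measure ?_
    exact Measure.restrict_mono (inter_subset_right.trans
      (image_mono (ball_subset_ball (by norm_num)))) le_rfl
  rw [KM.pull, Measure.map_apply_of_aemeasurable h4 hE, Measure.restrict_apply' h2]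

theorem uPoly_one [CompactSpace X] [T2Space X] [ConnectedSpace X] [MeasurableSpace X]
    [BorelSpace X] {μ : Measure X} [IsProbabilityMeasure μ] {ε C₁ : ℝ} (hε : 0 < ε)
    (hC₁ : 0 < C₁)
    (hunif : ∀ F : X → ℝ, KPsh K F → (∀ x, F x ≤ 1) → (∃ x, 1 ≤ F x) →
        ∫⁻ x, (ENNReal.ofReal (F x)) ^ (-ε) ∂μ ≤ ENNReal.ofReal C₁)
    {ψ : X → ℝ} (hψ : WK K ψ) {M : ℝ} (hM : ∃ x, M ≤ ψ x) :
    μ {x | ψ x ≤ 0} ≤ ENNReal.ofReal (C₁ * Real.exp (-(ε * M))) := by
  have hF₀ : KPsh K (fun x => Real.exp (ψ x)) := kpsh_of_wk K hψ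
  obtain ⟨x₀, -, hx₀⟩ := hF₀.exists_max
  have hmax : ∀ x, ψ x ≤ ψ x₀ := fun x => Real.exp_le_exp.1 (hx₀ x)
  have hMx : M ≤ ψ x₀ := by
    obtain ⟨x, hx⟩ := hM
    exact hx.trans (hmax x)
  have hF : KPsh K (fun x => Real.exp (-ψ x₀) * Real.exp (ψ x)) :=
    KPsh.const_mul K hF₀ (Real.exp_pos _)
  have hF1 : ∀ x, Real.exp (-ψ x₀) * Real.exp (ψ x) ≤ 1 := by
    intro x
    rw [← Real.exp_add, Real.exp_le_one_iff]
    linarith [hmax x]
  have hF2 : ∃ x, 1 ≤ Real.exp (-ψ x₀) * Real.exp (ψ x) := by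
    refine ⟨x₀, ?_⟩
    rw [← Real.exp_add, neg_add_cancel, Real.exp_zero]
  have h := hunif _ hF hF1 hF2
  have hmeas : Measurable (fun x => (ENNReal.ofReal (Real.exp (-ψ x₀) * Real.exp (ψ x))) ^ (-ε)) := by
    have h1 : Measurable (fun x => Real.exp (-ψ x₀) * Real.exp (ψ x)) := (KPsh.usc K hF).measurable
    exact (ENNReal.measurable_ofReal.comp h1).pow_const _
  have hmk := mul_meas_ge_le_lintegral (μ := μ) hmeas (ENNReal.ofReal (Real.exp (ε * ψ x₀)))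
  have hsub : {x | ψ x ≤ 0} ⊆ {x | ENNReal.ofReal (Real.exp (ε * ψ x₀)) ≤
      (ENNReal.ofReal (Real.exp (-ψ x₀) * Real.exp (ψ x))) ^ (-ε)} := by
    intro x hx
    have hx' : ψ x ≤ 0 := hx
    rw [mem_ofPred_eq, ENNReal.ofReal_rpow_of_pos (by positivity)]
    refine ENNReal.ofReal_le_ofReal ?_
    rw [← Real.exp_add, ← Real.exp_mul, Real.exp_le_exp]
    nlinarith
  have h2 : ENNReal.ofReal (Real.exp (ε * ψ x₀)) * μ {x | ψ x ≤ 0} ≤ ENNReal.ofReal C₁ :=
    (mul_le_mul_right (measure_mono hsub) _).trans (hmk.trans h)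
  calc μ {x | ψ x ≤ 0}
      = ENNReal.ofReal (Real.exp (-(ε * ψ x₀))) *
        (ENNReal.ofReal (Real.exp (ε * ψ x₀)) * μ {x | ψ x ≤ 0}) := by
        rw [← mul_assoc, ← ENNReal.ofReal_mul (Real.exp_pos _).le, ← Real.exp_add,
          neg_add_cancel, Real.exp_zero, ENNReal.ofReal_one, one_mul]
    _ ≤ ENNReal.ofReal (Real.exp (-(ε * ψ x₀))) * ENNReal.ofReal C₁ := mul_le_mul_right h2 _
    _ = ENNReal.ofReal (C₁ * Real.exp (-(ε * ψ x₀))) := by
        rw [← ENNReal.ofReal_mul (Real.exp_pos _).le, mul_comm]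
    _ ≤ ENNReal.ofReal (C₁ * Real.exp (-(ε * M))) := by
        refine ENNReal.ofReal_le_ofReal (mul_le_mul_of_nonneg_left ?_ hC₁.le)
        rw [Real.exp_le_exp]
        nlinarith

theorem KM.pull_polyB [CompactSpace X] [T2Space X] [ConnectedSpace X] [MeasurableSpace X]
    [BorelSpace X] (hn : 1 ≤ n) {μ : Measure X} [IsProbabilityMeasure μ] (hμ : KModerate K μ) :
    ∃ C ε : ℝ, 0 < C ∧ 0 < ε ∧ ∀ (i : Fin K.N) (S : Set X), MeasurableSet S →
      K.pull μ i S univ ≤ 1 ∧ K.pull μ i S {z | 1 < ‖z‖} = 0 ∧ PolyB n (K.pull μ i S) C ε := by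
  obtain ⟨ε, hε, -, hunif⟩ := K.unif hn hμ
  obtain ⟨C₁, hC₁, hunif⟩ := hunif 1 one_pos
  choose c C hc hC hwell using fun i => K.deep_well hn i
  obtain ⟨Cm, hCm⟩ := Finite.bddAbove_range C
  obtain ⟨cm, hcm⟩ := Finite.bddAbove_range (fun i => (c i)⁻¹)
  have hCm' : ∀ i, C i ≤ Cm := fun i => hCm ⟨i, rfl⟩
  have hcm' : ∀ i, (c i)⁻¹ ≤ |cm| + 1 := fun i =>
    (hcm ⟨i, rfl⟩).trans ((le_abs_self _).trans (by linarith))
  have hcpos : (0 : ℝ) < (|cm| + 1)⁻¹ := by positivity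
  have hcle : ∀ i, (|cm| + 1)⁻¹ ≤ c i := fun i => inv_le_of_inv_le₀ (hc i) (hcm' i)
  refine ⟨C₁ * Real.exp (ε * Cm), ε * (|cm| + 1)⁻¹, by positivity, by positivity, ?_⟩
  intro i S hS
  refine ⟨?_, ?_, ?_⟩
  · rw [uPoly_apply K μ i hS MeasurableSet.univ]
    exact prob_le_one
  · rw [uPoly_apply K μ i hS (measurableSet_lt measurable_const measurable_norm)]
    have : Function.invFunOn (K.κ i) (ball 0 3) ⁻¹' {z | 1 < ‖z‖} ∩ (S ∩ K.κ i '' ball 0 1) = ∅ := by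
      ext x
      simp only [mem_inter_iff, mem_preimage, mem_ofPred_eq, mem_empty_iff_false, iff_false]
      rintro ⟨h1, -, z, hz, rfl⟩
      rw [xtop_linv K i (ball_subset_ball (by norm_num) hz)] at h1
      rw [mem_ball_zero_iff] at hz
      linarith
    rw [this, measure_empty]
  · intro Φ s hΦ hinj hder hmaps hs
    obtain ⟨ψ, hψ, hψ0, hψM⟩ := hwell i Φ s hΦ hinj hder hmaps hs
    have hsub : {ζ : Cn n | ∀ j, ‖ζ j‖ ≤ s j} ⊆ pdisc n := fun ζ hζ j => (hζ j).trans_lt (hs j).2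
    have hcomp : IsCompact {ζ : Cn n | ∀ j, ‖ζ j‖ ≤ s j} := by
      refine Metric.isCompact_of_isClosed_isBounded ?_ ?_
      · have : {ζ : Cn n | ∀ j, ‖ζ j‖ ≤ s j} = ⋂ j, {ζ : Cn n | ‖ζ j‖ ≤ s j} := by
          ext ζ
          simp
        rw [this]
        exact isClosed_iInter fun j => isClosed_le
          ((PiLp.continuous_apply 2 (fun _ : Fin n => ℂ) j).norm) continuous_const
      · rw [isBounded_iff_forall_norm_le]
        refine ⟨Real.sqrt (∑ _j : Fin n, (1 : ℝ) ^ 2), fun ζ hζ => ?_⟩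
        rw [EuclideanSpace.norm_eq]
        refine Real.sqrt_le_sqrt (Finset.sum_le_sum fun j _ => ?_)
        exact pow_le_pow_left₀ (norm_nonneg _) ((hζ j).trans (hs j).2.le) 2
    have hE : MeasurableSet (Φ '' {ζ : Cn n | ∀ j, ‖ζ j‖ ≤ s j}) :=
      (hcomp.image_of_continuousOn (hΦ.continuousOn.mono hsub)).isClosed.measurableSet
    rw [uPoly_apply K μ i hS hE]
    have h1 : Function.invFunOn (K.κ i) (ball 0 3) ⁻¹' (Φ '' {ζ : Cn n | ∀ j, ‖ζ j‖ ≤ s j}) ∩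
        (S ∩ K.κ i '' ball 0 1) ⊆ {x | ψ x ≤ 0} := by
      rintro x ⟨h1, -, z, hz, rfl⟩
      rw [mem_preimage, xtop_linv K i (ball_subset_ball (by norm_num) hz)] at h1
      obtain ⟨ζ, hζ, rfl⟩ := h1
      exact hψ0 ζ hζ
    refine (measure_mono h1).trans ((uPoly_one K hε hC₁ hunif hψ hψM).trans ?_)
    refine ENNReal.ofReal_le_ofReal ?_
    rw [mul_assoc, ← Real.exp_add]
    refine mul_le_mul_of_nonneg_left ?_ hC₁.le
    rw [Real.exp_le_exp]
    have hT : 0 ≤ (∏ j, Real.log (1 / s j)) ^ ((n : ℝ)⁻¹) := by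
      refine Real.rpow_nonneg (Finset.prod_nonneg fun j _ => Real.log_nonneg ?_) _
      rw [le_div_iff₀ (hs j).1, one_mul]
      exact (hs j).2.le
    set T := (∏ j, Real.log (1 / s j)) ^ ((n : ℝ)⁻¹) with hTdef
    have h3 : ε * ((|cm| + 1)⁻¹ * T) ≤ ε * (c i * T) :=
      mul_le_mul_of_nonneg_left (mul_le_mul_of_nonneg_right (hcle i) hT) hε.le
    have h4 : ε * C i ≤ ε * Cm := mul_le_mul_of_nonneg_left (hCm' i) hε.le
    nlinarith

end HMA
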