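import Pool.Agent.H85.KM.UChain
import Pool.Agent.H85.MA.ProdPsh

/-! # Module UProd: infinite geometric means -/

open MeasureTheory Metric Set
open scoped ENNReal Topology ContDiff ComplexOrder

namespace HMA

section UProdAux

open Filter

variable {n : ℕ} {Ω : Set (Cn n)}

theorem uprod_circ {a b : Cn n} (h : ∀ ζ : ℂ, ‖ζ‖ ≤ 1 → a + ζ • b ∈ Ω) (θ : ℝ) :
    a + Complex.exp (θ * Complex.I) • b ∈ Ω := h _ (by rw [Complex.norm_exp_ofReal_mul_I])

theorem uprod_center {a b : Cn n} (h : ∀ ζ : ℂ, ‖ζ‖ ≤ 1 → a + ζ • b ∈ Ω) : a ∈ Ω := by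
  simpa using h 0 (by simp)

theorem uprod_bdd {F : Cn n → ℝ} (hF : UpperSemicontinuousOn F Ω) {a b : Cn n}
    (h : ∀ ζ : ℂ, ‖ζ‖ ≤ 1 → a + ζ • b ∈ Ω) :
    ∃ M : ℝ, 1 ≤ M ∧ ∀ θ : ℝ, F (a + Complex.exp (θ * Complex.I) • b) ≤ M := by
  have hK : IsCompact ((fun ζ : ℂ => a + ζ • b) '' sphere 0 1) :=
    (isCompact_sphere 0 1).image (by fun_prop)
  have hs : ((fun ζ : ℂ => a + ζ • b) '' sphere 0 1) ⊆ Ω := by
    rintro _ ⟨ζ, hζ, rfl⟩
    exact h ζ (by rw [mem_sphere_zero_iff_norm] at hζ; exact hζ.le)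
  obtain ⟨M, hM⟩ := (hF.mono hs).bddAbove_of_isCompact hK
  refine ⟨max M 1, le_max_right _ _, fun θ => le_max_of_le_left (hM ⟨_, ⟨_, ?_, rfl⟩, rfl⟩)⟩
  rw [mem_sphere_zero_iff_norm, Complex.norm_exp_ofReal_mul_I]

theorem uprod_meas {F : Cn n → ℝ} (hF : UpperSemicontinuousOn F Ω) {a b : Cn n}
    (h : ∀ ζ : ℂ, ‖ζ‖ ≤ 1 → a + ζ • b ∈ Ω) :
    Measurable (fun θ : ℝ => F (a + Complex.exp (θ * Complex.I) • b)) := by
  have hg : Continuous (fun θ : ℝ => a + Complex.exp (θ * Complex.I) • b) := by fun_prop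
  have hu : UpperSemicontinuous (fun θ : ℝ => F (a + Complex.exp (θ * Complex.I) • b)) := by
    intro θ y hy
    have h1 := hF _ (uprod_circ h θ) y hy
    have h2 : Tendsto (fun θ : ℝ => a + Complex.exp (θ * Complex.I) • b) (𝓝 θ)
        (𝓝[Ω] (a + Complex.exp (θ * Complex.I) • b)) :=
      tendsto_nhdsWithin_iff.2 ⟨hg.continuousAt, Eventually.of_forall fun t => uprod_circ h t⟩
    exact h2.eventually h1
  exact hu.measurable

theorem uprod_usc_mul {F F' : Cn n → ℝ} (hF : UpperSemicontinuousOn F Ω)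
    (hF' : UpperSemicontinuousOn F' Ω) (h0 : ∀ x ∈ Ω, 0 ≤ F x) (h0' : ∀ x ∈ Ω, 0 ≤ F' x) :
    UpperSemicontinuousOn (fun x => F x * F' x) Ω := by
  intro x hx y hy
  have hc : Continuous (fun ε : ℝ => (F x + ε) * (F' x + ε)) := by fun_prop
  have hev : ∀ᶠ ε in 𝓝 (0 : ℝ), (F x + ε) * (F' x + ε) < y := by
    apply hc.continuousAt.eventually_lt continuousAt_const
    simpa using hy
  obtain ⟨ε, hε', hε⟩ := ((hev.filter_mono nhdsWithin_le_nhds).and
    (self_mem_nhdsWithin : Ioi (0 : ℝ) ∈ 𝓝[>] 0)).exists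
  have hε0 : 0 < ε := hε
  filter_upwards [hF x hx (F x + ε) (by linarith), hF' x hx (F' x + ε) (by linarith),
    self_mem_nhdsWithin] with z hz hz' hzΩ
  calc F z * F' z ≤ (F x + ε) * (F' x + ε) :=
        mul_le_mul hz.le hz'.le (h0' z hzΩ) (by linarith [h0 x hx])
    _ < y := hε'

theorem uprod_usc_rpow {F : Cn n → ℝ} (hF : UpperSemicontinuousOn F Ω) (h0 : ∀ x ∈ Ω, 0 ≤ F x)
    {c : ℝ} (hc : 0 < c) : UpperSemicontinuousOn (fun x => F x ^ c) Ω := by
  intro x hx y hy
  have hcc : Continuous (fun ε : ℝ => (max (F x + ε) 0) ^ c) := by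
    refine Continuous.rpow_const ?_ (fun _ => Or.inr hc.le)
    fun_prop
  have hev : ∀ᶠ ε in 𝓝 (0 : ℝ), (max (F x + ε) 0) ^ c < y := by
    apply hcc.continuousAt.eventually_lt continuousAt_const
    simp only [add_zero]
    rwa [max_eq_left (h0 x hx)]
  obtain ⟨ε, hε', hε⟩ := ((hev.filter_mono nhdsWithin_le_nhds).and
    (self_mem_nhdsWithin : Ioi (0 : ℝ) ∈ 𝓝[>] 0)).exists
  have hε0 : 0 < ε := hε
  filter_upwards [hF x hx (F x + ε) (by linarith), self_mem_nhdsWithin] with z hz hzΩ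
  calc F z ^ c ≤ (max (F x + ε) 0) ^ c :=
        Real.rpow_le_rpow (h0 z hzΩ) (hz.le.trans (le_max_left _ _)) hc.le
    _ < y := hε'

/-- truncated sub-mean value inequality for a product of powers -/
theorem uprod_trunc {F F' : Cn n → ℝ} (hF : PshOn Ω F) (hF' : PshOn Ω F') {c c' : ℝ} (hc : 0 < c)
    (hc' : 0 < c') {δ η : ℝ} (hδ : 0 < δ) (hη : 0 < η) {a b : Cn n}
    (hab : ∀ ζ : ℂ, ‖ζ‖ ≤ 1 → a + ζ • b ∈ Ω) :
    Real.log (max (max (F a) η ^ c * max (F' a) η ^ c') δ) ≤ (2 * Real.pi)⁻¹ *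
      ∫ θ in (0 : ℝ)..(2 * Real.pi), Real.log (max (max (F (a + Complex.exp (θ * Complex.I) • b)) η ^ c *
        max (F' (a + Complex.exp (θ * Complex.I) • b)) η ^ c') δ) := by
  obtain ⟨M, hM1, hM⟩ := uprod_bdd hF.usc hab
  obtain ⟨M', hM1', hM'⟩ := uprod_bdd hF'.usc hab
  have hpos : ∀ z, 0 < max (F z) η := fun z => lt_of_lt_of_le hη (le_max_right _ _)
  have hpos' : ∀ z, 0 < max (F' z) η := fun z => lt_of_lt_of_le hη (le_max_right _ _)
  have hform : ∀ z, Real.log (max (max (F z) η ^ c * max (F' z) η ^ c') δ) =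
      max (c * Real.log (max (F z) η) + c' * Real.log (max (F' z) η)) (Real.log δ) := by
    intro z
    have h1 : 0 < max (F z) η ^ c * max (F' z) η ^ c' :=
      mul_pos (Real.rpow_pos_of_pos (hpos z) _) (Real.rpow_pos_of_pos (hpos' z) _)
    have h2 : Real.log (max (F z) η ^ c * max (F' z) η ^ c') =
        c * Real.log (max (F z) η) + c' * Real.log (max (F' z) η) := by
      rw [Real.log_mul (Real.rpow_pos_of_pos (hpos z) _).ne'
        (Real.rpow_pos_of_pos (hpos' z) _).ne', Real.log_rpow (hpos z), Real.log_rpow (hpos' z)]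
    rw [← h2]
    rcases le_total (max (F z) η ^ c * max (F' z) η ^ c') δ with h | h
    · rw [max_eq_right h, max_eq_right (Real.log_le_log h1 h)]
    · rw [max_eq_left h, max_eq_left (Real.log_le_log hδ h)]
  have hm : Measurable (fun θ : ℝ => F (a + Complex.exp (θ * Complex.I) • b)) :=
    uprod_meas hF.usc hab
  have hm' : Measurable (fun θ : ℝ => F' (a + Complex.exp (θ * Complex.I) • b)) :=
    uprod_meas hF'.usc hab
  simp only [hform]
  have hu : Measurable (fun θ : ℝ =>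
      Real.log (max (F (a + Complex.exp (θ * Complex.I) • b)) η)) :=
    Real.measurable_log.comp (hm.max measurable_const)
  have hu' : Measurable (fun θ : ℝ =>
      Real.log (max (F' (a + Complex.exp (θ * Complex.I) • b)) η)) :=
    Real.measurable_log.comp (hm'.max measurable_const)
  have hub : ∀ θ : ℝ, |Real.log (max (F (a + Complex.exp (θ * Complex.I) • b)) η)| ≤
      |Real.log η| + |Real.log (max M η)| := fun θ => ProdPsh_logb hη (hM θ)
  have hub' : ∀ θ : ℝ, |Real.log (max (F' (a + Complex.exp (θ * Complex.I) • b)) η)| ≤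
      |Real.log η| + |Real.log (max M' η)| := fun θ => ProdPsh_logb hη (hM' θ)
  set B := |Real.log η| + |Real.log (max M η)| with hB
  set B' := |Real.log η| + |Real.log (max M' η)| with hB'
  have hv : Measurable (fun θ : ℝ =>
      c * Real.log (max (F (a + Complex.exp (θ * Complex.I) • b)) η) +
        c' * Real.log (max (F' (a + Complex.exp (θ * Complex.I) • b)) η)) :=
    (hu.const_mul c).add (hu'.const_mul c')
  have hvb : ∀ θ : ℝ, |c * Real.log (max (F (a + Complex.exp (θ * Complex.I) • b)) η) +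
        c' * Real.log (max (F' (a + Complex.exp (θ * Complex.I) • b)) η)| ≤ c * B + c' * B' := by
    intro θ
    refine (abs_add_le _ _).trans (add_le_add ?_ ?_)
    · rw [abs_mul, abs_of_pos hc]
      exact mul_le_mul_of_nonneg_left (hub θ) hc.le
    · rw [abs_mul, abs_of_pos hc']
      exact mul_le_mul_of_nonneg_left (hub' θ) hc'.le
  have hwb : ∀ θ : ℝ, |max (c * Real.log (max (F (a + Complex.exp (θ * Complex.I) • b)) η) +
        c' * Real.log (max (F' (a + Complex.exp (θ * Complex.I) • b)) η)) (Real.log δ)| ≤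
        max (c * B + c' * B') |Real.log δ| := fun θ =>
    (abs_max_le_max_abs_abs).trans (max_le_max_right _ (hvb θ))
  refine max_le ?_ ?_
  · have h1 := hF.submean η hη a b hab
    have h2 := hF'.submean η hη a b hab
    have h3 : (2 * Real.pi)⁻¹ * ∫ θ in (0 : ℝ)..(2 * Real.pi),
        (c * Real.log (max (F (a + Complex.exp (θ * Complex.I) • b)) η) +
        c' * Real.log (max (F' (a + Complex.exp (θ * Complex.I) • b)) η)) =
        c * ((2 * Real.pi)⁻¹ * ∫ θ in (0 : ℝ)..(2 * Real.pi),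
          Real.log (max (F (a + Complex.exp (θ * Complex.I) • b)) η)) +
        c' * ((2 * Real.pi)⁻¹ * ∫ θ in (0 : ℝ)..(2 * Real.pi),
          Real.log (max (F' (a + Complex.exp (θ * Complex.I) • b)) η)) := by
      rw [intervalIntegral.integral_add ((ProdPsh_int hu hub).const_mul c)
        ((ProdPsh_int hu' hub').const_mul c'), intervalIntegral.integral_const_mul,
        intervalIntegral.integral_const_mul]
      ring
    have h4 := mul_le_mul_of_nonneg_left h1 hc.le
    have h5 := mul_le_mul_of_nonneg_left h2 hc'.le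
    refine le_trans (add_le_add h4 h5) ?_
    rw [← h3]
    exact ProdPsh_mono hv hvb (hv.max measurable_const) hwb fun θ => le_max_left _ _
  · have h1 := ProdPsh_mean_const (Real.log δ)
    rw [← h1]
    conv_rhs => rw [h1]
    exact ProdPsh_mono measurable_const (fun _ => le_refl |Real.log δ|)
      (hv.max measurable_const) hwb fun θ => le_max_right _ _

theorem uprod_mul {F F' : Cn n → ℝ} (hF : PshOn Ω F) (hF' : PshOn Ω F') {c c' : ℝ} (hc : 0 < c)
    (hc' : 0 < c') : PshOn Ω (fun x => F x ^ c * F' x ^ c') where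
  nonneg x hx := mul_nonneg (Real.rpow_nonneg (hF.nonneg x hx) _)
    (Real.rpow_nonneg (hF'.nonneg x hx) _)
  usc := uprod_usc_mul (uprod_usc_rpow hF.usc hF.nonneg hc)
    (uprod_usc_rpow hF'.usc hF'.nonneg hc') (fun x hx => Real.rpow_nonneg (hF.nonneg x hx) _)
    (fun x hx => Real.rpow_nonneg (hF'.nonneg x hx) _)
  submean := by
    intro δ hδ a b hab
    obtain ⟨M, hM1, hM⟩ := uprod_bdd hF.usc hab
    obtain ⟨M', hM1', hM'⟩ := uprod_bdd hF'.usc hab
    have hη : ∀ m : ℕ, (0 : ℝ) < 1 / ((m : ℝ) + 1) := fun m => Nat.one_div_pos_of_nat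
    have hη1 : ∀ m : ℕ, 1 / ((m : ℝ) + 1) ≤ 1 := fun m => by
      rw [div_le_one (by positivity)]
      have : (0 : ℝ) ≤ m := Nat.cast_nonneg m
      linarith
    have hlim : ∀ z ∈ Ω, Tendsto (fun m : ℕ => Real.log (max (max (F z) (1 / ((m : ℝ) + 1)) ^ c *
        max (F' z) (1 / ((m : ℝ) + 1)) ^ c') δ)) atTop
        (𝓝 (Real.log (max (F z ^ c * F' z ^ c') δ))) := by
      intro z hz
      have h1 : Tendsto (fun m : ℕ => max (F z) (1 / ((m : ℝ) + 1))) atTop (𝓝 (F z)) := by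
        have h2 : Tendsto (fun m : ℕ => max (F z) (1 / ((m : ℝ) + 1))) atTop
            (𝓝 (max (F z) 0)) := tendsto_const_nhds.max tendsto_one_div_add_atTop_nhds_zero_nat
        rwa [max_eq_left (hF.nonneg z hz)] at h2
      have h1' : Tendsto (fun m : ℕ => max (F' z) (1 / ((m : ℝ) + 1))) atTop (𝓝 (F' z)) := by
        have h2 : Tendsto (fun m : ℕ => max (F' z) (1 / ((m : ℝ) + 1))) atTop
            (𝓝 (max (F' z) 0)) := tendsto_const_nhds.max tendsto_one_div_add_atTop_nhds_zero_nat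
        rwa [max_eq_left (hF'.nonneg z hz)] at h2
      have h3 := (h1.rpow_const (p := c) (Or.inr hc.le)).mul
        (h1'.rpow_const (p := c') (Or.inr hc'.le))
      have h4 := h3.max (tendsto_const_nhds (x := δ))
      exact h4.log (ne_of_gt (lt_of_lt_of_le hδ (le_max_right _ _)))
    refine ProdPsh_lim (C := |Real.log δ| + |Real.log (max (M ^ c * M' ^ c') δ)|) ?_ ?_
      (fun θ => hlim (a + Complex.exp (θ * Complex.I) • b) (uprod_circ hab θ))
      (hlim a (uprod_center hab))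
      (fun m => uprod_trunc hF hF' hc hc' hδ (hη m) hab)
    · intro m
      have h1 := (uprod_meas hF.usc hab).max (measurable_const (a := 1 / ((m : ℝ) + 1)))
      have h2 := (uprod_meas hF'.usc hab).max (measurable_const (a := 1 / ((m : ℝ) + 1)))
      exact Real.measurable_log.comp
        (((h1.pow_const c).mul (h2.pow_const c')).max measurable_const)
    · intro m θ
      refine ProdPsh_logb hδ (mul_le_mul ?_ ?_ ?_ ?_)
      · exact Real.rpow_le_rpow ((hη m).le.trans (le_max_right _ _))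
          (max_le (hM θ) ((hη1 m).trans hM1)) hc.le
      · exact Real.rpow_le_rpow ((hη m).le.trans (le_max_right _ _))
          (max_le (hM' θ) ((hη1 m).trans hM1')) hc'.le
      · exact Real.rpow_nonneg ((hη m).le.trans (le_max_right _ _)) _
      · exact Real.rpow_nonneg (zero_le_one.trans hM1) _

theorem uprod_usc_inf {F : ℕ → Cn n → ℝ} (hF : ∀ k, UpperSemicontinuousOn (F k) Ω)
    (h0 : ∀ k, ∀ x ∈ Ω, 0 ≤ F k x) : UpperSemicontinuousOn (fun x => ⨅ k, F k x) Ω := by
  intro x hx y hy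
  obtain ⟨k, hk⟩ := exists_lt_of_ciInf_lt hy
  filter_upwards [hF k x hx y hk, self_mem_nhdsWithin] with z hz hzΩ
  exact lt_of_le_of_lt (ciInf_le ⟨0, by
    rintro _ ⟨m, rfl⟩
    exact h0 m z hzΩ⟩ k) hz

theorem uprod_inf {F : ℕ → Cn n → ℝ} (hF : ∀ k, PshOn Ω (F k))
    (ha : ∀ x ∈ Ω, Antitone (fun k => F k x)) : PshOn Ω (fun x => ⨅ k, F k x) where
  nonneg x hx := Real.iInf_nonneg fun k => (hF k).nonneg x hx
  usc := uprod_usc_inf (fun k => (hF k).usc) (fun k => (hF k).nonneg)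
  submean := by
    intro δ hδ a b hab
    obtain ⟨M, hM1, hM⟩ := uprod_bdd (hF 0).usc hab
    have hlim : ∀ z ∈ Ω, Tendsto (fun k : ℕ => Real.log (max (F k z) δ)) atTop
        (𝓝 (Real.log (max (⨅ k, F k z) δ))) := by
      intro z hz
      have h1 : Tendsto (fun k => F k z) atTop (𝓝 (⨅ k, F k z)) :=
        tendsto_atTop_ciInf (ha z hz) ⟨0, by
          rintro _ ⟨k, rfl⟩
          exact (hF k).nonneg z hz⟩
      have h4 := h1.max (tendsto_const_nhds (x := δ))
      exact h4.log (ne_of_gt (lt_of_lt_of_le hδ (le_max_right _ _)))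
    refine ProdPsh_lim (C := |Real.log δ| + |Real.log (max M δ)|) ?_ ?_
      (fun θ => hlim (a + Complex.exp (θ * Complex.I) • b) (uprod_circ hab θ))
      (hlim a (uprod_center hab))
      (fun k => (hF k).submean δ hδ a b hab)
    · intro k
      exact Real.measurable_log.comp ((uprod_meas (hF k).usc hab).max measurable_const)
    · intro k θ
      exact ProdPsh_logb hδ ((ha _ (uprod_circ hab θ) (Nat.zero_le k)).trans (hM θ))

theorem uprod_one : PshOn Ω (fun _ : Cn n => (1 : ℝ)) where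
  nonneg _ _ := zero_le_one
  usc := fun x _ y hy => Eventually.of_forall fun _ => hy
  submean := by
    intro δ _ a b _
    rw [ProdPsh_mean_const]

theorem uprod_exp {u : Cn n → ℝ} (hu : SubOn Ω u) (hc : ContinuousOn u Ω) :
    PshOn Ω (fun z => Real.exp (u z)) where
  nonneg _ _ := (Real.exp_pos _).le
  usc := (Real.continuous_exp.comp_continuousOn hc).upperSemicontinuousOn
  submean := by
    intro δ hδ a b hab
    have hform : ∀ z, Real.log (max (Real.exp (u z)) δ) = max (u z) (Real.log δ) := by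
      intro z
      rcases le_total (Real.exp (u z)) δ with h | h
      · rw [max_eq_right h, max_eq_right]
        rw [← Real.log_exp (u z)]
        exact Real.log_le_log (Real.exp_pos _) h
      · rw [max_eq_left h, Real.log_exp, max_eq_left]
        rw [← Real.log_exp (u z)]
        exact Real.log_le_log hδ h
    simp only [hform]
    have hg : Continuous (fun θ : ℝ => u (a + Complex.exp (θ * Complex.I) • b)) := by
      have h1 : Continuous (fun θ : ℝ => a + Complex.exp (θ * Complex.I) • b) := by fun_prop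
      exact hc.comp_continuous h1 (fun θ => uprod_circ hab θ)
    have hK : ∃ M : ℝ, ∀ θ : ℝ, |u (a + Complex.exp (θ * Complex.I) • b)| ≤ M := by
      have hK : IsCompact ((fun ζ : ℂ => a + ζ • b) '' sphere 0 1) :=
        (isCompact_sphere 0 1).image (by fun_prop)
      have hs : ((fun ζ : ℂ => a + ζ • b) '' sphere 0 1) ⊆ Ω := by
        rintro _ ⟨ζ, hζ, rfl⟩
        exact hab ζ (by rw [mem_sphere_zero_iff_norm] at hζ; exact hζ.le)
      obtain ⟨M, hM⟩ := hK.exists_bound_of_continuousOn (hc.mono hs)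
      refine ⟨M, fun θ => ?_⟩
      have := hM (a + Complex.exp (θ * Complex.I) • b) ⟨_, by
        rw [mem_sphere_zero_iff_norm, Complex.norm_exp_ofReal_mul_I], rfl⟩
      rwa [Real.norm_eq_abs] at this
    obtain ⟨M, hM⟩ := hK
    have hwb : ∀ θ : ℝ, |max (u (a + Complex.exp (θ * Complex.I) • b)) (Real.log δ)| ≤
        max M |Real.log δ| := fun θ => (abs_max_le_max_abs_abs).trans (max_le_max_right _ (hM θ))
    refine max_le ?_ ?_
    · refine (hu a b hab).trans ?_
      exact ProdPsh_mono hg.measurable hM (hg.measurable.max measurable_const) hwb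
        fun θ => le_max_left _ _
    · have h1 := ProdPsh_mean_const (Real.log δ)
      rw [← h1]
      conv_rhs => rw [h1]
      exact ProdPsh_mono measurable_const (fun _ => le_refl |Real.log δ|)
        (hg.measurable.max measurable_const) hwb fun θ => le_max_right _ _

theorem uprod_congr {F G : Cn n → ℝ} (hF : PshOn Ω F) (h : ∀ z ∈ Ω, F z = G z) : PshOn Ω G where
  nonneg x hx := by rw [← h x hx]; exact hF.nonneg x hx
  usc := by
    intro x hx y hy
    have hy' : F x < y := by rw [h x hx]; exact hy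
    filter_upwards [hF.usc x hx y hy', self_mem_nhdsWithin] with z hz hzΩ
    rwa [← h z hzΩ]
  submean := by
    intro δ hδ a b hab
    have h1 := hF.submean δ hδ a b hab
    rw [h a (uprod_center hab)] at h1
    refine h1.trans (le_of_eq ?_)
    congr 1
    refine intervalIntegral.integral_congr fun θ _ => ?_
    have h2 := h _ (uprod_circ hab θ)
    rw [h2]

end UProdAux

variable {n : ℕ} {X : Type} [TopologicalSpace X] (K : KM n X)

section UProdMain

open Filter

theorem uprod_nonneg {F : X → ℝ} (hF : KPsh K F) (x : X) : 0 ≤ F x := by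
  obtain ⟨i, z, hz, rfl⟩ := K.cover x
  have h := (hF.loc i).nonneg z (ball_subset_ball (by norm_num) hz)
  exact nonneg_of_mul_nonneg_left h (Real.exp_pos _)

/-- partial products -/
noncomputable def uprodD (F : ℕ → X → ℝ) (k : ℕ) (x : X) : ℝ :=
  ∏ j ∈ Finset.range k, F j x ^ ((1 / 2 : ℝ) ^ (j + 1))

theorem uprod_ratio {F : ℕ → X → ℝ} (hF : ∀ j, KPsh K (F j)) (h1 : ∀ j x, F j x ≤ 1) (j : ℕ)
    (x : X) : 0 ≤ F j x ^ ((1 / 2 : ℝ) ^ (j + 1)) ∧ F j x ^ ((1 / 2 : ℝ) ^ (j + 1)) ≤ 1 :=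
  ⟨Real.rpow_nonneg (uprod_nonneg K (hF j) x) _,
    Real.rpow_le_one (uprod_nonneg K (hF j) x) (h1 j x) (by positivity)⟩

theorem uprod_D_nonneg {F : ℕ → X → ℝ} (hF : ∀ j, KPsh K (F j)) (k : ℕ) (x : X) :
    0 ≤ uprodD F k x :=
  Finset.prod_nonneg fun j _ => Real.rpow_nonneg (uprod_nonneg K (hF j) x) _

theorem uprod_D_anti {F : ℕ → X → ℝ} (hF : ∀ j, KPsh K (F j)) (h1 : ∀ j x, F j x ≤ 1) (x : X) :
    Antitone (fun k => uprodD F k x) := by
  apply antitone_nat_of_succ_le
  intro k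
  have h2 : uprodD F (k + 1) x = uprodD F k x * F k x ^ ((1 / 2 : ℝ) ^ (k + 1)) := by
    unfold uprodD
    rw [Finset.prod_range_succ]
  rw [h2]
  exact mul_le_of_le_one_right (uprod_D_nonneg K hF k x) (uprod_ratio K hF h1 k x).2

theorem uprod_rho (i : Fin K.N) : PshOn (ball 0 3) (fun z => Real.exp (K.ρ i z)) := by
  refine uprod_exp ?_ (K.ρ_smooth i).continuousOn
  refine smooth_sub isOpen_ball (K.ρ_smooth i) fun z hz ξ => ?_
  by_cases h : ξ = 0
  · subst h
    unfold lev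
    simp
  · exact (K.ρ_pos i z hz ξ h).le

theorem uprod_D_form {F : ℕ → X → ℝ} (hF : ∀ j, KPsh K (F j)) (i : Fin K.N) (k : ℕ) (z : Cn n) :
    uprodD F k (K.κ i z) * Real.exp (K.ρ i z) =
      Real.exp (K.ρ i z) ^ ((1 / 2 : ℝ) ^ k) *
        (∏ j ∈ Finset.range k, (F j (K.κ i z) * Real.exp (K.ρ i z)) ^ ((1 / 2 : ℝ) ^ (j + 1))) ^
          (1 : ℝ) := by
  rw [Real.rpow_one]
  induction k with
  | zero => simp [uprodD]
  | succ k ih =>
    have h1 : uprodD F (k + 1) (K.κ i z) =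
        uprodD F k (K.κ i z) * F k (K.κ i z) ^ ((1 / 2 : ℝ) ^ (k + 1)) := by
      unfold uprodD
      rw [Finset.prod_range_succ]
    have h2 : Real.exp (K.ρ i z) ^ ((1 / 2 : ℝ) ^ k) =
        Real.exp (K.ρ i z) ^ ((1 / 2 : ℝ) ^ (k + 1)) *
          Real.exp (K.ρ i z) ^ ((1 / 2 : ℝ) ^ (k + 1)) := by
      rw [← Real.rpow_add (Real.exp_pos _)]
      congr 1
      rw [pow_succ]
      ring
    rw [h1, mul_right_comm, ih, h2, Finset.prod_range_succ,
      Real.mul_rpow (uprod_nonneg K (hF k) _) (Real.exp_pos _).le]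
    ring

theorem uprod_D_psh {F : ℕ → X → ℝ} (hF : ∀ j, KPsh K (F j)) (i : Fin K.N) (k : ℕ) :
    PshOn (ball 0 3) (fun z => uprodD F k (K.κ i z) * Real.exp (K.ρ i z)) := by
  have h1 : PshOn (ball 0 3) (fun z => ∏ j ∈ Finset.range k,
      (F j (K.κ i z) * Real.exp (K.ρ i z)) ^ ((1 / 2 : ℝ) ^ (j + 1))) := by
    induction k with
    | zero =>
      simp only [Finset.range_zero, Finset.prod_empty]
      exact uprod_one
    | succ k ih =>
      have h2 := uprod_mul ih ((hF k).loc i) one_pos (c' := (1 / 2 : ℝ) ^ (k + 1)) (by positivity)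
      simp only [Real.rpow_one] at h2
      simp only [Finset.prod_range_succ]
      exact h2
  have h2 := uprod_mul (uprod_rho K i) h1 (c := (1 / 2 : ℝ) ^ k) (by positivity) one_pos
  exact uprod_congr h2 fun z _ => (uprod_D_form K hF i k z).symm

theorem uprod_nontrivial [CompactSpace X] [ConnectedSpace X] (hn : 1 ≤ n) {F : ℕ → X → ℝ}
    (hF : ∀ j, KPsh K (F j)) (h1 : ∀ j x, F j x ≤ 1) (h2 : ∀ j, ∃ x, F j x = 1) :
    ∃ x, (⨅ k, uprodD F k x) ≠ 0 := by
  obtain ⟨x₀, _⟩ := h2 0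
  obtain ⟨i, _, _, _⟩ := K.cover x₀
  obtain ⟨C, hC0, hC⟩ := K.log_L1 hn (A := 1) one_pos
  have hC' : ∀ j, IntegrableOn (fun z => Real.log (F j (K.κ i z))) (ball 0 (3 / 2)) ∧
        volume {z : Cn n | ‖z‖ < 3 / 2 ∧ F j (K.κ i z) = 0} = 0 ∧
        ∫ z in ball (0 : Cn n) (3 / 2), |Real.log (F j (K.κ i z))| ≤ C := by
    intro j
    obtain ⟨x, hx⟩ := h2 j
    exact hC (F j) (hF j) (h1 j) ⟨x, hx.ge⟩ i
  have hint : ∀ j, Integrable (fun z => (1 / 2 : ℝ) ^ (j + 1) * |Real.log (F j (K.κ i z))|)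
      (volume.restrict (ball (0 : Cn n) (3 / 2))) := fun j => (hC' j).1.abs.const_mul _
  have hj : ∀ j, ∫⁻ z in ball (0 : Cn n) (3 / 2),
      ENNReal.ofReal ((1 / 2 : ℝ) ^ (j + 1) * |Real.log (F j (K.κ i z))|) ≤
        ENNReal.ofReal ((1 / 2 : ℝ) ^ (j + 1) * C) := by
    intro j
    rw [← ofReal_integral_eq_lintegral_ofReal (hint j)
      (Eventually.of_forall fun x => by positivity), integral_const_mul]
    exact ENNReal.ofReal_le_ofReal
      (mul_le_mul_of_nonneg_left (hC' j).2.2 (by positivity))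
  have hmeas : ∀ j, AEMeasurable
      (fun z => ENNReal.ofReal ((1 / 2 : ℝ) ^ (j + 1) * |Real.log (F j (K.κ i z))|))
      (volume.restrict (ball (0 : Cn n) (3 / 2))) := fun j =>
    (hint j).aestronglyMeasurable.aemeasurable.ennreal_ofReal
  have hsum : ∫⁻ z in ball (0 : Cn n) (3 / 2),
      ∑' j, ENNReal.ofReal ((1 / 2 : ℝ) ^ (j + 1) * |Real.log (F j (K.κ i z))|) ≠ ⊤ := by
    rw [lintegral_tsum hmeas]
    refine ne_top_of_le_ne_top ?_ (ENNReal.tsum_le_tsum hj)
    apply Summable.tsum_ofReal_ne_top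
    exact ((summable_geometric_of_lt_one (by norm_num) (by norm_num : (1 / 2 : ℝ) < 1)).comp_injective
      (add_left_injective 1)).mul_right C
  have hae1 : ∀ᵐ z ∂(volume.restrict (ball (0 : Cn n) (3 / 2))),
      ∑' j, ENNReal.ofReal ((1 / 2 : ℝ) ^ (j + 1) * |Real.log (F j (K.κ i z))|) < ⊤ :=
    ae_lt_top' (AEMeasurable.tsum hmeas) hsum
  have hae3 : ∀ᵐ z ∂(volume.restrict (ball (0 : Cn n) (3 / 2))), z ∈ ball (0 : Cn n) (3 / 2) :=
    ae_restrict_mem measurableSet_ball
  have hae2 : ∀ᵐ z ∂(volume.restrict (ball (0 : Cn n) (3 / 2))),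
      ∀ j, ¬ (‖z‖ < 3 / 2 ∧ F j (K.κ i z) = 0) := by
    rw [ae_all_iff]
    intro j
    apply ae_restrict_of_ae
    exact measure_eq_zero_iff_ae_notMem.1 (hC' j).2.1
  have hne : NeBot (ae (volume.restrict (ball (0 : Cn n) (3 / 2)))) := by
    rw [ae_neBot]
    intro h
    rw [Measure.restrict_eq_zero] at h
    exact (measure_ball_pos volume (0 : Cn n) (by norm_num)).ne' h
  obtain ⟨z, hx1, hx2, hx3⟩ := (hae1.and (hae2.and hae3)).exists
  refine ⟨K.κ i z, ?_⟩
  rw [mem_ball_zero_iff] at hx3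
  have hpos : ∀ j, 0 < F j (K.κ i z) := fun j =>
    lt_of_le_of_ne (uprod_nonneg K (hF j) _) fun h => hx2 j ⟨hx3, h.symm⟩
  set S : ℝ := (∑' j, ENNReal.ofReal ((1 / 2 : ℝ) ^ (j + 1) *
    |Real.log (F j (K.κ i z))|)).toReal with hS
  have hpart : ∀ k, ∑ j ∈ Finset.range k, (1 / 2 : ℝ) ^ (j + 1) * |Real.log (F j (K.κ i z))| ≤ S := by
    intro k
    rw [hS, ← ENNReal.ofReal_le_iff_le_toReal hx1.ne,
      ENNReal.ofReal_sum_of_nonneg fun j _ => by positivity]
    exact ENNReal.sum_le_tsum _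
  have hlow : ∀ k, Real.exp (-S) ≤ uprodD F k (K.κ i z) := by
    intro k
    unfold uprodD
    calc Real.exp (-S) ≤ Real.exp (∑ j ∈ Finset.range k,
          -((1 / 2 : ℝ) ^ (j + 1) * |Real.log (F j (K.κ i z))|)) := by
          apply Real.exp_le_exp.2
          rw [Finset.sum_neg_distrib]
          exact neg_le_neg (hpart k)
      _ = ∏ j ∈ Finset.range k, Real.exp (-((1 / 2 : ℝ) ^ (j + 1) *
            |Real.log (F j (K.κ i z))|)) := Real.exp_sum _ _
      _ ≤ _ := by
          refine Finset.prod_le_prod (fun j _ => (Real.exp_pos _).le) fun j _ => ?_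
          rw [Real.rpow_def_of_pos (hpos j)]
          apply Real.exp_le_exp.2
          have h1 := neg_abs_le (Real.log (F j (K.κ i z)))
          have h2 : (0 : ℝ) ≤ (1 / 2) ^ (j + 1) := by positivity
          nlinarith
  have h3 : Real.exp (-S) ≤ ⨅ k, uprodD F k (K.κ i z) := le_ciInf hlow
  exact (lt_of_lt_of_le (Real.exp_pos _) h3).ne'

end UProdMain

theorem KM.prod [CompactSpace X] [ConnectedSpace X] (hn : 1 ≤ n) (F : ℕ → X → ℝ)
    (hF : ∀ j, KPsh K (F j)) (h1 : ∀ j x, F j x ≤ 1) (h2 : ∀ j, ∃ x, F j x = 1) :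
    ∃ G : X → ℝ, KPsh K G ∧ ∀ j x, G x ≤ F j x ^ ((1 / 2 : ℝ) ^ (j + 1)) := by
  have hb : ∀ x, BddBelow (range fun k => uprodD F k x) := fun x => ⟨0, by
    rintro _ ⟨k, rfl⟩
    exact uprod_D_nonneg K hF k x⟩
  refine ⟨fun x => ⨅ k, uprodD F k x, ⟨fun i => ?_, uprod_nontrivial K hn hF h1 h2⟩, ?_⟩
  · have h3 := uprod_inf (fun k => uprod_D_psh K hF i k) (fun z _ k l hkl =>
      mul_le_mul_of_nonneg_right (uprod_D_anti K hF h1 (K.κ i z) hkl) (Real.exp_pos _).le)
    refine uprod_congr h3 fun z _ => ?_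
    rw [Real.iInf_mul_of_nonneg (Real.exp_pos _).le]
  · intro j x
    refine (ciInf_le (hb x) (j + 1)).trans ?_
    have h4 : uprodD F (j + 1) x = uprodD F j x * F j x ^ ((1 / 2 : ℝ) ^ (j + 1)) := by
      unfold uprodD
      rw [Finset.prod_range_succ]
    rw [h4]
    refine mul_le_of_le_one_left (uprod_ratio K hF h1 j x).1 ?_
    unfold uprodD
    exact Finset.prod_le_one (fun i _ => (uprod_ratio K hF h1 i x).1)
      fun i _ => (uprod_ratio K hF h1 i x).2

end HMA
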