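import Pool.Agent.H85.KM.UProd
import Pool.Agent.H85.MA.Unif

/-! # Module UUnif: uniform integrability -/

open MeasureTheory Metric Set
open scoped ENNReal Topology ContDiff ComplexOrder

namespace HMA

variable {n : ℕ} {X : Type} [TopologicalSpace X] (K : KM n X)

theorem UUnif_one [CompactSpace X] [ConnectedSpace X] [MeasurableSpace X] [BorelSpace X]
    (hn : 1 ≤ n) {μ : Measure X} [IsProbabilityMeasure μ] (hμ : KModerate K μ) :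
    ∃ ε : ℝ, 0 < ε ∧ ε ≤ 1 ∧ ∃ C : ℝ, 0 < C ∧ ∀ F : X → ℝ, KPsh K F →
      (∀ x, F x ≤ 1) → (∃ x, F x = 1) →
        ∫⁻ x, (ENNReal.ofReal (F x)) ^ (-ε) ∂μ ≤ ENNReal.ofReal C := by
  obtain ⟨ε₀, hε₀, hmod⟩ := hμ
  set ε₁ : ℝ := min ε₀ 1 with hε₁
  have h1pos : 0 < ε₁ := lt_min hε₀ one_pos
  have h1le : ε₁ ≤ 1 := min_le_right _ _
  have h1le0 : ε₁ ≤ ε₀ := min_le_left _ _
  have hfin : ∀ F : X → ℝ, KPsh K F →
      ∫⁻ x, (ENNReal.ofReal (F x)) ^ (-ε₁) ∂μ < ⊤ := by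
    intro F hF
    calc ∫⁻ x, (ENNReal.ofReal (F x)) ^ (-ε₁) ∂μ
        ≤ ∫⁻ x, (1 + (ENNReal.ofReal (F x)) ^ (-ε₀)) ∂μ :=
          lintegral_mono (fun x => Unif_pow _ h1pos.le h1le0)
      _ = 1 + ∫⁻ x, (ENNReal.ofReal (F x)) ^ (-ε₀) ∂μ := by
          rw [lintegral_add_left measurable_const, lintegral_const, measure_univ, mul_one]
      _ < ⊤ := ENNReal.add_lt_top.mpr ⟨ENNReal.one_lt_top, hmod F hF⟩
  by_contra hcon
  push Not at hcon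
  have hex : ∀ j : ℕ, ∃ F : X → ℝ, KPsh K F ∧ (∀ x, F x ≤ 1) ∧ (∃ x, F x = 1) ∧
      ENNReal.ofReal ((j : ℝ) + 1) <
        ∫⁻ x, (ENNReal.ofReal (F x)) ^ (-(ε₁ * (1 / 2 : ℝ) ^ (j + 1))) ∂μ := by
    intro j
    refine hcon (ε₁ * (1 / 2 : ℝ) ^ (j + 1)) (by positivity) ?_ ((j : ℝ) + 1) (by positivity)
    have h2 : (1 / 2 : ℝ) ^ (j + 1) ≤ 1 := pow_le_one₀ (by norm_num) (by norm_num)
    calc ε₁ * (1 / 2 : ℝ) ^ (j + 1) ≤ 1 * 1 := by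
          apply mul_le_mul h1le h2 (by positivity) zero_le_one
      _ = 1 := one_mul _
  choose F hF h1 h2 hI using hex
  obtain ⟨G, hG, hGF⟩ := K.prod hn F hF h1 h2
  have hlow : ∀ j : ℕ, ENNReal.ofReal ((j : ℝ) + 1) ≤
      ∫⁻ x, (ENNReal.ofReal (G x)) ^ (-ε₁) ∂μ := by
    intro j
    refine (hI j).le.trans (lintegral_mono fun x => ?_)
    have h3 := hGF j x
    have h4 : 0 ≤ F j x := uprod_nonneg K (hF j) x
    have h5 : (0 : ℝ) ≤ (1 / 2 : ℝ) ^ (j + 1) := by positivity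
    have h6 : ENNReal.ofReal (G x) ≤ ENNReal.ofReal (F j x) ^ ((1 / 2 : ℝ) ^ (j + 1)) := by
      rw [ENNReal.ofReal_rpow_of_nonneg h4 h5]
      exact ENNReal.ofReal_le_ofReal h3
    simp only
    rw [ENNReal.rpow_neg, ENNReal.rpow_neg, ENNReal.inv_le_inv, mul_comm ε₁, ENNReal.rpow_mul]
    exact ENNReal.rpow_le_rpow h6 h1pos.le
  have htop := hfin G hG
  obtain ⟨N, hNat⟩ := ENNReal.exists_nat_gt htop.ne
  have h7 := hlow N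
  have h8 : ((N : ℕ) : ℝ≥0∞) ≤ ENNReal.ofReal ((N : ℝ) + 1) := by
    rw [← ENNReal.ofReal_natCast]
    exact ENNReal.ofReal_le_ofReal (by linarith)
  exact absurd (h8.trans h7) (not_le.mpr hNat)

theorem KM.unif [CompactSpace X] [ConnectedSpace X] [MeasurableSpace X] [BorelSpace X]
    (hn : 1 ≤ n) {μ : Measure X} [IsProbabilityMeasure μ] (hμ : KModerate K μ) :
    ∃ ε : ℝ, 0 < ε ∧ ε ≤ 1 ∧ ∀ A : ℝ, 0 < A → ∃ C : ℝ, 0 < C ∧ ∀ F : X → ℝ, KPsh K F →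
      (∀ x, F x ≤ 1) → (∃ x, A ≤ F x) →
        ∫⁻ x, (ENNReal.ofReal (F x)) ^ (-ε) ∂μ ≤ ENNReal.ofReal C := by
  obtain ⟨ε, hε, hε1, C, hC, hU⟩ := UUnif_one K hn hμ
  refine ⟨ε, hε, hε1, fun A hA0 => ?_⟩
  have hAε : 0 < (A⁻¹) ^ ε := Real.rpow_pos_of_pos (inv_pos.2 hA0) _
  refine ⟨(A⁻¹) ^ ε * C, by positivity, ?_⟩
  intro F hF hF1 hFA
  obtain ⟨p, hpos, hmax⟩ := hF.exists_max K
  have hMinv : 0 < (F p)⁻¹ := inv_pos.mpr hpos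
  have hF' : KPsh K (fun x => (F p)⁻¹ * F x) := hF.const_mul K hMinv
  have hFp : A ≤ F p := by
    obtain ⟨x, hx⟩ := hFA
    exact hx.trans (hmax x)
  have hpt : ∀ x, (ENNReal.ofReal (F x)) ^ (-ε) ≤
      ENNReal.ofReal ((A⁻¹) ^ ε) * (ENNReal.ofReal ((F p)⁻¹ * F x)) ^ (-ε) := by
    intro x
    have hx0 : 0 ≤ F x := uprod_nonneg K hF x
    have h1 : A * ((F p)⁻¹ * F x) ≤ F x := by
      calc A * ((F p)⁻¹ * F x) ≤ F p * ((F p)⁻¹ * F x) :=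
            mul_le_mul_of_nonneg_right hFp (by positivity)
        _ = F x := by rw [← mul_assoc, mul_inv_cancel₀ hpos.ne', one_mul]
    have h2 : ENNReal.ofReal A * ENNReal.ofReal ((F p)⁻¹ * F x) ≤ ENNReal.ofReal (F x) := by
      rw [← ENNReal.ofReal_mul hA0.le]
      exact ENNReal.ofReal_le_ofReal h1
    have hA1 : ENNReal.ofReal A ≠ 0 := by
      rw [Ne, ENNReal.ofReal_eq_zero, not_le]
      exact hA0
    have hA2 : ENNReal.ofReal A ≠ ⊤ := ENNReal.ofReal_ne_top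
    have h3 : (ENNReal.ofReal (F x))⁻¹ ≤
        ENNReal.ofReal A⁻¹ * (ENNReal.ofReal ((F p)⁻¹ * F x))⁻¹ := by
      have h4 : (ENNReal.ofReal (F x))⁻¹ ≤
          (ENNReal.ofReal A * ENNReal.ofReal ((F p)⁻¹ * F x))⁻¹ := ENNReal.inv_le_inv.mpr h2
      rw [ENNReal.mul_inv (Or.inl hA1) (Or.inl hA2)] at h4
      rwa [ENNReal.ofReal_inv_of_pos hA0]
    rw [ENNReal.rpow_neg, ENNReal.rpow_neg, ← ENNReal.inv_rpow, ← ENNReal.inv_rpow,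
      ← ENNReal.ofReal_rpow_of_pos (inv_pos.2 hA0), ← ENNReal.mul_rpow_of_nonneg _ _ hε.le]
    exact ENNReal.rpow_le_rpow h3 hε.le
  calc ∫⁻ x, (ENNReal.ofReal (F x)) ^ (-ε) ∂μ
      ≤ ∫⁻ x, ENNReal.ofReal ((A⁻¹) ^ ε) * (ENNReal.ofReal ((F p)⁻¹ * F x)) ^ (-ε) ∂μ :=
        lintegral_mono hpt
    _ = ENNReal.ofReal ((A⁻¹) ^ ε) * ∫⁻ x, (ENNReal.ofReal ((F p)⁻¹ * F x)) ^ (-ε) ∂μ :=
        lintegral_const_mul' _ _ ENNReal.ofReal_ne_top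
    _ ≤ ENNReal.ofReal ((A⁻¹) ^ ε) * ENNReal.ofReal C := by
        gcongr
        refine hU _ hF' (fun x => ?_) ⟨p, inv_mul_cancel₀ hpos.ne'⟩
        calc (F p)⁻¹ * F x ≤ (F p)⁻¹ * F p := mul_le_mul_of_nonneg_left (hmax x) hMinv.le
          _ = 1 := inv_mul_cancel₀ hpos.ne'
    _ = ENNReal.ofReal ((A⁻¹) ^ ε * C) := (ENNReal.ofReal_mul hAε.le).symm

end HMA
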