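import Pool.Agent.H85.KM.XTop
import Pool.Agent.H85.KM.SubComp

/-! # Module XC11: the classes `C11X` and `WK` -/

open MeasureTheory Metric Set
open scoped ENNReal Topology ContDiff ComplexOrder

namespace HMA

variable {n : ℕ} {X : Type} [TopologicalSpace X] (K : KM n X)

variable {ψ v w : X → ℝ}

theorem xc11_local {Ω : Set (Cn n)} {u : Cn n → ℝ} (hΩ : IsOpen Ω)
    (h : ∀ z ∈ Ω, ∃ U : Set (Cn n), IsOpen U ∧ z ∈ U ∧ U ⊆ Ω ∧ C11 U u) : C11 Ω u := by
  refine c11_of_local hΩ fun z hz => ?_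
  obtain ⟨U, hU, hzU, hUΩ, hu⟩ := h z hz
  obtain ⟨r, hr, hrU⟩ := Metric.nhds_basis_closedBall.mem_iff.mp (hU.mem_nhds hzU)
  obtain ⟨C, hC⟩ := hu.lip (closedBall z r) (isCompact_closedBall z r) hrU
  exact ⟨r, hr, C, (ball_subset_closedBall.trans hrU).trans hUΩ,
    fun w hw => hu.diff w (hrU (ball_subset_closedBall hw)), hC.mono ball_subset_closedBall⟩

theorem xc11_lev_add {u₁ u₂ : Cn n → ℝ} {z : Cn n} (h1 : TwD u₁ z) (h2 : TwD u₂ z) (ξ : Cn n) :
    lev (fun w => u₁ w + u₂ w) z ξ = lev u₁ z ξ + lev u₂ z ξ := by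
  have h3 := TwD.add h1 h2
  have e := h3.1.lev_LM ξ
  rw [h3.2] at e
  have e1 := h1.lev_LM ξ
  have e2 := h2.lev_LM ξ
  have : ((lev (fun w => u₁ w + u₂ w) z ξ : ℝ) : ℂ) = ((lev u₁ z ξ + lev u₂ z ξ : ℝ) : ℂ) := by
    rw [e]
    push_cast
    rw [e1, e2, ← Finset.sum_add_distrib]
    refine Finset.sum_congr rfl fun j _ => ?_
    rw [← Finset.sum_add_distrib]
    refine Finset.sum_congr rfl fun k _ => ?_
    rw [Matrix.add_apply]
    ring
  exact_mod_cast this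

theorem xc11_TwD_congr {u₁ u₂ : Cn n → ℝ} {z : Cn n} (h : u₁ =ᶠ[𝓝 z] u₂) (h1 : TwD u₁ z) :
    TwD u₂ z := by
  refine ⟨?_, ?_⟩
  · filter_upwards [h.eventuallyEq_nhds, h1.1] with w hw hd
    exact hw.symm.differentiableAt_iff.mpr hd
  · exact h1.2.congr_of_eventuallyEq h.symm.fderiv

theorem c11X_const (c : ℝ) : C11X K (fun _ => c) := by
  intro i
  exact c11_of_contDiffOn isOpen_ball contDiffOn_const

theorem C11X.add (hv : C11X K v) (hw : C11X K w) : C11X K (fun x => v x + w x) := by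
  intro i
  exact (hv i).add isOpen_ball (hw i)

theorem C11X.const_mul (hv : C11X K v) (c : ℝ) : C11X K (fun x => c * v x) := by
  intro i
  exact (hv i).const_mul isOpen_ball c

theorem C11X.mul (hv : C11X K v) (hw : C11X K w) : C11X K (fun x => v x * w x) := by
  intro i
  exact (hv i).mul isOpen_ball (hw i)

theorem C11X.continuous (hv : C11X K v) : Continuous v := by
  rw [continuous_iff_continuousAt]
  intro x
  obtain ⟨i, z, hz, rfl⟩ := K.cover x
  have hz3 : z ∈ ball (0 : Cn n) 3 := ball_subset_ball (by norm_num) hz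
  have hopen := K.isOpen_range i
  have hmem : K.κ i z ∈ K.κ i '' ball 0 3 := ⟨z, hz3, rfl⟩
  have h1 : ContinuousOn (fun y => v (K.κ i (Function.invFunOn (K.κ i) (ball 0 3) y)))
      (K.κ i '' ball 0 3) := by
    refine (hv i).continuousOn.comp (K.inv_cont i) ?_
    intro y hy
    exact Function.invFunOn_mem hy
  have h2 : ContinuousOn v (K.κ i '' ball 0 3) := by
    refine h1.congr fun y hy => ?_
    simp only []
    rw [Function.invFunOn_eq hy]
  exact h2.continuousAt (hopen.mem_nhds hmem)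

/-- extension by zero; `X` is Hausdorff -/
theorem c11X_ext [T2Space X] (i : Fin K.N) {g : Cn n → ℝ} (hg : C11 (ball 0 3) g)
    {L : Set (Cn n)} (hL : IsCompact L) (hL3 : L ⊆ ball 0 3) (h0 : ∀ z, z ∉ L → g z = 0) :
    C11X K (K.ext i g) := by
  intro j
  refine xc11_local isOpen_ball fun z hz => ?_
  by_cases hzi : K.κ j z ∈ K.κ i '' ball 0 3
  · refine ⟨ball (0 : Cn n) 3 ∩ K.κ j ⁻¹' (K.κ i '' ball 0 3), K.isOpen_overlap j i, ⟨hz, hzi⟩,
      inter_subset_left, ?_⟩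
    have h1 : C11 (ball (0 : Cn n) 3 ∩ K.κ j ⁻¹' (K.κ i '' ball 0 3))
        (fun y => g (K.τ j i y)) :=
      c11_comp isOpen_ball (K.isOpen_overlap j i) hg (K.τ_hol j i)
        (fun y hy => (K.τ_spec j i y hy.1 hy.2).1)
    refine h1.congr (K.isOpen_overlap j i) fun y hy => ?_
    obtain ⟨h2, h3⟩ := K.τ_spec j i y hy.1 hy.2
    rw [← h3, K.ext_κ i g h2]
  · have hcl : IsClosed (K.κ i '' L) := (K.compact_image i hL hL3).isClosed
    have hop : IsOpen (ball (0 : Cn n) 3 ∩ K.κ j ⁻¹' (K.κ i '' L)ᶜ) :=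
      (K.cont j).isOpen_inter_preimage isOpen_ball hcl.isOpen_compl
    refine ⟨_, hop, ⟨hz, fun hmem => hzi (image_mono hL3 hmem)⟩, inter_subset_left, ?_⟩
    have h1 : C11 (ball (0 : Cn n) 3 ∩ K.κ j ⁻¹' (K.κ i '' L)ᶜ) (fun _ => (0 : ℝ)) :=
      c11_of_contDiffOn hop contDiffOn_const
    refine h1.congr hop fun y hy => ?_
    by_cases hyi : K.κ j y ∈ K.κ i '' ball 0 3
    · obtain ⟨w, hw, hwy⟩ := hyi
      rw [← hwy, K.ext_κ i g hw]
      refine h0 w fun hwL => hy.2 ⟨w, hwL, hwy⟩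
    · exact K.ext_off i g hyi

theorem wk_const (c : ℝ) : WK K (fun _ => c) := by
  refine ⟨c11X_const K c, fun i => ?_⟩
  refine (c11_sub_iff isOpen_ball ((K.ρ_c11 i).add isOpen_ball
    (c11_of_contDiffOn isOpen_ball contDiffOn_const))).mpr (Filter.Eventually.of_forall ?_)
  intro z hz
  obtain ⟨h1, h2, -⟩ := K.mad_ρ_pos i hz
  have hc : TwD (fun _ : Cn n => c) z :=
    ⟨Filter.Eventually.of_forall fun w => differentiableAt_const c, by
      have : fderiv ℝ (fun _ : Cn n => c) = fun _ => 0 := by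
        ext1 w
        exact fderiv_const_apply c
      rw [this]
      exact differentiableAt_const _⟩
  rw [(TwD.add h1 hc).2, LM_const, add_zero]
  exact h2.posSemidef

theorem xc11_c11 (hv : C11X K v) (i : Fin K.N) :
    C11 (ball 0 3) (fun z => K.ρ i z + v (K.κ i z)) :=
  (K.ρ_c11 i).add isOpen_ball (hv i)

theorem WK.convex (hv : WK K v) (hw : WK K w) {s : ℝ} (h0 : 0 ≤ s) (h1 : s ≤ 1) :
    WK K (fun x => (1 - s) * v x + s * w x) := by
  have hc : C11X K (fun x => (1 - s) * v x + s * w x) :=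
    C11X.add K (C11X.const_mul K hv.c11 _) (C11X.const_mul K hw.c11 _)
  refine ⟨hc, fun i => ?_⟩
  refine (c11_sub_iff isOpen_ball (xc11_c11 K hc i)).mpr ?_
  have a1 := (c11_sub_iff isOpen_ball (xc11_c11 K hv.c11 i)).mp (hv.sub i)
  have a2 := (c11_sub_iff isOpen_ball (xc11_c11 K hw.c11 i)).mp (hw.sub i)
  have a3 := (xc11_c11 K hv.c11 i).ae_twD isOpen_ball
  have a4 := (xc11_c11 K hw.c11 i).ae_twD isOpen_ball
  filter_upwards [a1, a2, a3, a4] with z b1 b2 b3 b4 hz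
  have e : (fun z => K.ρ i z + ((1 - s) * v (K.κ i z) + s * w (K.κ i z))) =
      fun z => (1 - s) * (K.ρ i z + v (K.κ i z)) + s * (K.ρ i z + w (K.κ i z)) := by
    ext z
    ring
  rw [e]
  have c1 := (b3 hz).const_mul (1 - s)
  have c2 := (b4 hz).const_mul s
  rw [(TwD.add c1.1 c2.1).2, c1.2, c2.2]
  refine Matrix.PosSemidef.add ?_ ?_
  · exact (b1 hz).smul (by exact_mod_cast (by linarith : (0 : ℝ) ≤ 1 - s))
  · exact (b2 hz).smul (by exact_mod_cast h0)

/-- local criterion: it suffices to check the sub-mean value property on a neighbourhood of each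
point in some chart -/
theorem wk_of_local (hv : C11X K v) (h : ∀ x : X, ∃ (i : Fin K.N) (z : Cn n) (r : ℝ), 0 < r ∧
    ball z r ⊆ ball 0 3 ∧ K.κ i z = x ∧ SubOn (ball z r) (fun y => K.ρ i y + v (K.κ i y))) :
    WK K v := by
  refine ⟨hv, fun j => ?_⟩
  refine (c11_sub_iff isOpen_ball (xc11_c11 K hv j)).mpr ?_
  have hloc : ∀ y ∈ ball (0 : Cn n) 3, ∃ U : Set (Cn n), IsOpen U ∧ y ∈ U ∧
      ∀ᵐ z : Cn n, z ∈ U → (LM (fun z => K.ρ j z + v (K.κ j z)) z).PosSemidef := by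
    intro y hy
    obtain ⟨i, z0, r, hr, hball, hz0, hsub⟩ := h (K.κ j y)
    set V : Set (Cn n) := ball (0 : Cn n) 3 ∩ K.κ j ⁻¹' (K.κ i '' ball 0 3) with hV
    have hVo : IsOpen V := K.isOpen_overlap j i
    have hz03 : z0 ∈ ball (0 : Cn n) 3 := hball (mem_ball_self hr)
    have hyV : y ∈ V := ⟨hy, z0, hz03, hz0⟩
    have hτc : ContinuousOn (K.τ j i) V := (K.τ_hol j i).continuousOn
    set W : Set (Cn n) := V ∩ K.τ j i ⁻¹' (ball z0 r) with hW
    have hWo : IsOpen W := hτc.isOpen_inter_preimage hVo isOpen_ball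
    have hτy : K.τ j i y = z0 := by
      obtain ⟨s1, s2⟩ := K.τ_spec j i y hyV.1 hyV.2
      exact K.injOn i s1 hz03 (by rw [s2, hz0])
    have hyW : y ∈ W := ⟨hyV, by rw [mem_preimage, hτy]; exact mem_ball_self hr⟩
    refine ⟨W, hWo, hyW, ?_⟩
    have hWV : W ⊆ V := inter_subset_left
    have a1 : ∀ᵐ z : Cn n, z ∈ ball z0 r → (LM (fun z => K.ρ i z + v (K.κ i z)) z).PosSemidef :=
      (c11_sub_iff isOpen_ball ((xc11_c11 K hv i).mono hball)).mp hsub
    have a2 : ∀ᵐ z : Cn n, z ∈ ball z0 r → TwD (fun z => v (K.κ i z)) z :=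
      ((hv i).mono hball).ae_twD isOpen_ball
    have a3 : ∀ᵐ z : Cn n, z ∈ W → (LM (fun z => K.ρ i z + v (K.κ i z)) (K.τ j i z)).PosSemidef ∧
        TwD (fun z => v (K.κ i z)) (K.τ j i z) := by
      refine ae_comp_hol (p := fun y => (LM (fun z => K.ρ i z + v (K.κ i z)) y).PosSemidef ∧
        TwD (fun z => v (K.κ i z)) y) hWo ((K.τ_hol j i).mono hWV) ((K.τ_inj j i).mono hWV)
        (fun z hz => K.τ_fderiv j i (hWV hz)) ?_
      filter_upwards [a1, a2] with z b1 b2 hz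
      obtain ⟨w, hw, rfl⟩ := hz
      exact ⟨b1 hw.2, b2 hw.2⟩
    filter_upwards [a3] with z b3 hzW
    obtain ⟨p1, p2⟩ := b3 hzW
    have hzV := hWV hzW
    obtain ⟨s1, s2⟩ := K.τ_spec j i z hzV.1 hzV.2
    have hsm : ContDiffAt ℂ 2 (K.τ j i) z :=
      contDiffAt_infty.mp ((hol_contDiffOn hVo (K.τ_hol j i)).contDiffAt (hVo.mem_nhds hzV)) 2
    obtain ⟨t1, t2, -⟩ := K.mad_ρ_pos i s1
    obtain ⟨t1', t2', -⟩ := K.mad_ρ_pos j hzV.1
    have m1 := LM_comp hsm (TwD.add t1 p2).1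
    have m2 := LM_comp hsm t1
    have m3 := LM_comp hsm p2
    -- `v ∘ κ_j` near `z`
    have ev : (fun y => v (K.κ i (K.τ j i y))) =ᶠ[𝓝 z] fun y => v (K.κ j y) := by
      filter_upwards [hVo.mem_nhds hzV] with y hy
      rw [(K.τ_spec j i y hy.1 hy.2).2]
    have q1 : TwD (fun y => v (K.κ j y)) z := xc11_TwD_congr ev m3.1
    have q2 : LM (fun y => v (K.κ j y)) z = LM (fun y => v (K.κ i (K.τ j i y))) z :=
      (LM_congr ev).symm
    refine ((TwD.add t1' q1).1.psd_iff).mpr fun ξ => ?_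
    rw [xc11_lev_add t1' q1, ← K.ρ_compat j i z hzV ξ]
    have e1 : lev (fun y => v (K.κ j y)) z ξ = lev (fun y => v (K.κ i (K.τ j i y))) z ξ := by
      have c1 := q1.lev_LM ξ
      rw [q2, ← m3.1.lev_LM ξ] at c1
      exact_mod_cast c1
    rw [e1, ← xc11_lev_add m2.1 m3.1]
    refine (m1.1.psd_iff.mp ?_) ξ
    rw [m1.2]
    exact p1.mul_mul_conjTranspose_same _
  rw [ae_iff]
  refine measure_null_of_locally_null _ fun z hz => ?_
  simp only [Classical.not_imp, mem_setOf_eq] at hz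
  obtain ⟨U, hU, hzU, hae⟩ := hloc z hz.1
  refine ⟨U ∩ {a | ¬ (a ∈ ball (0 : Cn n) 3 →
    (LM (fun z => K.ρ j z + v (K.κ j z)) a).PosSemidef)}, ?_, ?_⟩
  · exact Filter.inter_mem (mem_nhdsWithin_of_mem_nhds (hU.mem_nhds hzU)) self_mem_nhdsWithin
  · refine measure_mono_null ?_ hae
    rintro a ⟨ha1, ha2⟩
    simp only [Classical.not_imp, mem_setOf_eq] at ha2
    simp only [mem_compl_iff, mem_setOf_eq, Classical.not_imp]
    exact ⟨ha1, ha2.2⟩

end HMA
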