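import Pool.Agent.H85.KM.XSym

/-! # Module XEn: the energy functional -/

open MeasureTheory Metric Set
open scoped ENNReal Topology ContDiff ComplexOrder

namespace HMA

variable {n : ℕ} {X : Type} [TopologicalSpace X] (K : KM n X)

variable [MeasurableSpace X] [BorelSpace X] [T2Space X] [CompactSpace X] {ψ v w : X → ℝ}

omit [MeasurableSpace X] [BorelSpace X] [T2Space X] in
theorem XEn_bdd (hv : C11X K v) : ∃ C : ℝ, 0 ≤ C ∧ ∀ x, |v x| ≤ C := by
  obtain ⟨C, hC⟩ := (isCompact_univ (X := X)).exists_bound_of_continuousOn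
    (C11X.continuous K hv).continuousOn
  refine ⟨max C 0, le_max_right _ _, fun x => ?_⟩
  exact (hC x (mem_univ _)).trans (le_max_left _ _)

omit [T2Space X] in
theorem XEn_RM_bdd (hψ : C11X K ψ) (hw : C11X K w) (A : ℝ) : ∃ C : ℝ, 0 ≤ C ∧
    ∀ a b : ℝ, |a| ≤ A → |b| ≤ A → ∀ x, |K.RM (fun y => a * ψ y + b * w y) x| ≤ C := by
  set B : ℝ := |A| + 1 with hB
  have hB0 : 0 < B := by positivity
  obtain ⟨C, hC0, hC⟩ := K.RM_bdd (C11X.const_mul K hψ B) (C11X.const_mul K hw B)
  refine ⟨C, hC0.le, fun a b ha hb x => ?_⟩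
  have hAB : A ≤ B := by rw [hB]; linarith [le_abs_self A]
  have h1 : |a / B| ≤ 1 := by
    rw [abs_div, abs_of_pos hB0, div_le_one hB0]; linarith
  have h2 : |b / B| ≤ 1 := by
    rw [abs_div, abs_of_pos hB0, div_le_one hB0]; linarith
  have := hC (a / B) (b / B) h1 h2 x
  have e : (fun y => a / B * (B * ψ y) + b / B * (B * w y)) = (fun y => a * ψ y + b * w y) := by
    funext y; field_simp
  rwa [e] at this

omit [T2Space X] in
theorem XEn_RL_bdd (hψ : C11X K ψ) (hw : C11X K w) (hv : C11X K v) (A : ℝ) : ∃ C : ℝ, 0 ≤ C ∧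
    ∀ a b : ℝ, |a| ≤ A → |b| ≤ A → ∀ x, |K.RL (fun y => a * ψ y + b * w y) v x| ≤ C := by
  set B : ℝ := |A| + 1 with hB
  have hB0 : 0 < B := by positivity
  obtain ⟨C, hC0, hC⟩ := K.RL_bdd (C11X.const_mul K hψ B) (C11X.const_mul K hw B) hv
  refine ⟨C, hC0.le, fun a b ha hb x => ?_⟩
  have hAB : A ≤ B := by rw [hB]; linarith [le_abs_self A]
  have h1 : |a / B| ≤ 1 := by
    rw [abs_div, abs_of_pos hB0, div_le_one hB0]; linarith
  have h2 : |b / B| ≤ 1 := by
    rw [abs_div, abs_of_pos hB0, div_le_one hB0]; linarith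
  have := hC (a / B) (b / B) h1 h2 x
  have e : (fun y => a / B * (B * ψ y) + b / B * (B * w y)) = (fun y => a * ψ y + b * w y) := by
    funext y; field_simp
  rwa [e] at this

omit [T2Space X] [CompactSpace X] in
theorem XEn_int_of_bdd {f : X → ℝ} (hf : AEStronglyMeasurable f K.vol) {C : ℝ}
    (h : ∀ x, |f x| ≤ C) : Integrable f K.vol := by
  have := K.vol_finite
  exact Integrable.of_bound hf C (Filter.Eventually.of_forall h)

omit [T2Space X] [CompactSpace X] in
/-- differentiation under the integral sign -/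
theorem XEn_deriv {F F' : ℝ → X → ℝ} {s₀ C C' : ℝ}
    (hm : ∀ s, AEStronglyMeasurable (F s) K.vol) (hm' : AEStronglyMeasurable (F' s₀) K.vol)
    (hb : ∀ s ∈ ball s₀ 1, ∀ x, |F' s x| ≤ C) (hF : ∀ x, |F s₀ x| ≤ C')
    (hd : ∀ᵐ x ∂K.vol, ∀ s, HasDerivAt (fun s => F s x) (F' s x) s) :
    HasDerivAt (fun s => ∫ x, F s x ∂K.vol) (∫ x, F' s₀ x ∂K.vol) s₀ := by
  have := K.vol_finite
  have h := hasDerivAt_integral_of_dominated_loc_of_deriv_le (μ := K.vol) (F := F) (F' := F')
    (x₀ := s₀) (bound := fun _ => C) (s := ball s₀ 1) (ball_mem_nhds s₀ one_pos)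
    (Filter.Eventually.of_forall hm) (XEn_int_of_bdd K (hm s₀) hF) hm'
    (Filter.Eventually.of_forall fun x s hs => hb s hs x) (integrable_const C)
    (hd.mono fun x hx s _ => hx s)
  exact h.2

omit [T2Space X] in
/-- derivative in the scale -/
theorem XEn_D1 (hψ : C11X K ψ) (hw : C11X K w) (r : ℝ) :
    HasDerivAt (fun r => ∫ x, w x * K.RM (fun y => r * ψ y) x ∂K.vol)
      (∫ x, w x * K.RL (fun y => r * ψ y) ψ x ∂K.vol) r := by
  obtain ⟨Cw, hCw0, hCw⟩ := XEn_bdd K hw
  obtain ⟨C1, hC10, hC1⟩ := XEn_RM_bdd K hψ hψ (|r| + 1)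
  obtain ⟨C2, hC20, hC2⟩ := XEn_RL_bdd K hψ hψ hψ (|r| + 1)
  have e : ∀ s : ℝ, (fun y => s * ψ y + 0 * ψ y) = (fun y => s * ψ y) := fun s => by
    funext y; ring
  have h0 : |(0 : ℝ)| ≤ |r| + 1 := by rw [abs_zero]; positivity
  refine XEn_deriv K (F := fun r x => w x * K.RM (fun y => r * ψ y) x)
    (F' := fun r x => w x * K.RL (fun y => r * ψ y) ψ x) (C := Cw * C2) (C' := Cw * C1)
    ?_ ?_ ?_ ?_ ?_
  · intro s
    exact (C11X.continuous K hw).aestronglyMeasurable.mul (K.RM_meas (C11X.const_mul K hψ s))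
  · exact (C11X.continuous K hw).aestronglyMeasurable.mul (K.RL_meas (C11X.const_mul K hψ r) hψ)
  · intro s hs x
    have hs' : |s| ≤ |r| + 1 := by
      have h1 : |s - r| < 1 := by simpa [Real.dist_eq] using hs
      have h2 : |s| ≤ |s - r| + |r| := by
        have := abs_add_le (s - r) r
        simpa using this
      linarith
    have := hC2 s 0 hs' h0 x
    rw [e] at this
    rw [abs_mul]
    exact mul_le_mul (hCw x) this (abs_nonneg _) hCw0
  · intro x
    have := hC1 r 0 (by linarith) h0 x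
    rw [e] at this
    rw [abs_mul]
    exact mul_le_mul (hCw x) this (abs_nonneg _) hCw0
  · filter_upwards [K.RM_deriv_scale hψ] with x hx s
    exact (hx s).const_mul (w x)

omit [T2Space X] in
/-- derivative in the direction of `w` -/
theorem XEn_D2 (hψ : C11X K ψ) (hw : C11X K w) (r s : ℝ) :
    HasDerivAt (fun s => ∫ x, (ψ x + s * w x) * K.RM (fun y => r * (ψ y + s * w y)) x ∂K.vol)
      (∫ x, (w x * K.RM (fun y => r * (ψ y + s * w y)) x +
        r * ((ψ x + s * w x) * K.RL (fun y => r * (ψ y + s * w y)) w x)) ∂K.vol) s := by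
  obtain ⟨Cψ, hCψ0, hCψ⟩ := XEn_bdd K hψ
  obtain ⟨Cw, hCw0, hCw⟩ := XEn_bdd K hw
  have hrψ := C11X.const_mul K hψ r
  have hrw := C11X.const_mul K hw r
  set A : ℝ := |s| + 1 with hA
  have hA1 : 1 ≤ A := by rw [hA]; linarith [abs_nonneg s]
  obtain ⟨C1, hC10, hC1⟩ := XEn_RM_bdd K hrψ hrw A
  obtain ⟨C2, hC20, hC2⟩ := XEn_RL_bdd K hrψ hrw hrw A
  have e : ∀ s : ℝ, (fun y => r * (ψ y + s * w y)) = (fun y => r * ψ y + s * (r * w y)) :=
    fun s => by funext y; ring
  have e1 : ∀ s : ℝ, (fun y => 1 * (r * ψ y) + s * (r * w y)) =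
      (fun y => r * ψ y + s * (r * w y)) := fun s => by funext y; ring
  have hsum : ∀ s : ℝ, C11X K (fun y => ψ y + s * w y) := fun s =>
    C11X.add K hψ (C11X.const_mul K hw s)
  have hsum' : ∀ s : ℝ, C11X K (fun y => r * ψ y + s * (r * w y)) := fun s =>
    C11X.add K hrψ (C11X.const_mul K hrw s)
  have key := XEn_deriv K (s₀ := s)
    (F := fun s x => (ψ x + s * w x) * K.RM (fun y => r * ψ y + s * (r * w y)) x)
    (F' := fun s x => w x * K.RM (fun y => r * ψ y + s * (r * w y)) x +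
      (ψ x + s * w x) * K.RL (fun y => r * ψ y + s * (r * w y)) (fun y => r * w y) x)
    (C := Cw * C1 + (Cψ + A * Cw) * C2) (C' := (Cψ + A * Cw) * C1) ?_ ?_ ?_ ?_ ?_
  · have hfun : (fun s => ∫ x, (ψ x + s * w x) * K.RM (fun y => r * (ψ y + s * w y)) x ∂K.vol) =
        fun s => ∫ x, (ψ x + s * w x) * K.RM (fun y => r * ψ y + s * (r * w y)) x ∂K.vol := by
      funext s; rw [e s]
    rw [hfun]
    have hval : (∫ x, (w x * K.RM (fun y => r * (ψ y + s * w y)) x +
        r * ((ψ x + s * w x) * K.RL (fun y => r * (ψ y + s * w y)) w x)) ∂K.vol) =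
        ∫ x, (w x * K.RM (fun y => r * ψ y + s * (r * w y)) x +
      (ψ x + s * w x) * K.RL (fun y => r * ψ y + s * (r * w y)) (fun y => r * w y) x) ∂K.vol := by
      rw [e s]
      refine integral_congr_ae ?_
      filter_upwards [K.RL_const_mul (hsum' s) hw r] with x hx
      rw [hx]; ring
    rw [hval]
    exact key
  · intro s
    exact (C11X.continuous K (hsum s)).aestronglyMeasurable.mul (K.RM_meas (hsum' s))
  · exact ((C11X.continuous K hw).aestronglyMeasurable.mul (K.RM_meas (hsum' s))).add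
      ((C11X.continuous K (hsum s)).aestronglyMeasurable.mul (K.RL_meas (hsum' s) hrw))
  · intro t ht x
    have ht' : |t| ≤ A := by
      have h1 : |t - s| < 1 := by simpa [Real.dist_eq] using ht
      have h2 : |t| ≤ |t - s| + |s| := by
        have := abs_add_le (t - s) s
        simpa using this
      rw [hA]; linarith
    have b1 := hC1 1 t (by rw [abs_one]; exact hA1) ht' x
    have b2 := hC2 1 t (by rw [abs_one]; exact hA1) ht' x
    rw [e1] at b1 b2
    have b3 : |ψ x + t * w x| ≤ Cψ + A * Cw := by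
      refine (abs_add_le _ _).trans (add_le_add (hCψ x) ?_)
      rw [abs_mul]
      exact mul_le_mul ht' (hCw x) (abs_nonneg _) (by linarith)
    refine (abs_add_le _ _).trans (add_le_add ?_ ?_)
    · rw [abs_mul]; exact mul_le_mul (hCw x) b1 (abs_nonneg _) hCw0
    · rw [abs_mul]; exact mul_le_mul b3 b2 (abs_nonneg _) (by positivity)
  · intro x
    have hs' : |s| ≤ A := by rw [hA]; linarith
    have b1 := hC1 1 s (by rw [abs_one]; exact hA1) hs' x
    rw [e1] at b1
    have b3 : |ψ x + s * w x| ≤ Cψ + A * Cw := by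
      refine (abs_add_le _ _).trans (add_le_add (hCψ x) ?_)
      rw [abs_mul]
      exact mul_le_mul hs' (hCw x) (abs_nonneg _) (by linarith)
    rw [abs_mul]; exact mul_le_mul b3 b1 (abs_nonneg _) (by positivity)
  · filter_upwards [K.RM_deriv hrψ hrw] with x hx t
    have h1 : HasDerivAt (fun t : ℝ => ψ x + t * w x) (w x) t := by
      simpa using ((hasDerivAt_id t).mul_const (w x)).const_add (ψ x)
    have := h1.mul (hx t)
    exact this

/-- the value of the derivative of the energy, before integration in the scale -/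
theorem XEn_D3 (hψ : C11X K ψ) (hw : C11X K w) (r s : ℝ) :
    HasDerivAt (fun r => r * ∫ x, w x * K.RM (fun y => r * (ψ y + s * w y)) x ∂K.vol)
      (∫ x, (w x * K.RM (fun y => r * (ψ y + s * w y)) x +
        r * ((ψ x + s * w x) * K.RL (fun y => r * (ψ y + s * w y)) w x)) ∂K.vol) r := by
  have hφ : C11X K (fun y => ψ y + s * w y) := C11X.add K hψ (C11X.const_mul K hw s)
  have hrφ := C11X.const_mul K hφ r
  have h1 := (hasDerivAt_id r).mul (XEn_D1 K hφ hw r)
  have h2 := K.sym hrφ hw hφ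
  obtain ⟨Cφ, hCφ0, hCφ⟩ := XEn_bdd K hφ
  obtain ⟨Cw, hCw0, hCw⟩ := XEn_bdd K hw
  obtain ⟨C1, hC10, hC1⟩ := XEn_RM_bdd K hφ hφ (|r| + 1)
  obtain ⟨C2, hC20, hC2⟩ := XEn_RL_bdd K hφ hφ hw (|r| + 1)
  have e : ∀ s' : ℝ, (fun y => s' * (ψ y + s * w y) + 0 * (ψ y + s * w y)) =
      (fun y => s' * (ψ y + s * w y)) := fun s => by
    funext y; ring
  have h0 : |(0 : ℝ)| ≤ |r| + 1 := by rw [abs_zero]; positivity
  have hr : |r| ≤ |r| + 1 := by linarith
  have i1 : Integrable (fun x => w x * K.RM (fun y => r * (ψ y + s * w y)) x) K.vol := by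
    refine XEn_int_of_bdd K ((C11X.continuous K hw).aestronglyMeasurable.mul (K.RM_meas hrφ))
      (C := Cw * C1) fun x => ?_
    have := hC1 r 0 hr h0 x
    rw [e] at this
    rw [abs_mul]
    exact mul_le_mul (hCw x) this (abs_nonneg _) hCw0
  have i2 : Integrable (fun x => (ψ x + s * w x) * K.RL (fun y => r * (ψ y + s * w y)) w x)
      K.vol := by
    refine XEn_int_of_bdd K ((C11X.continuous K hφ).aestronglyMeasurable.mul (K.RL_meas hrφ hw))
      (C := Cφ * C2) fun x => ?_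
    have := hC2 r 0 hr h0 x
    rw [e] at this
    rw [abs_mul]
    exact mul_le_mul (hCφ x) this (abs_nonneg _) hCφ0
  rw [integral_add i1 (i2.const_mul r), integral_const_mul, ← h2]
  have h3 : HasDerivAt (fun r => r * ∫ x, w x * K.RM (fun y => r * (ψ y + s * w y)) x ∂K.vol)
      (1 * (∫ x, w x * K.RM (fun y => r * (ψ y + s * w y)) x ∂K.vol) +
        r * ∫ x, w x * K.RL (fun y => r * (ψ y + s * w y)) (fun y => ψ y + s * w y) x ∂K.vol)
      r := h1
  rw [one_mul] at h3
  exact h3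

theorem XEn_bound (hψ : C11X K ψ) (hw : C11X K w) (s₀ : ℝ) : ∃ C : ℝ, ∀ r ∈ Icc (0 : ℝ) 1,
    ∀ s ∈ ball s₀ 1, ‖∫ x, (w x * K.RM (fun y => r * (ψ y + s * w y)) x +
        r * ((ψ x + s * w x) * K.RL (fun y => r * (ψ y + s * w y)) w x)) ∂K.vol‖ ≤ C := by
  have := K.vol_finite
  obtain ⟨Cψ, hCψ0, hCψ⟩ := XEn_bdd K hψ
  obtain ⟨Cw, hCw0, hCw⟩ := XEn_bdd K hw
  set A : ℝ := |s₀| + 1 with hA
  have hA1 : 1 ≤ A := by rw [hA]; linarith [abs_nonneg s₀]
  obtain ⟨C1, hC10, hC1⟩ := XEn_RM_bdd K hψ hw A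
  obtain ⟨C2, hC20, hC2⟩ := XEn_RL_bdd K hψ hw hw A
  refine ⟨(Cw * C1 + (Cψ + A * Cw) * C2) * K.vol.real univ, fun r hr s hs => ?_⟩
  refine norm_integral_le_of_norm_le_const (Filter.Eventually.of_forall fun x => ?_)
  have hs' : |s| ≤ A := by
    have h1 : |s - s₀| < 1 := by simpa [Real.dist_eq] using hs
    have h2 : |s| ≤ |s - s₀| + |s₀| := by
      have := abs_add_le (s - s₀) s₀
      simpa using this
    rw [hA]; linarith
  have hr' : |r| ≤ 1 := by rw [abs_of_nonneg hr.1]; exact hr.2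
  have hrs : |r * s| ≤ A := by
    rw [abs_mul]
    calc |r| * |s| ≤ 1 * A := mul_le_mul hr' hs' (abs_nonneg _) zero_le_one
      _ = A := one_mul _
  have e : (fun y => r * ψ y + (r * s) * w y) = (fun y => r * (ψ y + s * w y)) := by
    funext y; ring
  have b1 := hC1 r (r * s) (hr'.trans hA1) hrs x
  have b2 := hC2 r (r * s) (hr'.trans hA1) hrs x
  rw [e] at b1 b2
  have b3 : |ψ x + s * w x| ≤ Cψ + A * Cw := by
    refine (abs_add_le _ _).trans (add_le_add (hCψ x) ?_)
    rw [abs_mul]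
    exact mul_le_mul hs' (hCw x) (abs_nonneg _) (by linarith)
  rw [Real.norm_eq_abs]
  refine (abs_add_le _ _).trans (add_le_add ?_ ?_)
  · rw [abs_mul]; exact mul_le_mul (hCw x) b1 (abs_nonneg _) hCw0
  · rw [abs_mul, abs_mul]
    calc |r| * (|ψ x + s * w x| * |K.RL (fun y => r * (ψ y + s * w y)) w x|)
        ≤ 1 * ((Cψ + A * Cw) * C2) :=
          mul_le_mul hr' (mul_le_mul b3 b2 (abs_nonneg _) (by positivity)) (by positivity)
            zero_le_one
      _ = (Cψ + A * Cw) * C2 := one_mul _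

theorem XEn_Econt (hψ : C11X K ψ) (hw : C11X K w) :
    Continuous (fun r : ℝ => ∫ x, w x * K.RM (fun y => r * ψ y) x ∂K.vol) :=
  continuous_iff_continuousAt.mpr fun r => (XEn_D1 K hψ hw r).continuousAt

/-- the derivative of the energy along a segment -/
theorem XEn_Ederiv (hψ : C11X K ψ) (hw : C11X K w) (s : ℝ) :
    HasDerivAt (fun s => K.E (fun x => ψ x + s * w x))
      (∫ x, w x * K.RM (fun y => ψ y + s * w y) x ∂K.vol) s := by
  have hφ : ∀ s : ℝ, C11X K (fun y => ψ y + s * w y) := fun s =>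
    C11X.add K hψ (C11X.const_mul K hw s)
  obtain ⟨C, hC⟩ := XEn_bound K hψ hw s
  have hgm : Measurable (fun r : ℝ => ∫ x, (w x * K.RM (fun y => r * (ψ y + s * w y)) x +
        r * ((ψ x + s * w x) * K.RL (fun y => r * (ψ y + s * w y)) w x)) ∂K.vol) := by
    have : (fun r : ℝ => ∫ x, (w x * K.RM (fun y => r * (ψ y + s * w y)) x +
        r * ((ψ x + s * w x) * K.RL (fun y => r * (ψ y + s * w y)) w x)) ∂K.vol) =
        deriv (fun r => r * ∫ x, w x * K.RM (fun y => r * (ψ y + s * w y)) x ∂K.vol) := by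
      funext r
      exact (XEn_D3 K hψ hw r s).deriv.symm
    rw [this]
    exact measurable_deriv _
  have hIcc : ∀ r ∈ Set.uIoc (0 : ℝ) 1, r ∈ Icc (0 : ℝ) 1 := fun r hr => by
    rw [uIoc_of_le zero_le_one] at hr
    exact ⟨hr.1.le, hr.2⟩
  have h := intervalIntegral.hasDerivAt_integral_of_dominated_loc_of_deriv_le
    (μ := volume) (a := 0) (b := 1) (x₀ := s) (bound := fun _ => C) (s := ball s 1)
    (F := fun s r => ∫ x, (ψ x + s * w x) * K.RM (fun y => r * (ψ y + s * w y)) x ∂K.vol)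
    (F' := fun s r => ∫ x, (w x * K.RM (fun y => r * (ψ y + s * w y)) x +
        r * ((ψ x + s * w x) * K.RL (fun y => r * (ψ y + s * w y)) w x)) ∂K.vol)
    (ball_mem_nhds s one_pos)
    (Filter.Eventually.of_forall fun s =>
      (XEn_Econt K (hφ s) (hφ s)).aestronglyMeasurable)
    ((XEn_Econt K (hφ s) (hφ s)).intervalIntegrable 0 1)
    hgm.aestronglyMeasurable
    (Filter.Eventually.of_forall fun r hr s hs => hC r (hIcc r hr) s hs)
    (intervalIntegrable_const)
    (Filter.Eventually.of_forall fun r hr s hs => XEn_D2 K hψ hw r s)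
  have h2 := h.2
  have hval : (∫ r in (0 : ℝ)..1, ∫ x, (w x * K.RM (fun y => r * (ψ y + s * w y)) x +
        r * ((ψ x + s * w x) * K.RL (fun y => r * (ψ y + s * w y)) w x)) ∂K.vol) =
      ∫ x, w x * K.RM (fun y => ψ y + s * w y) x ∂K.vol := by
    rw [intervalIntegral.integral_eq_sub_of_hasDerivAt (fun r _ => XEn_D3 K hψ hw r s)]
    · simp
    · rw [intervalIntegrable_iff]
      have : IsFiniteMeasure (volume.restrict (Set.uIoc (0 : ℝ) 1)) := by
        rw [uIoc_of_le zero_le_one]; infer_instance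
      refine Integrable.of_bound hgm.aestronglyMeasurable C ?_
      filter_upwards [ae_restrict_mem measurableSet_uIoc] with r hr
      exact hC r (hIcc r hr) s (mem_ball_self one_pos)
  rw [hval] at h2
  exact h2

theorem XEn_Hcont (hψ : C11X K ψ) (hw : C11X K w) :
    Continuous (fun s : ℝ => ∫ x, w x * K.RM (fun y => ψ y + s * w y) x ∂K.vol) := by
  rw [continuous_iff_continuousAt]
  intro s
  obtain ⟨Cw, hCw0, hCw⟩ := XEn_bdd K hw
  set A : ℝ := |s| + 1 with hA
  have hA1 : 1 ≤ A := by rw [hA]; linarith [abs_nonneg s]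
  obtain ⟨C1, hC10, hC1⟩ := XEn_RM_bdd K hψ hw A
  obtain ⟨C2, hC20, hC2⟩ := XEn_RL_bdd K hψ hw hw A
  have e1 : ∀ s : ℝ, (fun y => 1 * ψ y + s * w y) = (fun y => ψ y + s * w y) := fun s => by
    funext y; ring
  have hsum : ∀ s : ℝ, C11X K (fun y => ψ y + s * w y) := fun s =>
    C11X.add K hψ (C11X.const_mul K hw s)
  have key := XEn_deriv K (s₀ := s)
    (F := fun s x => w x * K.RM (fun y => ψ y + s * w y) x)
    (F' := fun s x => w x * K.RL (fun y => ψ y + s * w y) w x)
    (C := Cw * C2) (C' := Cw * C1) ?_ ?_ ?_ ?_ ?_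
  · exact key.continuousAt
  · intro s
    exact (C11X.continuous K hw).aestronglyMeasurable.mul (K.RM_meas (hsum s))
  · exact (C11X.continuous K hw).aestronglyMeasurable.mul (K.RL_meas (hsum s) hw)
  · intro t ht x
    have ht' : |t| ≤ A := by
      have h1 : |t - s| < 1 := by simpa [Real.dist_eq] using ht
      have h2 : |t| ≤ |t - s| + |s| := by
        have := abs_add_le (t - s) s
        simpa using this
      rw [hA]; linarith
    have b2 := hC2 1 t (by rw [abs_one]; exact hA1) ht' x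
    rw [e1] at b2
    rw [abs_mul]; exact mul_le_mul (hCw x) b2 (abs_nonneg _) hCw0
  · intro x
    have hs' : |s| ≤ A := by rw [hA]; linarith
    have b1 := hC1 1 s (by rw [abs_one]; exact hA1) hs' x
    rw [e1] at b1
    rw [abs_mul]; exact mul_le_mul (hCw x) b1 (abs_nonneg _) hCw0
  · filter_upwards [K.RM_deriv hψ hw] with x hx t
    exact (hx t).const_mul (w x)

theorem KM.E_diff (hψ : C11X K ψ) (hw : C11X K w) :
    K.E (fun x => ψ x + w x) - K.E ψ =
      ∫ s in (0 : ℝ)..1, ∫ x, w x * K.RM (fun y => ψ y + s * w y) x ∂K.vol := by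
  rw [intervalIntegral.integral_eq_sub_of_hasDerivAt (fun s _ => XEn_Ederiv K hψ hw s)
    ((XEn_Hcont K hψ hw).intervalIntegrable 0 1)]
  simp

theorem KM.E_add_const (hψ : C11X K ψ) (c : ℝ) :
    K.E (fun x => ψ x + c) = K.E ψ + c * K.vol.real univ := by
  have h := K.E_diff hψ (c11X_const K c)
  have h2 : ∀ s : ℝ, ∫ x, c * K.RM (fun y => ψ y + s * c) x ∂K.vol = c * K.vol.real univ := by
    intro s
    rw [integral_const_mul, K.mass (C11X.add K hψ (c11X_const K (s * c)))]
  simp only [h2] at h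
  rw [intervalIntegral.integral_const, smul_eq_mul] at h
  linarith

theorem XEn_RM_int (hψ : C11X K ψ) : Integrable (K.RM ψ) K.vol := by
  obtain ⟨C1, hC10, hC1⟩ := XEn_RM_bdd K hψ hψ 1
  refine XEn_int_of_bdd K (K.RM_meas hψ) (C := C1) fun x => ?_
  have := hC1 1 0 (by simp) (by simp) x
  have e : (fun y => 1 * ψ y + 0 * ψ y) = ψ := by funext y; ring
  rwa [e] at this

theorem XEn_mul_int (hψ : C11X K ψ) (hw : C11X K w) :
    Integrable (fun x => w x * K.RM ψ x) K.vol := by
  obtain ⟨Cw, hCw0, hCw⟩ := XEn_bdd K hw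
  exact (XEn_RM_int K hψ).bdd_mul (C11X.continuous K hw).aestronglyMeasurable
    (Filter.Eventually.of_forall hCw)

theorem KM.E_le (hψ : WK K ψ) {M : ℝ} (hM : 0 ≤ M) (h : ∀ x, ψ x ≤ M) :
    K.E ψ ≤ M * K.vol.real univ := by
  have h1 : ∀ r ∈ Icc (0 : ℝ) 1, ∫ x, ψ x * K.RM (fun y => r * ψ y) x ∂K.vol ≤
      M * K.vol.real univ := by
    intro r hr
    have hr' : WK K (fun y => r * ψ y) := by
      have := WK.convex K (wk_const K 0) hψ hr.1 hr.2
      simpa using this
    have hc := hr'.c11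
    rw [← K.mass hc, ← integral_const_mul]
    refine integral_mono_ae (XEn_mul_int K hc hψ.c11) ((XEn_RM_int K hc).const_mul M) ?_
    filter_upwards [K.RM_nonneg hr'] with x hx
    exact mul_le_mul_of_nonneg_right (h x) hx
  have h2 := intervalIntegral.integral_mono_on zero_le_one
    ((XEn_Econt K hψ.c11 hψ.c11).intervalIntegrable 0 1)
    (intervalIntegrable_const (μ := volume) (c := M * K.vol.real univ)) h1
  rw [intervalIntegral.integral_const, smul_eq_mul] at h2
  unfold KM.E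
  linarith

theorem KM.E_mono (hv : WK K v) (hw : WK K w) (h : ∀ x, v x ≤ w x) :
    (1 / (n + 1 : ℝ)) * ∫ x, (w x - v x) * K.RM w x ∂K.vol ≤ K.E w - K.E v := by
  have hd : C11X K (fun x => w x + (-1) * v x) := C11X.add K hw.c11 (C11X.const_mul K hv.c11 (-1))
  have hd' : (fun x => w x + (-1) * v x) = fun x => w x - v x := by funext x; ring
  rw [hd'] at hd
  have h1 := K.E_diff hv.c11 hd
  have e1 : (fun x => v x + (w x - v x)) = w := by funext x; ring
  rw [e1] at h1
  rw [h1]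
  have e2 : ∀ s : ℝ, (fun y => v y + s * (w y - v y)) = fun y => (1 - s) * v y + s * w y :=
    fun s => by funext y; ring
  set c := ∫ x, (w x - v x) * K.RM w x ∂K.vol with hc
  have h2 : ∀ s ∈ Icc (0 : ℝ) 1, s ^ n * c ≤
      ∫ x, (w x - v x) * K.RM (fun y => v y + s * (w y - v y)) x ∂K.vol := by
    intro s hs
    rw [hc, ← integral_const_mul]
    refine integral_mono_ae ((XEn_mul_int K hw.c11 hd).const_mul _)
      (XEn_mul_int K (C11X.add K hv.c11 (C11X.const_mul K hd s)) hd) ?_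
    filter_upwards [K.RM_convex hv hw hs.1 hs.2] with x hx
    rw [e2]
    have h3 : 0 ≤ w x - v x := sub_nonneg.mpr (h x)
    nlinarith [mul_le_mul_of_nonneg_left hx h3]
  have h3 := intervalIntegral.integral_mono_on zero_le_one
    (Continuous.intervalIntegrable (μ := volume) (u := fun s : ℝ => s ^ n * c) (by fun_prop) 0 1)
    ((XEn_Hcont K hv.c11 hd).intervalIntegrable 0 1) h2
  rw [intervalIntegral.integral_mul_const, integral_pow] at h3
  simpa using h3

theorem KM.E_mono' (hv : WK K v) (hw : WK K w) (h : ∀ x, v x ≤ w x) : K.E v ≤ K.E w := by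
  have h1 := K.E_mono hv hw h
  have h2 : 0 ≤ ∫ x, (w x - v x) * K.RM w x ∂K.vol := by
    refine integral_nonneg_of_ae ?_
    filter_upwards [K.RM_nonneg hw] with x hx
    exact mul_nonneg (sub_nonneg.mpr (h x)) hx
  have h3 : 0 ≤ (1 / (n + 1 : ℝ)) * ∫ x, (w x - v x) * K.RM w x ∂K.vol := by positivity
  linarith

end HMA
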