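import Pool.Agent.H85.KM.XC11
import Pool.Agent.H85.KM.CPn

/-! # Module XKp: functions of `WK` define `ω`-psh functions -/

open MeasureTheory Metric Set
open scoped ENNReal Topology ContDiff ComplexOrder

namespace HMA

variable {n : ℕ} {X : Type} [TopologicalSpace X] (K : KM n X)

theorem xkp_cont {n : ℕ} (a b : Cn n) :
    Continuous (fun θ : ℝ => a + Complex.exp (θ * Complex.I) • b) := by
  fun_prop

theorem xkp_circ {n : ℕ} {Ω : Set (Cn n)} {F : Cn n → ℝ} (hF : PshOn Ω F) {δ : ℝ} (hδ : 0 < δ)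
    (a b : Cn n) (hab : ∀ ζ : ℂ, ‖ζ‖ ≤ 1 → a + ζ • b ∈ Ω) :
    IntervalIntegrable (fun θ : ℝ => Real.log (max (F (a + Complex.exp (θ * Complex.I) • b)) δ))
      volume 0 (2 * Real.pi) := by
  have hmem : ∀ θ : ℝ, a + Complex.exp (θ * Complex.I) • b ∈ Ω := fun θ =>
    hab _ (Complex.norm_exp_ofReal_mul_I θ).le
  have husc : UpperSemicontinuous (fun θ : ℝ => F (a + Complex.exp (θ * Complex.I) • b)) := by
    intro θ y hy
    have h1 := hF.usc _ (hmem θ) y hy
    have h2 : Filter.Tendsto (fun θ : ℝ => a + Complex.exp (θ * Complex.I) • b) (𝓝 θ)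
        (𝓝[Ω] (a + Complex.exp (θ * Complex.I) • b)) :=
      tendsto_nhdsWithin_iff.2 ⟨(xkp_cont a b).tendsto θ, Filter.Eventually.of_forall hmem⟩
    exact h2.eventually h1
  obtain ⟨M, hM⟩ := (husc.upperSemicontinuousOn (Icc (0 : ℝ) (2 * Real.pi))).bddAbove_of_isCompact
    isCompact_Icc
  rw [intervalIntegrable_iff_integrableOn_Ioc_of_le (by positivity)]
  refine Measure.integrableOn_of_bounded (M := |Real.log δ| + |Real.log (max M δ)|)
    measure_Ioc_lt_top.ne
    (Real.measurable_log.comp (husc.measurable.max measurable_const)).aestronglyMeasurable ?_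
  refine (ae_restrict_iff' measurableSet_Ioc).2 (Filter.Eventually.of_forall fun θ hθ => ?_)
  have h1 : F (a + Complex.exp (θ * Complex.I) • b) ≤ M :=
    hM ⟨θ, Ioc_subset_Icc_self hθ, rfl⟩
  have h2 : Real.log δ ≤ Real.log (max (F (a + Complex.exp (θ * Complex.I) • b)) δ) :=
    Real.log_le_log hδ (le_max_right _ _)
  have h3 : Real.log (max (F (a + Complex.exp (θ * Complex.I) • b)) δ) ≤ Real.log (max M δ) :=
    Real.log_le_log (lt_max_of_lt_right hδ) (max_le_max_right δ h1)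
  rw [Real.norm_eq_abs, abs_le]
  have h4 := neg_abs_le (Real.log δ)
  have h5 := le_abs_self (Real.log (max M δ))
  have h6 := abs_nonneg (Real.log δ)
  have h7 := abs_nonneg (Real.log (max M δ))
  constructor <;> linarith

theorem xkp_mul {n : ℕ} {Ω : Set (Cn n)} {F : Cn n → ℝ} (hF : PshOn Ω F) {c : ℝ} (hc : 0 < c) :
    PshOn Ω (fun x => c * F x) := by
  refine ⟨fun x hx => mul_nonneg hc.le (hF.nonneg x hx), ?_, ?_⟩
  · have hg : Continuous (fun x : ℝ => c * x) := continuous_const.mul continuous_id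
    exact hg.comp_upperSemicontinuousOn hF.usc (fun x y hxy => mul_le_mul_of_nonneg_left hxy hc.le)
  · intro δ hδ a b hab
    have hdc : 0 < δ / c := div_pos hδ hc
    have key : ∀ y : ℝ, Real.log (max (c * y) δ) = Real.log c + Real.log (max y (δ / c)) := by
      intro y
      have h1 : max (c * y) δ = c * max y (δ / c) := by
        rw [mul_max_of_nonneg _ _ hc.le, mul_div_cancel₀ _ hc.ne']
      rw [h1, Real.log_mul hc.ne' (lt_max_of_lt_right hdc).ne']
    simp only [key]
    rw [intervalIntegral.integral_add (by simp) (xkp_circ hF hdc a b hab),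
      intervalIntegral.integral_const, smul_eq_mul, mul_add]
    have h2 := hF.submean (δ / c) hdc a b hab
    have h3 : (2 * Real.pi)⁻¹ * ((2 * Real.pi - 0) * Real.log c) = Real.log c := by
      have := Real.pi_pos
      field_simp
      ring
    rw [h3]
    linarith

theorem xkp_restrict {n : ℕ} {Ω Ω' : Set (Cn n)} {F : Cn n → ℝ} (hF : PshOn Ω F) (h : Ω' ⊆ Ω) :
    PshOn Ω' F :=
  ⟨fun x hx => hF.nonneg x (h hx), hF.usc.mono h,
    fun δ hδ a b hab => hF.submean δ hδ a b fun ζ hζ => h (hab ζ hζ)⟩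

theorem xkp_u_cont {ψ : X → ℝ} (hψ : WK K ψ) (i : Fin K.N) :
    ContinuousOn (fun z => K.ρ i z + ψ (K.κ i z)) (ball 0 3) := by
  refine (K.ρ_smooth i).continuousOn.add ?_
  intro z hz
  exact ((hψ.c11 i).diff z hz).continuousAt.continuousWithinAt

theorem xkp_bdd {n : ℕ} {Ω : Set (Cn n)} {u : Cn n → ℝ} (hu : ContinuousOn u Ω) :
    ∀ L ⊆ Ω, IsCompact L → ∃ M : ℝ, ∀ z ∈ L, -M ≤ u z := by
  intro L hL hLc
  obtain ⟨m, hm⟩ := (hLc.image_of_continuousOn (hu.mono hL)).bddBelow
  refine ⟨-m, fun z hz => ?_⟩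
  rw [neg_neg]
  exact hm ⟨z, hz, rfl⟩

theorem xkp_const {n : ℕ} (Ω : Set (Cn n)) (c : ℝ) : SubOn Ω (fun _ => c) := by
  intro a b _
  rw [intervalIntegral.integral_const, smul_eq_mul, sub_zero, ← mul_assoc,
    inv_mul_cancel₀ (by positivity), one_mul]

theorem kpsh_of_wk {ψ : X → ℝ} (hψ : WK K ψ) [Nonempty X] : KPsh K (fun x => Real.exp (ψ x)) := by
  constructor
  · intro i
    have he : (fun z => Real.exp (ψ (K.κ i z)) * Real.exp (K.ρ i z)) =
        fun z => Real.exp (K.ρ i z + ψ (K.κ i z)) := by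
      funext z
      rw [← Real.exp_add, add_comm]
    show PshOn (ball 0 3) (fun z => Real.exp (ψ (K.κ i z)) * Real.exp (K.ρ i z))
    rw [he]
    have hc := xkp_u_cont K hψ i
    refine ⟨fun x _ => (Real.exp_pos _).le, ?_, ?_⟩
    · exact (Real.continuous_exp.comp_continuousOn hc).upperSemicontinuousOn
    · intro δ hδ a b hab
      have h1 : ∀ t : ℝ, Real.log (max (Real.exp t) δ) = max t (Real.log δ) := by
        intro t
        rcases le_total (Real.exp t) δ with h | h
        · rw [max_eq_right h, max_eq_right]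
          rw [Real.le_log_iff_exp_le hδ]
          exact h
        · rw [max_eq_left h, Real.log_exp, max_eq_left]
          rw [Real.log_le_iff_le_exp hδ]
          exact h
      simp only [h1]
      exact sub_max hc.upperSemicontinuousOn
        (continuousOn_const (c := Real.log δ)).upperSemicontinuousOn (xkp_bdd hc)
        (xkp_bdd continuousOn_const) (hψ.sub i) (xkp_const _ _) a b hab
  · obtain ⟨x⟩ := ‹Nonempty X›
    exact ⟨x, (Real.exp_pos _).ne'⟩

theorem KPsh.const_mul {F : X → ℝ} (hF : KPsh K F) {c : ℝ} (hc : 0 < c) :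
    KPsh K (fun x => c * F x) := by
  constructor
  · intro i
    have h := xkp_mul (hF.loc i) hc
    have he : (fun z => c * F (K.κ i z) * Real.exp (K.ρ i z)) =
        fun z => c * (F (K.κ i z) * Real.exp (K.ρ i z)) := by
      funext z
      ring
    show PshOn (ball 0 3) (fun z => c * F (K.κ i z) * Real.exp (K.ρ i z))
    rw [he]
    exact h
  · obtain ⟨x, hx⟩ := hF.nontrivial
    exact ⟨x, mul_ne_zero hc.ne' hx⟩

theorem xkp_nonneg {F : X → ℝ} (hF : KPsh K F) (x : X) : 0 ≤ F x := by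
  obtain ⟨i, z, hz, rfl⟩ := K.cover x
  have h := (hF.loc i).nonneg z (ball_subset_ball (by norm_num) hz)
  exact nonneg_of_mul_nonneg_left h (Real.exp_pos _)

/-- upper semicontinuity in a chart -/
theorem xkp_usc_chart {F : X → ℝ} (hF : KPsh K F) (i : Fin K.N) :
    UpperSemicontinuousOn (fun z => F (K.κ i z)) (ball 0 3) := by
  intro z hz y hy
  -- `F < y` near `z`: choose `y'` between
  obtain ⟨y', h1, h2⟩ := exists_between hy
  have hy'0 : 0 < y' := lt_of_le_of_lt (xkp_nonneg K hF _) h1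
  have h3 : ∀ᶠ w in 𝓝[ball (0 : Cn n) 3] z,
      F (K.κ i w) * Real.exp (K.ρ i w) < y' * Real.exp (K.ρ i z) :=
    (hF.loc i).usc z hz _ (mul_lt_mul_of_pos_right h1 (Real.exp_pos _))
  have h4 : ∀ᶠ w in 𝓝[ball (0 : Cn n) 3] z,
      y' * Real.exp (K.ρ i z) < y * Real.exp (K.ρ i w) := by
    have hc : ContinuousWithinAt (fun w => y * Real.exp (K.ρ i w)) (ball (0 : Cn n) 3) z :=
      (continuousWithinAt_const.mul
        (Real.continuous_exp.continuousAt.comp_continuousWithinAt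
          ((K.ρ_smooth i).continuousOn z hz)))
    have h5 : y' * Real.exp (K.ρ i z) < y * Real.exp (K.ρ i z) :=
      mul_lt_mul_of_pos_right h2 (Real.exp_pos _)
    exact hc.eventually (lt_mem_nhds h5)
  filter_upwards [h3, h4] with w h5 h6
  exact lt_of_mul_lt_mul_right (h5.trans h6) (Real.exp_pos _).le

theorem KPsh.usc {F : X → ℝ} (hF : KPsh K F) : UpperSemicontinuous F := by
  intro x y hy
  obtain ⟨i, z, hz, rfl⟩ := K.cover x
  have hz3 : z ∈ ball (0 : Cn n) 3 := ball_subset_ball (by norm_num) hz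
  have h1 := xkp_usc_chart K hF i z hz3 y hy
  rw [isOpen_ball.nhdsWithin_eq hz3] at h1
  obtain ⟨t, ht1, ht2, ht3⟩ := _root_.eventually_nhds_iff.1 (h1.and (isOpen_ball.mem_nhds hz3))
  have h2 : IsOpen (K.κ i '' t) := K.isOpen_image i t (fun w hw => (ht1 w hw).2) ht2
  filter_upwards [h2.mem_nhds (mem_image_of_mem _ ht3)] with w hw
  obtain ⟨w', hw', rfl⟩ := hw
  exact (ht1 w' hw').1

theorem KPsh.exists_max [CompactSpace X] {F : X → ℝ} (hF : KPsh K F) :
    ∃ x₀, 0 < F x₀ ∧ ∀ x, F x ≤ F x₀ := by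
  obtain ⟨x, hx⟩ := hF.nontrivial
  obtain ⟨x₀, -, h⟩ := UpperSemicontinuousOn.exists_isMaxOn (s := (univ : Set X)) ⟨x, mem_univ x⟩
    isCompact_univ ((KPsh.usc K hF).upperSemicontinuousOn _)
  have h' : ∀ x, F x ≤ F x₀ := fun y => h (mem_univ y)
  refine ⟨x₀, ?_, h'⟩
  exact lt_of_lt_of_le (lt_of_le_of_ne (xkp_nonneg K hF x) (Ne.symm hx)) (h' x)

/-- normalised functions in a chart: there is `a` (depending on `K` only) such that for `F ≤ 1`
`a * F * exp ρ` is a competitor of the local theory -/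
theorem KPsh.chart [CompactSpace X] (i : Fin K.N) : ∃ a : ℝ, 0 < a ∧ ∀ F : X → ℝ, KPsh K F →
    (∀ x, F x ≤ 1) → PshOn (ball 0 2) (fun z => a * (F (K.κ i z) * Real.exp (K.ρ i z))) ∧
      ∀ z ∈ ball (0 : Cn n) 2, a * (F (K.κ i z) * Real.exp (K.ρ i z)) ≤ 1 := by
  have hsub : closedBall (0 : Cn n) 2 ⊆ ball 0 3 := closedBall_subset_ball (by norm_num)
  obtain ⟨B, hB⟩ := ((isCompact_closedBall (0 : Cn n) 2).image_of_continuousOn
    ((K.ρ_smooth i).continuousOn.mono hsub)).bddAbove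
  refine ⟨Real.exp (-B), Real.exp_pos _, fun F hF h1 => ⟨?_, fun z hz => ?_⟩⟩
  · exact xkp_mul (xkp_restrict (hF.loc i) (ball_subset_ball (by norm_num))) (Real.exp_pos _)
  · have h2 : K.ρ i z ≤ B := hB ⟨z, ball_subset_closedBall hz, rfl⟩
    have h3 : Real.exp (K.ρ i z) ≤ Real.exp B := Real.exp_le_exp.2 h2
    calc Real.exp (-B) * (F (K.κ i z) * Real.exp (K.ρ i z))
        ≤ Real.exp (-B) * (1 * Real.exp B) :=
          mul_le_mul_of_nonneg_left (mul_le_mul (h1 _) h3 (Real.exp_pos _).le zero_le_one)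
            (Real.exp_pos _).le
      _ = 1 := by rw [one_mul, ← Real.exp_add]; simp

end HMA
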