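import Pool.Agent.H85.KM.XRel
import Pool.Agent.H85.KM.Env
import Pool.Agent.H85.KM.CLN

/-! # Module XLoc: local modifications -/

open MeasureTheory Metric Set
open scoped ENNReal Topology ContDiff ComplexOrder

namespace HMA

variable {n : ℕ} {X : Type} [TopologicalSpace X] (K : KM n X)

variable [MeasurableSpace X] [BorelSpace X] [T2Space X] [CompactSpace X] {ψ : X → ℝ}

omit [TopologicalSpace X] [MeasurableSpace X] [BorelSpace X] [T2Space X] [CompactSpace X] in
theorem xLoc_sub_congr {Ω Ω' : Set (Cn n)} {u v : Cn n → ℝ} (hu : SubOn Ω u) (h : Ω' ⊆ Ω)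
    (he : ∀ z ∈ Ω', v z = u z) : SubOn Ω' v := by
  intro a c hac
  have h1 := hu a c (fun ζ hζ => h (hac ζ hζ))
  have ha : a ∈ Ω' := by simpa using hac 0 (by simp)
  rw [he a ha]
  refine h1.trans (le_of_eq ?_)
  congr 1
  refine intervalIntegral.integral_congr (fun θ _ => ?_)
  exact (he _ (hac _ (by rw [Complex.norm_exp_ofReal_mul_I]))).symm

/-- integrability of `v RM ψ` -/
theorem KM.xLoc_int {v : X → ℝ} (hψ : C11X K ψ) (hv : C11X K v) :
    Integrable (fun x => v x * K.RM ψ x) K.vol := by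
  obtain ⟨C, hC0, hC⟩ := K.RM_bdd hψ hψ
  have hRM : ∀ x, |K.RM ψ x| ≤ C := by
    intro x
    have h1 := hC 1 0 (by simp) (by simp) x
    have h2 : (fun y => 1 * ψ y + 0 * ψ y) = ψ := by
      funext y
      ring
    rw [h2] at h1
    exact h1
  have hfin : IsFiniteMeasure K.vol := K.vol_finite
  obtain ⟨B, hB⟩ := isCompact_univ.exists_bound_of_continuousOn (C11X.continuous K hv).continuousOn
  refine Integrable.of_bound
    ((C11X.continuous K hv).aestronglyMeasurable.mul (K.RM_meas hψ)) (B * C) ?_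
  refine Filter.Eventually.of_forall (fun x => ?_)
  rw [norm_mul]
  have h3 := hB x (mem_univ x)
  exact mul_le_mul h3 (hRM x) (abs_nonneg _) ((norm_nonneg _).trans h3)

/-- the integral of `b (ω + dd^c ψ)^n` in the chart -/
theorem KM.xLoc_chart (hψ : C11X K ψ) (i : Fin K.N) {b : Cn n → ℝ} (hb : C11X K (K.ext i b)) :
    IntegrableOn (fun z => b z * mad (fun y => K.ρ i y + ψ (K.κ i y)) z) (ball 0 3) ∧
    ∫ x, K.ext i b x * K.RM ψ x ∂K.vol =
      ∫ z in ball 0 3, b z * mad (fun y => K.ρ i y + ψ (K.κ i y)) z := by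
  obtain ⟨h1, h2⟩ := K.integral_chart i (K.xLoc_int hψ hb)
    (fun x hx => by rw [K.ext_off i b hx, zero_mul])
  have h3 : ∀ᵐ z : Cn n, z ∈ ball (0 : Cn n) 3 →
      K.ext i b (K.κ i z) * K.RM ψ (K.κ i z) * mad (K.ρ i) z =
        b z * mad (fun y => K.ρ i y + ψ (K.κ i y)) z := by
    filter_upwards [K.RM_chart hψ i] with z hz hz3
    rw [K.ext_κ i b hz3, hz hz3]
    have h4 := (K.mad_ρ_pos i hz3).2.2
    field_simp
  constructor
  · refine (integrableOn_congr_fun_ae ?_).1 h1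
    rw [Filter.EventuallyEq, ae_restrict_iff' measurableSet_ball]
    exact h3
  · rw [h2]
    exact setIntegral_congr_ae measurableSet_ball h3

/-- the modified function in the chart -/
theorem KM.xLoc_mod (i : Fin K.N) {g : Cn n → ℝ} {z : Cn n} (hz : z ∈ ball (0 : Cn n) 3) :
    mad (fun y => K.ρ i y + (ψ (K.κ i y) + K.ext i g (K.κ i y))) z =
      mad (fun y => (K.ρ i y + ψ (K.κ i y)) + g y) z := by
  unfold mad
  rw [LM_congr (z := z) (u := fun y => K.ρ i y + (ψ (K.κ i y) + K.ext i g (K.κ i y)))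
    (v := fun y => (K.ρ i y + ψ (K.κ i y)) + g y)]
  filter_upwards [isOpen_ball.mem_nhds hz] with y hy
  rw [K.ext_κ i g hy]
  ring

theorem xLoc_supp {b g : Cn n → ℝ} {t : ℝ} (hg : ∀ z, 0 ≤ g z ∧ g z ≤ t * b z) :
    ∀ z, z ∉ tsupport b → g z = 0 := by
  intro z hz
  have h1 := hg z
  rw [image_eq_zero_of_notMem_tsupport hz, mul_zero] at h1
  linarith

theorem xLoc_compact {b : Cn n → ℝ} (hbs : tsupport b ⊆ ball 0 2) : IsCompact (tsupport b) :=
  (isCompact_closedBall (0 : Cn n) 2).of_isClosed_subset (isClosed_tsupport b)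
    (hbs.trans ball_subset_closedBall)

theorem xLoc_c11 {b : Cn n → ℝ} (hb : ContDiff ℝ ∞ b) (Ω : Set (Cn n)) (hΩ : IsOpen Ω) :
    C11 Ω b := by
  refine c11_of_contDiffOn hΩ ?_
  exact (show ContDiff ℝ 2 b from by exact_mod_cast contDiff_infty.1 hb 2).contDiffOn

theorem KM.xLoc_wk (hψ : WK K ψ) (i : Fin K.N) {P g : Cn n → ℝ} {L : Set (Cn n)}
    (hL : IsCompact L) (hL3 : L ⊆ ball 0 3) (hg : C11 (ball 0 3) g) (h0 : ∀ z, z ∉ L → g z = 0)
    (hP : SubOn (ball 0 3) P) (hgP : ∀ z, g z = P z - (K.ρ i z + ψ (K.κ i z))) :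
    WK K (fun x => ψ x + K.ext i g x) := by
  have hc : C11X K (fun x => ψ x + K.ext i g x) :=
    C11X.add K hψ.c11 (c11X_ext K i hg hL hL3 h0)
  refine wk_of_local K hc (fun x => ?_)
  by_cases hx : x ∈ K.κ i '' ball 0 3
  · obtain ⟨z, hz, rfl⟩ := hx
    obtain ⟨r, hr, hr3⟩ := Metric.isOpen_iff.1 (isOpen_ball (x := (0 : Cn n)) (ε := 3)) z hz
    refine ⟨i, z, r, hr, hr3, rfl, ?_⟩
    refine xLoc_sub_congr hP hr3 (fun y hy => ?_)
    show K.ρ i y + (ψ (K.κ i y) + K.ext i g (K.κ i y)) = P y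
    rw [K.ext_κ i g (hr3 hy), hgP y]
    ring
  · obtain ⟨j, z, hz, rfl⟩ := K.cover x
    have hz3 : z ∈ ball (0 : Cn n) 3 := ball_subset_ball (by norm_num) hz
    have hcl : IsClosed (K.κ i '' L) := (K.compact_image i hL hL3).isClosed
    have hopen : IsOpen (ball (0 : Cn n) 3 ∩ K.κ j ⁻¹' (K.κ i '' L)ᶜ) :=
      (K.cont j).isOpen_inter_preimage isOpen_ball hcl.isOpen_compl
    have hzmem : z ∈ ball (0 : Cn n) 3 ∩ K.κ j ⁻¹' (K.κ i '' L)ᶜ := by
      refine ⟨hz3, fun h => hx ?_⟩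
      exact image_mono hL3 h
    obtain ⟨r, hr, hr3⟩ := Metric.isOpen_iff.1 hopen z hzmem
    refine ⟨j, z, r, hr, hr3.trans inter_subset_left, rfl, ?_⟩
    refine xLoc_sub_congr (hψ.sub j) (hr3.trans inter_subset_left) (fun y hy => ?_)
    show K.ρ j y + (ψ (K.κ j y) + K.ext i g (K.κ j y)) = K.ρ j y + ψ (K.κ j y)
    have h1 : K.ext i g (K.κ j y) = 0 := by
      by_cases h2 : K.κ j y ∈ K.κ i '' ball 0 3
      · obtain ⟨y', hy', hyy⟩ := h2
        rw [← hyy, K.ext_κ i g hy']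
        refine h0 y' (fun hy'L => (hr3 hy).2 ?_)
        exact ⟨y', hy'L, hyy⟩
      · exact K.ext_off i g h2
    rw [h1, add_zero]

/-- modification of `ψ` in the chart `i` by the envelope with obstacle `ψ + t b` -/
theorem KM.loc_mod (hψ : WK K ψ) (i : Fin K.N) {b : Cn n → ℝ} (hb : ContDiff ℝ ∞ b)
    (hb0 : ∀ z, 0 ≤ b z) (hbs : tsupport b ⊆ ball 0 2) {t : ℝ} (ht : 0 < t) :
    ∃ g : Cn n → ℝ, C11 (ball 0 3) g ∧ (∀ z, 0 ≤ g z ∧ g z ≤ t * b z) ∧
      WK K (fun x => ψ x + K.ext i g x) ∧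
      ∫ x, K.ext i g x * K.RM (fun y => ψ y + K.ext i g y) x ∂K.vol =
        t * ∫ x, K.ext i b x * K.RM (fun y => ψ y + K.ext i g y) x ∂K.vol := by
  have hu0 : C11 (ball 0 3) (fun z => K.ρ i z + ψ (K.κ i z)) :=
    C11.add isOpen_ball (K.ρ_c11 i) (hψ.c11 i)
  obtain ⟨P, hP1, hP2, hP3, hP4⟩ := envelope hu0 (hψ.sub i) hb hb0 hbs ht
  have hL := xLoc_compact hbs
  have hL3 : tsupport b ⊆ ball 0 3 := hbs.trans (ball_subset_ball (by norm_num))
  let g : Cn n → ℝ := fun z => P z + (-1) * (K.ρ i z + ψ (K.κ i z))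
  have hgdef : ∀ z, g z = P z + (-1) * (K.ρ i z + ψ (K.κ i z)) := fun z => rfl
  have hg : C11 (ball 0 3) g := C11.add isOpen_ball hP1 (C11.const_mul isOpen_ball hu0 (-1))
  have hgb : ∀ z, 0 ≤ g z ∧ g z ≤ t * b z := by
    intro z
    have h1 := hP3 z
    rw [hgdef]
    constructor <;> linarith [h1.1, h1.2]
  have h0 := xLoc_supp hgb
  have hWK : WK K (fun x => ψ x + K.ext i g x) :=
    K.xLoc_wk hψ i hL hL3 hg h0 hP2 (fun z => by rw [hgdef]; ring)
  refine ⟨g, hg, hgb, hWK, ?_⟩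
  have hextg : C11X K (K.ext i g) := c11X_ext K i hg hL hL3 h0
  have hextb : C11X K (K.ext i b) := c11X_ext K i (xLoc_c11 hb _ isOpen_ball) hL hL3
    (fun z hz => image_eq_zero_of_notMem_tsupport hz)
  rw [(K.xLoc_chart hWK.c11 i hextg).2, (K.xLoc_chart hWK.c11 i hextb).2, ← integral_const_mul]
  refine setIntegral_congr_ae measurableSet_ball ?_
  filter_upwards [hP4] with z hz hz3
  rw [K.xLoc_mod i hz3]
  have h5 : (fun y => (K.ρ i y + ψ (K.κ i y)) + g y) = P := by
    funext y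
    rw [hgdef]
    ring
  rw [h5]
  rcases lt_or_ge (P z) (K.ρ i z + ψ (K.κ i z) + t * b z) with h6 | h6
  · rw [hz hz3 h6]
    ring
  · have h7 : g z = t * b z := by
      refine le_antisymm (hgb z).2 ?_
      rw [hgdef]
      linarith
    rw [h7]
    ring

/-- the entries of the Levi matrix are bounded by the second derivative -/
theorem xLoc_entry {b : Cn n → ℝ} {z : Cn n} {C : ℝ} (hC : ‖hes b z‖ ≤ C) (j k : Fin n) :
    ‖LM b z j k‖ ≤ C := by
  have hbv : ∀ j, ‖bv n j‖ = 1 := by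
    intro j
    unfold bv
    rw [EuclideanSpace.norm_single]
    simp
  have hbI : ∀ j, ‖Complex.I • bv n j‖ = 1 := by
    intro j
    rw [norm_smul, hbv j]
    simp
  have h1 : ∀ a c : Cn n, ‖a‖ = 1 → ‖c‖ = 1 → |hes b z a c| ≤ C := by
    intro a c ha hc
    have h2 := (hes b z a).le_opNorm c
    have h3 := (hes b z).le_opNorm a
    rw [hc, mul_one] at h2
    rw [ha, mul_one] at h3
    exact (h2.trans h3).trans hC
  unfold LM
  rw [norm_div]
  have h4 : ‖(4 : ℂ)‖ = 4 := by simp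
  rw [h4, div_le_iff₀ (by norm_num)]
  refine (norm_add_le _ _).trans ?_
  rw [norm_mul, Complex.norm_I, one_mul, Complex.norm_real, Complex.norm_real,
    Real.norm_eq_abs, Real.norm_eq_abs]
  have h5 := abs_add_le (hes b z (bv n j) (bv n k)) (hes b z (Complex.I • bv n j) (Complex.I • bv n k))
  have h6 := abs_sub (hes b z (bv n j) (Complex.I • bv n k)) (hes b z (Complex.I • bv n j) (bv n k))
  have h7 := h1 _ _ (hbv j) (hbv k)
  have h8 := h1 _ _ (hbI j) (hbI k)
  have h9 := h1 _ _ (hbv j) (hbI k)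
  have h10 := h1 _ _ (hbI j) (hbv k)
  linarith

theorem xLoc_twD {b : Cn n → ℝ} (hb : ContDiff ℝ ∞ b) (z : Cn n) : TwD b z := by
  have h1 : ContDiff ℝ 2 b := by exact_mod_cast contDiff_infty.1 hb 2
  constructor
  · exact Filter.Eventually.of_forall (fun w => (h1.differentiable (by norm_num)) w)
  · exact ((h1.fderiv_right (m := 1) (by norm_num)).differentiable (by norm_num)) z

/-- pointwise bound of the mixed term -/
theorem xLoc_mal {u b : Cn n → ℝ} {z : Cn n} (hb : ContDiff ℝ ∞ b) {C : ℝ}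
    (hC : ‖hes b z‖ ≤ C) (hu : (LM u z).PosSemidef) :
    |mal u b z| ≤ (n * C) * (((LM u z).adjugate.trace).re) := by
  obtain ⟨h1, h2⟩ := mat_herm_bound (xLoc_twD hb z).herm (xLoc_entry hC)
  exact mat_trace_adj hu h1 h2

/-- the Monge-Ampère mass changes by at most `C t` -/
theorem KM.loc_mass (i : Fin K.N) {b : Cn n → ℝ} (hb : ContDiff ℝ ∞ b)
    (hb0 : ∀ z, 0 ≤ b z) (hbs : tsupport b ⊆ ball 0 2) (M : ℝ) : ∃ C : ℝ, 0 < C ∧
    ∀ ψ : X → ℝ, WK K ψ → (∀ x, |ψ x| ≤ M) → ∀ t : ℝ, 0 < t → t ≤ 1 → ∀ g : Cn n → ℝ,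
      C11 (ball 0 3) g → (∀ z, 0 ≤ g z ∧ g z ≤ t * b z) → WK K (fun x => ψ x + K.ext i g x) →
      |(∫ x, K.ext i b x * K.RM (fun y => ψ y + K.ext i g y) x ∂K.vol) -
        ∫ x, K.ext i b x * K.RM ψ x ∂K.vol| ≤ C * t := by
  have hL := xLoc_compact hbs
  have hL3 : tsupport b ⊆ ball 0 3 := hbs.trans (ball_subset_ball (by norm_num))
  have hbc : HasCompactSupport b := hL
  obtain ⟨B, hB⟩ := hb.continuous.bounded_above_of_compact_support hbc
  have hB0 : 0 ≤ B := (norm_nonneg _).trans (hB 0)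
  have hbB : ∀ z, b z ≤ B := fun z => (le_abs_self _).trans (hB z)
  have hb11 : C11 (ball (0 : Cn n) 3) b := xLoc_c11 hb _ isOpen_ball
  have hcl23 : closedBall (0 : Cn n) 2 ⊆ ball 0 3 := closedBall_subset_ball (by norm_num)
  have hcl53 : closedBall (0 : Cn n) (5 / 2) ⊆ ball 0 3 := closedBall_subset_ball (by norm_num)
  obtain ⟨H, hH0, hH⟩ := C11.hes_bdd isOpen_ball hb11 (isCompact_closedBall (0 : Cn n) 2) hcl23
  obtain ⟨R, hR⟩ := (isCompact_closedBall (0 : Cn n) (5 / 2)).exists_bound_of_continuousOn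
    ((K.ρ_c11 i).continuousOn.mono hcl53)
  have hR0 : 0 ≤ R := (norm_nonneg _).trans (hR 0 (by
    rw [mem_closedBall, dist_self]; norm_num))
  obtain ⟨C₁, hC₁, hcln⟩ := cln n
  set M' : ℝ := |M| + R + B + 1 with hM'
  have hM'1 : 1 ≤ M' := by
    have := abs_nonneg M
    rw [hM']
    linarith
  set D : ℝ := B * (n * H) * (C₁ * M' ^ n) with hD
  have hD0 : 0 ≤ D := by positivity
  refine ⟨D + 1, by linarith, ?_⟩
  intro ψ hψ hψM t ht ht1 g hg hgb hWK
  have h0 := xLoc_supp hgb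
  have hextb : C11X K (K.ext i b) := c11X_ext K i hb11 hL hL3
    (fun z hz => image_eq_zero_of_notMem_tsupport hz)
  set u0 : Cn n → ℝ := fun z => K.ρ i z + ψ (K.κ i z) with hu0d
  have hu0 : C11 (ball 0 3) u0 := C11.add isOpen_ball (K.ρ_c11 i) (hψ.c11 i)
  obtain ⟨hi1, he1⟩ := K.xLoc_chart hWK.c11 i hextb
  obtain ⟨hi2, he2⟩ := K.xLoc_chart hψ.c11 i hextb
  have he3 : (∫ x, K.ext i b x * K.RM (fun y => ψ y + K.ext i g y) x ∂K.vol) -
      ∫ x, K.ext i b x * K.RM ψ x ∂K.vol =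
      ∫ z in ball 0 3, b z * (mad (fun y => u0 y + g y) z - mad u0 z) := by
    rw [he1, he2, ← integral_sub hi1 hi2]
    refine setIntegral_congr_fun measurableSet_ball (fun z hz => ?_)
    show b z * mad (fun y => K.ρ i y + (ψ (K.κ i y) + K.ext i g (K.κ i y))) z - b z * mad u0 z =
      b z * (mad (fun y => u0 y + g y) z - mad u0 z)
    rw [K.xLoc_mod i hz]
    ring
  rw [he3, seg_mad isOpen_ball hu0 hg hb11 hL hL3 h0]
  -- the bound for each `s`
  have hkey : ∀ s ∈ Set.uIoc (0 : ℝ) 1,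
      ‖∫ z in ball (0 : Cn n) 3, g z * mal (fun y => u0 y + s * g y) b z‖ ≤ D * t := by
    intro s hs
    rw [Set.uIoc_of_le (by norm_num)] at hs
    have hs0 : 0 ≤ s := hs.1.le
    have hs1 : s ≤ 1 := hs.2
    have hc : C11 (ball 0 3) (fun y => u0 y + s * g y) :=
      C11.add isOpen_ball hu0 (C11.const_mul isOpen_ball hg s)
    have hsub : SubOn (ball 0 3) (fun y => u0 y + s * g y) := by
      have h1 := (WK.convex K hψ hWK hs0 hs1).sub i
      refine xLoc_sub_congr h1 (subset_refl _) (fun y hy => ?_)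
      show K.ρ i y + ψ (K.κ i y) + s * g y = K.ρ i y +
        ((1 - s) * ψ (K.κ i y) + s * (ψ (K.κ i y) + K.ext i g (K.κ i y)))
      rw [K.ext_κ i g hy]
      ring
    have hpsd := (c11_sub_iff isOpen_ball hc).1 hsub
    have hb52 : ball (0 : Cn n) (5 / 2) ⊆ ball 0 3 := ball_subset_ball (by norm_num)
    have hclnu := hcln (fun y => u0 y + s * g y) M' hM'1 (hc.mono hb52)
      (xLoc_sub_congr hsub hb52 (fun _ _ => rfl)) (fun z hz => by
        have h1 : |K.ρ i z| ≤ R := hR z (ball_subset_closedBall hz)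
        have h2 : |ψ (K.κ i z)| ≤ |M| := (hψM _).trans (le_abs_self _)
        have h3 : |s * g z| ≤ B := by
          rw [abs_mul, abs_of_nonneg hs0, abs_of_nonneg (hgb z).1]
          have h4 : g z ≤ B := by
            have h5 : t * b z ≤ 1 * b z := mul_le_mul_of_nonneg_right ht1 (hb0 z)
            linarith [(hgb z).2, hbB z]
          calc s * g z ≤ 1 * g z := mul_le_mul_of_nonneg_right hs1 (hgb z).1
            _ ≤ B := by linarith
        show |K.ρ i z + ψ (K.κ i z) + s * g z| ≤ M'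
        have h6 := abs_add_le (K.ρ i z + ψ (K.κ i z)) (s * g z)
        have h7 := abs_add_le (K.ρ i z) (ψ (K.κ i z))
        rw [hM']
        linarith)
    have hpt : ∀ᵐ z : Cn n, z ∈ ball (0 : Cn n) 3 →
        ENNReal.ofReal ‖g z * mal (fun y => u0 y + s * g y) b z‖ ≤
          (ball (0 : Cn n) 2).indicator (fun z => ENNReal.ofReal (t * (B * (n * H))) *
            ENNReal.ofReal (((LM (fun y => u0 y + s * g y) z).adjugate.trace).re)) z := by
      filter_upwards [hpsd] with z hz hz3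
      by_cases hz2 : z ∈ ball (0 : Cn n) 2
      · rw [indicator_of_mem hz2, ← ENNReal.ofReal_mul (by positivity)]
        refine ENNReal.ofReal_le_ofReal ?_
        rw [norm_mul]
        have h1 : ‖g z‖ ≤ t * B := by
          rw [Real.norm_eq_abs, abs_of_nonneg (hgb z).1]
          exact (hgb z).2.trans (mul_le_mul_of_nonneg_left (hbB z) ht.le)
        have h2 := xLoc_mal hb (hH z (ball_subset_closedBall hz2)) (hz hz3)
        have h3 := mul_le_mul h1 h2 (abs_nonneg _) (by positivity)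
        refine h3.trans (le_of_eq ?_)
        ring
      · have h1 : g z = 0 := h0 z (fun h => hz2 (hbs h))
        rw [h1, zero_mul, norm_zero, ENNReal.ofReal_zero]
        exact zero_le
    have hlin : ∫⁻ z in ball (0 : Cn n) 3,
        ENNReal.ofReal ‖g z * mal (fun y => u0 y + s * g y) b z‖ ≤ ENNReal.ofReal (D * t) := by
      calc ∫⁻ z in ball (0 : Cn n) 3,
            ENNReal.ofReal ‖g z * mal (fun y => u0 y + s * g y) b z‖ ≤
          ∫⁻ z in ball (0 : Cn n) 3, (ball (0 : Cn n) 2).indicator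
            (fun z => ENNReal.ofReal (t * (B * (n * H))) *
            ENNReal.ofReal (((LM (fun y => u0 y + s * g y) z).adjugate.trace).re)) z := by
            refine lintegral_mono_ae ?_
            rw [ae_restrict_iff' measurableSet_ball]
            exact hpt
        _ ≤ ∫⁻ z, (ball (0 : Cn n) 2).indicator
            (fun z => ENNReal.ofReal (t * (B * (n * H))) *
            ENNReal.ofReal (((LM (fun y => u0 y + s * g y) z).adjugate.trace).re)) z :=
            setLIntegral_le_lintegral _ _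
        _ = ∫⁻ z in ball (0 : Cn n) 2, ENNReal.ofReal (t * (B * (n * H))) *
            ENNReal.ofReal (((LM (fun y => u0 y + s * g y) z).adjugate.trace).re) :=
            lintegral_indicator measurableSet_ball _
        _ = ENNReal.ofReal (t * (B * (n * H))) * ∫⁻ z in ball (0 : Cn n) 2,
            ENNReal.ofReal (((LM (fun y => u0 y + s * g y) z).adjugate.trace).re) :=
            lintegral_const_mul' _ _ ENNReal.ofReal_ne_top
        _ ≤ ENNReal.ofReal (t * (B * (n * H))) * ENNReal.ofReal (C₁ * M' ^ n) := by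
            gcongr
        _ = ENNReal.ofReal (D * t) := by
            rw [← ENNReal.ofReal_mul (by positivity)]
            congr 1
            rw [hD]
            ring
    refine (norm_integral_le_lintegral_norm _).trans ?_
    refine (ENNReal.toReal_mono ENNReal.ofReal_ne_top hlin).trans ?_
    rw [ENNReal.toReal_ofReal (by positivity)]
  have hfin := intervalIntegral.norm_integral_le_of_norm_le_const hkey
  rw [sub_zero, abs_one, mul_one] at hfin
  have hfin' : |∫ s in (0 : ℝ)..1, ∫ z in ball (0 : Cn n) 3,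
      g z * mal (fun y => u0 y + s * g y) b z| ≤ D * t := hfin
  refine hfin'.trans ?_
  nlinarith

end HMA
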