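import Pool.Agent.H85.KM.XC11
import Pool.Agent.H85.KM.CPn

/-! # Module XTheta: composition with convex functions -/

open MeasureTheory Metric Set
open scoped ENNReal Topology ContDiff ComplexOrder

namespace HMA

variable {n : ℕ} {X : Type} [TopologicalSpace X] (K : KM n X)

theorem xtheta_rho_psd (i : Fin K.N) {z : Cn n} (hz : z ∈ ball (0 : Cn n) 3)
    (h : TwD (K.ρ i) z) : (LM (K.ρ i) z).PosSemidef := by
  rw [h.psd_iff]
  intro ξ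
  by_cases hξ : ξ = 0
  · rw [h.lev, hξ]
    simp
  · exact (K.ρ_pos i z hz ξ hξ).le

theorem xtheta_smul {A : Matrix (Fin n) (Fin n) ℂ} (hA : A.PosSemidef) {s : ℝ} (hs : 0 ≤ s) :
    ((s : ℂ) • A).PosSemidef := by
  apply hA.smul
  exact_mod_cast hs

theorem WK.theta {ψ : X → ℝ} (hψ : WK K ψ) {θ : ℝ → ℝ} (hθ : ContDiff ℝ ∞ θ)
    (h1 : ∀ x, 0 ≤ deriv θ x ∧ deriv θ x ≤ 1) (h2 : ∀ x, 0 ≤ deriv (deriv θ) x) :
    WK K (fun x => θ (ψ x)) := by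
  have hθ2 : ContDiff ℝ 2 θ := (contDiff_infty.1 hθ) 2
  have hc : C11X K (fun x => θ (ψ x)) := fun i => C11.comp_real isOpen_ball (hψ.c11 i) hθ2
  refine ⟨hc, fun i => ?_⟩
  have hρ : C11 (ball 0 3) (K.ρ i) := KM.ρ_c11 K i
  rw [c11_sub_iff isOpen_ball (C11.add isOpen_ball hρ (hc i))]
  have h3 := (c11_sub_iff isOpen_ball (C11.add isOpen_ball hρ (hψ.c11 i))).1 (hψ.sub i)
  filter_upwards [h3, C11.ae_twD isOpen_ball hρ, C11.ae_twD isOpen_ball (hψ.c11 i)]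
    with z hz1 hz2 hz3 hz
  have t1 := hz2 hz
  have t2 := hz3 hz
  have p1 := hz1 hz
  obtain ⟨t3, G, hG, hG2⟩ := TwD.comp_real t2 hθ2
  rw [(TwD.add t1 t2).2] at p1
  rw [(TwD.add t1 t3).2, hG2]
  set θ1 : ℝ := deriv θ (ψ (K.κ i z)) with hθ1
  set θ2 : ℝ := deriv (deriv θ) (ψ (K.κ i z)) with hθ22
  have e : LM (K.ρ i) z + (((θ1 : ℝ) : ℂ) • LM (fun z => ψ (K.κ i z)) z + ((θ2 : ℝ) : ℂ) • G) =
      (((1 - θ1 : ℝ) : ℂ) • LM (K.ρ i) z + ((θ1 : ℝ) : ℂ) • (LM (K.ρ i) z +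
        LM (fun z => ψ (K.κ i z)) z)) + ((θ2 : ℝ) : ℂ) • G := by
    rw [smul_add]
    push_cast
    rw [sub_smul, one_smul]
    abel
  rw [e]
  exact ((xtheta_smul (xtheta_rho_psd K i hz t1) (sub_nonneg.2 (h1 _).2)).add
    (xtheta_smul p1 (h1 _).1)).add (xtheta_smul hG (h2 _))

end HMA
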