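import Pool.Agent.H85.KM.XLoc
import Pool.Agent.H85.KM.XEn
import Pool.Agent.H85.KM.XTheta

/-! # Module XMass: almost extremal functions -/

open MeasureTheory Metric Set
open scoped ENNReal Topology ContDiff ComplexOrder

namespace HMA

variable {n : ℕ} {X : Type} [TopologicalSpace X] (K : KM n X)

theorem xmass_sub_const {ψ : X → ℝ} (hψ : WK K ψ) (c : ℝ) : WK K (fun x => ψ x - c) := by
  have h1 : deriv (fun x : ℝ => x - c) = fun _ => 1 := by
    funext x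
    simp
  have := WK.theta K hψ (θ := fun x => x - c) (by fun_prop) (fun x => by rw [h1]; norm_num)
    (fun x => by rw [h1]; simp)
  exact this

theorem xmass_cut {ψ : X → ℝ} (hψ : WK K ψ) {η : ℝ} (hη : 0 < η) :
    ∃ ψ₁ : X → ℝ, WK K ψ₁ ∧ ∀ x, max (ψ x) (-1) - η ≤ ψ₁ x ∧ ψ₁ x ≤ max (ψ x) (-1) := by
  obtain ⟨θ, hθ, -, -, h1, h2, h3⟩ := exists_theta hη
  have hd1 : deriv (fun x : ℝ => θ (x + 1) - 1 - η) = fun x => deriv θ (x + 1) := by
    funext x
    rw [deriv_sub_const, deriv_sub_const, deriv_comp_add_const]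
  refine ⟨fun x => θ (ψ x + 1) - 1 - η, ?_, ?_⟩
  · refine WK.theta K hψ (θ := fun x => θ (x + 1) - 1 - η) ?_ ?_ ?_
    · exact ((hθ.comp (contDiff_id.add contDiff_const)).sub contDiff_const).sub contDiff_const
    · intro x
      rw [hd1]
      exact h1 _
    · intro x
      rw [hd1, deriv_comp_add_const]
      exact h2 _
  · intro x
    obtain ⟨h4, h5⟩ := h3 (ψ x + 1)
    have h6 : max (ψ x + 1) 0 = max (ψ x) (-1) + 1 := by
      rw [← max_add_add_right]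
      norm_num
    rw [h6] at h4 h5
    constructor
    · show max (ψ x) (-1) - η ≤ θ (ψ x + 1) - 1 - η
      linarith
    · show θ (ψ x + 1) - 1 - η ≤ max (ψ x) (-1)
      linarith

variable [MeasurableSpace X] [BorelSpace X] [T2Space X] [CompactSpace X]

/-- Let `Q` be a subset of `X` and suppose that the functions of `WK` with `ψ ≤ 0` on `Q` are bounded by
`M`. Then there is such a function, with values in `[-2, M]`, whose Monge-Ampère measure has
arbitrarily small integral against finitely many bumps vanishing on `Q`. -/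
theorem KM.almost_extremal [Nonempty X] (Q : Set X) {M : ℝ} (hM : 0 ≤ M)
    (hQ : ∀ ψ : X → ℝ, WK K ψ → (∀ x ∈ Q, ψ x ≤ 0) → ∀ x, ψ x ≤ M)
    (b : Fin K.N → Cn n → ℝ) (hb : ∀ i, ContDiff ℝ ∞ (b i)) (hb0 : ∀ i z, 0 ≤ b i z)
    (hbs : ∀ i, tsupport (b i) ⊆ ball 0 2)
    (hbQ : ∀ i, ∀ z ∈ ball (0 : Cn n) 3, K.κ i z ∈ Q → b i z = 0) {η : ℝ} (hη : 0 < η) :
    ∃ ψ : X → ℝ, WK K ψ ∧ (∀ x ∈ Q, ψ x ≤ 0) ∧ (∀ x, -2 ≤ ψ x ∧ ψ x ≤ M) ∧
      ∀ i, ∫ x, K.ext i (b i) x * K.RM ψ x ∂K.vol ≤ η := by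
  classical
  -- the constants of `loc_mass`
  choose C hC0 hC using fun i => KM.loc_mass K i (hb i) (hb0 i) (hbs i) (max M 2)
  obtain ⟨D, hD0, hD⟩ : ∃ D : ℝ, 0 < D ∧ ∀ i, C i ≤ D := by
    refine ⟨∑ i, C i + 1, ?_, fun i => ?_⟩
    · have : 0 ≤ ∑ i, C i := Finset.sum_nonneg fun i _ => (hC0 i).le
      linarith
    · have : C i ≤ ∑ i, C i :=
        Finset.single_le_sum (f := C) (fun j _ => (hC0 j).le) (Finset.mem_univ i)
      linarith
  set t : ℝ := min 1 (η / (2 * D)) with ht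
  have ht0 : 0 < t := lt_min one_pos (by positivity)
  have ht1 : t ≤ 1 := min_le_left _ _
  have htD : D * t ≤ η / 2 := by
    have h1 : t ≤ η / (2 * D) := min_le_right _ _
    calc D * t ≤ D * (η / (2 * D)) := mul_le_mul_of_nonneg_left h1 hD0.le
      _ = η / 2 := by field_simp
  set δ : ℝ := t * η / (2 * (n + 1)) with hδ
  have hδ0 : 0 < δ := by positivity
  set V : ℝ := K.vol.real univ with hV
  have hV0 : 0 ≤ V := measureReal_nonneg
  -- the supremum of the energy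
  set A : Set ℝ := {e | ∃ ψ : X → ℝ, WK K ψ ∧ (∀ x ∈ Q, ψ x ≤ 0) ∧ K.E ψ = e} with hA
  have hAne : A.Nonempty := ⟨K.E (fun _ => 0), fun _ => 0, wk_const K 0, fun _ _ => le_rfl, rfl⟩
  have hAb : BddAbove A := by
    refine ⟨M * V, ?_⟩
    rintro e ⟨ψ, hψ, hψQ, rfl⟩
    exact KM.E_le K hψ hM (hQ ψ hψ hψQ)
  obtain ⟨e, ⟨ψ₀, hψ₀, hψ₀Q, rfl⟩, he⟩ := exists_lt_of_lt_csSup hAne
    (show sSup A - δ / 2 < sSup A by linarith)
  -- cutting from below
  set η' : ℝ := min 1 (δ / (2 * (V + 1))) with hη'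
  have hη'0 : 0 < η' := lt_min one_pos (by positivity)
  have hη'1 : η' ≤ 1 := min_le_left _ _
  have hη'V : η' * V ≤ δ / 2 := by
    have h1 : η' ≤ δ / (2 * (V + 1)) := min_le_right _ _
    calc η' * V ≤ η' * (V + 1) := mul_le_mul_of_nonneg_left (by linarith) hη'0.le
      _ ≤ δ / (2 * (V + 1)) * (V + 1) := mul_le_mul_of_nonneg_right h1 (by linarith)
      _ = δ / 2 := by field_simp
  obtain ⟨ψ₁, hψ₁, hψ₁b⟩ := xmass_cut K hψ₀ hη'0
  have hψ₀M := hQ ψ₀ hψ₀ hψ₀Q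
  have hψ₁Q : ∀ x ∈ Q, ψ₁ x ≤ 0 := fun x hx =>
    (hψ₁b x).2.trans (max_le (hψ₀Q x hx) (by norm_num))
  have hψ₁2 : ∀ x, -2 ≤ ψ₁ x := by
    intro x
    have h1 := (hψ₁b x).1
    have h2 : (-1 : ℝ) ≤ max (ψ₀ x) (-1) := le_max_right _ _
    linarith
  have hψ₁M : ∀ x, ψ₁ x ≤ M := fun x =>
    (hψ₁b x).2.trans (max_le (hψ₀M x) (by linarith))
  have hψ₁abs : ∀ x, |ψ₁ x| ≤ max M 2 := by
    intro x
    rw [abs_le]
    constructor
    · have h1 : (2 : ℝ) ≤ max M 2 := le_max_right _ _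
      have h2 := hψ₁2 x
      linarith
    · exact (hψ₁M x).trans (le_max_left _ _)
  have hE1 : sSup A - δ ≤ K.E ψ₁ := by
    have h1 : WK K (fun x => ψ₀ x - η') := xmass_sub_const K hψ₀ η'
    have h2 : K.E (fun x => ψ₀ x - η') ≤ K.E ψ₁ := by
      refine KM.E_mono' K h1 hψ₁ fun x => ?_
      have h3 := (hψ₁b x).1
      have h4 : ψ₀ x ≤ max (ψ₀ x) (-1) := le_max_left _ _
      linarith
    have h3 : K.E (fun x => ψ₀ x + (-η')) = K.E ψ₀ + (-η') * K.vol.real univ :=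
      KM.E_add_const K hψ₀.c11 (-η')
    have h4 : (fun x => ψ₀ x - η') = fun x => ψ₀ x + (-η') := by
      funext x
      ring
    rw [h4, h3] at h2
    linarith
  refine ⟨ψ₁, hψ₁, hψ₁Q, fun x => ⟨hψ₁2 x, hψ₁M x⟩, fun i => ?_⟩
  obtain ⟨g, hg, hgb, hWK, hint⟩ := KM.loc_mod K hψ₁ i (hb i) (hb0 i) (hbs i) ht0
  have hext0 : ∀ x, 0 ≤ K.ext i g x := by
    intro x
    unfold KM.ext
    split_ifs
    · exact (hgb _).1
    · exact le_rfl
  have hextQ : ∀ x ∈ Q, K.ext i g x = 0 := by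
    intro x hx
    unfold KM.ext
    split_ifs with h
    · have h1 := Function.invFunOn_mem h
      have h2 := Function.invFunOn_eq h
      have h3 := hbQ i _ h1 (by rw [h2]; exact hx)
      have h4 := hgb (Function.invFunOn (K.κ i) (ball 0 3) x)
      rw [h3, mul_zero] at h4
      exact le_antisymm h4.2 h4.1
    · rfl
  have hE2 : K.E (fun x => ψ₁ x + K.ext i g x) ≤ sSup A := by
    refine le_csSup hAb ⟨_, hWK, fun x hx => ?_, rfl⟩
    rw [hextQ x hx, add_zero]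
    exact hψ₁Q x hx
  have hE3 := KM.E_mono K hψ₁ hWK (fun x => by
    have := hext0 x
    linarith)
  have hE4 : (fun x => (ψ₁ x + K.ext i g x - ψ₁ x) *
      K.RM (fun x => ψ₁ x + K.ext i g x) x) = fun x => K.ext i g x *
      K.RM (fun x => ψ₁ x + K.ext i g x) x := by
    funext x
    ring
  rw [hE4, hint] at hE3
  set J : ℝ := ∫ x, K.ext i (b i) x * K.RM (fun y => ψ₁ y + K.ext i g y) x ∂K.vol with hJ
  have hE5 : 1 / (n + 1 : ℝ) * (t * J) ≤ δ := by
    refine hE3.trans ?_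
    linarith
  have hJle : J ≤ η / 2 := by
    have hn1 : (0 : ℝ) < n + 1 := by positivity
    have h1 : t * J ≤ (n + 1) * δ := by
      have := mul_le_mul_of_nonneg_left hE5 hn1.le
      calc t * J = (n + 1) * (1 / (n + 1 : ℝ) * (t * J)) := by field_simp
        _ ≤ (n + 1) * δ := this
    have h2 : ((n : ℝ) + 1) * δ = t * (η / 2) := by
      rw [hδ]
      field_simp
    rw [h2] at h1
    exact le_of_mul_le_mul_left h1 ht0
  have h6 := hC i ψ₁ hψ₁ hψ₁abs t ht0 ht1 g hg hgb hWK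
  have h7 := (abs_le.1 h6).1
  have h8 : C i * t ≤ D * t := mul_le_mul_of_nonneg_right (hD i) ht0.le
  linarith

end HMA
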