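import Pool.Agent.H85.KM.XC11

/-! # Module XPart: partition of unity -/

open MeasureTheory Metric Set
open scoped ENNReal Topology ContDiff ComplexOrder

namespace HMA

variable {n : ℕ} {X : Type} [TopologicalSpace X] (K : KM n X)

theorem XPart_cut {Q W : Set (Cn n)} (hQ : IsCompact Q) (hW : IsOpen W) (hQW : Q ⊆ W) :
    ∃ B : Cn n → ℝ, HasCompactSupport B ∧ tsupport B ⊆ W ∧ (∀ z, 0 ≤ B z ∧ B z ≤ 1) ∧
      ContDiff ℝ ∞ B ∧ ∀ z ∈ Q, B z = 1 := by
  obtain ⟨K', hK'c, hQK, hKW⟩ := exists_compact_between hQ hW hQW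
  have hd : Disjoint (interior K')ᶜ Q := by
    rw [Set.disjoint_left]
    intro x hx hxQ
    exact hx (hQK hxQ)
  obtain ⟨f, hf0, hf1, hf⟩ := exists_contMDiffMap_zero_one_of_isClosed (n := (⊤ : ℕ∞))
    (modelWithCornersSelf ℝ (Cn n)) isOpen_interior.isClosed_compl hQ.isClosed hd
  have hs : Function.support f ⊆ K' := by
    intro x hx
    by_contra hx'
    exact hx (hf0 (fun h => hx' (interior_subset h)))
  have hts : tsupport f ⊆ K' := closure_minimal hs hK'c.isClosed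
  refine ⟨f, HasCompactSupport.of_support_subset_isCompact hK'c hs, hts.trans hKW, ?_, ?_, ?_⟩
  · intro z; exact ⟨(hf z).1, (hf z).2⟩
  · exact f.contMDiff.contDiff
  · intro z hz; exact hf1 hz

theorem XPart_ext_zero (i : Fin K.N) {w : Cn n → ℝ} {x : X} {L : Set (Cn n)}
    (hw : ∀ z, z ∉ L → w z = 0) (hx : x ∉ K.κ i '' L) : K.ext i w x = 0 := by
  by_cases h : x ∈ K.κ i '' ball 0 3
  · obtain ⟨z, hz, rfl⟩ := h
    rw [K.ext_κ i w hz]
    exact hw z (fun hzL => hx ⟨z, hzL, rfl⟩)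
  · exact K.ext_off i w h

/-- smoothness of extensions in the other charts -/
theorem XPart_smooth [T2Space X] (i j : Fin K.N) {w : Cn n → ℝ} (hw : ContDiff ℝ ∞ w)
    (hc : HasCompactSupport w) (hs : tsupport w ⊆ ball 0 3) :
    ContDiffOn ℝ ∞ (fun z => K.ext i w (K.κ j z)) (ball 0 3) := by
  intro z hz
  by_cases h : K.κ j z ∈ K.κ i '' ball 0 3
  · set O : Set (Cn n) := ball (0 : Cn n) 3 ∩ K.κ j ⁻¹' (K.κ i '' ball 0 3) with hO
    have hOo : IsOpen O := K.isOpen_overlap j i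
    have hzO : z ∈ O := ⟨hz, h⟩
    have h1 : ContDiffOn ℝ ∞ (K.τ j i) O :=
      (hol_contDiffOn hOo (K.τ_hol j i)).restrict_scalars ℝ
    have h2 : ContDiffOn ℝ ∞ (fun z => w (K.τ j i z)) O := hw.comp_contDiffOn h1
    have h3 : EqOn (fun z => K.ext i w (K.κ j z)) (fun z => w (K.τ j i z)) O := by
      intro y hy
      obtain ⟨h4, h5⟩ := K.τ_spec j i y hy.1 hy.2
      simp only
      rw [← h5, K.ext_κ i w h4]
    have h4 : ContDiffAt ℝ ∞ (fun z => K.ext i w (K.κ j z)) z :=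
      (h2.congr h3).contDiffAt (hOo.mem_nhds hzO)
    exact h4.contDiffWithinAt
  · have hcomp : IsCompact (K.κ i '' tsupport w) := K.compact_image i hc hs
    have h0 : K.κ j z ∉ K.κ i '' tsupport w := fun h' => h (image_mono hs h')
    have h1 : IsOpen (ball (0 : Cn n) 3 ∩ K.κ j ⁻¹' (K.κ i '' tsupport w)ᶜ) :=
      (K.cont j).isOpen_inter_preimage isOpen_ball hcomp.isClosed.isOpen_compl
    have h2 : (fun z => K.ext i w (K.κ j z)) =ᶠ[𝓝 z] fun _ => 0 := by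
      filter_upwards [h1.mem_nhds ⟨hz, h0⟩] with y hy
      exact XPart_ext_zero K i (fun z hz => image_eq_zero_of_notMem_tsupport hz) hy.2
    exact (contDiffAt_const.congr_of_eventuallyEq h2).contDiffWithinAt

theorem XPart_ext_range (i : Fin K.N) {w : Cn n → ℝ} (hw : ∀ z, 0 ≤ w z ∧ w z ≤ 1) (x : X) :
    0 ≤ K.ext i w x ∧ K.ext i w x ≤ 1 := by
  by_cases h : x ∈ K.κ i '' ball 0 3
  · obtain ⟨z, hz, rfl⟩ := h
    rw [K.ext_κ i w hz]
    exact hw z
  · rw [K.ext_off i w h]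
    exact ⟨le_rfl, zero_le_one⟩

/-- a function which is smooth on the ball and vanishes off a compact subset is smooth -/
theorem XPart_glob {b : Cn n → ℝ} {L : Set (Cn n)} (hL : IsCompact L) (hL3 : L ⊆ ball 0 3)
    (h : ContDiffOn ℝ ∞ b (ball 0 3)) (h0 : ∀ z, z ∉ L → b z = 0) : ContDiff ℝ ∞ b := by
  rw [contDiff_iff_contDiffAt]
  intro z
  by_cases hz : z ∈ L
  · exact h.contDiffAt (isOpen_ball.mem_nhds (hL3 hz))
  · have h2 : b =ᶠ[𝓝 z] fun _ => 0 := by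
      filter_upwards [hL.isClosed.isOpen_compl.mem_nhds hz] with y hy
      exact h0 y hy
    exact contDiffAt_const.congr_of_eventuallyEq h2

/-- the basic construction -/
theorem XPart_main [T2Space X] : ∃ (b : Fin K.N → Cn n → ℝ) (L : Set (Cn n)), IsCompact L ∧
    L ⊆ ball 0 2 ∧ (∀ i z, z ∉ L → b i z = 0) ∧ (∀ i z, 0 ≤ b i z ∧ b i z ≤ 1) ∧
    (∀ i, ContDiff ℝ ∞ (b i)) ∧ ∀ x, ∑ i, K.ext i (b i) x = 1 := by
  obtain ⟨B, hBc, hBs, hB01, hBsm, hB1⟩ := XPart_cut (n := n) (isCompact_closedBall (0 : Cn n) 1)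
    (isOpen_ball (x := (0 : Cn n)) (ε := 2)) (closedBall_subset_ball (by norm_num))
  have hL3 : tsupport B ⊆ ball 0 3 := hBs.trans (ball_subset_ball (by norm_num))
  set S : X → ℝ := fun x => ∑ j, K.ext j B x with hS
  have hS1 : ∀ x, 1 ≤ S x := by
    intro x
    obtain ⟨i, z, hz, rfl⟩ := K.cover x
    have hz3 : z ∈ ball (0 : Cn n) 3 := ball_subset_ball (by norm_num) hz
    have h1 : K.ext i B (K.κ i z) = 1 := by
      rw [K.ext_κ i B hz3]
      exact hB1 z (ball_subset_closedBall hz)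
    rw [hS, ← h1]
    exact Finset.single_le_sum (f := fun j => K.ext j B (K.κ i z))
      (fun j _ => (XPart_ext_range K j hB01 _).1) (Finset.mem_univ i)
  have hSpos : ∀ x, 0 < S x := fun x => zero_lt_one.trans_le (hS1 x)
  have hSs : ∀ j, ContDiffOn ℝ ∞ (fun z => S (K.κ j z)) (ball 0 3) := by
    intro j
    exact ContDiffOn.sum fun i _ => XPart_smooth K i j hBsm hBc hL3
  refine ⟨fun i z => B z * (S (K.κ i z))⁻¹, tsupport B, hBc, hBs, ?_, ?_, ?_, ?_⟩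
  · intro i z hz
    simp only
    rw [image_eq_zero_of_notMem_tsupport hz, zero_mul]
  · intro i z
    have h1 : (S (K.κ i z))⁻¹ ≤ 1 := inv_le_one_of_one_le₀ (hS1 _)
    have h2 : 0 ≤ (S (K.κ i z))⁻¹ := (inv_pos.2 (hSpos _)).le
    exact ⟨mul_nonneg (hB01 z).1 h2, mul_le_one₀ (hB01 z).2 h2 h1⟩
  · intro i
    refine XPart_glob hBc hL3 ?_ ?_
    · exact hBsm.contDiffOn.mul ((hSs i).inv fun z _ => (hSpos _).ne')
    · intro z hz
      simp only
      rw [image_eq_zero_of_notMem_tsupport hz, zero_mul]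
  · intro x
    have h1 : ∀ i, K.ext i (fun z => B z * (S (K.κ i z))⁻¹) x = K.ext i B x * (S x)⁻¹ := by
      intro i
      by_cases h : x ∈ K.κ i '' ball 0 3
      · obtain ⟨z, hz, rfl⟩ := h
        rw [K.ext_κ i _ hz, K.ext_κ i _ hz]
      · rw [K.ext_off i _ h, K.ext_off i _ h, zero_mul]
    simp_rw [h1]
    rw [← Finset.sum_mul]
    exact mul_inv_cancel₀ (hSpos x).ne'

theorem exists_partition [T2Space X] [CompactSpace X] : ∃ (b : Fin K.N → Cn n → ℝ) ,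
    (∀ i, HasCompactSupport (b i) ∧ tsupport (b i) ⊆ ball 0 2 ∧ (∀ z, 0 ≤ b i z ∧ b i z ≤ 1) ∧
      ContDiff ℝ ∞ (b i)) ∧ (∀ i, C11X K (K.ext i (b i))) ∧
    ∀ x, ∑ i, K.ext i (b i) x = 1 := by
  obtain ⟨b, L, hL, hL2, h0, h01, hsm, hsum⟩ := XPart_main K
  have hsupp : ∀ i, Function.support (b i) ⊆ L := by
    intro i z hz
    by_contra h
    exact hz (h0 i z h)
  refine ⟨b, fun i => ⟨HasCompactSupport.of_support_subset_isCompact hL (hsupp i),
    (closure_minimal (hsupp i) hL.isClosed).trans hL2, h01 i, hsm i⟩, fun i => ?_, hsum⟩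
  refine c11X_ext K i ?_ hL (hL2.trans (ball_subset_ball (by norm_num))) (h0 i)
  exact c11_of_contDiffOn isOpen_ball (contDiff_infty.1 (hsm i) 2).contDiffOn

/-- partition of unity adapted to a compact set `Q` in an open subset of a chart -/
theorem exists_partition' [T2Space X] [CompactSpace X] (i₀ : Fin K.N) {Q W : Set (Cn n)}
    (hQ : IsCompact Q) (hW : IsOpen W) (hQW : Q ⊆ W) (hW2 : W ⊆ ball 0 2) :
    ∃ (b₀ : Cn n → ℝ) (b : Fin K.N → Cn n → ℝ),
      (HasCompactSupport b₀ ∧ tsupport b₀ ⊆ W ∧ (∀ z, 0 ≤ b₀ z ∧ b₀ z ≤ 1) ∧ ContDiff ℝ ∞ b₀) ∧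
      (∀ i, HasCompactSupport (b i) ∧ tsupport (b i) ⊆ ball 0 2 ∧ (∀ z, 0 ≤ b i z ∧ b i z ≤ 1) ∧
        ContDiff ℝ ∞ (b i) ∧ ∀ z ∈ ball (0 : Cn n) 3, K.κ i z ∈ K.κ i₀ '' Q → b i z = 0) ∧
      ∀ x, K.ext i₀ b₀ x + ∑ i, K.ext i (b i) x = 1 := by
  obtain ⟨b, L, hL, hL2, h0, h01, hsm, hsum⟩ := XPart_main K
  obtain ⟨B₀, hBc, hBs, hB01, hBsm, hB1⟩ := XPart_cut hQ hW hQW
  have hB3 : tsupport B₀ ⊆ ball 0 3 := (hBs.trans hW2).trans (ball_subset_ball (by norm_num))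
  have hL3 : L ⊆ ball 0 3 := hL2.trans (ball_subset_ball (by norm_num))
  set b' : Fin K.N → Cn n → ℝ := fun i z => (1 - K.ext i₀ B₀ (K.κ i z)) * b i z with hb'
  have h0' : ∀ i z, z ∉ L → b' i z = 0 := by
    intro i z hz
    simp only [hb']
    rw [h0 i z hz, mul_zero]
  have hsupp : ∀ i, Function.support (b' i) ⊆ L := by
    intro i z hz
    by_contra h
    exact hz (h0' i z h)
  refine ⟨B₀, b', ⟨hBc, hBs, hB01, hBsm⟩, fun i => ⟨HasCompactSupport.of_support_subset_isCompact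
    hL (hsupp i), (closure_minimal (hsupp i) hL.isClosed).trans hL2, ?_, ?_, ?_⟩, ?_⟩
  · intro z
    obtain ⟨h1, h2⟩ := XPart_ext_range K i₀ hB01 (K.κ i z)
    obtain ⟨h3, h4⟩ := h01 i z
    simp only [hb']
    constructor
    · exact mul_nonneg (by linarith) h3
    · exact mul_le_one₀ (by linarith) h3 h4
  · refine XPart_glob hL hL3 ?_ (h0' i)
    exact (contDiffOn_const.sub (XPart_smooth K i₀ i hBsm hBc hB3)).mul (hsm i).contDiffOn
  · rintro z hz ⟨q, hq, hqz⟩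
    have hq3 : q ∈ ball (0 : Cn n) 3 := ball_subset_ball (by norm_num) (hW2 (hQW hq))
    simp only [hb']
    rw [← hqz, K.ext_κ i₀ _ hq3, hB1 q hq, sub_self, zero_mul]
  · intro x
    have h1 : ∀ i, K.ext i (b' i) x = (1 - K.ext i₀ B₀ x) * K.ext i (b i) x := by
      intro i
      by_cases h : x ∈ K.κ i '' ball 0 3
      · obtain ⟨z, hz, rfl⟩ := h
        rw [K.ext_κ i _ hz, K.ext_κ i _ hz]
      · rw [K.ext_off i _ h, K.ext_off i _ h, mul_zero]
    simp_rw [h1]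
    rw [← Finset.mul_sum, hsum x]
    ring

end HMA
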