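import Pool.Agent.H85.KM.XVol
import Pool.Agent.H85.KM.XC11
import Pool.Agent.H85.KM.Seg

/-! # Module XRel: relative Monge-Ampère densities -/

open MeasureTheory Metric Set
open scoped ENNReal Topology ContDiff ComplexOrder

namespace HMA

variable {n : ℕ} {X : Type} [TopologicalSpace X] (K : KM n X)

/-! ### auxiliary facts on twice differentiable functions -/

theorem xRel_twD_congr {u v : Cn n → ℝ} {z : Cn n} (h : u =ᶠ[𝓝 z] v) (hu : TwD u z) :
    TwD v z := by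
  refine ⟨?_, ?_⟩
  · filter_upwards [hu.1, h.eventually_nhds] with w h1 h2
    have h3 : u =ᶠ[𝓝 w] v := h2
    exact h3.differentiableAt_iff.1 h1
  · exact h.fderiv.differentiableAt_iff.1 hu.2

theorem xRel_twD_const (c : ℝ) (z : Cn n) : TwD (fun _ : Cn n => c) z := by
  refine ⟨Filter.Eventually.of_forall fun w => differentiableAt_const c, ?_⟩
  have : fderiv ℝ (fun _ : Cn n => c) = fun _ => 0 := by
    funext w
    exact fderiv_const_apply c
  rw [this]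
  exact differentiableAt_const _

theorem xRel_eq_zero {A : Matrix (Fin n) (Fin n) ℂ} (h1 : A.PosSemidef) (h2 : (-A).PosSemidef) :
    A = 0 := by
  open scoped MatrixOrder in
  have a1 : (0 : Matrix (Fin n) (Fin n) ℂ) ≤ A := by
    rw [Matrix.le_iff, sub_zero]; exact h1
  have a2 : A ≤ 0 := by
    rw [Matrix.le_iff, zero_sub]; exact h2
  exact le_antisymm a2 a1

/-- the Levi matrix is determined by the Levi form -/
theorem xRel_LM_eq {u v : Cn n → ℝ} {z : Cn n} (hu : TwD u z) (hv : TwD v z)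
    (h : ∀ ξ, lev u z ξ = lev v z ξ) : LM u z = LM v z := by
  have key : ∀ {u v : Cn n → ℝ}, TwD u z → TwD v z → (∀ ξ, lev u z ξ = lev v z ξ) →
      (LM u z - LM v z).PosSemidef := by
    intro u v hu hv h
    obtain ⟨m1, m2⟩ := hv.const_mul (-1)
    obtain ⟨m3, m4⟩ := hu.add m1
    have e : LM u z - LM v z = LM (fun w => u w + -1 * v w) z := by
      rw [m4, m2]
      simp [sub_eq_add_neg]
    rw [e, m3.psd_iff]
    intro ξ
    have e2 : ((lev (fun w => u w + -1 * v w) z ξ : ℝ) : ℂ) = 0 := by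
      rw [m3.lev_LM, m4, m2]
      have e3 := hu.lev_LM ξ
      have e4 := hv.lev_LM ξ
      rw [h ξ, e4] at e3
      have e5 : ∑ j, ∑ k, (LM u z + ((-1 : ℝ) : ℂ) • LM v z) j k * ξ j * (starRingEnd ℂ) (ξ k) =
          (∑ j, ∑ k, LM u z j k * ξ j * (starRingEnd ℂ) (ξ k)) -
          ∑ j, ∑ k, LM v z j k * ξ j * (starRingEnd ℂ) (ξ k) := by
        rw [← Finset.sum_sub_distrib]
        refine Finset.sum_congr rfl fun j _ => ?_
        rw [← Finset.sum_sub_distrib]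
        refine Finset.sum_congr rfl fun k _ => ?_
        simp only [Matrix.add_apply, Matrix.smul_apply, smul_eq_mul]
        push_cast
        ring
      rw [e5, ← e3, sub_self]
    have : lev (fun w => u w + -1 * v w) z ξ = 0 := by exact_mod_cast e2
    exact this.ge
  have h1 := key hu hv h
  have h2 := key hv hu (fun ξ => (h ξ).symm)
  rw [← neg_sub (LM u z) (LM v z)] at h2
  exact sub_eq_zero.1 (xRel_eq_zero h1 h2)

/-! ### transport between charts -/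

section transport

variable {i j : Fin K.N} {z : Cn n}

theorem xRel_smooth (hz : z ∈ ball (0 : Cn n) 3 ∩ K.κ i ⁻¹' (K.κ j '' ball 0 3)) :
    ContDiffAt ℂ 2 (K.τ i j) z := by
  have h := hol_contDiffOn (K.isOpen_overlap i j) (K.τ_hol i j)
  exact (h.contDiffAt ((K.isOpen_overlap i j).mem_nhds hz)).of_le (by norm_cast)

theorem xRel_LM_ρ (hz : z ∈ ball (0 : Cn n) 3 ∩ K.κ i ⁻¹' (K.κ j '' ball 0 3)) :
    TwD (fun y => K.ρ j (K.τ i j y)) z ∧ LM (fun y => K.ρ j (K.τ i j y)) z = LM (K.ρ i) z := by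
  have h1 := (K.τ_spec i j z hz.1 hz.2).1
  have h2 := (LM_comp (xRel_smooth K hz) (K.mad_ρ_pos j h1).1).1
  exact ⟨h2, xRel_LM_eq h2 (K.mad_ρ_pos i hz.1).1 (K.ρ_compat i j z hz)⟩

theorem xRel_ev (f : X → ℝ) (hz : z ∈ ball (0 : Cn n) 3 ∩ K.κ i ⁻¹' (K.κ j '' ball 0 3)) :
    (fun y => f (K.κ j (K.τ i j y))) =ᶠ[𝓝 z] fun y => f (K.κ i y) := by
  filter_upwards [(K.isOpen_overlap i j).mem_nhds hz] with y hy
  rw [(K.τ_spec i j y hy.1 hy.2).2]

theorem xRel_LM_w (f : X → ℝ) (hz : z ∈ ball (0 : Cn n) 3 ∩ K.κ i ⁻¹' (K.κ j '' ball 0 3))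
    (h : TwD (fun y => f (K.κ j y)) (K.τ i j z)) :
    TwD (fun y => f (K.κ i y)) z ∧
      LM (fun y => f (K.κ i y)) z =
        jac (K.τ i j) z * LM (fun y => f (K.κ j y)) (K.τ i j z) *
          (jac (K.τ i j) z).conjTranspose := by
  obtain ⟨h1, h2⟩ := LM_comp (xRel_smooth K hz) h
  refine ⟨xRel_twD_congr (xRel_ev K f hz) h1, ?_⟩
  rw [← h2]
  exact (LM_congr (xRel_ev K f hz)).symm

theorem xRel_LM_add (f : X → ℝ) (hz : z ∈ ball (0 : Cn n) 3 ∩ K.κ i ⁻¹' (K.κ j '' ball 0 3))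
    (h : TwD (fun y => f (K.κ j y)) (K.τ i j z)) :
    LM (fun y => K.ρ i y + f (K.κ i y)) z =
        jac (K.τ i j) z * LM (fun y => K.ρ j y + f (K.κ j y)) (K.τ i j z) *
          (jac (K.τ i j) z).conjTranspose := by
  have h1 := (K.τ_spec i j z hz.1 hz.2).1
  obtain ⟨a1, a2⟩ := xRel_LM_w K f hz h
  obtain ⟨b1, b2⟩ := xRel_LM_ρ K hz
  have c := (LM_comp (xRel_smooth K hz) (K.mad_ρ_pos j h1).1).2
  rw [((K.mad_ρ_pos i hz.1).1.add a1).2, ((K.mad_ρ_pos j h1).1.add h).2, a2, ← b2, c]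
  rw [Matrix.mul_add, Matrix.add_mul]

theorem xRel_LM_ρ' (hz : z ∈ ball (0 : Cn n) 3 ∩ K.κ i ⁻¹' (K.κ j '' ball 0 3)) :
    LM (K.ρ i) z = jac (K.τ i j) z * LM (K.ρ j) (K.τ i j z) *
          (jac (K.τ i j) z).conjTranspose := by
  have h1 := (K.τ_spec i j z hz.1 hz.2).1
  obtain ⟨b1, b2⟩ := xRel_LM_ρ K hz
  have c := (LM_comp (xRel_smooth K hz) (K.mad_ρ_pos j h1).1).2
  rw [← b2, c]

theorem xRel_RM (f : X → ℝ) (hz : z ∈ ball (0 : Cn n) 3 ∩ K.κ i ⁻¹' (K.κ j '' ball 0 3))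
    (h : TwD (fun y => f (K.κ j y)) (K.τ i j z)) :
    mad (fun y => K.ρ j y + f (K.κ j y)) (K.τ i j z) / mad (K.ρ j) (K.τ i j z) =
      mad (fun y => K.ρ i y + f (K.κ i y)) z / mad (K.ρ i) z := by
  have hd := jac_det_ne_zero (K.τ_fderiv i j hz)
  have hJ : ‖(jac (K.τ i j) z).det‖ ^ 2 ≠ 0 := pow_ne_zero _ (norm_ne_zero_iff.2 hd)
  have e1 : mad (fun y => K.ρ i y + f (K.κ i y)) z =
      ‖(jac (K.τ i j) z).det‖ ^ 2 * mad (fun y => K.ρ j y + f (K.κ j y)) (K.τ i j z) := by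
    simp only [mad]
    rw [xRel_LM_add K f hz h, mat_det_conj, Complex.re_ofReal_mul]
  have e2 : mad (K.ρ i) z = ‖(jac (K.τ i j) z).det‖ ^ 2 * mad (K.ρ j) (K.τ i j z) := by
    simp only [mad]
    rw [xRel_LM_ρ' K hz, mat_det_conj, Complex.re_ofReal_mul]
  rw [e1, e2, mul_div_mul_left _ _ hJ]

theorem xRel_RL (f g : X → ℝ) (hz : z ∈ ball (0 : Cn n) 3 ∩ K.κ i ⁻¹' (K.κ j '' ball 0 3))
    (h : TwD (fun y => f (K.κ j y)) (K.τ i j z)) (hg : TwD (fun y => g (K.κ j y)) (K.τ i j z)) :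
    mal (fun y => K.ρ j y + f (K.κ j y)) (fun y => g (K.κ j y)) (K.τ i j z) /
        mad (K.ρ j) (K.τ i j z) =
      mal (fun y => K.ρ i y + f (K.κ i y)) (fun y => g (K.κ i y)) z / mad (K.ρ i) z := by
  have hd := jac_det_ne_zero (K.τ_fderiv i j hz)
  have hJ : ‖(jac (K.τ i j) z).det‖ ^ 2 ≠ 0 := pow_ne_zero _ (norm_ne_zero_iff.2 hd)
  have e1 : mal (fun y => K.ρ i y + f (K.κ i y)) (fun y => g (K.κ i y)) z =
      ‖(jac (K.τ i j) z).det‖ ^ 2 *
        mal (fun y => K.ρ j y + f (K.κ j y)) (fun y => g (K.κ j y)) (K.τ i j z) := by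
    simp only [mal]
    rw [xRel_LM_add K f hz h, (xRel_LM_w K g hz hg).2, mat_adj_conj, Complex.re_ofReal_mul]
  have e2 : mad (K.ρ i) z = ‖(jac (K.τ i j) z).det‖ ^ 2 * mad (K.ρ j) (K.τ i j z) := by
    simp only [mad]
    rw [xRel_LM_ρ' K hz, mat_det_conj, Complex.re_ofReal_mul]
  rw [e1, e2, mul_div_mul_left _ _ hJ]

end transport

/-! ### almost everywhere statements -/

theorem xRel_co {i : Fin K.N} {z : Cn n} (hz : z ∈ ball (0 : Cn n) 3) :
    z ∈ ball (0 : Cn n) 3 ∩ K.κ i ⁻¹' (K.κ (K.ix (K.κ i z)) '' ball 0 3) ∧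
      K.co (K.κ i z) = K.τ i (K.ix (K.κ i z)) z := by
  have h13 : ball (0 : Cn n) 1 ⊆ ball (0 : Cn n) 3 := ball_subset_ball (by norm_num)
  obtain ⟨h1, h2⟩ := K.co_spec (K.κ i z)
  have hm : K.κ i z ∈ K.κ (K.ix (K.κ i z)) '' ball 0 3 := ⟨_, h13 h1, h2⟩
  refine ⟨⟨hz, hm⟩, ?_⟩
  obtain ⟨h3, h4⟩ := K.τ_spec i _ z hz hm
  exact K.injOn _ (h13 h1) h3 (h2.trans h4.symm)

theorem xRel_ae_chart (p : Fin K.N → Cn n → Prop)
    (h : ∀ j, ∀ᵐ z : Cn n, z ∈ ball (0 : Cn n) 3 → p j z) (i : Fin K.N) :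
    ∀ᵐ z : Cn n, z ∈ ball (0 : Cn n) 3 → p (K.ix (K.κ i z)) (K.τ i (K.ix (K.κ i z)) z) := by
  have h1 : ∀ j : Fin K.N, ∀ᵐ z : Cn n, z ∈ ball (0 : Cn n) 3 ∩ K.κ i ⁻¹' (K.κ j '' ball 0 3) →
      p j (K.τ i j z) := by
    intro j
    refine ae_comp_hol (K.isOpen_overlap i j) (K.τ_hol i j) (K.τ_inj i j)
      (fun z hz => K.τ_fderiv i j hz) ?_
    filter_upwards [h j] with y hy hy2
    obtain ⟨z, hz, rfl⟩ := hy2
    exact hy (K.τ_spec i j z hz.1 hz.2).1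
  filter_upwards [ae_all_iff.2 h1] with z hz hz3
  exact hz _ (xRel_co K hz3).1

section meas

variable [MeasurableSpace X] [BorelSpace X] {ψ v w : X → ℝ}

theorem xRel_ae (p : Fin K.N → Cn n → Prop)
    (h : ∀ j, ∀ᵐ z : Cn n, z ∈ ball (0 : Cn n) 3 → p j z) :
    ∀ᵐ x ∂K.vol, p (K.ix x) (K.co x) := by
  refine K.vol_ae _ fun i => ?_
  have h13 : ball (0 : Cn n) 1 ⊆ ball (0 : Cn n) 3 := ball_subset_ball (by norm_num)
  filter_upwards [xRel_ae_chart K p h i] with z hz hz1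
  rw [(xRel_co K (h13 hz1)).2]
  exact hz (h13 hz1)

theorem xRel_ae_twD (hψ : C11X K ψ) :
    ∀ᵐ x ∂K.vol, TwD (fun z => ψ (K.κ (K.ix x) z)) (K.co x) :=
  xRel_ae K (fun j z => TwD (fun y => ψ (K.κ j y)) z)
    (fun j => C11.ae_twD isOpen_ball (hψ j))

theorem xRel_co3 (x : X) : K.co x ∈ ball (0 : Cn n) 3 :=
  ball_subset_ball (by norm_num) (K.co_spec x).1

theorem KM.RM_chart (hψ : C11X K ψ) (i : Fin K.N) : ∀ᵐ z : Cn n, z ∈ ball (0 : Cn n) 3 →
    K.RM ψ (K.κ i z) = mad (fun y => K.ρ i y + ψ (K.κ i y)) z / mad (K.ρ i) z := by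
  filter_upwards [xRel_ae_chart K (fun j z => TwD (fun y => ψ (K.κ j y)) z)
    (fun j => C11.ae_twD isOpen_ball (hψ j)) i] with z hz hz3
  obtain ⟨h1, h2⟩ := xRel_co K hz3
  simp only [KM.RM]
  rw [h2]
  exact xRel_RM K ψ h1 (hz hz3)

theorem KM.RL_chart (hψ : C11X K ψ) (hw : C11X K w) (i : Fin K.N) :
    ∀ᵐ z : Cn n, z ∈ ball (0 : Cn n) 3 → K.RL ψ w (K.κ i z) =
      mal (fun y => K.ρ i y + ψ (K.κ i y)) (fun y => w (K.κ i y)) z / mad (K.ρ i) z := by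
  filter_upwards [xRel_ae_chart K (fun j z => TwD (fun y => ψ (K.κ j y)) z)
    (fun j => C11.ae_twD isOpen_ball (hψ j)) i, xRel_ae_chart K
    (fun j z => TwD (fun y => w (K.κ j y)) z)
    (fun j => C11.ae_twD isOpen_ball (hw j)) i] with z hz hz' hz3
  obtain ⟨h1, h2⟩ := xRel_co K hz3
  simp only [KM.RL]
  rw [h2]
  exact xRel_RL K ψ w h1 (hz hz3) (hz' hz3)

/-- the Lipschitz constant of a combination bounds the second derivative -/
theorem xRel_hes_bdd {a b c : Cn n → ℝ} (ha : C11 (ball 0 3) a) (hb : C11 (ball 0 3) b)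
    (hc : C11 (ball 0 3) c) : ∃ C : ℝ, 0 ≤ C ∧ ∀ s t : ℝ, |s| ≤ 1 → |t| ≤ 1 →
      ∀ z ∈ closedBall (0 : Cn n) 1, ‖hes (fun y => a y + (s * b y + t * c y)) z‖ ≤ C := by
  have hL : IsCompact (closedBall (0 : Cn n) 2) := isCompact_closedBall _ _
  have hL3 : closedBall (0 : Cn n) 2 ⊆ ball 0 3 := closedBall_subset_ball (by norm_num)
  obtain ⟨Ca, hCa⟩ := ha.lip _ hL hL3
  obtain ⟨Cb, hCb⟩ := hb.lip _ hL hL3
  obtain ⟨Cc, hCc⟩ := hc.lip _ hL hL3
  refine ⟨(Ca + (Cb + Cc) : NNReal), NNReal.coe_nonneg _, fun s t hs ht z hz => ?_⟩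
  have hnhds : closedBall (0 : Cn n) 2 ∈ 𝓝 z :=
    Filter.mem_of_superset (isOpen_ball.mem_nhds
      (closedBall_subset_ball (by norm_num : (1 : ℝ) < 2) hz)) ball_subset_closedBall
  refine norm_fderiv_le_of_lipschitzOn ℝ hnhds ?_
  have hfd : ∀ y ∈ closedBall (0 : Cn n) 2, fderiv ℝ (fun y => a y + (s * b y + t * c y)) y =
      fderiv ℝ a y + (s • fderiv ℝ b y + t • fderiv ℝ c y) := by
    intro y hy
    have h1 := (ha.diff y (hL3 hy)).hasFDerivAt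
    have h2 := ((hb.diff y (hL3 hy)).hasFDerivAt).const_mul s
    have h3 := ((hc.diff y (hL3 hy)).hasFDerivAt).const_mul t
    exact (h1.add (h2.add h3)).fderiv
  refine LipschitzOnWith.of_dist_le_mul fun y hy y' hy' => ?_
  rw [hfd y hy, hfd y' hy', dist_eq_norm]
  have e : fderiv ℝ a y + (s • fderiv ℝ b y + t • fderiv ℝ c y) -
      (fderiv ℝ a y' + (s • fderiv ℝ b y' + t • fderiv ℝ c y')) =
      (fderiv ℝ a y - fderiv ℝ a y') + (s • (fderiv ℝ b y - fderiv ℝ b y') +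
        t • (fderiv ℝ c y - fderiv ℝ c y')) := by
    rw [smul_sub, smul_sub]; abel
  rw [e]
  have d1 := hCa.dist_le_mul y hy y' hy'
  have d2 := hCb.dist_le_mul y hy y' hy'
  have d3 := hCc.dist_le_mul y hy y' hy'
  rw [dist_eq_norm] at d1 d2 d3
  calc _ ≤ ‖fderiv ℝ a y - fderiv ℝ a y'‖ + (‖s • (fderiv ℝ b y - fderiv ℝ b y')‖ +
        ‖t • (fderiv ℝ c y - fderiv ℝ c y')‖) :=
        (norm_add_le _ _).trans (add_le_add le_rfl (norm_add_le _ _))
    _ ≤ ‖fderiv ℝ a y - fderiv ℝ a y'‖ + (1 * ‖fderiv ℝ b y - fderiv ℝ b y'‖ +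
        1 * ‖fderiv ℝ c y - fderiv ℝ c y'‖) := by
        rw [norm_smul, norm_smul, Real.norm_eq_abs, Real.norm_eq_abs]
        gcongr
    _ ≤ Ca * dist y y' + (1 * (Cb * dist y y') + 1 * (Cc * dist y y')) := by gcongr
    _ = _ := by push_cast; ring

theorem xRel_bdd (hψ : C11X K ψ) (hw : C11X K w) (hv : C11X K v) :
    ∃ C : ℝ, 0 < C ∧ ∀ s t : ℝ, |s| ≤ 1 → |t| ≤ 1 → ∀ x,
      |K.RM (fun y => s * ψ y + t * w y) x| ≤ C ∧
      |K.RL (fun y => s * ψ y + t * w y) v x| ≤ C := by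
  have hj : ∀ j : Fin K.N, ∃ C : ℝ, 0 < C ∧ ∀ s t : ℝ, |s| ≤ 1 → |t| ≤ 1 →
      ∀ z ∈ closedBall (0 : Cn n) 1,
      |mad (fun y => K.ρ j y + (s * ψ (K.κ j y) + t * w (K.κ j y))) z / mad (K.ρ j) z| ≤ C ∧
      |mal (fun y => K.ρ j y + (s * ψ (K.κ j y) + t * w (K.κ j y))) (fun y => v (K.κ j y)) z /
        mad (K.ρ j) z| ≤ C := by
    intro j
    obtain ⟨C1, hC1, h1⟩ := xRel_hes_bdd (K.ρ_c11 j) (hψ j) (hw j)
    obtain ⟨C2, hC2, h2⟩ := xRel_hes_bdd (hv j) (hψ j) (hw j)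
    obtain ⟨B, hB, hB2⟩ := mad_bdd n (max C1 C2)
    obtain ⟨α, β, hα, hβ, hαβ⟩ := K.mad_ρ_bdd j (isCompact_closedBall (0 : Cn n) 1)
      (closedBall_subset_ball (by norm_num))
    refine ⟨B / α + 1, by positivity, fun s t hs ht z hz => ?_⟩
    have hv2 : ‖hes (fun y => v (K.κ j y)) z‖ ≤ max C1 C2 := by
      have := h2 0 0 (by norm_num) (by norm_num) z hz
      simp only [zero_mul, add_zero] at this
      exact this.trans (le_max_right _ _)
    obtain ⟨e1, e2⟩ := hB2 _ _ z ((h1 s t hs ht z hz).trans (le_max_left _ _)) hv2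
    have hpos : 0 < mad (K.ρ j) z := hα.trans_le (hαβ z hz).1
    have key : ∀ r : ℝ, |r| ≤ B → |r / mad (K.ρ j) z| ≤ B / α + 1 := by
      intro r hr
      rw [abs_div, abs_of_pos hpos]
      have : |r| / mad (K.ρ j) z ≤ B / α := div_le_div₀ hB hr hα (hαβ z hz).1
      linarith
    exact ⟨key _ e1, key _ e2⟩
  choose C hC h using hj
  refine ⟨(∑ j, C j) + 1, by
    have := Finset.sum_nonneg (fun j (_ : j ∈ Finset.univ) => (hC j).le)
    linarith, fun s t hs ht x => ?_⟩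
  have hx := h (K.ix x) s t hs ht (K.co x) (ball_subset_closedBall (K.co_spec x).1)
  have hle : C (K.ix x) ≤ ∑ j, C j :=
    Finset.single_le_sum (fun j _ => (hC j).le) (Finset.mem_univ (K.ix x))
  exact ⟨hx.1.trans (by linarith), hx.2.trans (by linarith)⟩

/-- bounds, uniformly for combinations with coefficients in `[-1, 1]` -/
theorem KM.RM_bdd [CompactSpace X] (hψ : C11X K ψ) (hw : C11X K w) : ∃ C : ℝ, 0 < C ∧
    ∀ s t : ℝ, |s| ≤ 1 → |t| ≤ 1 → ∀ x, |K.RM (fun y => s * ψ y + t * w y) x| ≤ C := by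
  obtain ⟨C, hC, h⟩ := xRel_bdd K hψ hw hw
  exact ⟨C, hC, fun s t hs ht x => (h s t hs ht x).1⟩

theorem KM.RL_bdd [CompactSpace X] (hψ : C11X K ψ) (hw : C11X K w) (hv : C11X K v) :
    ∃ C : ℝ, 0 < C ∧
    ∀ s t : ℝ, |s| ≤ 1 → |t| ≤ 1 → ∀ x, |K.RL (fun y => s * ψ y + t * w y) v x| ≤ C := by
  obtain ⟨C, hC, h⟩ := xRel_bdd K hψ hw hv
  exact ⟨C, hC, fun s t hs ht x => (h s t hs ht x).2⟩

/-- measurability of functions given in the distinguished chart -/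
theorem xRel_meas (m : Fin K.N → Cn n → ℝ) (hm : ∀ j, Measurable (m j)) :
    Measurable (fun x : X => m (K.ix x) (K.co x)) := by
  classical
  have h13 : ball (0 : Cn n) 1 ⊆ ball (0 : Cn n) 3 := ball_subset_ball (by norm_num)
  let P : Fin K.N → X → Cn n := fun j =>
    (K.κ j '' ball 0 3).piecewise (Function.invFunOn (K.κ j) (ball 0 3)) (fun _ => 0)
  have hP : ∀ j, Measurable (P j) := fun j =>
    ContinuousOn.measurable_piecewise (K.inv_cont j) continuousOn_const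
      (K.isOpen_range j).measurableSet
  have hix : Measurable K.ix := by
    refine measurable_to_countable' fun j => ?_
    exact K.measurableSet_ix j
  have e : (fun x : X => m (K.ix x) (K.co x)) =
      (fun q : Fin K.N × X => m q.1 (P q.1 q.2)) ∘ fun x => (K.ix x, x) := by
    funext x
    have hm : x ∈ K.κ (K.ix x) '' ball 0 3 := by
      obtain ⟨h1, h2⟩ := K.co_spec x
      exact ⟨_, h13 h1, h2⟩
    have hco : P (K.ix x) x = K.co x := by
      simp only [P]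
      rw [Set.piecewise_eq_of_mem _ _ _ hm]
      obtain ⟨h1, h2⟩ := K.co_spec x
      have h3 := Function.invFunOn_mem hm
      have h4 := Function.invFunOn_eq hm
      exact K.injOn _ h3 (h13 h1) (h4.trans h2.symm)
    simp only [Function.comp_apply]
    rw [hco]
  rw [e]
  refine Measurable.comp ?_ (hix.prodMk measurable_id)
  exact measurable_from_prod_countable_right fun j => (hm j).comp (hP j)

theorem KM.RM_meas (hψ : C11X K ψ) : AEStronglyMeasurable (K.RM ψ) K.vol := by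
  have h : Measurable (K.RM ψ) := xRel_meas K
    (fun j z => mad (fun z => K.ρ j z + ψ (K.κ j z)) z / mad (K.ρ j) z)
    (fun j => (measurable_mad _).div (measurable_mad _))
  exact h.aestronglyMeasurable

theorem KM.RL_meas (hψ : C11X K ψ) (hw : C11X K w) : AEStronglyMeasurable (K.RL ψ w) K.vol := by
  have h : Measurable (K.RL ψ w) := xRel_meas K
    (fun j z => mal (fun z => K.ρ j z + ψ (K.κ j z)) (fun z => w (K.κ j z)) z / mad (K.ρ j) z)
    (fun j => (measurable_mal _ _).div (measurable_mad _))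
  exact h.aestronglyMeasurable

theorem xRel_psd (hψ : WK K ψ) :
    ∀ᵐ x ∂K.vol, (LM (fun z => K.ρ (K.ix x) z + ψ (K.κ (K.ix x) z)) (K.co x)).PosSemidef :=
  xRel_ae K (fun j z => (LM (fun z => K.ρ j z + ψ (K.κ j z)) z).PosSemidef) (fun j =>
    (c11_sub_iff isOpen_ball (C11.add isOpen_ball (K.ρ_c11 j) (hψ.c11 j))).1 (hψ.sub j))

theorem KM.RM_nonneg (hψ : WK K ψ) : ∀ᵐ x ∂K.vol, 0 ≤ K.RM ψ x := by
  filter_upwards [xRel_psd K hψ] with x hx
  exact div_nonneg (mat_det_nonneg hx).1 (K.mad_ρ_pos (K.ix x) (xRel_co3 K x)).2.2.le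

theorem KM.RM_zero : ∀ᵐ x ∂K.vol, K.RM (fun _ => (0 : ℝ)) x = 1 := by
  refine Filter.Eventually.of_forall fun x => ?_
  simp only [KM.RM, add_zero]
  exact div_self (K.mad_ρ_pos (K.ix x) (xRel_co3 K x)).2.2.ne'

theorem KM.RM_add_const (hψ : C11X K ψ) (c : ℝ) :
    ∀ᵐ x ∂K.vol, K.RM (fun y => ψ y + c) x = K.RM ψ x := by
  filter_upwards [xRel_ae_twD K hψ] with x hx
  simp only [KM.RM, mad]
  have h0 := (K.mad_ρ_pos (K.ix x) (xRel_co3 K x)).1
  have h1 := hx.add (xRel_twD_const c (K.co x))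
  rw [(h0.add h1.1).2, h1.2, LM_const, add_zero, ← (h0.add hx).2]

theorem KM.RL_add (hψ : C11X K ψ) (hv : C11X K v) (hw : C11X K w) :
    ∀ᵐ x ∂K.vol, K.RL ψ (fun y => v y + w y) x = K.RL ψ v x + K.RL ψ w x := by
  filter_upwards [xRel_ae_twD K hv, xRel_ae_twD K hw] with x h1 h2
  simp only [KM.RL, mal]
  rw [(h1.add h2).2, Matrix.mul_add, Matrix.trace_add, Complex.add_re, add_div]

theorem KM.RL_const_mul (hψ : C11X K ψ) (hv : C11X K v) (c : ℝ) :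
    ∀ᵐ x ∂K.vol, K.RL ψ (fun y => c * v y) x = c * K.RL ψ v x := by
  filter_upwards [xRel_ae_twD K hv] with x h1
  simp only [KM.RL, mal]
  rw [(h1.const_mul c).2, Matrix.mul_smul, Matrix.trace_smul, smul_eq_mul, Complex.re_ofReal_mul,
    mul_div_assoc]

/-- derivative in the direction of `w` -/
theorem KM.RM_deriv (hψ : C11X K ψ) (hw : C11X K w) : ∀ᵐ x ∂K.vol, ∀ s : ℝ,
    HasDerivAt (fun s : ℝ => K.RM (fun y => ψ y + s * w y) x)
      (K.RL (fun y => ψ y + s * w y) w x) s := by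
  filter_upwards [xRel_ae_twD K hψ, xRel_ae_twD K hw] with x h1 h2 s
  have h0 := (K.mad_ρ_pos (K.ix x) (xRel_co3 K x)).1
  have e : ∀ s : ℝ, LM (fun z => K.ρ (K.ix x) z +
      (ψ (K.κ (K.ix x) z) + s * w (K.κ (K.ix x) z))) (K.co x) =
      (LM (K.ρ (K.ix x)) (K.co x) + LM (fun z => ψ (K.κ (K.ix x) z)) (K.co x)) +
        (s : ℂ) • LM (fun z => w (K.κ (K.ix x) z)) (K.co x) := by
    intro s
    have h3 := h2.const_mul s
    have h4 := h1.add h3.1
    rw [(h0.add h4.1).2, h4.2, h3.2, add_assoc]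
  simp only [KM.RM, KM.RL, mad, mal, e]
  exact (mat_det_deriv _ _ s).div_const _

/-- joint polynomial dependence: derivative of `s ↦ R_{r (ψ + s w)}` and of `r ↦ R_{r φ}` -/
theorem KM.RM_deriv_scale (hψ : C11X K ψ) : ∀ᵐ x ∂K.vol, ∀ r : ℝ,
    HasDerivAt (fun r : ℝ => K.RM (fun y => r * ψ y) x) (K.RL (fun y => r * ψ y) ψ x) r := by
  filter_upwards [xRel_ae_twD K hψ] with x h1 r
  have h0 := (K.mad_ρ_pos (K.ix x) (xRel_co3 K x)).1
  have e : ∀ s : ℝ, LM (fun z => K.ρ (K.ix x) z + s * ψ (K.κ (K.ix x) z)) (K.co x) =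
      LM (K.ρ (K.ix x)) (K.co x) + (s : ℂ) • LM (fun z => ψ (K.κ (K.ix x) z)) (K.co x) := by
    intro s
    have h3 := h1.const_mul s
    rw [(h0.add h3.1).2, h3.2]
  simp only [KM.RM, KM.RL, mad, mal, e]
  exact (mat_det_deriv _ _ r).div_const _

/-- convexity -/
theorem KM.RM_convex (hψ : WK K ψ) (hw : WK K w) {s : ℝ} (h0 : 0 ≤ s) (h1 : s ≤ 1) :
    ∀ᵐ x ∂K.vol, s ^ n * K.RM w x ≤ K.RM (fun y => (1 - s) * ψ y + s * w y) x := by
  filter_upwards [xRel_ae_twD K hψ.c11, xRel_ae_twD K hw.c11, xRel_psd K hψ, xRel_psd K hw] with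
    x t1 t2 p1 p2
  obtain ⟨hρ, -, hpos⟩ := K.mad_ρ_pos (K.ix x) (xRel_co3 K x)
  have e : LM (fun z => K.ρ (K.ix x) z +
      ((1 - s) * ψ (K.κ (K.ix x) z) + s * w (K.κ (K.ix x) z))) (K.co x) =
      ((1 - s : ℝ) : ℂ) • LM (fun z => K.ρ (K.ix x) z + ψ (K.κ (K.ix x) z)) (K.co x) +
        (s : ℂ) • LM (fun z => K.ρ (K.ix x) z + w (K.κ (K.ix x) z)) (K.co x) := by
    have a1 := t1.const_mul (1 - s)
    have a2 := t2.const_mul s
    have a3 := a1.1.add a2.1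
    rw [(hρ.add a3.1).2, a3.2, a1.2, a2.2, (hρ.add t1).2, (hρ.add t2).2, smul_add, smul_add]
    have : LM (K.ρ (K.ix x)) (K.co x) = ((1 - s : ℝ) : ℂ) • LM (K.ρ (K.ix x)) (K.co x) +
        (s : ℂ) • LM (K.ρ (K.ix x)) (K.co x) := by
      rw [← add_smul]
      push_cast
      rw [sub_add_cancel, one_smul]
    nth_rewrite 1 [this]
    abel
  simp only [KM.RM, mad]
  rw [e, ← mul_div_assoc]
  exact div_le_div_of_nonneg_right (mat_det_convex p1 p2 h0 h1) hpos.le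

end meas

end HMA
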