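import Pool.Agent.H85.KM.XRel
import Pool.Agent.H85.KM.XPart

/-! # Module XSym: global integration by parts, total mass -/

open MeasureTheory Metric Set
open scoped ENNReal Topology ContDiff ComplexOrder

namespace HMA

variable {n : ℕ} {X : Type} [TopologicalSpace X] (K : KM n X)

/-- `RL` in the direction of a function vanishing near `x` -/
theorem xSym_RL_off {v : X → ℝ} (ψ : X → ℝ) {x : X} {S : Set X} (hS : IsClosed S) (hx : x ∉ S)
    (h0 : ∀ y, y ∉ S → v y = 0) : K.RL ψ v x = 0 := by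
  obtain ⟨hco, hκ⟩ := K.co_spec x
  have hco3 : K.co x ∈ ball (0 : Cn n) 3 := ball_subset_ball (by norm_num) hco
  have hcont : ContinuousAt (K.κ (K.ix x)) (K.co x) :=
    (K.cont (K.ix x)).continuousAt (isOpen_ball.mem_nhds hco3)
  have hev : (fun z => v (K.κ (K.ix x) z)) =ᶠ[𝓝 (K.co x)] fun _ => (0 : ℝ) := by
    have h1 : ∀ᶠ z in 𝓝 (K.co x), K.κ (K.ix x) z ∈ Sᶜ := by
      apply hcont.eventually_mem
      rw [hκ]
      exact hS.isOpen_compl.mem_nhds hx
    filter_upwards [h1] with z hz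
    exact h0 _ hz
  unfold KM.RL mal
  rw [LM_congr hev, LM_const, mul_zero, Matrix.trace_zero, Complex.zero_re, zero_div]

theorem xSym_RL_const (ψ : X → ℝ) (c : ℝ) (x : X) : K.RL ψ (fun _ => c) x = 0 := by
  unfold KM.RL mal
  rw [LM_const, mul_zero, Matrix.trace_zero, Complex.zero_re, zero_div]

variable [MeasurableSpace X] [BorelSpace X] [T2Space X] [CompactSpace X] {ψ v w : X → ℝ}

omit [T2Space X] in
theorem xSym_int (hψ : C11X K ψ) (hv : C11X K v) (hw : C11X K w) :
    Integrable (fun x => v x * K.RL ψ w x) K.vol := by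
  have := K.vol_finite
  obtain ⟨A, hA⟩ := isCompact_univ.exists_bound_of_continuousOn (hv.continuous K).continuousOn
  obtain ⟨B, hB0, hB⟩ := K.RL_bdd hψ (c11X_const K 0) hw
  refine Integrable.of_bound ((hv.continuous K).aestronglyMeasurable.mul
    (K.RL_meas hψ hw)) (A * B) (Filter.Eventually.of_forall fun x => ?_)
  have h1 := hA x (mem_univ x)
  have h2 : |K.RL ψ w x| ≤ B := by
    have := hB 1 0 (by norm_num) (by norm_num) x
    simpa using this
  rw [norm_mul, Real.norm_eq_abs (K.RL ψ w x)]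
  exact mul_le_mul h1 h2 (abs_nonneg _) ((norm_nonneg _).trans h1)

omit [T2Space X] in
theorem xSym_RL_sum {ι : Type} (s : Finset ι) (f : ι → X → ℝ) (hψ : C11X K ψ)
    (hf : ∀ i, C11X K (f i)) : C11X K (fun x => ∑ i ∈ s, f i x) ∧
      ∀ᵐ x ∂K.vol, K.RL ψ (fun y => ∑ i ∈ s, f i y) x = ∑ i ∈ s, K.RL ψ (f i) x := by
  classical
  induction s using Finset.induction_on with
  | empty =>
    simp only [Finset.sum_empty]
    exact ⟨c11X_const K 0, Filter.Eventually.of_forall fun x => xSym_RL_const K ψ 0 x⟩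
  | insert i s hi ih =>
    have h1 : (fun x => ∑ j ∈ insert i s, f j x) = fun x => f i x + ∑ j ∈ s, f j x := by
      funext x
      rw [Finset.sum_insert hi]
    rw [h1]
    refine ⟨(hf i).add K ih.1, ?_⟩
    filter_upwards [ih.2, K.RL_add hψ (hf i) ih.1] with x hx hx2
    rw [hx2, hx, Finset.sum_insert hi]

/-- the local case -/
theorem xSym_local (hψ : C11X K ψ) (hv : C11X K v) (hw : C11X K w) (i : Fin K.N) {b : Cn n → ℝ}
    (hbc : HasCompactSupport b) (hb3 : tsupport b ⊆ ball 0 3) (hbs : ContDiff ℝ ∞ b)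
    (hext : C11X K (K.ext i b)) :
    ∫ x, (K.ext i b x * v x) * K.RL ψ w x ∂K.vol =
      ∫ x, w x * K.RL ψ (fun y => K.ext i b y * v y) x ∂K.vol := by
  have hv1 : C11X K (fun y => K.ext i b y * v y) := hext.mul K hv
  have h2 : (2 : WithTop ℕ∞) ≤ ((⊤ : ℕ∞) : WithTop ℕ∞) := WithTop.coe_le_coe.2 le_top
  have hb11 : C11 (ball (0 : Cn n) 3) b :=
    c11_of_contDiffOn isOpen_ball ((hbs.of_le h2).contDiffOn)
  have hvκ : C11 (ball (0 : Cn n) 3) (fun z => b z * v (K.κ i z)) := hb11.mul isOpen_ball (hv i)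
  have hu11 : C11 (ball (0 : Cn n) 3) (fun y => K.ρ i y + ψ (K.κ i y)) :=
    (K.ρ_c11 i).add isOpen_ball (hψ i)
  have hS : IsClosed (K.κ i '' tsupport b) :=
    (K.compact_image i (L := tsupport b) hbc hb3).isClosed
  have hzero : ∀ y, y ∉ K.κ i '' tsupport b → K.ext i b y * v y = 0 := by
    intro y hy
    by_cases hy3 : y ∈ K.κ i '' ball 0 3
    · obtain ⟨z, hz, rfl⟩ := hy3
      rw [K.ext_κ i b hz, image_eq_zero_of_notMem_tsupport (fun h => hy ⟨z, h, rfl⟩), zero_mul]
    · rw [K.ext_off i b hy3, zero_mul]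
  have hsub : K.κ i '' tsupport b ⊆ K.κ i '' ball 0 3 := image_mono hb3
  -- the left hand side in the chart
  obtain ⟨-, h3⟩ := K.integral_chart i (xSym_int K hψ hv1 hw) (by
    intro x hx
    rw [hzero x (fun h => hx (hsub h)), zero_mul])
  obtain ⟨-, h4⟩ := K.integral_chart i (xSym_int K hψ hw hv1) (by
    intro x hx
    rw [xSym_RL_off K ψ hS (fun h => hx (hsub h)) hzero, mul_zero])
  rw [h3, h4]
  have h5 : ∫ z in ball (0 : Cn n) 3, (K.ext i b (K.κ i z) * v (K.κ i z)) *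
      K.RL ψ w (K.κ i z) * mad (K.ρ i) z = ∫ z in ball (0 : Cn n) 3, (b z * v (K.κ i z)) *
        mal (fun y => K.ρ i y + ψ (K.κ i y)) (fun y => w (K.κ i y)) z := by
    apply setIntegral_congr_ae measurableSet_ball
    filter_upwards [K.RL_chart hψ hw i] with z hz hz3
    rw [hz hz3, K.ext_κ i b hz3]
    have h4 := (K.mad_ρ_pos i hz3).2.2
    field_simp
  have h6 : ∫ z in ball (0 : Cn n) 3, w (K.κ i z) *
      K.RL ψ (fun y => K.ext i b y * v y) (K.κ i z) * mad (K.ρ i) z =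
        ∫ z in ball (0 : Cn n) 3, w (K.κ i z) *
          mal (fun y => K.ρ i y + ψ (K.κ i y)) (fun y => b y * v (K.κ i y)) z := by
    apply setIntegral_congr_ae measurableSet_ball
    filter_upwards [K.RL_chart hψ hv1 i] with z hz hz3
    rw [hz hz3]
    have h4 := (K.mad_ρ_pos i hz3).2.2
    have h7 : mal (fun y => K.ρ i y + ψ (K.κ i y))
        (fun y => K.ext i b (K.κ i y) * v (K.κ i y)) z =
        mal (fun y => K.ρ i y + ψ (K.κ i y)) (fun y => b y * v (K.κ i y)) z := by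
      unfold mal
      rw [LM_congr (u := fun y => K.ext i b (K.κ i y) * v (K.κ i y))
        (v := fun y => b y * v (K.κ i y))]
      filter_upwards [isOpen_ball.mem_nhds hz3] with y hy
      rw [K.ext_κ i b hy]
    rw [h7]
    field_simp
  refine h5.trans (Eq.trans ?_ h6.symm)
  exact (ibp11 isOpen_ball hu11 hvκ (hw i) (L := tsupport b) hbc hb3 (fun z hz => by
    rw [image_eq_zero_of_notMem_tsupport hz, zero_mul])).2.2

theorem KM.sym (hψ : C11X K ψ) (hv : C11X K v) (hw : C11X K w) :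
    ∫ x, v x * K.RL ψ w x ∂K.vol = ∫ x, w x * K.RL ψ v x ∂K.vol := by
  obtain ⟨b, hb, hb11, hsum⟩ := exists_partition K
  have h23 : ball (0 : Cn n) 2 ⊆ ball 0 3 := ball_subset_ball (by norm_num)
  have hvi : ∀ i, C11X K (fun y => K.ext i (b i) y * v y) := fun i => (hb11 i).mul K hv
  have hveq : v = fun x => ∑ i, K.ext i (b i) x * v x := by
    funext x
    rw [← Finset.sum_mul, hsum x, one_mul]
  obtain ⟨-, hRL⟩ := xSym_RL_sum K Finset.univ (fun i y => K.ext i (b i) y * v y) hψ hvi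
  have h1 : ∫ x, v x * K.RL ψ w x ∂K.vol =
      ∑ i, ∫ x, (K.ext i (b i) x * v x) * K.RL ψ w x ∂K.vol := by
    rw [← integral_finsetSum _ (fun i _ => xSym_int K hψ (hvi i) hw)]
    congr 1
    funext x
    rw [← Finset.sum_mul, ← Finset.sum_mul, hsum x, one_mul]
  have h2 : ∫ x, w x * K.RL ψ v x ∂K.vol =
      ∑ i, ∫ x, w x * K.RL ψ (fun y => K.ext i (b i) y * v y) x ∂K.vol := by
    rw [← integral_finsetSum _ (fun i _ => xSym_int K hψ hw (hvi i))]
    apply integral_congr_ae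
    filter_upwards [hRL] with x hx
    rw [← Finset.mul_sum, ← hx, ← hveq]
  rw [h1, h2]
  refine Finset.sum_congr rfl fun i _ => ?_
  exact xSym_local K hψ hv hw i (hb i).1 ((hb i).2.1.trans h23) (hb i).2.2.2 (hb11 i)

theorem KM.RL_mass (hψ : C11X K ψ) (hw : C11X K w) : ∫ x, K.RL ψ w x ∂K.vol = 0 := by
  have h := K.sym hψ (c11X_const K 1) hw
  simp only [one_mul, xSym_RL_const, mul_zero, integral_zero] at h
  exact h

/-- the total mass does not depend on `ψ` -/
theorem KM.mass (hψ : C11X K ψ) : ∫ x, K.RM ψ x ∂K.vol = K.vol.real univ := by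
  have := K.vol_finite
  have hφ : C11X K (fun x => 2 * ψ x) := hψ.const_mul K 2
  obtain ⟨A, hA0, hA⟩ := K.RM_bdd hφ (c11X_const K 0)
  obtain ⟨B, hB0, hB⟩ := K.RL_bdd hφ (c11X_const K 0) hφ
  have hA' : ∀ s : ℝ, |s| ≤ 1 → ∀ x, |K.RM (fun y => s * (2 * ψ y)) x| ≤ A := by
    intro s hs x
    have := hA s 0 hs (by norm_num) x
    simpa using this
  have hB' : ∀ s : ℝ, |s| ≤ 1 → ∀ x,
      |K.RL (fun y => s * (2 * ψ y)) (fun x => 2 * ψ x) x| ≤ B := by
    intro s hs x
    have := hB s 0 hs (by norm_num) x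
    simpa using this
  have hder : ∀ s ∈ ball (0 : ℝ) 1, HasDerivAt
      (fun s : ℝ => ∫ x, K.RM (fun y => s * (2 * ψ y)) x ∂K.vol) 0 s := by
    intro s hs
    have hs1 : |s| ≤ 1 := by
      rw [mem_ball_zero_iff, Real.norm_eq_abs] at hs
      exact hs.le
    have hm : ∀ᶠ t in 𝓝 s, AEStronglyMeasurable
        ((fun (s : ℝ) x => K.RM (fun y => s * (2 * ψ y)) x) t) K.vol :=
      Filter.Eventually.of_forall fun t => K.RM_meas (hφ.const_mul K t)
    have hi : Integrable ((fun (s : ℝ) x => K.RM (fun y => s * (2 * ψ y)) x) s) K.vol :=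
      Integrable.of_bound (K.RM_meas (hφ.const_mul K s)) A
        (Filter.Eventually.of_forall fun x => hA' s hs1 x)
    have hm' : AEStronglyMeasurable
        ((fun (s : ℝ) x => K.RL (fun y => s * (2 * ψ y)) (fun x => 2 * ψ x) x) s) K.vol :=
      K.RL_meas (hφ.const_mul K s) hφ
    have hb : ∀ᵐ x ∂K.vol, ∀ t ∈ ball (0 : ℝ) 1,
        ‖(fun (s : ℝ) x => K.RL (fun y => s * (2 * ψ y)) (fun x => 2 * ψ x) x) t x‖ ≤
          (fun _ => B) x := by
      refine Filter.Eventually.of_forall fun x t ht => ?_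
      rw [mem_ball_zero_iff, Real.norm_eq_abs] at ht
      exact hB' t ht.le x
    have hdd : ∀ᵐ x ∂K.vol, ∀ t ∈ ball (0 : ℝ) 1, HasDerivAt
        (fun t => (fun (s : ℝ) x => K.RM (fun y => s * (2 * ψ y)) x) t x)
        ((fun (s : ℝ) x => K.RL (fun y => s * (2 * ψ y)) (fun x => 2 * ψ x) x) t x) t := by
      filter_upwards [K.RM_deriv_scale hφ] with x hx t _
      exact hx t
    have h1 := hasDerivAt_integral_of_dominated_loc_of_deriv_le (isOpen_ball.mem_nhds hs)
      hm hi hm' hb (integrable_const B) hdd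
    have h2 := h1.2
    rw [K.RL_mass (hφ.const_mul K s) hφ] at h2
    exact h2
  have hconst : (fun s : ℝ => ∫ x, K.RM (fun y => s * (2 * ψ y)) x ∂K.vol) (1 / 2) =
      (fun s : ℝ => ∫ x, K.RM (fun y => s * (2 * ψ y)) x ∂K.vol) 0 := by
    have hd : DifferentiableOn ℝ (fun s : ℝ => ∫ x, K.RM (fun y => s * (2 * ψ y)) x ∂K.vol)
        (ball (0 : ℝ) 1) := fun s hs => (hder s hs).differentiableAt.differentiableWithinAt
    exact isOpen_ball.is_const_of_deriv_eq_zero (convex_ball 0 1).isPreconnected hd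
      (fun s hs => (hder s hs).deriv) (by norm_num) (by norm_num)
  have h1 : (fun y => (1 / 2 : ℝ) * (2 * ψ y)) = ψ := by
    funext y
    ring
  have h2 : (fun y => (0 : ℝ) * (2 * ψ y)) = fun _ => (0 : ℝ) := by
    funext y
    ring
  simp only [h1, h2] at hconst
  rw [hconst]
  rw [integral_congr_ae (g := fun _ => (1 : ℝ)) K.RM_zero]
  simp

end HMA
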