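import Pool.Agent.H85.KM.XTop

/-! # Module XVol: the volume measure -/

open MeasureTheory Metric Set
open scoped ENNReal Topology ContDiff ComplexOrder

namespace HMA

variable {n : ℕ} {X : Type} [TopologicalSpace X] (K : KM n X)

/-- a matrix is determined by its quadratic form -/
theorem xvol_pol {A B : Matrix (Fin n) (Fin n) ℂ}
    (h : ∀ ξ : Cn n, ∑ j, ∑ k, A j k * ξ j * (starRingEnd ℂ) (ξ k) =
      ∑ j, ∑ k, B j k * ξ j * (starRingEnd ℂ) (ξ k)) : A = B := by
  classical
  set M : Matrix (Fin n) (Fin n) ℂ := fun k j => (starRingEnd ℂ) (A k j - B k j) with hM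
  have h0 : Matrix.toEuclideanLin M = 0 := by
    rw [← inner_map_self_eq_zero]
    intro x
    have h1 : inner ℂ (Matrix.toEuclideanLin M x) x =
        ∑ j, ∑ k, (A j k - B j k) * x j * (starRingEnd ℂ) (x k) := by
      rw [PiLp.inner_apply]
      refine Finset.sum_congr rfl fun j _ => ?_
      rw [RCLike.inner_apply, Matrix.toEuclideanLin_apply]
      simp only [Matrix.mulVec, dotProduct, map_sum, map_mul, hM, Complex.conj_conj,
        Finset.mul_sum]
      refine Finset.sum_congr rfl fun k _ => ?_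
      ring
    rw [h1]
    simp only [sub_mul, Finset.sum_sub_distrib]
    rw [h x, sub_self]
  have h2 : M = 0 := by
    apply Matrix.toEuclideanLin.injective
    rw [h0, map_zero]
  ext j k
  have h3 : M j k = 0 := by rw [h2]; rfl
  have h4 : (starRingEnd ℂ) (A j k - B j k) = 0 := h3
  rw [map_eq_zero] at h4
  exact sub_eq_zero.1 h4

/-- the density in two charts -/
theorem xvol_mad (i j : Fin K.N) {z : Cn n}
    (hz : z ∈ ball (0 : Cn n) 3 ∩ K.κ i ⁻¹' (K.κ j '' ball 0 3)) :
    mad (K.ρ i) z = ‖(jac (K.τ i j) z).det‖ ^ 2 * mad (K.ρ j) (K.τ i j z) := by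
  have hop := K.isOpen_overlap i j
  have hs := hol_contDiffOn hop (K.τ_hol i j)
  have hF : ContDiffAt ℂ 2 (K.τ i j) z :=
    (hs.contDiffAt (hop.mem_nhds hz)).of_le (by decide)
  obtain ⟨h1, h2⟩ := K.τ_spec i j z hz.1 hz.2
  have hT := (K.mad_ρ_pos j h1).1
  rw [← mad_comp hF hT]
  have hL := LM_comp hF hT
  have hi := (K.mad_ρ_pos i hz.1).1
  have : LM (K.ρ i) z = LM (fun w => K.ρ j (K.τ i j w)) z := by
    apply xvol_pol
    intro ξ
    rw [← hi.lev_LM ξ, ← hL.1.lev_LM ξ, K.ρ_compat i j z hz ξ]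
  rw [mad, mad, this]

theorem xvol_b13 : ball (0 : Cn n) 1 ⊆ ball 0 3 := ball_subset_ball (by norm_num)

/-- the pieces -/
def xS (j : Fin K.N) : Set (Cn n) := ball 0 1 ∩ K.κ j ⁻¹' {x | K.ix x = j}

theorem xS_sub (j : Fin K.N) : xS K j ⊆ ball 0 3 := inter_subset_left.trans xvol_b13

theorem xvol_dens (j : Fin K.N) :
    Measurable (fun z : Cn n => ENNReal.ofReal (mad (K.ρ j) z)) :=
  (measurable_mad _).ennreal_ofReal

variable [MeasurableSpace X] [BorelSpace X]

theorem xvol_pre (j : Fin K.N) {T : Set X} (hT : MeasurableSet T) {U : Set (Cn n)}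
    (hU : IsOpen U) (hU3 : U ⊆ ball 0 3) : MeasurableSet (U ∩ K.κ j ⁻¹' T) := by
  have hc : Continuous (U.domRestrict (K.κ j)) := ((K.cont j).mono hU3).domRestrict
  have h1 : MeasurableSet (U.domRestrict (K.κ j) ⁻¹' T) := hc.measurable hT
  have h2 := hU.measurableSet.subtype_image h1
  convert h2 using 1
  ext z
  constructor
  · rintro ⟨hz, hz'⟩
    exact ⟨⟨z, hz⟩, hz', rfl⟩
  · rintro ⟨⟨w, hw⟩, hw', rfl⟩
    exact ⟨hw, hw'⟩

theorem xvol_image (j : Fin K.N) {T : Set (Cn n)} (hT : MeasurableSet T) (hT3 : T ⊆ ball 0 3) :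
    MeasurableSet (K.κ j '' T) := by
  have ho := K.isOpen_range j
  have hc : Continuous ((K.κ j '' ball 0 3).domRestrict (Function.invFunOn (K.κ j) (ball 0 3))) :=
    (K.inv_cont j).domRestrict
  have h1 := ho.measurableSet.subtype_image (hc.measurable hT)
  convert h1 using 1
  ext x
  constructor
  · rintro ⟨z, hz, rfl⟩
    refine ⟨⟨K.κ j z, mem_image_of_mem _ (hT3 hz)⟩, ?_, rfl⟩
    have : Function.invFunOn (K.κ j) (ball 0 3) (K.κ j z) = z :=
      (K.injOn j).leftInvOn_invFunOn (hT3 hz)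
    change Function.invFunOn (K.κ j) (ball 0 3) (K.κ j z) ∈ T
    rw [this]
    exact hz
  · rintro ⟨⟨x, hx⟩, hx', rfl⟩
    refine ⟨Function.invFunOn (K.κ j) (ball 0 3) x, hx', ?_⟩
    exact Function.invFunOn_eq hx

theorem xS_meas (j : Fin K.N) : MeasurableSet (xS K j) :=
  xvol_pre K j (K.measurableSet_ix j) isOpen_ball xvol_b13

theorem xvol_aem (j : Fin K.N) {T : Set (Cn n)} (hT : MeasurableSet T) (hT3 : T ⊆ ball 0 3)
    (μ : Measure (Cn n)) : AEMeasurable (K.κ j) (μ.restrict T) :=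
  ((K.cont j).mono hT3).aemeasurable hT

theorem xvol_lint {g : X → ℝ≥0∞} (hg : Measurable g) :
    ∫⁻ x, g x ∂K.vol =
      ∑ j, ∫⁻ z in xS K j, g (K.κ j z) * ENNReal.ofReal (mad (K.ρ j) z) := by
  rw [KM.vol, lintegral_finsetSum_measure]
  refine Finset.sum_congr rfl fun j _ => ?_
  change ∫⁻ x, g x ∂Measure.map (K.κ j)
    ((volume.withDensity fun z => ENNReal.ofReal (mad (K.ρ j) z)).restrict (xS K j)) = _
  rw [lintegral_map' hg.aemeasurable (xvol_aem K j (xS_meas K j) (xS_sub K j) _),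
    restrict_withDensity (xS_meas K j), lintegral_withDensity_eq_lintegral_mul₀
      (xvol_dens K j).aemeasurable]
  · refine lintegral_congr fun z => ?_
    simp only [Pi.mul_apply]
    rw [mul_comm]
  · exact hg.comp_aemeasurable (xvol_aem K j (xS_meas K j) (xS_sub K j) _)

theorem KM.vol_finite : IsFiniteMeasure K.vol := by
  constructor
  have h1 := xvol_lint K (g := fun _ => 1) measurable_const
  rw [lintegral_one] at h1
  rw [h1]
  refine ENNReal.sum_lt_top.2 fun j _ => ?_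
  obtain ⟨a, b, ha, hb, hab⟩ := K.mad_ρ_bdd j (isCompact_closedBall (0 : Cn n) 1)
    (closedBall_subset_ball (by norm_num))
  calc ∫⁻ z in xS K j, 1 * ENNReal.ofReal (mad (K.ρ j) z)
      ≤ ∫⁻ z in xS K j, ENNReal.ofReal b := by
        refine setLIntegral_mono' (xS_meas K j) fun z hz => ?_
        rw [one_mul]
        exact ENNReal.ofReal_le_ofReal (hab z (ball_subset_closedBall hz.1)).2
    _ = ENNReal.ofReal b * volume (xS K j) := setLIntegral_const _ _
    _ ≤ ENNReal.ofReal b * volume (ball (0 : Cn n) 1) := by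
        gcongr
        exact inter_subset_left
    _ < ⊤ := ENNReal.mul_lt_top ENNReal.ofReal_lt_top measure_ball_lt_top

/-- one piece in two charts -/
theorem xvol_piece (i j : Fin K.N) (g : X → ℝ≥0∞) :
    ∫⁻ z in ball 0 3 ∩ K.κ i ⁻¹' {x | K.ix x = j}, g (K.κ i z) * ENNReal.ofReal (mad (K.ρ i) z) =
      ∫⁻ z in xS K j ∩ K.κ j ⁻¹' (K.κ i '' ball 0 3),
        g (K.κ j z) * ENNReal.ofReal (mad (K.ρ j) z) := by
  set D : Set (Cn n) := ball 0 3 ∩ K.κ i ⁻¹' {x | K.ix x = j} with hD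
  set Ω : Set (Cn n) := ball (0 : Cn n) 3 ∩ K.κ i ⁻¹' (K.κ j '' ball 0 3) with hΩ
  have hDΩ : D ⊆ Ω := by
    rintro z ⟨hz, hz'⟩
    refine ⟨hz, ?_⟩
    have h1 := (K.ix_spec (K.κ i z)).1
    have h2 : K.ix (K.κ i z) = j := hz'
    rw [h2] at h1
    exact image_mono xvol_b13 h1
  have hDm : MeasurableSet D := xvol_pre K i (K.measurableSet_ix j) isOpen_ball subset_rfl
  have him : K.τ i j '' D = xS K j ∩ K.κ j ⁻¹' (K.κ i '' ball 0 3) := by
    ext w
    constructor
    · rintro ⟨z, hz, rfl⟩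
      have hz2 := hDΩ hz
      obtain ⟨h1, h2⟩ := K.τ_spec i j z hz2.1 hz2.2
      have h3 : K.ix (K.κ i z) = j := hz.2
      have h4 := (K.ix_spec (K.κ i z)).1
      rw [h3] at h4
      obtain ⟨w, hw, hw'⟩ := h4
      have h5 : K.τ i j z = w := K.injOn j h1 (xvol_b13 hw) (h2.trans hw'.symm)
      refine ⟨⟨?_, ?_⟩, ?_⟩
      · rw [h5]; exact hw
      · change K.ix (K.κ j (K.τ i j z)) = j
        rw [h2]; exact h3
      · change K.κ j (K.τ i j z) ∈ K.κ i '' ball 0 3
        rw [h2]; exact mem_image_of_mem _ hz2.1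
    · rintro ⟨⟨h1, h2⟩, h3⟩
      obtain ⟨h4, h5, h6⟩ := K.τ_inv j i (xvol_b13 h1) h3
      obtain ⟨h7, h8⟩ := K.τ_spec j i w (xvol_b13 h1) h3
      refine ⟨K.τ j i w, ⟨h4, ?_⟩, h6⟩
      change K.ix (K.κ i (K.τ j i w)) = j
      rw [h8]
      exact h2
  rw [← him, lintegral_hol (K.isOpen_overlap i j) (K.τ_hol i j) hDm hDΩ
    ((K.τ_inj i j).mono hDΩ)]
  refine setLIntegral_congr_fun hDm fun z hz => ?_
  have hz2 := hDΩ hz
  obtain ⟨h1, h2⟩ := K.τ_spec i j z hz2.1 hz2.2
  rw [xvol_mad K i j hz2, h2, ENNReal.ofReal_mul (by positivity)]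
  ring

/-- the volume measure in an arbitrary chart -/
theorem KM.vol_chart (i : Fin K.N) {g : X → ℝ≥0∞} (hg : Measurable g) :
    ∫⁻ x in K.κ i '' ball 0 3, g x ∂K.vol =
      ∫⁻ z in ball 0 3, g (K.κ i z) * ENNReal.ofReal (mad (K.ρ i) z) := by
  have hA : MeasurableSet (K.κ i '' ball 0 3) := (K.isOpen_range i).measurableSet
  have hR : ball (0 : Cn n) 3 = ⋃ j ∈ (Finset.univ : Finset (Fin K.N)),
      ball (0 : Cn n) 3 ∩ K.κ i ⁻¹' {x | K.ix x = j} := by
    ext z
    simp
  conv_rhs => rw [hR]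
  rw [lintegral_biUnion_finset]
  · rw [← lintegral_indicator hA, xvol_lint K (hg.indicator hA)]
    refine Finset.sum_congr rfl fun j _ => ?_
    rw [xvol_piece K i j g]
    have h1 : MeasurableSet (xS K j ∩ K.κ j ⁻¹' (K.κ i '' ball 0 3)) := by
      have := xvol_pre K j hA isOpen_ball (xvol_b13 (n := n))
      have h2 : xS K j ∩ K.κ j ⁻¹' (K.κ i '' ball 0 3) =
          xS K j ∩ (ball 0 1 ∩ K.κ j ⁻¹' (K.κ i '' ball 0 3)) := by
        ext z
        constructor
        · rintro ⟨h, h'⟩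
          exact ⟨h, h.1, h'⟩
        · rintro ⟨h, _, h'⟩
          exact ⟨h, h'⟩
      rw [h2]
      exact (xS_meas K j).inter this
    rw [← lintegral_indicator (xS_meas K j), ← lintegral_indicator h1]
    refine lintegral_congr fun z => ?_
    by_cases hz : z ∈ xS K j
    · by_cases hz' : K.κ j z ∈ K.κ i '' ball 0 3
      · rw [indicator_of_mem hz, indicator_of_mem (show z ∈ xS K j ∩ _ from ⟨hz, hz'⟩),
          indicator_of_mem hz']
      · rw [indicator_of_mem hz, indicator_of_notMem hz', zero_mul,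
          indicator_of_notMem (show z ∉ xS K j ∩ K.κ j ⁻¹' (K.κ i '' ball 0 3) from
            fun h => hz' h.2)]
    · rw [indicator_of_notMem hz,
        indicator_of_notMem (show z ∉ xS K j ∩ K.κ j ⁻¹' (K.κ i '' ball 0 3) from
          fun h => hz h.1)]
  · intro a _ b _ hab
    refine Set.disjoint_left.2 ?_
    rintro z ⟨_, h1⟩ ⟨_, h2⟩
    exact hab ((show K.ix (K.κ i z) = a from h1).symm.trans h2)
  · intro j _
    exact xvol_pre K i (K.measurableSet_ix j) isOpen_ball subset_rfl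

theorem KM.vol_pos [Nonempty X] : 0 < K.vol univ := by
  obtain ⟨x⟩ := ‹Nonempty X›
  set i := K.ix x
  have h1 := K.vol_chart i (g := fun _ => 1) measurable_const
  obtain ⟨a, b, ha, hb, hab⟩ := K.mad_ρ_bdd i (isCompact_closedBall (0 : Cn n) 1)
    (closedBall_subset_ball (by norm_num))
  calc 0 < ENNReal.ofReal a * volume (ball (0 : Cn n) 1) :=
        ENNReal.mul_pos (ENNReal.ofReal_pos.2 ha).ne'
          (measure_ball_pos volume _ one_pos).ne'
    _ = ∫⁻ z in ball (0 : Cn n) 1, ENNReal.ofReal a := (setLIntegral_const _ _).symm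
    _ ≤ ∫⁻ z in ball (0 : Cn n) 1, 1 * ENNReal.ofReal (mad (K.ρ i) z) := by
        refine setLIntegral_mono' measurableSet_ball fun z hz => ?_
        rw [one_mul]
        exact ENNReal.ofReal_le_ofReal (hab z (ball_subset_closedBall hz)).1
    _ ≤ ∫⁻ z in ball (0 : Cn n) 3, 1 * ENNReal.ofReal (mad (K.ρ i) z) :=
        lintegral_mono_set xvol_b13
    _ = ∫⁻ x in K.κ i '' ball 0 3, 1 ∂K.vol := h1.symm
    _ ≤ K.vol univ := by
        rw [setLIntegral_one]
        exact measure_mono (subset_univ _)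

/-- null sets -/
theorem KM.vol_ae (p : X → Prop) (h : ∀ i, ∀ᵐ z : Cn n, z ∈ ball (0 : Cn n) 1 → p (K.κ i z)) :
    ∀ᵐ x ∂K.vol, p x := by
  rw [ae_iff, KM.vol, Measure.coe_finsetSum, Finset.sum_apply]
  refine Finset.sum_eq_zero fun j _ => ?_
  change Measure.map (K.κ j) ((volume.withDensity fun z =>
    ENNReal.ofReal (mad (K.ρ j) z)).restrict (xS K j)) _ = 0
  obtain ⟨t, ht1, ht2, ht3⟩ := exists_measurable_superset_of_null (ae_iff.1 (h j))
  have hm : MeasurableSet (K.κ j '' (t ∩ ball 0 1)) :=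
    xvol_image K j (ht2.inter measurableSet_ball) (inter_subset_right.trans xvol_b13)
  have hb : MeasurableSet (K.κ j '' ball 0 1) :=
    xvol_image K j measurableSet_ball xvol_b13
  have hT : MeasurableSet (K.κ j '' (t ∩ ball 0 1) ∪ (K.κ j '' ball 0 1)ᶜ) := hm.union hb.compl
  refine measure_mono_null (t := K.κ j '' (t ∩ ball 0 1) ∪ (K.κ j '' ball 0 1)ᶜ) ?_ ?_
  · intro x hx
    by_cases hx1 : x ∈ K.κ j '' ball 0 1
    · left
      obtain ⟨z, hz, rfl⟩ := hx1
      refine ⟨z, ⟨ht1 ?_, hz⟩, rfl⟩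
      intro h'
      exact hx (h' hz)
    · exact Or.inr hx1
  · rw [Measure.map_apply_of_aemeasurable (xvol_aem K j (xS_meas K j) (xS_sub K j) _) hT]
    rw [Measure.restrict_apply' (xS_meas K j)]
    have hac : (volume.withDensity fun z => ENNReal.ofReal (mad (K.ρ j) z)) t = 0 :=
      withDensity_absolutelyContinuous _ _ ht3
    refine measure_mono_null ?_ hac
    rintro z ⟨h1, h2⟩
    rcases h1 with h1 | h1
    · obtain ⟨w, hw, hw'⟩ := h1
      have : w = z := K.injOn j (xvol_b13 hw.2) (xS_sub K j h2) hw'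
      rw [← this]
      exact hw.1
    · exact absurd (mem_image_of_mem _ h2.1) h1

theorem KM.vol_ae_chart {p : X → Prop} (h : ∀ᵐ x ∂K.vol, p x) (i : Fin K.N) :
    ∀ᵐ z : Cn n, z ∈ ball (0 : Cn n) 3 → p (K.κ i z) := by
  obtain ⟨t, ht1, ht2, ht3⟩ := exists_measurable_superset_of_null (ae_iff.1 h)
  have h1 := K.vol_chart i (g := t.indicator fun _ => 1) (measurable_const.indicator ht2)
  have h2 : ∫⁻ x in K.κ i '' ball 0 3, t.indicator (fun _ => 1) x ∂K.vol = 0 := by
    refine le_antisymm ?_ bot_le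
    refine (setLIntegral_le_lintegral _ _).trans ?_
    rw [lintegral_indicator ht2, setLIntegral_one, ht3]
  rw [h2] at h1
  have hm : MeasurableSet (ball (0 : Cn n) 3 ∩ K.κ i ⁻¹' t) :=
    xvol_pre K i ht2 isOpen_ball subset_rfl
  have h3 : ∫⁻ z in ball (0 : Cn n) 3 ∩ K.κ i ⁻¹' t, ENNReal.ofReal (mad (K.ρ i) z) = 0 := by
    refine le_antisymm ?_ bot_le
    rw [h1]
    rw [← lintegral_indicator hm, ← lintegral_indicator measurableSet_ball]
    refine lintegral_mono fun z => ?_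
    by_cases hz : z ∈ ball (0 : Cn n) 3 ∩ K.κ i ⁻¹' t
    · rw [indicator_of_mem hz, indicator_of_mem hz.1,
        indicator_of_mem (show K.κ i z ∈ t from hz.2), one_mul]
    · rw [indicator_of_notMem hz]
      exact bot_le
  rw [lintegral_eq_zero_iff (xvol_dens K i)] at h3
  have h4 := (ae_restrict_iff' hm).1 h3
  filter_upwards [h4] with z hz hz3
  by_contra hp
  have h5 := hz ⟨hz3, ht1 hp⟩
  simp only [Pi.zero_apply, ENNReal.ofReal_eq_zero] at h5
  exact absurd (K.mad_ρ_pos i hz3).2.2 (not_lt.2 h5)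

/-- the restriction of the volume to a chart -/
theorem xvol_map (i : Fin K.N) : K.vol.restrict (K.κ i '' ball 0 3) =
    Measure.map (K.κ i) ((volume.restrict (ball (0 : Cn n) 3)).withDensity
      fun z => ENNReal.ofReal (mad (K.ρ i) z)) := by
  have ham : AEMeasurable (K.κ i) ((volume.restrict (ball (0 : Cn n) 3)).withDensity
      fun z => ENNReal.ofReal (mad (K.ρ i) z)) :=
    (xvol_aem K i measurableSet_ball subset_rfl _).mono_ac
      (withDensity_absolutelyContinuous _ _)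
  ext s hs
  rw [Measure.map_apply_of_aemeasurable ham hs, Measure.restrict_apply hs]
  have h1 := K.vol_chart i (g := s.indicator fun _ => 1) (measurable_const.indicator hs)
  have h2 : ∫⁻ x in K.κ i '' ball 0 3, s.indicator (fun _ => 1) x ∂K.vol =
      K.vol (s ∩ K.κ i '' ball 0 3) := by
    rw [setLIntegral_indicator hs, setLIntegral_one]
  rw [← h2, h1]
  have hm : MeasurableSet (ball (0 : Cn n) 3 ∩ K.κ i ⁻¹' s) :=
    xvol_pre K i hs isOpen_ball subset_rfl
  rw [← restrict_withDensity measurableSet_ball, Measure.restrict_apply' measurableSet_ball,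
    inter_comm, withDensity_apply _ hm, ← lintegral_indicator hm,
    ← lintegral_indicator measurableSet_ball]
  refine lintegral_congr fun z => ?_
  by_cases hz : z ∈ ball (0 : Cn n) 3
  · by_cases hz' : K.κ i z ∈ s
    · rw [indicator_of_mem hz, indicator_of_mem (show z ∈ ball (0 : Cn n) 3 ∩ _ from ⟨hz, hz'⟩),
        indicator_of_mem hz', one_mul]
    · rw [indicator_of_mem hz, indicator_of_notMem hz', zero_mul,
        indicator_of_notMem (show z ∉ ball (0 : Cn n) 3 ∩ K.κ i ⁻¹' s from fun h => hz' h.2)]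
  · rw [indicator_of_notMem hz,
      indicator_of_notMem (show z ∉ ball (0 : Cn n) 3 ∩ K.κ i ⁻¹' s from fun h => hz h.1)]

theorem KM.integral_chart (i : Fin K.N) {g : X → ℝ} (hg : Integrable g K.vol)
    (h0 : ∀ x, x ∉ K.κ i '' ball 0 3 → g x = 0) :
    IntegrableOn (fun z => g (K.κ i z) * mad (K.ρ i) z) (ball 0 3) ∧
      ∫ x, g x ∂K.vol = ∫ z in ball 0 3, g (K.κ i z) * mad (K.ρ i) z := by
  have ham : AEMeasurable (K.κ i) ((volume.restrict (ball (0 : Cn n) 3)).withDensity
      fun z => ENNReal.ofReal (mad (K.ρ i) z)) :=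
    (xvol_aem K i measurableSet_ball subset_rfl _).mono_ac
      (withDensity_absolutelyContinuous _ _)
  have h1 : Integrable g (Measure.map (K.κ i) ((volume.restrict (ball (0 : Cn n) 3)).withDensity
      fun z => ENNReal.ofReal (mad (K.ρ i) z))) := by
    rw [← xvol_map]
    exact hg.restrict
  have hfin : ∀ᵐ z ∂(volume.restrict (ball (0 : Cn n) 3)),
      ENNReal.ofReal (mad (K.ρ i) z) < ⊤ :=
    Filter.Eventually.of_forall fun z => ENNReal.ofReal_lt_top
  have hpt : EqOn (fun z => (ENNReal.ofReal (mad (K.ρ i) z)).toReal • g (K.κ i z))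
      (fun z => g (K.κ i z) * mad (K.ρ i) z) (ball 0 3) := by
    intro z hz
    simp only [smul_eq_mul]
    rw [ENNReal.toReal_ofReal (K.mad_ρ_pos i hz).2.2.le, mul_comm]
  constructor
  · have h2 := (integrable_map_measure h1.aestronglyMeasurable ham).1 h1
    rw [integrable_withDensity_iff_integrable_smul₀' (xvol_dens K i).aemeasurable hfin] at h2
    exact (integrableOn_congr_fun hpt measurableSet_ball).1 h2
  · rw [← setIntegral_eq_integral_of_forall_compl_eq_zero h0, xvol_map K i,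
      integral_map ham h1.aestronglyMeasurable,
      integral_withDensity_eq_integral_toReal_smul₀ (xvol_dens K i).aemeasurable hfin]
    exact setIntegral_congr_fun measurableSet_ball hpt

end HMA
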